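import Mathlib

set_option autoImplicit false

namespace Pool.Agent.Helper270.Aff

variable {K : Type} [Field K] {P : Type} [Group P]

/-- `lam` and `b` are the linear part and the translation part of a homomorphism to the affine
group of the line over `K`. -/
def IsCocycle (lam : P →* Kˣ) (b : P → K) : Prop := ∀ p q, b (p * q) = b p + (lam p : K) * b q

section Cocycle

variable {lam : P →* Kˣ} {b : P → K}

theorem IsCocycle.one (h : IsCocycle lam b) : b 1 = 0 := by
  have := h 1 1
  simp at this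
  exact this

theorem IsCocycle.inv (h : IsCocycle lam b) (p : P) : b p⁻¹ = -((lam p : K)⁻¹ * b p) := by
  have := h p p⁻¹
  rw [mul_inv_cancel, h.one] at this
  have hne : (lam p : K) ≠ 0 := (lam p).ne_zero
  field_simp
  linear_combination -this

theorem IsCocycle.conj (h : IsCocycle lam b) {p m : P} (hm : lam m = 1) :
    b (p * m * p⁻¹) = (lam p : K) * b m := by
  rw [h, h, h.inv, map_mul, hm, mul_one]
  have hne : (lam p : K) ≠ 0 := (lam p).ne_zero
  field_simp
  ring

theorem IsCocycle.mul_ker (h : IsCocycle lam b) {p m : P} (hp : lam p = 1) :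
    b (p * m) = b p + b m := by
  rw [h, hp]; simp

theorem IsCocycle.zpow_ker (h : IsCocycle lam b) {m : P} (hm : lam m = 1) (k : ℤ) :
    b (m ^ k) = k * b m := by
  induction k using Int.induction_on with
  | zero => simp [h.one]
  | succ k ih =>
    rw [zpow_add_one, h, ih, map_zpow, hm]
    push_cast; simp; ring
  | pred k ih =>
    rw [zpow_sub_one, h, ih, map_zpow, hm, h.inv, hm]
    push_cast; simp; ring

/-- A finitely generated subgroup of translations which is stable under conjugation by `q` forces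
the linear part of `q` to be integral. -/
theorem IsCocycle.integral (h : IsCocycle lam b) (N : Subgroup P) (hfg : N.FG)
    (hN : ∀ n ∈ N, lam n = 1) (q : P) (hq : ∀ n ∈ N, q * n * q⁻¹ ∈ N)
    (hb : ∃ n ∈ N, b n ≠ 0) : IsIntegral ℤ (lam q : K) := by
  classical
  obtain ⟨S, hS⟩ := hfg
  let B : Submodule ℤ K := Submodule.span ℤ (b '' (S : Set P))
  have hmem : ∀ n ∈ N, b n ∈ B := by
    intro n hn
    rw [← hS] at hn
    induction hn using Subgroup.closure_induction with
    | mem x hx => exact Submodule.subset_span ⟨x, hx, rfl⟩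
    | one => rw [h.one]; exact B.zero_mem
    | mul x y hx hy ihx ihy =>
      rw [hS] at hx
      rw [h.mul_ker (hN x hx)]
      exact B.add_mem ihx ihy
    | inv x hx ihx =>
      rw [hS] at hx
      rw [h.inv, hN x hx]
      simpa using ihx
  refine isIntegral_of_smul_mem_submodule (R := ℤ) (A := K) (M := K) B ?_ ?_ (lam q : K) ?_
  · obtain ⟨n, hn, hbn⟩ := hb
    intro hbot
    have := hmem n hn
    rw [hbot] at this
    exact hbn this
  · exact ⟨S.image b, by rw [Finset.coe_image]⟩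
  · intro x hx
    induction hx using Submodule.span_induction with
    | mem x hx =>
      obtain ⟨s, hs, rfl⟩ := hx
      have hsN : s ∈ N := by rw [← hS]; exact Subgroup.subset_closure hs
      rw [smul_eq_mul, ← h.conj (hN s hsN)]
      exact hmem _ (hq s hsN)
    | zero => simp
    | add x y _ _ hx hy => rw [smul_add]; exact B.add_mem hx hy
    | smul a x _ hx => rw [smul_comm]; exact B.smul_mem a hx

end Cocycle

section Functional

set_option linter.unusedSectionVars false

open Polynomial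

/-- Elements of the module generated by all `u ^ j * c s` (`s ∈ S`). -/
def Wmod (u : Kˣ) (S : Finset P) (b : P → K) : Submodule ℤ K :=
  Submodule.span ℤ {x | ∃ j : ℤ, ∃ s ∈ S, x = ((u ^ j : Kˣ) : K) * b s}

/-- The submodule `(u - 1) W`. -/
def Wmod' (u : Kˣ) (S : Finset P) (b : P → K) : Submodule ℤ K :=
  Submodule.span ℤ {x | ∃ j : ℤ, ∃ s ∈ S, x = ((u : K) - 1) * (((u ^ j : Kˣ) : K) * b s)}

theorem Wmod_smul (u : Kˣ) (S : Finset P) (b : P → K) (k : ℤ) {x : K} (hx : x ∈ Wmod u S b) :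
    ((u ^ k : Kˣ) : K) * x ∈ Wmod u S b := by
  induction hx using Submodule.span_induction with
  | mem x hx =>
    obtain ⟨j, s, hs, rfl⟩ := hx
    refine Submodule.subset_span ⟨k + j, s, hs, ?_⟩
    rw [zpow_add, Units.val_mul]; ring
  | zero => simp
  | add x y _ _ hx hy => rw [mul_add]; exact Submodule.add_mem _ hx hy
  | smul a x _ hx => rw [mul_smul_comm]; exact Submodule.smul_mem _ a hx

theorem Wmod'_mul (u : Kˣ) (S : Finset P) (b : P → K) {x : K} (hx : x ∈ Wmod u S b) :
    ((u : K) - 1) * x ∈ Wmod' u S b := by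
  induction hx using Submodule.span_induction with
  | mem x hx =>
    obtain ⟨j, s, hs, rfl⟩ := hx
    exact Submodule.subset_span ⟨j, s, hs, rfl⟩
  | zero => simp
  | add x y _ _ hx hy => rw [mul_add]; exact Submodule.add_mem _ hx hy
  | smul a x _ hx => rw [mul_smul_comm]; exact Submodule.smul_mem _ a hx

theorem Wmod'_sub (u : Kˣ) (S : Finset P) (b : P → K) (k : ℤ) {x : K} (hx : x ∈ Wmod u S b) :
    ((u ^ k : Kˣ) : K) * x - x ∈ Wmod' u S b := by
  induction k using Int.induction_on with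
  | zero => simp
  | succ k ih =>
    have h1 := Wmod'_mul u S b (Wmod_smul u S b k hx)
    have h2 := Submodule.add_mem _ ih h1
    have h3 : ((u ^ ((k : ℤ) + 1) : Kˣ) : K) * x - x =
        (((u ^ (k : ℤ) : Kˣ) : K) * x - x) + ((u : K) - 1) * (((u ^ (k : ℤ) : Kˣ) : K) * x) := by
      rw [zpow_add_one, Units.val_mul]; ring
    rw [h3]; exact h2
  | pred k ih =>
    have h1 := Wmod'_mul u S b (Wmod_smul u S b (-(k : ℤ) - 1) hx)
    have h2 := Submodule.sub_mem _ ih h1
    have h3 : ((u ^ (-(k : ℤ) - 1) : Kˣ) : K) * x - x =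
        (((u ^ (-(k : ℤ)) : Kˣ) : K) * x - x) -
          ((u : K) - 1) * (((u ^ (-(k : ℤ) - 1) : Kˣ) : K) * x) := by
      have h4 : (u ^ (-(k : ℤ)) : Kˣ) = u ^ (-(k : ℤ) - 1) * u := by
        rw [← zpow_add_one]; congr 1; ring
      rw [h4, Units.val_mul]; ring
    rw [h3]; exact h2

theorem Wmod'_repr (u : Kˣ) (S : Finset P) (b : P → K) {x : K} (hx : x ∈ Wmod' u S b) :
    ∃ (N : ℕ) (c : S → ℤ[X]),
      (u : K) ^ N * x = ((u : K) - 1) * ∑ t : S, aeval (u : K) (c t) * b t := by
  classical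
  induction hx using Submodule.span_induction with
  | mem x hx =>
    obtain ⟨j, s, hs, rfl⟩ := hx
    refine ⟨j.natAbs, fun t => if t = ⟨s, hs⟩ then X ^ (j + j.natAbs).toNat else 0, ?_⟩
    have h1 : (∑ t : S, aeval (u : K) (if t = ⟨s, hs⟩ then X ^ (j + j.natAbs).toNat else 0 : ℤ[X])
        * b t) = (u : K) ^ (j + j.natAbs).toNat * b s := by
      rw [Finset.sum_eq_single ⟨s, hs⟩]
      · simp
      · intro t _ ht; simp [ht]
      · intro h; exact absurd (Finset.mem_univ _) h
    rw [h1]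
    have h2 : ((u : K)) ^ (j + j.natAbs).toNat =
        ((u ^ (j.natAbs : ℤ) : Kˣ) : K) * ((u ^ j : Kˣ) : K) := by
      rw [← Units.val_mul, ← zpow_add, ← Units.val_pow_eq_pow_val, ← zpow_natCast]
      congr 2; omega
    rw [h2]
    simp only [zpow_natCast, Units.val_pow_eq_pow_val]
    ring
  | zero => exact ⟨0, 0, by simp⟩
  | add x y _ _ hx hy =>
    obtain ⟨N1, c1, h1⟩ := hx
    obtain ⟨N2, c2, h2⟩ := hy
    refine ⟨N1 + N2, fun t => X ^ N2 * c1 t + X ^ N1 * c2 t, ?_⟩
    have h3 : (∑ t : S, aeval (u : K) (X ^ N2 * c1 t + X ^ N1 * c2 t) * b t) =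
        (u : K) ^ N2 * (∑ t : S, aeval (u : K) (c1 t) * b t) +
        (u : K) ^ N1 * (∑ t : S, aeval (u : K) (c2 t) * b t) := by
      rw [Finset.mul_sum, Finset.mul_sum, ← Finset.sum_add_distrib]
      apply Finset.sum_congr rfl
      intro t _
      simp only [map_add, map_mul, map_pow, aeval_X]
      ring
    rw [h3, pow_add]
    linear_combination (u : K) ^ N2 * h1 + (u : K) ^ N1 * h2
  | smul a x _ hx =>
    obtain ⟨N, c, h1⟩ := hx
    refine ⟨N, fun t => (a : ℤ[X]) * c t, ?_⟩
    have h3 : (∑ t : S, aeval (u : K) ((a : ℤ[X]) * c t) * b t) =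
        (a : K) * (∑ t : S, aeval (u : K) (c t) * b t) := by
      rw [Finset.mul_sum]
      apply Finset.sum_congr rfl
      intro t _
      rw [map_mul, map_intCast, mul_assoc]
    rw [h3, zsmul_eq_mul]
    linear_combination (a : K) * h1

/-- Key step: not all generators can be torsion modulo `(u - 1) W`. -/
theorem not_all_torsion (u : Kˣ) (hu : Transcendental ℤ (u : K)) (S : Finset P) (b : P → K)
    (hb : ∃ s ∈ S, b s ≠ 0)
    (htor : ∀ s ∈ S, ∃ n : ℤ, n ≠ 0 ∧ (n : K) * b s ∈ Wmod' u S b) : False := by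
  classical
  choose! n hn hnW using htor
  have hrep : ∀ s : S, ∃ (N : ℕ) (c : S → ℤ[X]),
      (u : K) ^ N * ((n s : K) * b s) = ((u : K) - 1) * ∑ t : S, aeval (u : K) (c t) * b t :=
    fun s => Wmod'_repr u S b (hnW s s.2)
  choose N c hc using hrep
  let A : Matrix S S ℤ[X] := Matrix.of fun s t =>
    (if s = t then C (n s) * X ^ (N s) else 0) - (X - 1) * c s t
  have hA : (A.map (aeval (u : K))).mulVec (fun t : S => b t) = 0 := by
    ext s
    have h0 : ∀ t : S, (A.map (aeval (u : K))) s t * b t =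
        aeval (u : K) (if s = t then C (n s) * X ^ (N s) else 0 : ℤ[X]) * b t -
          aeval (u : K) ((X - 1) * c s t) * b t := by
      intro t
      have h1 : A s t = (if s = t then C (n s) * X ^ (N s) else 0) - (X - 1) * c s t := rfl
      rw [Matrix.map_apply, h1, map_sub, sub_mul]
    simp only [Matrix.mulVec, dotProduct, Pi.zero_apply, h0, Finset.sum_sub_distrib]
    have h1 : (∑ t : S, aeval (u : K) (if s = t then C (n s) * X ^ (N s) else 0 : ℤ[X]) * b t) =
        (u : K) ^ (N s) * ((n s : K) * b s) := by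
      rw [Finset.sum_eq_single s]
      · simp; ring
      · intro t _ ht; simp [ht.symm]
      · intro h; exact absurd (Finset.mem_univ _) h
    have h2 : (∑ t : S, aeval (u : K) ((X - 1) * c s t) * b t) =
        ((u : K) - 1) * ∑ t : S, aeval (u : K) (c s t) * b t := by
      rw [Finset.mul_sum]
      apply Finset.sum_congr rfl
      intro t _
      simp only [map_mul, map_sub, aeval_X, map_one]
      ring
    rw [h1, h2, hc s, sub_self]
  have hdet : (A.map (aeval (u : K))).det = 0 := by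
    rw [← Matrix.exists_mulVec_eq_zero_iff]
    refine ⟨_, ?_, hA⟩
    obtain ⟨s, hs, hbs⟩ := hb
    intro h0
    exact hbs (congrFun h0 ⟨s, hs⟩)
  have hdet2 : aeval (u : K) A.det = 0 := by
    rw [AlgHom.map_det]; exact hdet
  have hdet3 : A.det = 0 := (transcendental_iff.mp hu) _ hdet2
  have hdet4 : (evalRingHom (1 : ℤ)) A.det = 0 := by rw [hdet3]; simp
  rw [RingHom.map_det] at hdet4
  have hdiag : (evalRingHom (1 : ℤ)).mapMatrix A = Matrix.diagonal (fun s : S => n s) := by
    ext s t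
    simp only [RingHom.mapMatrix_apply, Matrix.map_apply, A, Matrix.of_apply, Matrix.diagonal_apply]
    by_cases hst : s = t
    · simp [hst]
    · simp [hst]
  rw [hdiag, Matrix.det_diagonal] at hdet4
  rw [Finset.prod_eq_zero_iff] at hdet4
  obtain ⟨s, _, hs⟩ := hdet4
  exact hn s s.2 hs

/-- There is a nonzero functional on `W` which is invariant under multiplication by `u`. -/
theorem exists_functional (u : Kˣ) (hu : Transcendental ℤ (u : K)) (S : Finset P) (b : P → K)
    (hb : ∃ s ∈ S, b s ≠ 0) :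
    ∃ f : Wmod u S b →ₗ[ℤ] ℤ,
      (∀ (k : ℤ) (x : K) (hx : x ∈ Wmod u S b),
        f ⟨((u ^ k : Kˣ) : K) * x, Wmod_smul u S b k hx⟩ = f ⟨x, hx⟩) ∧
      ∃ (s : P) (hs : b s ∈ Wmod u S b), s ∈ S ∧ f ⟨b s, hs⟩ ≠ 0 := by
  classical
  set W := Wmod u S b with hW
  let D : Submodule ℤ W := (Wmod' u S b).comap W.subtype
  have hbW : ∀ s ∈ S, b s ∈ W := fun s hs => Submodule.subset_span ⟨0, s, hs, by simp⟩
  have hfin : Module.Finite ℤ (W ⧸ D) := by
    refine ⟨⟨S.attach.image (fun s : {x // x ∈ S} => D.mkQ ⟨b s.1, hbW s.1 s.2⟩), ?_⟩⟩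
    rw [eq_top_iff]
    intro q hq
    clear hq
    obtain ⟨w, rfl⟩ := D.mkQ_surjective q
    obtain ⟨w, hw⟩ := w
    have hmain : ∀ x (hx : x ∈ W), D.mkQ ⟨x, hx⟩ ∈
        Submodule.span ℤ ((S.attach.image (fun s : {x // x ∈ S} => D.mkQ ⟨b s.1, hbW s.1 s.2⟩) :
          Finset (W ⧸ D)) : Set (W ⧸ D)) := by
      intro x hx
      induction hx using Submodule.span_induction with
      | mem x hx' =>
        obtain ⟨j, s, hs, rfl⟩ := hx'
        have h1 : D.mkQ ⟨((u ^ j : Kˣ) : K) * b s, Submodule.subset_span ⟨j, s, hs, rfl⟩⟩ =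
            D.mkQ ⟨b s, hbW s hs⟩ := by
          rw [← sub_eq_zero, ← map_sub, Submodule.mkQ_apply, Submodule.Quotient.mk_eq_zero]
          exact Wmod'_sub u S b j (hbW s hs)
        rw [h1]
        apply Submodule.subset_span
        rw [Finset.mem_coe, Finset.mem_image]
        exact ⟨⟨s, hs⟩, Finset.mem_attach _ _, rfl⟩
      | zero =>
        have : D.mkQ ⟨0, W.zero_mem⟩ = 0 := map_zero D.mkQ
        rw [this]; exact Submodule.zero_mem _
      | add x y hx hy ihx ihy =>
        have : D.mkQ ⟨x + y, W.add_mem hx hy⟩ = D.mkQ ⟨x, hx⟩ + D.mkQ ⟨y, hy⟩ :=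
          map_add D.mkQ ⟨x, hx⟩ ⟨y, hy⟩
        rw [this]; exact Submodule.add_mem _ ihx ihy
      | smul a x hx ihx =>
        have : D.mkQ ⟨a • x, W.smul_mem a hx⟩ = a • D.mkQ ⟨x, hx⟩ :=
          map_smul D.mkQ a ⟨x, hx⟩
        rw [this]; exact Submodule.smul_mem _ a ihx
    exact hmain w hw
  -- some generator is not torsion
  have hex : ∃ s, ∃ hs : s ∈ S, D.mkQ ⟨b s, hbW s hs⟩ ∉ Submodule.torsion ℤ (W ⧸ D) := by
    by_contra hcon
    push Not at hcon
    apply not_all_torsion u hu S b hb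
    intro s hs
    have h1 := hcon s hs
    rw [Submodule.mem_torsion_iff] at h1
    obtain ⟨a, ha⟩ := h1
    refine ⟨a, nonZeroDivisors.coe_ne_zero a, ?_⟩
    have h2 : D.mkQ ((a : ℤ) • (⟨b s, hbW s hs⟩ : W)) = 0 := by
      rw [map_smul]; exact ha
    rw [Submodule.mkQ_apply, Submodule.Quotient.mk_eq_zero] at h2
    have h3 : ((a : ℤ) • (⟨b s, hbW s hs⟩ : W) : W).1 ∈ Wmod' u S b := h2
    rw [Submodule.coe_smul, zsmul_eq_mul] at h3
    exact h3
  obtain ⟨s, hs, hns⟩ := hex
  have h1 : (Submodule.torsion ℤ (W ⧸ D)).mkQ (D.mkQ ⟨b s, hbW s hs⟩) ≠ 0 := by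
    intro h0
    rw [Submodule.mkQ_apply, Submodule.Quotient.mk_eq_zero] at h0
    exact hns h0
  have h2 := (Module.forall_dual_apply_eq_zero_iff ℤ
    ((Submodule.torsion ℤ (W ⧸ D)).mkQ (D.mkQ ⟨b s, hbW s hs⟩))).not.mpr h1
  push Not at h2
  obtain ⟨φ, hφ⟩ := h2
  refine ⟨(φ.comp (Submodule.torsion ℤ (W ⧸ D)).mkQ).comp D.mkQ, ?_, s, hbW s hs, hs, hφ⟩
  intro k x hx
  simp only [LinearMap.comp_apply]
  congr 2
  rw [← sub_eq_zero, ← map_sub, Submodule.mkQ_apply, Submodule.Quotient.mk_eq_zero]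
  exact Wmod'_sub u S b k hx

/-- A nontrivial homomorphism to `ℤ` which kills `v`. -/
theorem exists_character {lam : P →* Kˣ} {b : P → K} (h : IsCocycle lam b) (hfg : Group.FG P)
    (v : P) (hv : b v = 0) (hcyc : ∀ p, ∃ k : ℤ, lam p = lam v ^ k)
    (hu : Transcendental ℤ (lam v : K)) (hb : ∃ p, b p ≠ 0) :
    ∃ χ : P →* Multiplicative ℤ, χ v = 1 ∧ χ ≠ 1 := by
  classical
  obtain ⟨S, hS⟩ := Group.fg_def.mp hfg
  have hmem : ∀ p, b p ∈ Wmod (lam v) S b := by
    intro p
    have hp : p ∈ Subgroup.closure (S : Set P) := by rw [hS]; trivial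
    induction hp using Subgroup.closure_induction with
    | mem x hx => exact Submodule.subset_span ⟨0, x, hx, by simp⟩
    | one => rw [h.one]; exact Submodule.zero_mem _
    | mul x y _ _ ihx ihy =>
      rw [h]
      obtain ⟨k, hk⟩ := hcyc x
      rw [hk]
      exact Submodule.add_mem _ ihx (Wmod_smul _ _ _ k ihy)
    | inv x _ ihx =>
      rw [h.inv]
      obtain ⟨k, hk⟩ := hcyc x
      have : ((lam x : K))⁻¹ = ((lam v ^ (-k) : Kˣ) : K) := by
        rw [zpow_neg, ← hk, Units.val_inv_eq_inv_val]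
      rw [this]
      exact Submodule.neg_mem _ (Wmod_smul _ _ _ _ ihx)
  have hbS : ∃ s ∈ S, b s ≠ 0 := by
    by_contra hcon
    push Not at hcon
    obtain ⟨p, hp⟩ := hb
    apply hp
    have h1 := hmem p
    have h2 : Wmod (lam v) S b ≤ ⊥ := by
      apply Submodule.span_le.mpr
      rintro x ⟨j, s, hs, rfl⟩
      simp [hcon s hs]
    exact h2 h1
  obtain ⟨f, hf1, s, hs, hsS, hf2⟩ := exists_functional (lam v) hu S b hbS
  have hadd : ∀ p q, f ⟨b (p * q), hmem _⟩ = f ⟨b p, hmem _⟩ + f ⟨b q, hmem _⟩ := by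
    intro p q
    obtain ⟨k, hk⟩ := hcyc p
    rw [← hf1 k (b q) (hmem q), ← map_add]
    congr 1
    apply Subtype.ext
    change b (p * q) = b p + ((lam v ^ k : Kˣ) : K) * b q
    rw [h, hk]
  refine ⟨MonoidHom.mk' (fun p => Multiplicative.ofAdd (f ⟨b p, hmem p⟩)) ?_, ?_, ?_⟩
  · intro p q
    rw [hadd p q, ofAdd_add]
  · simp only [MonoidHom.mk'_apply]
    have : (⟨b v, hmem v⟩ : Wmod (lam v) S b) = 0 := Subtype.ext hv
    rw [this, map_zero]; rfl
  · intro h0
    apply hf2
    have := DFunLike.congr_fun h0 s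
    exact this

end Functional

section Kernel

/-- The kernel of a character killing `v` is finitely generated, if the group is generated by `v`
modulo an abelian normal subgroup `M`. -/
theorem fg_ker (hfg : Group.FG P) (M : Subgroup P) (hnorm : M.Normal)
    (hab : ∀ m ∈ M, ∀ m' ∈ M, m * m' = m' * m) (v : P) (hv : ∀ p, ∃ k : ℤ, p * v ^ (-k) ∈ M)
    (χ : P →* Multiplicative ℤ) (hχv : χ v = 1) (hχ : χ ≠ 1) : χ.ker.FG := by
  classical
  obtain ⟨S, hS⟩ := Group.fg_def.mp hfg
  obtain ⟨⟨z, p0, hp0⟩, hz⟩ := IsCyclic.exists_generator (α := χ.range)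
  have hz' : ∀ p, ∃ e : ℤ, χ p = z ^ e := by
    intro p
    obtain ⟨e, he⟩ := hz ⟨χ p, p, rfl⟩
    exact ⟨e, (congrArg Subtype.val he).symm⟩
  obtain ⟨k0, hk0⟩ := hv p0
  set m0 := p0 * v ^ (-k0) with hm0
  have hχm0 : χ m0 = z := by
    rw [hm0, map_mul, map_zpow, hχv, one_zpow, mul_one, hp0]
  have hz1 : z ≠ 1 := by
    intro h1
    apply hχ
    ext p
    obtain ⟨e, he⟩ := hz' p
    rw [he, h1, one_zpow]; rfl
  choose k hk using hv
  choose e he using hz'
  let n : P → P := fun s => s * v ^ (-(k s)) * m0 ^ (-(e s))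
  have hnM : ∀ s, n s ∈ M := fun s => M.mul_mem (hk s) (M.zpow_mem hk0 _)
  have hχn : ∀ s, χ (n s) = 1 := by
    intro s
    simp only [n, map_mul, map_zpow, hχv, one_zpow, mul_one, hχm0, he s]
    rw [← zpow_add, add_neg_cancel, zpow_zero]
  let v1 : P := m0 * v * m0⁻¹
  let G0 : Set P := {v, v1} ∪ n '' (S : Set P)
  let K0 : Subgroup P := Subgroup.closure G0
  have hvK : v ∈ K0 := Subgroup.subset_closure (Or.inl (Or.inl rfl))
  have hv1K : v1 ∈ K0 := Subgroup.subset_closure (Or.inl (Or.inr rfl))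
  have hnK : ∀ s ∈ S, n s ∈ K0 := fun s hs => Subgroup.subset_closure (Or.inr ⟨s, hs, rfl⟩)
  let c : P := v1 * v⁻¹
  have hcK : c ∈ K0 := K0.mul_mem hv1K (K0.inv_mem hvK)
  have hcM : c ∈ M := by
    have h1 := hnorm.conj_mem m0⁻¹ (M.inv_mem hk0) v
    have h2 : c = m0 * (v * m0⁻¹ * v⁻¹) := by simp only [c, v1]; group
    rw [h2]; exact M.mul_mem hk0 h1
  have hcm0 : c * m0 = m0 * c := hab c hcM m0 hk0
  have hv1 : v1 = c * v := by simp only [c]; group
  have hconj1 : ∀ x ∈ K0, m0 * x * m0⁻¹ ∈ K0 := by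
    intro x hx
    induction hx using Subgroup.closure_induction with
    | mem x hx =>
      rcases hx with (rfl | hx) | ⟨s, hs, rfl⟩
      · exact hv1K
      · have hx' : x = v1 := hx
        rw [hx', hv1]
        have : m0 * (c * v) * m0⁻¹ = c * v1 := by
          calc m0 * (c * v) * m0⁻¹ = (m0 * c) * v * m0⁻¹ := by group
            _ = (c * m0) * v * m0⁻¹ := by rw [hcm0]
            _ = c * v1 := by simp only [v1]; group
        rw [this]
        exact K0.mul_mem hcK hv1K
      · have : m0 * n s * m0⁻¹ = n s := by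
          rw [hab m0 hk0 (n s) (hnM s)]; group
        rw [this]
        exact hnK s hs
    | one => simp
    | mul x y _ _ hx hy =>
      have : m0 * (x * y) * m0⁻¹ = (m0 * x * m0⁻¹) * (m0 * y * m0⁻¹) := by group
      rw [this]; exact K0.mul_mem hx hy
    | inv x _ hx =>
      have : m0 * x⁻¹ * m0⁻¹ = (m0 * x * m0⁻¹)⁻¹ := by group
      rw [this]; exact K0.inv_mem hx
  have hconj2 : ∀ x ∈ K0, m0⁻¹ * x * m0 ∈ K0 := by
    intro x hx
    induction hx using Subgroup.closure_induction with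
    | mem x hx =>
      rcases hx with (rfl | hx) | ⟨s, hs, rfl⟩
      · have h1 : m0⁻¹ * x * m0 = c⁻¹ * x := by
          have h2 : c⁻¹ * m0⁻¹ = m0⁻¹ * c⁻¹ := by
            rw [← mul_inv_rev, ← mul_inv_rev, hcm0]
          have h3 : x = c⁻¹ * v1 := by simp only [c]; group
          calc m0⁻¹ * x * m0 = m0⁻¹ * (c⁻¹ * v1) * m0 := by rw [← h3]
            _ = (m0⁻¹ * c⁻¹) * v1 * m0 := by group
            _ = (c⁻¹ * m0⁻¹) * v1 * m0 := by rw [h2]
            _ = c⁻¹ * x := by simp only [v1]; group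
        rw [h1]
        exact K0.mul_mem (K0.inv_mem hcK) hvK
      · have hx' : x = v1 := hx
        have : m0⁻¹ * x * m0 = v := by rw [hx']; simp only [v1]; group
        rw [this]; exact hvK
      · have : m0⁻¹ * n s * m0 = n s := by
          rw [hab m0⁻¹ (M.inv_mem hk0) (n s) (hnM s)]; group
        rw [this]
        exact hnK s hs
    | one => simp
    | mul x y _ _ hx hy =>
      have : m0⁻¹ * (x * y) * m0 = (m0⁻¹ * x * m0) * (m0⁻¹ * y * m0) := by group
      rw [this]; exact K0.mul_mem hx hy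
    | inv x _ hx =>
      have : m0⁻¹ * x⁻¹ * m0 = (m0⁻¹ * x * m0)⁻¹ := by group
      rw [this]; exact K0.inv_mem hx
  have hsup : K0 ⊔ Subgroup.zpowers m0 = ⊤ := by
    rw [← top_le_iff, ← hS, Subgroup.closure_le]
    intro s hs
    have h1 : s = n s * m0 ^ (e s) * v ^ (k s) := by simp only [n]; group
    change s ∈ K0 ⊔ Subgroup.zpowers m0
    rw [h1]
    refine Subgroup.mul_mem _ (Subgroup.mul_mem _ (Subgroup.mem_sup_left (hnK s hs)) ?_)
      (Subgroup.mem_sup_left (K0.zpow_mem hvK _))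
    exact Subgroup.mem_sup_right ⟨e s, rfl⟩
  have hnormal : K0.Normal := by
    rw [← Subgroup.normalizer_eq_top_iff, ← top_le_iff, ← hsup, sup_le_iff]
    refine ⟨Subgroup.le_normalizer, ?_⟩
    rw [Subgroup.zpowers_le, Subgroup.mem_normalizer_iff]
    intro x
    refine ⟨hconj1 x, fun hx => ?_⟩
    have := hconj2 _ hx
    have h2 : m0⁻¹ * (m0 * x * m0⁻¹) * m0 = x := by group
    rwa [h2] at this
  have hle : K0 ≤ χ.ker := by
    rw [Subgroup.closure_le]
    rintro x ((rfl | hx) | ⟨s, _, rfl⟩)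
    · exact hχv
    · have hx' : x = v1 := hx
      rw [hx']
      change χ v1 = 1
      simp only [v1, map_mul, map_inv, hχv, mul_one, mul_inv_cancel]
    · exact hχn s
  have hK0 : χ.ker = K0 := by
    apply le_antisymm _ hle
    intro p hp
    have hp' : p ∈ K0 ⊔ Subgroup.zpowers m0 := by rw [hsup]; trivial
    rw [Subgroup.mem_sup_of_normal_left] at hp'
    obtain ⟨x, hx, y, ⟨j, hj⟩, rfl⟩ := hp'
    have h1 : χ x = 1 := hle hx
    have h2 : χ (x * y) = 1 := hp
    have h3 : χ y = z ^ j := by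
      rw [← hj]; change χ (m0 ^ j) = z ^ j
      rw [map_zpow, hχm0]
    rw [map_mul, h1, one_mul, h3] at h2
    have h4 : j * z.toAdd = 0 := by
      have := congrArg Multiplicative.toAdd h2
      rwa [toAdd_zpow, toAdd_one, smul_eq_mul] at this
    have h5 : z.toAdd ≠ 0 := fun h => hz1 (Multiplicative.toAdd.injective h)
    have h6 : j = 0 := by
      rcases mul_eq_zero.mp h4 with h | h
      · exact h
      · exact absurd h h5
    have h7 : y = 1 := by rw [← hj, h6]; exact zpow_zero _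
    rw [h7, mul_one]
    exact hx
  rw [hK0]
  exact (Subgroup.fg_iff _).mpr ⟨G0, rfl, (Set.toFinite {v, v1}).union (S.finite_toSet.image n)⟩

end Kernel

end Pool.Agent.Helper270.Aff
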