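import Mathlib

set_option autoImplicit false

namespace Pool.Agent.Helper270.Tree

open SimpleGraph

section Metric

variable {V : Type} {T : SimpleGraph V}

theorem parent_unique (hT : T.IsTree) {z u u' v : V} (h : T.Adj u v) (h' : T.Adj u' v)
    (hd : T.dist z v = T.dist z u + 1) (hd' : T.dist z v = T.dist z u' + 1) : u = u' := by
  obtain ⟨p, hp⟩ := hT.connected.exists_walk_length_eq_dist z u
  obtain ⟨q, hq⟩ := hT.connected.exists_walk_length_eq_dist z u'
  have h1 : (p.concat h).IsPath := by
    apply Walk.isPath_of_length_eq_dist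
    rw [Walk.length_concat, hp, hd]
  have h2 : (q.concat h').IsPath := by
    apply Walk.isPath_of_length_eq_dist
    rw [Walk.length_concat, hq, hd']
  have h3 := (hT.existsUnique_path z v).unique h1 h2
  have h4 : (p.concat h).penultimate = (q.concat h').penultimate := by rw [h3]
  simpa using h4

theorem junction (hT : T.IsTree) {z u v w : V} (h : T.Adj u v) (h' : T.Adj v w) (huw : u ≠ w)
    (hd : T.dist z v = T.dist z u + 1) : T.dist z w = T.dist z v + 1 := by
  rcases hT.dist_eq_dist_add_one_of_adj z h' with h1 | h1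
  · exact absurd (parent_unique hT h h'.symm hd h1) huw
  · exact h1

theorem nb (hT : T.IsTree) (w : ℕ → V) (n : ℕ) (hadj : ∀ i < n, T.Adj (w i) (w (i + 1)))
    (hnb : ∀ i, i + 2 ≤ n → w i ≠ w (i + 2)) (z : V)
    (h0 : 1 ≤ n → T.dist z (w 1) = T.dist z (w 0) + 1) :
    ∀ i ≤ n, T.dist z (w i) = T.dist z (w 0) + i := by
  have key : ∀ i, i + 1 ≤ n → T.dist z (w i) = T.dist z (w 0) + i ∧
      T.dist z (w (i + 1)) = T.dist z (w 0) + (i + 1) := by
    intro i
    induction i with
    | zero => intro hi; exact ⟨rfl, h0 hi⟩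
    | succ i ih =>
      intro hi
      obtain ⟨h1, h2⟩ := ih (by omega)
      refine ⟨h2, ?_⟩
      have h3 := junction hT (hadj i (by omega)) (hadj (i + 1) (by omega)) (hnb i (by omega))
        (z := z) (by omega)
      rw [h3]; omega
  intro i hi
  rcases Nat.eq_zero_or_pos n with hn | hn
  · have : i = 0 := by omega
    subst this; rfl
  · rcases Nat.lt_or_ge i n with h | h
    · exact (key i (by omega)).1
    · have hin : i = n := by omega
      have := (key (n - 1) (by omega)).2
      rw [hin]
      rw [show n - 1 + 1 = n from by omega] at this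
      exact this

theorem nb' (hT : T.IsTree) (w : ℕ → V) (n : ℕ) (hadj : ∀ i < n, T.Adj (w i) (w (i + 1)))
    (hnb : ∀ i, i + 2 ≤ n → w i ≠ w (i + 2)) : ∀ i ≤ n, T.dist (w 0) (w i) = i := by
  intro i hi
  have := nb hT w n hadj hnb (w 0) (by
    intro h
    rw [dist_self, dist_eq_one_iff_adj.mpr (hadj 0 (by omega))]) i hi
  rw [this, dist_self, zero_add]

theorem exists_geod (hT : T.IsTree) (x y : V) : ∃ q : ℕ → V, q 0 = x ∧ q (T.dist x y) = y ∧
    (∀ i < T.dist x y, T.Adj (q i) (q (i + 1))) ∧
    (∀ i ≤ T.dist x y, T.dist x (q i) = i ∧ T.dist (q i) y = T.dist x y - i) ∧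
    (∀ i, i + 2 ≤ T.dist x y → q i ≠ q (i + 2)) := by
  obtain ⟨p, hp⟩ := hT.connected.exists_walk_length_eq_dist x y
  have hd : ∀ i ≤ T.dist x y,
      T.dist x (p.getVert i) = i ∧ T.dist (p.getVert i) y = T.dist x y - i := by
    intro i hi
    have h1 : T.dist x (p.getVert i) ≤ i := by
      have := dist_le (p.take i)
      rw [Walk.take_length] at this
      omega
    have h2 : T.dist (p.getVert i) y ≤ T.dist x y - i := by
      have := dist_le (p.drop i)
      rw [Walk.drop_length] at this
      omega
    have h3 : T.dist x y ≤ T.dist x (p.getVert i) + T.dist (p.getVert i) y :=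
      hT.connected.dist_triangle
    omega
  refine ⟨p.getVert, by simp, by rw [← hp]; simp, ?_, hd, ?_⟩
  · intro i hi
    exact p.adj_getVert_succ (by omega)
  · intro i hi h
    have h1 := (hd i (by omega)).1
    have h2 := (hd (i + 2) (by omega)).1
    rw [h] at h1
    omega

/-- The point on a geodesic at a given distance is unique. -/
theorem geod_unique (hT : T.IsTree) {x y z z' : V} (h : T.dist x z + T.dist z y = T.dist x y)
    (h' : T.dist x z' + T.dist z' y = T.dist x y) (hz : T.dist x z = T.dist x z') : z = z' := by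
  obtain ⟨p, hp⟩ := hT.connected.exists_walk_length_eq_dist x z
  obtain ⟨q, hq⟩ := hT.connected.exists_walk_length_eq_dist z y
  obtain ⟨p', hp'⟩ := hT.connected.exists_walk_length_eq_dist x z'
  obtain ⟨q', hq'⟩ := hT.connected.exists_walk_length_eq_dist z' y
  have h1 : (p.append q).IsPath := by
    apply Walk.isPath_of_length_eq_dist
    rw [Walk.length_append, hp, hq, h]
  have h2 : (p'.append q').IsPath := by
    apply Walk.isPath_of_length_eq_dist
    rw [Walk.length_append, hp', hq', h']
  have h3 := (hT.existsUnique_path x y).unique h1 h2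
  have h4 : (p.append q).getVert p.length = z := by
    rw [Walk.getVert_append]; simp
  have h5 : (p'.append q').getVert p'.length = z' := by
    rw [Walk.getVert_append]; simp
  rw [← h4, ← h5, h3, hp, hp', hz]

/-- A bi-infinite geodesic line, as a non-backtracking map from the integers. -/
structure IsLine (T : SimpleGraph V) (L : ℤ → V) : Prop where
  adj : ∀ i, T.Adj (L i) (L (i + 1))
  nb : ∀ i, L i ≠ L (i + 2)

theorem IsLine.reverse {L : ℤ → V} (h : IsLine T L) : IsLine T (fun i => L (-i)) where
  adj i := by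
    have := (h.adj (-(i + 1))).symm
    rw [show -(i + 1) + 1 = -i from by ring] at this
    exact this
  nb i := by
    have := (h.nb (-(i + 2))).symm
    rw [show -(i + 2) + 2 = -i from by ring] at this
    exact this

theorem IsLine.shift {L : ℤ → V} (h : IsLine T L) (c : ℤ) : IsLine T (fun i => L (i + c)) where
  adj i := by
    have := h.adj (i + c)
    rw [show i + c + 1 = i + 1 + c from by ring] at this
    exact this
  nb i := by
    have := h.nb (i + c)
    rw [show i + c + 2 = i + 2 + c from by ring] at this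
    exact this

theorem IsLine.dist_nat (hT : T.IsTree) {L : ℤ → V} (h : IsLine T L) (i : ℤ) (n : ℕ) :
    T.dist (L i) (L (i + n)) = n := by
  have := nb' hT (fun k : ℕ => L (i + k)) n (by
      intro k _
      have := h.adj (i + k)
      rw [show i + k + 1 = i + ((k + 1 : ℕ) : ℤ) from by push_cast; ring] at this
      exact this) (by
      intro k _
      have := h.nb (i + k)
      rw [show i + k + 2 = i + ((k + 2 : ℕ) : ℤ) from by push_cast; ring] at this
      exact this) n le_rfl
  simpa using this

theorem IsLine.dist (hT : T.IsTree) {L : ℤ → V} (h : IsLine T L) (i j : ℤ) :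
    T.dist (L i) (L j) = (i - j).natAbs := by
  rcases le_total i j with hij | hij
  · have := h.dist_nat hT i (j - i).toNat
    rw [show i + ((j - i).toNat : ℤ) = j from by omega] at this
    rw [this]; omega
  · have := h.dist_nat hT j (i - j).toNat
    rw [show j + ((i - j).toNat : ℤ) = i from by omega] at this
    rw [dist_comm, this]; omega

theorem IsLine.injective (hT : T.IsTree) {L : ℤ → V} (h : IsLine T L) :
    Function.Injective L := by
  intro i j hij
  have h1 := h.dist hT i j
  rw [hij, dist_self] at h1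
  omega

/-- Moving away from `z` along a line continues forever. -/
theorem IsLine.away (hT : T.IsTree) {L : ℤ → V} (h : IsLine T L) (z : V) (i : ℤ)
    (h0 : T.dist z (L (i + 1)) = T.dist z (L i) + 1) (n : ℕ) :
    T.dist z (L (i + n)) = T.dist z (L i) + n := by
  have := Tree.nb hT (fun k : ℕ => L (i + k)) n (by
      intro k _
      have := h.adj (i + k)
      rw [show i + k + 1 = i + ((k + 1 : ℕ) : ℤ) from by push_cast; ring] at this
      exact this) (by
      intro k _
      have := h.nb (i + k)
      rw [show i + k + 2 = i + ((k + 2 : ℕ) : ℤ) from by push_cast; ring] at this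
      exact this) z (by
      intro _
      simpa using h0) n le_rfl
  simpa using this

/-- Nearest point projection to a line. -/
theorem IsLine.exists_proj (hT : T.IsTree) {L : ℤ → V} (h : IsLine T L) (z : V) :
    ∃ i, ∀ j, T.dist z (L j) = T.dist z (L i) + (j - i).natAbs := by
  classical
  have hex : ∃ n, ∃ i, T.dist z (L i) = n := ⟨_, 0, rfl⟩
  obtain ⟨i, hi⟩ := Nat.find_spec hex
  have hmin : ∀ j, T.dist z (L i) ≤ T.dist z (L j) := by
    intro j
    rw [hi]
    exact Nat.find_min' hex ⟨j, rfl⟩
  have hp : T.dist z (L (i + 1)) = T.dist z (L i) + 1 := by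
    rcases hT.dist_eq_dist_add_one_of_adj z (h.adj i) with h1 | h1
    · have := hmin (i + 1); omega
    · exact h1
  have hm : T.dist z (L (i - 1)) = T.dist z (L i) + 1 := by
    have hadj := h.adj (i - 1)
    rw [show i - 1 + 1 = i from by ring] at hadj
    rcases hT.dist_eq_dist_add_one_of_adj z hadj with h1 | h1
    · exact h1
    · have := hmin (i - 1); omega
  refine ⟨i, fun j => ?_⟩
  rcases le_total i j with hij | hij
  · have := h.away hT z i hp (j - i).toNat
    rw [show i + ((j - i).toNat : ℤ) = j from by omega] at this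
    rw [this]; omega
  · have h1 : T.dist z ((fun k => L (-k)) (-i + 1)) = T.dist z ((fun k => L (-k)) (-i)) + 1 := by
      change T.dist z (L (-(-i + 1))) = T.dist z (L (- -i)) + 1
      rw [show -(-i + 1) = i - 1 from by ring, neg_neg]
      exact hm
    have := h.reverse.away hT z (-i) h1 (i - j).toNat
    change T.dist z (L (-(-i + _))) = T.dist z (L (- -i)) + _ at this
    rw [show -(-i + ((i - j).toNat : ℤ)) = j from by omega, neg_neg] at this
    rw [this]; omega

end Metric

section Sigma

/-- A nearest neighbour injection of the integers is a translation or a reflection. -/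
theorem sigma_lin (f : ℤ → ℤ) (h1 : ∀ i, (f (i + 1) - f i).natAbs = 1)
    (h2 : ∀ i, f (i + 2) ≠ f i) :
    (∀ i, f (i + 1) = f i + 1) ∨ (∀ i, f (i + 1) = f i - 1) := by
  have step : ∀ i, f (i + 2) - f (i + 1) = f (i + 1) - f i := by
    intro i
    have a := h1 i
    have b := h1 (i + 1)
    rw [show i + 1 + 1 = i + 2 from by ring] at b
    have c := h2 i
    omega
  have const : ∀ i, f (i + 1) - f i = f 1 - f 0 := by
    intro i
    induction i using Int.induction_on with
    | zero => simp
    | succ i ih =>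
      have := step i
      rw [show (i : ℤ) + 1 + 1 = i + 2 from by ring]
      omega
    | pred i ih =>
      have := step (-(i : ℤ) - 1)
      rw [show -(i : ℤ) - 1 + 2 = -i + 1 from by ring,
        show -(i : ℤ) - 1 + 1 = -i from by ring] at this
      rw [show -(i : ℤ) - 1 + 1 = -i from by ring]
      omega
  have a := h1 0
  rw [zero_add] at a
  rcases Int.natAbs_eq_iff.mp a with h | h
  · left; intro i; have := const i; push_cast at h; omega
  · right; intro i; have := const i; push_cast at h; omega

theorem sigma_add (f : ℤ → ℤ) (h : ∀ i, f (i + 1) = f i + 1) (i : ℤ) : f i = f 0 + i := by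
  induction i using Int.induction_on with
  | zero => simp
  | succ i ih => rw [h, ih]; ring
  | pred i ih =>
    have := h (-(i : ℤ) - 1)
    rw [show -(i : ℤ) - 1 + 1 = -i from by ring] at this
    omega

theorem sigma_sub (f : ℤ → ℤ) (h : ∀ i, f (i + 1) = f i - 1) (i : ℤ) : f i = f 0 - i := by
  induction i using Int.induction_on with
  | zero => simp
  | succ i ih => rw [h, ih]; ring
  | pred i ih =>
    have := h (-(i : ℤ) - 1)
    rw [show -(i : ℤ) - 1 + 1 = -i from by ring] at this
    omega

end Sigma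

/-- A group acting on a tree by automorphisms without inversions. -/
structure TreeAct (G : Type) {V : Type} [Group G] [MulAction G V] (T : SimpleGraph V) : Prop where
  isTree : T.IsTree
  adj : ∀ (g : G) (v w : V), T.Adj v w → T.Adj (g • v) (g • w)
  noInv : ∀ (g : G) (v w : V), T.Adj v w → ¬ (g • v = w ∧ g • w = v)

section Action

variable {G V : Type} [Group G] [MulAction G V] {T : SimpleGraph V}

theorem TreeAct.dist_le (h : TreeAct G T) (g : G) (v w : V) :
    T.dist (g • v) (g • w) ≤ T.dist v w := by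
  obtain ⟨p, hp⟩ := h.isTree.connected.exists_walk_length_eq_dist v w
  let f : T →g T := ⟨fun v => g • v, fun {a b} hab => h.adj g a b hab⟩
  have := SimpleGraph.dist_le (p.map f)
  rw [Walk.length_map, hp] at this
  exact this

theorem TreeAct.dist_smul (h : TreeAct G T) (g : G) (v w : V) :
    T.dist (g • v) (g • w) = T.dist v w := by
  apply le_antisymm (h.dist_le g v w)
  have := h.dist_le g⁻¹ (g • v) (g • w)
  rwa [inv_smul_smul, inv_smul_smul] at this

theorem TreeAct.dist_smul_left (h : TreeAct G T) (g : G) (v w : V) :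
    T.dist (g • v) w = T.dist v (g⁻¹ • w) := by
  rw [← h.dist_smul g v (g⁻¹ • w), smul_inv_smul]

/-- Fixed point sets are convex. -/
theorem TreeAct.convex (h : TreeAct G T) {g : G} {u v z : V} (hu : g • u = u) (hv : g • v = v)
    (hz : T.dist u z + T.dist z v = T.dist u v) : g • z = z := by
  have h1 : T.dist u (g • z) = T.dist u z := by
    rw [← h.dist_smul g u z, hu]
  have h2 : T.dist (g • z) v = T.dist z v := by
    rw [← h.dist_smul g z v, hv]
  exact geod_unique h.isTree (by rw [h1, h2, hz]) hz h1

/-- The product of two elliptic elements with suitably disjoint fixed point sets has no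
fixed vertex. -/
theorem TreeAct.no_fixed (h : TreeAct G T) {a b : G} {x y x1 y1 : V} {N : ℕ} (hN : 0 < N)
    (hax : a • x = x) (hby : b • y = y) (hax1 : a • x1 ≠ x1) (hby1 : b • y1 ≠ y1)
    (hx1 : T.Adj x x1) (hy1 : T.Adj y y1)
    (H1 : ∀ z, T.dist z x1 = T.dist z x + 1 → T.dist z y = T.dist z x + N)
    (H2 : ∀ z, T.dist z y1 = T.dist z y + 1 → T.dist z x = T.dist z y + N)
    (v : V) : (a * b) • v ≠ v := by
  intro hv
  have hsep : ∀ {c : G} {o o1 : V}, c • o = o → c • o1 ≠ o1 → T.Adj o o1 → ∀ z,
      T.dist z o1 = T.dist z o + 1 ∨ T.dist (c • z) o1 = T.dist (c • z) o + 1 := by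
    intro c o o1 hco hco1 hadj z
    by_contra hcon
    push Not at hcon
    obtain ⟨h1, h2⟩ := hcon
    have h3 : T.dist z o = T.dist z o1 + 1 := by
      rcases h.isTree.dist_eq_dist_add_one_of_adj z hadj with h3 | h3
      · exact h3
      · exact absurd h3 h1
    have h4 : T.dist (c • z) o = T.dist (c • z) o1 + 1 := by
      rcases h.isTree.dist_eq_dist_add_one_of_adj (c • z) hadj with h3 | h3
      · exact h3
      · exact absurd h3 h2
    have h5 : T.dist (c • z) o = T.dist (c • z) (c • o1) + 1 := by
      rw [h.dist_smul, ← h3]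
      conv_lhs => rw [← hco]
      rw [h.dist_smul]
    have h6 : T.Adj o (c • o1) := by
      have := h.adj c _ _ hadj
      rwa [hco] at this
    exact hco1 (parent_unique h.isTree h6.symm hadj.symm h5 h4)
  set u : V := b • v with hu
  have hau : a • u = v := by rw [hu, ← mul_smul]; exact hv
  have hdy : T.dist u y = T.dist v y := by
    rw [hu]; conv_lhs => rw [← hby]
    rw [h.dist_smul]
  have hdx : T.dist u x = T.dist v x := by
    have := h.dist_smul a u x
    rw [hau, hax] at this
    exact this.symm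
  have hA := hsep hax hax1 hx1 u
  rw [hau] at hA
  have hB := hsep hby hby1 hy1 v
  rw [← hu] at hB
  rcases hA with hA | hA
  · have e1 := H1 u hA
    rcases hB with hB | hB
    · have e2 := H2 v hB
      omega
    · have e2 := H2 u hB
      omega
  · have e1 := H1 v hA
    rcases hB with hB | hB
    · have e2 := H2 v hB
      omega
    · have e2 := H2 u hB
      omega

/-- Version of `no_fixed` along a path. -/
theorem TreeAct.no_fixed_path (h : TreeAct G T) {a b : G} (w : ℕ → V) {n : ℕ} (hn : 0 < n)
    (hadj : ∀ i < n, T.Adj (w i) (w (i + 1)))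
    (hnb : ∀ i, i + 2 ≤ n → w i ≠ w (i + 2))
    (ha : a • w 0 = w 0) (hb : b • w n = w n) (ha1 : a • w 1 ≠ w 1)
    (hb1 : b • w (n - 1) ≠ w (n - 1)) (v : V) : (a * b) • v ≠ v := by
  have hadj' : T.Adj (w n) (w (n - 1)) := by
    have := (hadj (n - 1) (by omega)).symm
    rwa [show n - 1 + 1 = n from by omega] at this
  refine h.no_fixed hn ha hb ha1 hb1 (by simpa using hadj 0 hn) hadj' ?_ ?_ v
  · intro z hz
    exact nb h.isTree w n hadj hnb z (fun _ => hz) n le_rfl
  · intro z hz
    have := nb h.isTree (fun i => w (n - i)) n (by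
      intro i hi
      have := (hadj (n - (i + 1)) (by omega)).symm
      rwa [show n - (i + 1) + 1 = n - i from by omega] at this) (by
      intro i hi
      have := (hnb (n - (i + 2)) (by omega)).symm
      rwa [show n - (i + 2) + 2 = n - i from by omega] at this) z (by
      intro _
      simpa using hz) n le_rfl
    simpa using this

/-- If `a` and `b` have fixed vertices and `a * b` has a fixed vertex then `a` and `b` have a
common one. More generally for a finite set of elements in place of `a`. -/
theorem TreeAct.common_fixed (h : TreeAct G T) (S : Set G) (b : G)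
    (hS : ∃ x : V, ∀ a ∈ S, a • x = x) (hb : ∃ y : V, b • y = y)
    (hab : ∀ a ∈ S, ∃ v : V, (a * b) • v = v) :
    ∃ x : V, (∀ a ∈ S, a • x = x) ∧ b • x = x := by
  classical
  have hex : ∃ n, ∃ x y : V, (∀ a ∈ S, a • x = x) ∧ b • y = y ∧ T.dist x y = n := by
    obtain ⟨x, hx⟩ := hS
    obtain ⟨y, hy⟩ := hb
    exact ⟨_, x, y, hx, hy, rfl⟩
  obtain ⟨x, y, hx, hy, hxy⟩ := Nat.find_spec hex
  have hmin : ∀ x' y' : V, (∀ a ∈ S, a • x' = x') → b • y' = y' → T.dist x y ≤ T.dist x' y' := by
    intro x' y' hx' hy'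
    rw [hxy]
    exact Nat.find_min' hex ⟨x', y', hx', hy', rfl⟩
  rcases Nat.eq_zero_or_pos (T.dist x y) with h0 | hpos
  · have : x = y := h.isTree.connected.dist_eq_zero_iff.mp h0
    exact ⟨x, hx, by rw [this]; exact hy⟩
  exfalso
  obtain ⟨q, hq0, hqn, hadj, hd, hnb⟩ := exists_geod h.isTree x y
  set n := T.dist x y with hn
  have h1 : ¬ ∀ a ∈ S, a • q 1 = q 1 := by
    intro hcon
    have h2 := hmin (q 1) y hcon hy
    have h3 := (hd 1 (by omega)).2
    omega
  push Not at h1
  obtain ⟨a, haS, ha⟩ := h1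
  have h2 : b • q (n - 1) ≠ q (n - 1) := by
    intro hcon
    have h2 := hmin x (q (n - 1)) hx hcon
    have h3 := (hd (n - 1) (by omega)).1
    omega
  obtain ⟨v, hv⟩ := hab a haS
  exact h.no_fixed_path q hpos hadj hnb (by rw [hq0]; exact hx a haS)
    (by rw [hqn]; exact hy) ha h2 v hv

/-- Serre's lemma: a finite set of elements such that every element of the group has a fixed
vertex has a common fixed vertex. -/
theorem TreeAct.serre (h : TreeAct G T) (hell : ∀ g : G, ∃ v : V, g • v = v) (S : Finset G) :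
    ∃ x : V, ∀ a ∈ S, a • x = x := by
  classical
  induction S using Finset.induction_on with
  | empty =>
    obtain ⟨v, _⟩ := hell 1
    exact ⟨v, by simp⟩
  | insert s S _ ih =>
    obtain ⟨x, hx, hx'⟩ := h.common_fixed (S : Set G) s (by simpa using ih) (hell s)
      (fun a _ => hell _)
    refine ⟨x, fun a ha => ?_⟩
    rcases Finset.mem_insert.mp ha with rfl | ha
    · exact hx'
    · exact hx a ha

theorem TreeAct.exists_hyperbolic (h : TreeAct G T) (hfg : Group.FG G)
    (hnf : ∀ v : V, ∃ g : G, g • v ≠ v) : ∃ g : G, ∀ v : V, g • v ≠ v := by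
  by_contra hcon
  push Not at hcon
  obtain ⟨S, hS⟩ := Group.fg_def.mp hfg
  obtain ⟨x, hx⟩ := h.serre hcon S
  obtain ⟨g, hg⟩ := hnf x
  apply hg
  have : g ∈ Subgroup.closure (S : Set G) := by rw [hS]; trivial
  have hle : Subgroup.closure (S : Set G) ≤ MulAction.stabilizer G x := by
    rw [Subgroup.closure_le]
    intro a ha
    exact hx a ha
  exact hle this

/-- `L` is an axis of `g` with translation length `l > 0`. -/
structure IsAxis (T : SimpleGraph V) (g : G) (L : ℤ → V) (l : ℕ) : Prop where
  line : IsLine T L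
  pos : 0 < l
  smul : ∀ i, g • L i = L (i + l)

theorem TreeAct.exists_axis (h : TreeAct G T) {g : G} (hg : ∀ v : V, g • v ≠ v) :
    ∃ (L : ℤ → V) (l : ℕ), IsAxis T g L l := by
  classical
  have hex : ∃ n, ∃ v : V, T.dist v (g • v) = n := by
    obtain ⟨v⟩ := h.isTree.connected.nonempty
    exact ⟨_, v, rfl⟩
  obtain ⟨v, hv⟩ := Nat.find_spec hex
  have hmin : ∀ w : V, T.dist v (g • v) ≤ T.dist w (g • w) := by
    intro w
    rw [hv]
    exact Nat.find_min' hex ⟨w, rfl⟩
  obtain ⟨q, hq0, hql, hadj, hd, hnb⟩ := exists_geod h.isTree v (g • v)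
  set l := T.dist v (g • v) with hl
  have hpos : 0 < l := by
    rcases Nat.eq_zero_or_pos l with h0 | h0
    · exact absurd (h.isTree.connected.dist_eq_zero_iff.mp h0).symm (hg v)
    · exact h0
  have hlz : (0 : ℤ) < l := by exact_mod_cast hpos
  let L : ℤ → V := fun i => (g ^ (i / (l : ℤ))) • q (i % (l : ℤ)).toNat
  have hL : ∀ (k : ℤ) (r : ℕ), r < l → L (k * l + r) = g ^ k • q r := by
    intro k r hr
    have h1 : (k * (l : ℤ) + r) / l = k := by
      rw [add_comm, Int.add_mul_ediv_right _ _ (by omega),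
        Int.ediv_eq_zero_of_lt (by omega) (by exact_mod_cast hr)]
      simp
    have h2 : (k * (l : ℤ) + r) % l = r := by
      rw [add_comm, Int.add_mul_emod_self_right, Int.emod_eq_of_lt (by omega)
        (by exact_mod_cast hr)]
    change g ^ ((k * (l : ℤ) + r) / l) • q ((k * (l : ℤ) + r) % l).toNat = _
    rw [h1, h2]
    simp
  have hL' : ∀ (k : ℤ) (r : ℕ), r ≤ l → L (k * l + r) = g ^ k • q r := by
    intro k r hr
    rcases Nat.lt_or_eq_of_le hr with hr | hr
    · exact hL k r hr
    · subst hr
      rw [hql, ← hq0]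
      have := hL (k + 1) 0 hpos
      rw [show k * (l : ℤ) + l = (k + 1) * l + (0 : ℕ) from by push_cast; ring, this,
        zpow_add_one, mul_smul]
  have hdecomp : ∀ i : ℤ, ∃ (k : ℤ) (r : ℕ), r < l ∧ i = k * l + r := by
    intro i
    refine ⟨i / l, (i % l).toNat, ?_, ?_⟩
    · have := Int.emod_lt_of_pos i hlz
      have := Int.emod_nonneg i (ne_of_gt hlz)
      omega
    · have h1 := Int.emod_nonneg i (ne_of_gt hlz)
      rw [Int.toNat_of_nonneg h1]
      have := Int.mul_ediv_add_emod i l
      rw [mul_comm] at this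
      exact this.symm
  refine ⟨L, l, ⟨?_, ?_⟩, hpos, ?_⟩
  · intro i
    obtain ⟨k, r, hr, rfl⟩ := hdecomp i
    rw [hL k r hr]
    have := hL' k (r + 1) hr
    rw [show k * (l : ℤ) + r + 1 = k * l + ((r + 1 : ℕ) : ℤ) from by push_cast; ring, this]
    exact h.adj _ _ _ (hadj r hr)
  · intro i
    obtain ⟨k, r, hr, rfl⟩ := hdecomp i
    rw [hL k r hr]
    rcases Nat.lt_or_ge (r + 1) l with hr1 | hr1
    · have := hL' k (r + 2) hr1
      rw [show k * (l : ℤ) + r + 2 = k * l + ((r + 2 : ℕ) : ℤ) from by push_cast; ring, this]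
      intro hcon
      exact hnb r hr1 (smul_left_cancel _ hcon)
    · have hrl : r = l - 1 := by omega
      have := hL' (k + 1) 1 hpos
      rw [show k * (l : ℤ) + r + 2 = (k + 1) * l + ((1 : ℕ) : ℤ) from by
        rw [hrl]; push_cast [Nat.cast_sub (show 1 ≤ l from hpos)]; ring, this]
      intro hcon
      rw [zpow_add_one, mul_smul] at hcon
      have hcon := smul_left_cancel _ hcon
      rcases Nat.lt_or_ge 1 l with h1l | h1l
      · have e1 := hmin (q 1)
        rw [← hcon] at e1
        have e2 := (hd 1 (by omega)).1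
        have e3 := (hd r (by omega)).1
        have e4 : T.dist (q 1) (q r) = r - 1 := by
          have := nb' h.isTree (fun i => q (1 + i)) (r - 1) (by
            intro i hi
            exact hadj (1 + i) (by omega)) (by
            intro i hi
            exact hnb (1 + i) (by omega)) (r - 1) le_rfl
          simp only [add_zero] at this
          rwa [show 1 + (r - 1) = r from by omega] at this
        omega
      · have hl1 : l = 1 := by omega
        have hr0 : r = 0 := by omega
        rw [hr0, hq0] at hcon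
        have e1 : q 1 = g • v := by rw [← hql, hl1]
        rw [e1] at hcon
        have e2 := hadj 0 hpos
        rw [hq0, zero_add, e1] at e2
        exact h.noInv g v (g • v) e2 ⟨rfl, hcon.symm⟩
  · intro i
    obtain ⟨k, r, hr, rfl⟩ := hdecomp i
    rw [hL k r hr, show k * (l : ℤ) + r + l = (k + 1) * l + r from by ring, hL (k + 1) r hr,
      ← mul_smul]
    congr 1
    group

theorem IsAxis.smul_zpow {g : G} {L : ℤ → V} {l : ℕ} (hax : IsAxis T g L l) (k i : ℤ) :
    g ^ k • L i = L (i + k * l) := by
  induction k using Int.induction_on generalizing i with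
  | zero => simp
  | succ k ih => rw [zpow_add_one, mul_smul, hax.smul, ih]; congr 1; ring
  | pred k ih =>
    rw [zpow_sub_one, mul_smul]
    have : g⁻¹ • L i = L (i - l) := by
      rw [inv_smul_eq_iff, hax.smul]; congr 1; ring
    rw [this, ih]; congr 1; ring

theorem IsAxis.reverse {g : G} {L : ℤ → V} {l : ℕ} (hax : IsAxis T g L l) :
    IsAxis T g⁻¹ (fun i => L (-i)) l where
  line := hax.line.reverse
  pos := hax.pos
  smul i := by
    rw [inv_smul_eq_iff, hax.smul]; congr 1; ring

/-- The displacement of a vertex `z` is governed by its distance to the axis. -/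
theorem TreeAct.proj_between (h : TreeAct G T) {g : G} {L : ℤ → V} {l : ℕ}
    (hax : IsAxis T g L l) (z : V) :
    ∃ i, T.dist z (L i) + T.dist (L i) (g • z) = T.dist z (g • z) ∧
      T.dist z (g • z) = 2 * T.dist z (L i) + l := by
  obtain ⟨i, hi⟩ := hax.line.exists_proj h.isTree z
  have hg : ∀ j, T.dist (g • z) (L j) = T.dist z (L i) + (j - l - i).natAbs := by
    intro j
    have := h.dist_smul g z (L (j - l))
    rw [hax.smul, show j - (l : ℤ) + l = j from by ring, hi] at this
    exact this
  obtain ⟨q, hq0, hqn, hadj, hd, hnb⟩ := exists_geod h.isTree (L i) z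
  set n := T.dist (L i) z with hn
  have hn' : T.dist z (L i) = n := by rw [dist_comm]
  have hpos := hax.pos
  have e1 : T.dist (g • z) (L i) = n + l := by
    rw [hg i, hn']; omega
  have e2 : T.dist (g • z) (L (i + 1)) + 1 = n + l := by
    rw [hg (i + 1), hn']; omega
  have key : T.dist (g • z) z = n + l + n := by
    rcases Nat.eq_zero_or_pos n with h0 | h0
    · have : L i = z := h.isTree.connected.dist_eq_zero_iff.mp (hn ▸ h0)
      rw [← this, h0]
      rw [this] at e1 ⊢
      omega
    · have := nb h.isTree q n hadj hnb (g • z) (by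
        intro _
        rw [hq0]
        have hne : L (i + 1) ≠ q 1 := by
          intro hcon
          have f1 := (hd 1 (by omega)).2
          have f2 := hi (i + 1)
          rw [hcon, dist_comm, f1, hn'] at f2
          omega
        have hadj1 : T.Adj (L i) (q 1) := by
          have := hadj 0 (by omega)
          rwa [hq0] at this
        exact junction h.isTree (hax.line.adj i).symm hadj1 hne (by omega)) n le_rfl
      rw [hqn, hq0, e1] at this
      exact this
  refine ⟨i, ?_, ?_⟩
  · rw [hn', dist_comm (u := L i) (v := g • z), e1, dist_comm (u := z) (v := g • z), key]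
    omega
  · rw [hn', dist_comm (u := z) (v := g • z), key]
    omega

/-- A vertex with displacement at most the translation length lies on the axis. -/
theorem TreeAct.mem_axis (h : TreeAct G T) {g : G} {L : ℤ → V} {l : ℕ}
    (hax : IsAxis T g L l) {z : V} (hz : T.dist z (g • z) ≤ l) : ∃ i, z = L i := by
  obtain ⟨i, _, h2⟩ := h.proj_between hax z
  refine ⟨i, ?_⟩
  have : T.dist z (L i) = 0 := by omega
  exact h.isTree.connected.dist_eq_zero_iff.mp this

theorem TreeAct.map_line (h : TreeAct G T) {L : ℤ → V} (hL : IsLine T L) {p : G}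
    (hp : ∀ i, ∃ j, p • L i = L j) :
    (∃ c, ∀ i, p • L i = L (c + i)) ∨ (∃ c, ∀ i, p • L i = L (c - i)) := by
  choose f hf using hp
  have h1 : ∀ i, (f (i + 1) - f i).natAbs = 1 := by
    intro i
    have := h.dist_smul p (L (i + 1)) (L i)
    rw [hf, hf, hL.dist h.isTree, hL.dist h.isTree] at this
    omega
  have h2 : ∀ i, f (i + 2) ≠ f i := by
    intro i hcon
    have := h.dist_smul p (L (i + 2)) (L i)
    rw [hf, hf, hL.dist h.isTree, hL.dist h.isTree] at this
    omega
  rcases sigma_lin f h1 h2 with h3 | h3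
  · left
    exact ⟨f 0, fun i => by rw [hf, sigma_add f h3 i]⟩
  · right
    exact ⟨f 0, fun i => by rw [hf, sigma_sub f h3 i]⟩

theorem TreeAct.commute_axis (h : TreeAct G T) {g : G} {L : ℤ → V} {l : ℕ}
    (hax : IsAxis T g L l) {p : G} (hc : p * g = g * p) : ∃ c, ∀ i, p • L i = L (c + i) := by
  have h1 : ∀ i, ∃ j, p • L i = L j := by
    intro i
    apply h.mem_axis hax
    rw [← mul_smul, ← hc, mul_smul, h.dist_smul, hax.smul, hax.line.dist h.isTree]
    omega
  rcases h.map_line hax.line h1 with h2 | ⟨c, h2⟩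
  · exact h2
  · exfalso
    have e1 : (p * g) • L 0 = (g * p) • L 0 := by rw [hc]
    rw [mul_smul, mul_smul, hax.smul, h2, h2, hax.smul] at e1
    have := hax.line.injective h.isTree e1
    have := hax.pos
    omega

/-- An axis of an element of an abelian normal subgroup is invariant. -/
theorem TreeAct.normal_axis (h : TreeAct G T) {g : G} {L : ℤ → V} {l : ℕ}
    (hax : IsAxis T g L l) {p : G} (hc : (p⁻¹ * g * p) * g = g * (p⁻¹ * g * p)) :
    (∃ c, ∀ i, p • L i = L (c + i)) ∨ (∃ c, ∀ i, p • L i = L (c - i)) := by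
  obtain ⟨c, hcL⟩ := h.commute_axis hax hc
  have hpow : ∀ k : ℕ, ((p⁻¹ * g * p) ^ k) • L 0 = L (k * c) := by
    intro k
    induction k with
    | zero => simp
    | succ k ih =>
      rw [pow_succ', mul_smul, ih, hcL]; congr 1; push_cast; ring
  have hpow2 : ∀ k : ℕ, (p⁻¹ * g * p) ^ k = p⁻¹ * g ^ k * p := by
    intro k
    induction k with
    | zero => simp
    | succ k ih => rw [pow_succ, ih, pow_succ]; group
  have hbound : ∀ k : ℕ, k * c.natAbs ≤ 2 * T.dist (p • L 0) (L 0) + k * l := by
    intro k
    have e1 : T.dist (L 0) (L (k * c)) = k * c.natAbs := by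
      rw [hax.line.dist h.isTree, zero_sub, Int.natAbs_neg, Int.natAbs_mul, Int.natAbs_natCast]
    rw [← hpow k, hpow2 k] at e1
    rw [← e1]
    have e2 : T.dist (L 0) ((p⁻¹ * g ^ k * p) • L 0) = T.dist (p • L 0) ((g ^ k) • p • L 0) := by
      rw [← h.dist_smul p, ← mul_smul, ← mul_smul]
      congr 2
      group
    rw [e2]
    have e3 : T.dist (p • L 0) (g ^ k • p • L 0) ≤
        T.dist (p • L 0) (L 0) + (T.dist (L 0) (g ^ k • L 0) +
          T.dist (g ^ k • L 0) (g ^ k • p • L 0)) :=
      (h.isTree.connected.dist_triangle).trans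
        (Nat.add_le_add_left h.isTree.connected.dist_triangle _)
    have e4 : T.dist (L 0) (g ^ k • L 0) = k * l := by
      have := hax.smul_zpow k 0
      rw [zpow_natCast] at this
      rw [this, hax.line.dist h.isTree, zero_sub, Int.natAbs_neg, zero_add, Int.natAbs_mul,
        Int.natAbs_natCast, Int.natAbs_natCast]
    have e5 : T.dist (g ^ k • L 0) (g ^ k • p • L 0) = T.dist (p • L 0) (L 0) := by
      rw [h.dist_smul, dist_comm]
    omega
  have hcl : c.natAbs ≤ l := by
    by_contra hcon
    have e1 := hbound (2 * T.dist (p • L 0) (L 0) + 1)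
    have e2 : l + 1 ≤ c.natAbs := by omega
    nlinarith
  apply h.map_line hax.line
  intro i
  apply h.mem_axis hax
  have e1 : T.dist (p • L i) (g • p • L i) = T.dist (L i) ((p⁻¹ * g * p) • L i) := by
    rw [← h.dist_smul p (L i), ← mul_smul, ← mul_smul]
    congr 2
    group
  rw [e1, hcL, hax.line.dist h.isTree]
  omega

section Main

variable {M : Subgroup G}

theorem TreeAct.fix_axis (h : TreeAct G T) (hnorm : M.Normal)
    (hell : ∀ m ∈ M, ∃ v : V, m • v = v) {g : G} {L : ℤ → V} {l : ℕ}
    (hax : IsAxis T g L l) {m : G} (hm : m ∈ M) : ∃ i, m • L i = L i := by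
  obtain ⟨y, hy, hy'⟩ := h.common_fixed {m} (g * m * g⁻¹) (by simpa using hell m hm)
    (hell _ (hnorm.conj_mem m hm g)) (by
      intro a ha
      rw [Set.mem_singleton_iff.mp ha]
      exact hell _ (M.mul_mem hm (hnorm.conj_mem m hm g)))
  have h1 : m • y = y := hy m rfl
  have h2 : m • g⁻¹ • y = g⁻¹ • y := by
    rw [mul_smul, mul_smul] at hy'
    exact eq_inv_smul_iff.mpr hy'
  obtain ⟨i, hi, _⟩ := h.proj_between hax (g⁻¹ • y)
  rw [smul_inv_smul] at hi
  exact ⟨i, h.convex h2 h1 hi⟩

theorem TreeAct.no_opposite (h : TreeAct G T)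
    (hell : ∀ m ∈ M, ∃ v : V, m • v = v) {L : ℤ → V} (hL : IsLine T L)
    {m m' : G} (hm : m ∈ M) (hm' : m' ∈ M) {a b : ℤ} (hab : a < b)
    (h1 : m • L a = L a) (h2 : m • L (a + 1) ≠ L (a + 1))
    (h3 : m' • L b = L b) (h4 : m' • L (b - 1) ≠ L (b - 1)) : False := by
  obtain ⟨v, hv⟩ := hell _ (M.mul_mem hm hm')
  have hn : a + ((b - a).toNat : ℤ) = b := by omega
  refine h.no_fixed_path (a := m) (b := m') (fun k : ℕ => L (a + k)) (n := (b - a).toNat)
    (by omega) ?_ ?_ ?_ ?_ ?_ ?_ v hv
  · intro i _
    have := hL.adj (a + i)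
    rw [show a + i + 1 = a + ((i + 1 : ℕ) : ℤ) from by push_cast; ring] at this
    exact this
  · intro i _
    have := hL.nb (a + i)
    rw [show a + i + 2 = a + ((i + 2 : ℕ) : ℤ) from by push_cast; ring] at this
    exact this
  · simpa using h1
  · rw [hn]; exact h3
  · simpa using h2
  · rw [show a + (((b - a).toNat - 1 : ℕ) : ℤ) = b - 1 from by omega]
    exact h4

theorem TreeAct.one_sided (h : TreeAct G T) (hnorm : M.Normal)
    (hell : ∀ m ∈ M, ∃ v : V, m • v = v) {g : G} {L : ℤ → V} {l : ℕ}
    (hax : IsAxis T g L l) :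
    (∀ m ∈ M, ∀ i, m • L i = L i → m • L (i + 1) = L (i + 1)) ∨
    (∀ m ∈ M, ∀ i, m • L i = L i → m • L (i - 1) = L (i - 1)) := by
  by_contra hcon
  push Not at hcon
  obtain ⟨⟨m, hm, a, h1, h2⟩, ⟨m', hm', b, h3, h4⟩⟩ := hcon
  set k : ℕ := (a - b).toNat + 1 with hk
  have hpos := hax.pos
  have hshift : ∀ i, (g ^ (k : ℤ) * m' * (g ^ (k : ℤ))⁻¹) • L (i + k * l) =
      g ^ (k : ℤ) • m' • L i := by
    intro i
    rw [mul_smul, mul_smul, ← zpow_neg, hax.smul_zpow]
    congr 3; ring
  have hfar : a < b + k * l := by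
    have : (k : ℤ) ≤ k * l := by
      have : (1 : ℤ) ≤ l := by exact_mod_cast hpos
      nlinarith
    omega
  refine h.no_opposite hell hax.line hm (hnorm.conj_mem m' hm' (g ^ (k : ℤ))) hfar h1 h2 ?_ ?_
  · rw [hshift, h3, hax.smul_zpow]
  · intro hcon
    apply h4
    rw [show b + (k : ℤ) * l - 1 = (b - 1) + k * l from by ring, hshift,
      ← hax.smul_zpow] at hcon
    exact smul_left_cancel _ hcon

/-- The eventual translation along the axis towards the fixed end. -/
theorem TreeAct.end_translation (h : TreeAct G T)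
    (hcomm : ∀ p q : G, p * q * p⁻¹ * q⁻¹ ∈ M) {g : G} {L : ℤ → V} {l : ℕ}
    (hax : IsAxis T g L l)
    (hfix : ∀ m ∈ M, ∃ N : ℤ, ∀ i, N ≤ i → m • L i = L i) (p : G) :
    ∃ c N : ℤ, ∀ i, N ≤ i → p • L i = L (i + c) := by
  -- `p g p⁻¹ = g m'`
  set m' : G := g⁻¹ * (p * g * p⁻¹) with hm'
  have hm'M : m' ∈ M := by
    have := hcomm g⁻¹ p
    have e : m' = g⁻¹ * p * (g⁻¹)⁻¹ * p⁻¹ := by rw [hm']; group
    rw [e]; exact this
  obtain ⟨N, hN⟩ := hfix m' hm'M
  have hcalc : ∀ i, N ≤ i → g • p⁻¹ • L i = p⁻¹ • L (i + l) := by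
    intro i hi
    have e1 : g • p⁻¹ • L i = p⁻¹ • (g * m') • L i := by
      rw [← mul_smul, ← mul_smul]; congr 1; rw [hm']; group
    rw [e1, mul_smul, hN i hi, hax.smul]
  have hmem' : ∀ i, N ≤ i → ∃ j, p⁻¹ • L i = L j := by
    intro i hi
    apply h.mem_axis hax
    rw [hcalc _ hi, h.dist_smul, hax.line.dist h.isTree]
    omega
  obtain ⟨j0, hj0⟩ := hmem' N le_rfl
  have key : ∀ i, N ≤ i → p⁻¹ • L i = L (j0 + (i - N)) := by
    intro i hi
    obtain ⟨j, hj⟩ := hmem' i hi
    -- compare with points far away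
    have hfar : ∀ k : ℕ, ∀ i, N ≤ i → (g ^ (k : ℤ)) • p⁻¹ • L i = p⁻¹ • L (i + k * l) := by
      intro k
      induction k with
      | zero => intro i _; simp
      | succ k ih =>
        intro i hi
        rw [show ((k + 1 : ℕ) : ℤ) = k + 1 from by push_cast; ring, zpow_add_one, mul_smul,
          hcalc i hi, ih (i + l) (by omega)]
        congr 2; ring
    have e1 := hfar (i - N).toNat N le_rfl
    rw [hj0, hax.smul_zpow] at e1
    have hpos := hax.pos
    have d1 := h.dist_smul p⁻¹ (L i) (L N)
    rw [hj, hj0, hax.line.dist h.isTree, hax.line.dist h.isTree] at d1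
    have d2 := h.dist_smul p⁻¹ (L i) (L (N + ((i - N).toNat : ℤ) * l))
    rw [hj, ← e1, hax.line.dist h.isTree, hax.line.dist h.isTree] at d2
    rw [hj]
    congr 1
    have e3 : ((i - N).toNat : ℤ) = i - N := by omega
    rw [e3] at d2
    have e4 : i - N ≤ (i - N) * l := by
      have : (1 : ℤ) ≤ l := by exact_mod_cast hpos
      nlinarith
    have e5 : (i - N) * l = 0 → i = N := by
      intro h0
      rcases mul_eq_zero.mp h0 with h0 | h0
      · omega
      · exfalso; have : (l : ℤ) ≠ 0 := by exact_mod_cast (Nat.pos_iff_ne_zero.mp hpos)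
        exact this h0
    generalize (i - N) * (l : ℤ) = w at *
    omega
  refine ⟨N - j0, j0, fun i hi => ?_⟩
  have := key (i + N - j0) (by omega)
  rw [show j0 + (i + N - j0 - N) = i from by ring] at this
  rw [← this, smul_inv_smul]
  congr 1; ring

/-- The group preserves a line on which `M` acts by translations, not all trivial. -/
def CaseA (T : SimpleGraph V) (M : Subgroup G) : Prop :=
  ∃ L : ℤ → V, IsLine T L ∧
    (∀ p : G, (∃ c, ∀ i, p • L i = L (c + i)) ∨ (∃ c, ∀ i, p • L i = L (c - i))) ∧
    (∀ m ∈ M, ∃ c, ∀ i, m • L i = L (c + i)) ∧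
    ∃ h ∈ M, ∃ c, c ≠ 0 ∧ ∀ i, h • L i = L (c + i)

/-- The group fixes an end, and acts on a ray towards this end through the homomorphism `β`. -/
def CaseB (T : SimpleGraph V) (M : Subgroup G) : Prop :=
  ∃ (L : ℤ → V) (β : G →* Multiplicative ℤ) (g : G), IsLine T L ∧
    (∀ p, ∃ N : ℤ, ∀ i, N ≤ i → p • L i = L (i + (β p).toAdd)) ∧
    M ≤ β.ker ∧ 0 < (β g).toAdd ∧ ∀ i, g • L i = L (i + (β g).toAdd)

theorem TreeAct.caseB_of (h : TreeAct G T)
    (hcomm : ∀ p q : G, p * q * p⁻¹ * q⁻¹ ∈ M) {g : G} {L : ℤ → V} {l : ℕ}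
    (hax : IsAxis T g L l)
    (hfix : ∀ m ∈ M, ∃ N : ℤ, ∀ i, N ≤ i → m • L i = L i) : CaseB T M := by
  choose f N hf using h.end_translation hcomm hax hfix
  have huniq : ∀ (p : G) (c N' : ℤ), (∀ i, N' ≤ i → p • L i = L (i + c)) → f p = c := by
    intro p c N' hc
    have h1 := hf p (max (N p) N') (le_max_left _ _)
    have h2 := hc (max (N p) N') (le_max_right _ _)
    have := hax.line.injective h.isTree (h1.symm.trans h2)
    omega
  let β : G →* Multiplicative ℤ :=
    { toFun := fun p => Multiplicative.ofAdd (f p)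
      map_one' := by
        rw [huniq 1 0 0 (fun i _ => by simp)]; rfl
      map_mul' := by
        intro p q
        rw [← ofAdd_add]
        congr 1
        apply huniq (p * q) _ (max (N q) (N p - f q))
        intro i hi
        have h1 := le_max_left (N q) (N p - f q)
        have h2 := le_max_right (N q) (N p - f q)
        rw [mul_smul, hf q i (by omega), hf p (i + f q) (by omega)]
        congr 1; ring }
  have hβ : ∀ p, (β p).toAdd = f p := fun p => rfl
  have hg : f g = l := huniq g l 0 (fun i _ => hax.smul i)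
  refine ⟨L, β, g, hax.line, fun p => ⟨N p, fun i hi => by rw [hβ]; exact hf p i hi⟩, ?_, ?_, ?_⟩
  · intro m hm
    rw [MonoidHom.mem_ker]
    obtain ⟨N', hN'⟩ := hfix m hm
    have := huniq m 0 N' (fun i hi => by rw [hN' i hi, add_zero])
    change Multiplicative.ofAdd (f m) = 1
    rw [this]; rfl
  · rw [hβ, hg]; exact_mod_cast hax.pos
  · intro i; rw [hβ, hg]; exact hax.smul i

/-- The dichotomy for a finitely generated group with an abelian normal subgroup `M` containing
all commutators which acts on a tree without inversions and without a global fixed vertex. -/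
theorem TreeAct.dichotomy (h : TreeAct G T) (hfg : Group.FG G)
    (hnf : ∀ v : V, ∃ g : G, g • v ≠ v) (hnorm : M.Normal)
    (hab : ∀ m ∈ M, ∀ m' ∈ M, m * m' = m' * m)
    (hcomm : ∀ p q : G, p * q * p⁻¹ * q⁻¹ ∈ M) : CaseA T M ∨ CaseB T M := by
  by_cases hM : ∃ m ∈ M, ∀ v : V, m • v ≠ v
  · left
    obtain ⟨m, hm, hmv⟩ := hM
    obtain ⟨L, l, hax⟩ := h.exists_axis hmv
    refine ⟨L, hax.line, ?_, ?_, m, hm, l, ?_, ?_⟩
    · intro p
      apply h.normal_axis hax
      apply hab _ _ _ hm
      have := hnorm.conj_mem m hm p⁻¹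
      rwa [inv_inv] at this
    · intro m' hm'
      exact h.commute_axis hax (hab m' hm' m hm)
    · have := hax.pos; omega
    · intro i; rw [hax.smul, add_comm]
  · right
    have hell : ∀ m ∈ M, ∃ v : V, m • v = v := by
      intro m hm
      by_contra hcon
      push Not at hcon
      exact hM ⟨m, hm, hcon⟩
    obtain ⟨g, hg⟩ := h.exists_hyperbolic hfg hnf
    obtain ⟨L, l, hax⟩ := h.exists_axis hg
    rcases h.one_sided hnorm hell hax with hup | hdown
    · apply h.caseB_of hcomm hax
      intro m hm
      obtain ⟨i, hi⟩ := h.fix_axis hnorm hell hax hm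
      refine ⟨i, fun j hj => ?_⟩
      obtain ⟨k, rfl⟩ : ∃ k : ℕ, j = i + k := ⟨(j - i).toNat, by omega⟩
      clear hj
      induction k with
      | zero => simpa using hi
      | succ k ih =>
        have := hup m hm _ ih
        rw [show i + ((k + 1 : ℕ) : ℤ) = i + k + 1 from by push_cast; ring]
        exact this
    · apply h.caseB_of hcomm hax.reverse
      intro m hm
      obtain ⟨i, hi⟩ := h.fix_axis hnorm hell hax hm
      refine ⟨-i, fun j hj => ?_⟩
      obtain ⟨k, rfl⟩ : ∃ k : ℕ, j = -i + k := ⟨(j + i).toNat, by omega⟩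
      clear hj
      induction k with
      | zero => simpa using hi
      | succ k ih =>
        have := hdown m hm _ ih
        rw [show -(-i + ((k + 1 : ℕ) : ℤ)) = -(-i + (k : ℤ)) - 1 from by push_cast; ring]
        exact this

/-- In case B, an element fixing a vertex `L j` has trivial `β` and fixes the ray from `L j`. -/
theorem TreeAct.stab_ray (h : TreeAct G T) {L : ℤ → V} (hL : IsLine T L)
    {β : G →* Multiplicative ℤ}
    (hβ : ∀ p, ∃ N : ℤ, ∀ i, N ≤ i → p • L i = L (i + (β p).toAdd)) {p : G} {j : ℤ}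
    (hp : p • L j = L j) : β p = 1 ∧ ∀ i, j ≤ i → p • L i = L i := by
  obtain ⟨N, hN⟩ := hβ p
  have hz : (β p).toAdd = 0 := by
    set c := (β p).toAdd with hc
    have h1 := hN (max N j + c.natAbs + 1) (by have := le_max_left N j; omega)
    have h2 := h.dist_smul p (L j) (L (max N j + c.natAbs + 1))
    rw [hp, h1, hL.dist h.isTree, hL.dist h.isTree] at h2
    have := le_max_right N j
    omega
  have hfar : ∀ i, N ≤ i → p • L i = L i := by
    intro i hi
    rw [hN i hi, hz, add_zero]
  refine ⟨?_, ?_⟩
  · exact Multiplicative.toAdd.injective hz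
  · intro i hi
    have h1 := hfar (max N i) (le_max_left _ _)
    refine h.convex hp h1 ?_
    rw [hL.dist h.isTree, hL.dist h.isTree, hL.dist h.isTree]
    have := le_max_right N i
    omega

end Main

end Action

end Pool.Agent.Helper270.Tree
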