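import Mathlib
import Pool.Agent.Helper270.Tree

set_option autoImplicit false

namespace Pool.Agent.Helper270.HNN

open HNNExtension Pool.Agent.Helper270.Tree

section LevelTree

variable {V : Type} {T : SimpleGraph V} {par : V → V} {o : V}

/-- Descendants of `v` with respect to a parent function. -/
inductive Desc (par : V → V) (o v : V) : V → Prop
  | refl : Desc par o v v
  | step (w : V) : w ≠ o → Desc par o v (par w) → Desc par o v w

theorem Desc.le {lev : V → ℕ} (hlev : ∀ v, v ≠ o → lev (par v) < lev v) {v w : V}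
    (h : Desc par o v w) : lev v ≤ lev w := by
  induction h with
  | refl => exact le_rfl
  | step w hw _ ih => exact ih.trans (hlev w hw).le

theorem isTree_of_parent (lev : V → ℕ) (hpar : ∀ v, v ≠ o → T.Adj v (par v))
    (hlev : ∀ v, v ≠ o → lev (par v) < lev v)
    (hadj : ∀ u v, T.Adj u v → (u ≠ o ∧ par u = v) ∨ (v ≠ o ∧ par v = u)) : T.IsTree := by
  constructor
  · have h : ∀ (n : ℕ) (v : V), lev v ≤ n → T.Reachable v o := by
      intro n
      induction n with
      | zero =>
        intro v hv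
        by_cases hvo : v = o
        · rw [hvo]
        · have := hlev v hvo; omega
      | succ n ih =>
        intro v hv
        by_cases hvo : v = o
        · rw [hvo]
        · have := hlev v hvo
          exact (hpar v hvo).reachable.trans (ih _ (by omega))
    exact (SimpleGraph.connected_iff _).mpr
      ⟨fun u v => (h _ u le_rfl).trans (h _ v le_rfl).symm, ⟨o⟩⟩
  · have key : ∀ v, v ≠ o → ¬ (T \ SimpleGraph.fromEdgeSet {s(v, par v)}).Reachable v (par v) := by
      intro v hv hr
      have hinv : ∀ w, (T \ SimpleGraph.fromEdgeSet {s(v, par v)}).Reachable v w →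
          Desc par o v w := by
        intro w hw
        rw [SimpleGraph.reachable_iff_reflTransGen] at hw
        induction hw with
        | refl => exact Desc.refl
        | tail _ hbc ih =>
          rename_i a b _
          rw [SimpleGraph.sdiff_adj, SimpleGraph.fromEdgeSet_adj] at hbc
          obtain ⟨h1, h2⟩ := hbc
          rcases hadj a b h1 with ⟨_, h3⟩ | ⟨h3, h4⟩
          · cases ih with
            | refl =>
              exfalso
              apply h2
              rw [← h3]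
              exact ⟨rfl, (hpar v hv).ne⟩
            | step _ _ h5 => rwa [h3] at h5
          · exact Desc.step b h3 (by rw [h4]; exact ih)
      have h1 := (hinv _ hr).le hlev
      have h2 := hlev v hv
      omega
    rw [SimpleGraph.isAcyclic_iff_forall_adj_isBridge]
    intro u v huv
    rw [SimpleGraph.isBridge_iff]
    rcases hadj u v huv with ⟨hu, h⟩ | ⟨hv, h⟩
    · rw [← h]; exact key u hu
    · rw [← h]
      intro hr
      apply key v hv
      rw [Sym2.eq_swap]
      exact hr.symm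

end LevelTree

section HNNTree

variable {G : Type} [Group G] {A B : Subgroup G} {φ : A ≃* B}

/-- Vertices of the Bass-Serre tree: cosets of the base group. -/
abbrev Vert (φ : A ≃* B) : Type :=
  HNNExtension G A B φ ⧸ (of.range : Subgroup (HNNExtension G A B φ))

/-- The coset of `g`. -/
abbrev vt (g : HNNExtension G A B φ) : Vert φ := (g : HNNExtension G A B φ ⧸ _)

theorem smul_vt (g h : HNNExtension G A B φ) : g • vt h = vt (g * h) := rfl

theorem vt_eq_iff {g h : HNNExtension G A B φ} : vt g = vt h ↔ ∃ x : G, g * of x = h := by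
  rw [QuotientGroup.eq]
  constructor
  · rintro ⟨x, hx⟩
    exact ⟨x, by rw [hx]; group⟩
  · rintro ⟨x, rfl⟩
    exact ⟨x, by group⟩

theorem vt_mul_of (g : HNNExtension G A B φ) (x : G) : vt (g * of x) = vt g :=
  (vt_eq_iff.mpr ⟨x, rfl⟩).symm

theorem exists_vt (v : Vert φ) : ∃ g, v = vt g := ⟨v.out, (Quotient.out_eq v).symm⟩

/-- The Bass-Serre tree of an HNN extension. -/
def graph (φ : A ≃* B) : SimpleGraph (Vert φ) where
  Adj x y := x ≠ y ∧ ∃ g : HNNExtension G A B φ,
    (x = vt g ∧ y = vt (g * t)) ∨ (y = vt g ∧ x = vt (g * t))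
  symm := ⟨fun x y h => ⟨h.1.symm, by obtain ⟨g, hg⟩ := h.2; exact ⟨g, hg.symm⟩⟩⟩
  loopless := ⟨fun x h => h.1 rfl⟩

/-- The exponent sum of the stable letter. -/
def expo (φ : A ≃* B) : HNNExtension G A B φ →* Multiplicative ℤ :=
  lift 1 (Multiplicative.ofAdd 1) (by intro a; simp)

@[simp] theorem expo_of (x : G) : expo φ (of x) = 1 := by simp [expo]
@[simp] theorem expo_t : expo φ t = Multiplicative.ofAdd 1 := by simp [expo]

/-- The level of a vertex. -/
def lvl : Vert φ → Multiplicative ℤ :=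
  Quotient.lift (fun g => expo φ g) (by
    intro g h hgh
    have h1 : vt g = vt h := Quotient.sound hgh
    obtain ⟨x, rfl⟩ := vt_eq_iff.mp h1
    simp)

theorem lvl_vt (g : HNNExtension G A B φ) : lvl (vt g) = expo φ g := rfl

theorem vt_ne (g : HNNExtension G A B φ) : vt g ≠ vt (g * t) := by
  intro h
  have := congrArg lvl h
  rw [lvl_vt, lvl_vt, map_mul, expo_t] at this
  simp at this

theorem adj_vt (g : HNNExtension G A B φ) : (graph φ).Adj (vt g) (vt (g * t)) :=
  ⟨vt_ne g, g, Or.inl ⟨rfl, rfl⟩⟩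

theorem adj_iff {x y : Vert φ} : (graph φ).Adj x y ↔ ∃ g : HNNExtension G A B φ,
    (x = vt g ∧ y = vt (g * t)) ∨ (y = vt g ∧ x = vt (g * t)) := by
  constructor
  · exact fun h => h.2
  · rintro ⟨g, ⟨rfl, rfl⟩ | ⟨rfl, rfl⟩⟩
    · exact adj_vt g
    · exact (adj_vt g).symm

open NormalWord

variable (d : TransversalPair G A B)

/-- The normal form of an element. -/
noncomputable def nw (g : HNNExtension G A B φ) : NormalWord d := NormalWord.equiv φ d g

theorem nw_prod (g : HNNExtension G A B φ) : (nw d g).prod φ = g :=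
  (NormalWord.equiv φ d).symm_apply_apply g

theorem nw_of_prod (w : NormalWord d) : nw d (w.prod φ) = w :=
  (NormalWord.equiv φ d).apply_symm_apply w

theorem nw_of_mul (x : G) (g : HNNExtension G A B φ) : nw d (of x * g) = x • nw d g := by
  change (of x * g) • (empty : NormalWord d) = x • (g • (empty : NormalWord d))
  rw [mul_smul, of_smul_eq_smul]

theorem nw_t_mul (u : ℤˣ) (g : HNNExtension G A B φ) :
    nw d (t ^ (u : ℤ) * g) = unitsSMul φ u (nw d g) := by
  change (t ^ (u : ℤ) * g) • (empty : NormalWord d) = unitsSMul φ u (g • (empty : NormalWord d))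
  rw [mul_smul, t_pow_smul_eq_unitsSMul]

/-- The list of letters of the normal form attached to a vertex. -/
noncomputable def nf (v : Vert φ) : List (ℤˣ × G) := (nw d (v.out)⁻¹).toList

theorem nf_vt (g : HNNExtension G A B φ) : nf d (vt g) = (nw d g⁻¹).toList := by
  have h : vt (vt g).out = vt g := Quotient.out_eq _
  obtain ⟨x, hx⟩ := vt_eq_iff.mp h
  rw [nf]
  have e : (vt g).out⁻¹ = of x * g⁻¹ := by
    rw [eq_mul_inv_iff_mul_eq, inv_mul_eq_iff_eq_mul, hx]
  rw [e, nw_of_mul]
  rfl

/-- The product of a list of letters. -/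
def pr (l : List (ℤˣ × G)) : HNNExtension G A B φ :=
  (l.map (fun x => t ^ (x.1 : ℤ) * of x.2)).prod

theorem vt_pr_nf (v : Vert φ) : vt (pr (nf d v))⁻¹ = v := by
  obtain ⟨g, rfl⟩ := exists_vt v
  rw [nf_vt]
  have h := nw_prod d g⁻¹
  rw [ReducedWord.prod] at h
  have e : (pr (nw d g⁻¹).toList : HNNExtension G A B φ)⁻¹ = g * of (nw d g⁻¹).head := by
    have : (pr (nw d g⁻¹).toList : HNNExtension G A B φ) = (of (nw d g⁻¹).head)⁻¹ * g⁻¹ := by
      rw [eq_inv_mul_iff_mul_eq]; exact h
    rw [this]; group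
  rw [e, vt_mul_of]

/-- The parent of a vertex. -/
noncomputable def par (v : Vert φ) : Vert φ := vt (pr (nf d v).tail)⁻¹

theorem nf_par (v : Vert φ) : nf d (par d v) = (nf d v).tail := by
  obtain ⟨g, rfl⟩ := exists_vt v
  rw [par, nf_vt, inv_inv, nf_vt]
  generalize nw d g⁻¹ = w
  induction w using consRecOn with
  | ofGroup x =>
    have : (pr (ofGroup x : NormalWord d).toList.tail : HNNExtension G A B φ) =
        (empty : NormalWord d).prod φ := by
      simp [pr, ReducedWord.prod]
    rw [this, nw_of_prod]; rfl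
  | cons x u w h1 h2 _ =>
    have : (pr (cons x u w h1 h2).toList.tail : HNNExtension G A B φ) =
        of (w.head)⁻¹ * w.prod φ := by
      simp [pr, ReducedWord.prod]
    rw [this, nw_of_mul, nw_of_prod]
    simp

theorem tail_cases (u : ℤˣ) (w : NormalWord d) :
    ((unitsSMul φ u w).toList = w.toList.tail ∧ w.toList ≠ []) ∨
    ((unitsSMul φ u w).toList.tail = w.toList ∧ (unitsSMul φ u w).toList ≠ []) := by
  classical
  by_cases h : Cancels u w
  · left
    rw [unitsSMul, dif_pos h]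
    induction w using consRecOn with
    | ofGroup x => simp [Cancels] at h
    | cons x u' w h1 h2 _ =>
      simp [unitsSMulWithCancel]
  · right
    rw [unitsSMul, dif_neg h]
    simp

theorem isTree : (graph φ).IsTree := by
  obtain ⟨d⟩ := TransversalPair.nonempty G A B
  have hne : ∀ v : Vert φ, v ≠ vt 1 → nf d v ≠ [] := by
    intro v hv h
    apply hv
    rw [← vt_pr_nf d v, h]
    simp [pr]
  have hcase : ∀ g : HNNExtension G A B φ,
      (par d (vt g) = vt (g * t) ∧ nf d (vt g) ≠ []) ∨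
      (par d (vt (g * t)) = vt g ∧ nf d (vt (g * t)) ≠ []) := by
    intro g
    have h1 := nw_t_mul d (-1) g⁻¹
    have e : ((t : HNNExtension G A B φ) ^ ((-1 : ℤˣ) : ℤ)) * g⁻¹ = (g * t)⁻¹ := by
      simp
    rw [e] at h1
    rcases tail_cases d (φ := φ) (-1) (nw d g⁻¹) with ⟨h2, h3⟩ | ⟨h2, h3⟩
    · left
      rw [← h1, ← nf_vt, ← nf_vt] at h2
      rw [← nf_vt] at h3
      refine ⟨?_, h3⟩
      rw [par, ← h2, vt_pr_nf]
    · right
      rw [← h1, ← nf_vt, ← nf_vt] at h2
      rw [← h1, ← nf_vt] at h3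
      refine ⟨?_, h3⟩
      rw [par, h2, vt_pr_nf]
  have hnf1 : nf d (vt (1 : HNNExtension G A B φ)) = [] := by
    rw [nf_vt, inv_one]
    have : (1 : HNNExtension G A B φ) = (empty : NormalWord d).prod φ := by simp
    rw [this, nw_of_prod]; rfl
  have hne' : ∀ v : Vert φ, nf d v ≠ [] → v ≠ vt 1 := by
    rintro v hv rfl
    exact hv hnf1
  refine isTree_of_parent (par := par d) (o := vt 1) (fun v => (nf d v).length) ?_ ?_ ?_
  · intro v hv
    have h0 := hne v hv
    -- write `v` through its normal form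
    obtain ⟨⟨u, x⟩, l, hl⟩ := List.exists_cons_of_ne_nil h0
    have h1 : v = vt ((pr l)⁻¹ * of x⁻¹ * (t ^ (u : ℤ))⁻¹) := by
      have h2 := vt_pr_nf d v
      rw [hl] at h2
      rw [← h2]
      congr 1
      simp only [pr, List.map_cons, List.prod_cons, mul_inv_rev, map_inv]
      group
    have h2 : par d v = vt ((pr l)⁻¹ * of x⁻¹) := by
      rw [vt_mul_of, par, hl]; rfl
    rw [h2]
    clear h2
    rw [h1]
    rcases Int.units_eq_one_or u with hu | hu
    · subst hu
      have := adj_vt ((pr l)⁻¹ * of x⁻¹ * (t ^ ((1 : ℤˣ) : ℤ))⁻¹ : HNNExtension G A B φ)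
      rwa [show (pr l)⁻¹ * of x⁻¹ * (t ^ ((1 : ℤˣ) : ℤ))⁻¹ * t =
        ((pr l)⁻¹ * of x⁻¹ : HNNExtension G A B φ) from by simp] at this
    · subst hu
      have := (adj_vt ((pr l)⁻¹ * of x⁻¹ : HNNExtension G A B φ)).symm
      rwa [show (pr l)⁻¹ * of x⁻¹ * t =
        ((pr l)⁻¹ * of x⁻¹ * (t ^ ((-1 : ℤˣ) : ℤ))⁻¹ : HNNExtension G A B φ) from by simp] at this
  · intro v hv
    have h0 := hne v hv
    change (nf d (par d v)).length < (nf d v).length
    rw [nf_par, List.length_tail]
    have := List.length_pos_iff.mpr h0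
    omega
  · intro x y hxy
    obtain ⟨g, ⟨rfl, rfl⟩ | ⟨rfl, rfl⟩⟩ := adj_iff.mp hxy
    · rcases hcase g with ⟨h1, h2⟩ | ⟨h1, h2⟩
      · exact Or.inl ⟨hne' _ h2, h1⟩
      · exact Or.inr ⟨hne' _ h2, h1⟩
    · rcases hcase g with ⟨h1, h2⟩ | ⟨h1, h2⟩
      · exact Or.inr ⟨hne' _ h2, h1⟩
      · exact Or.inl ⟨hne' _ h2, h1⟩


omit d in
theorem lvl_smul (g : HNNExtension G A B φ) (v : Vert φ) : lvl (g • v) = expo φ g * lvl v := by
  obtain ⟨h, rfl⟩ := exists_vt v
  rw [smul_vt, lvl_vt, lvl_vt, map_mul]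

theorem lvl_adj {x y : Vert φ} (h : (graph φ).Adj x y) :
    lvl y = lvl x * Multiplicative.ofAdd 1 ∨ lvl x = lvl y * Multiplicative.ofAdd 1 := by
  obtain ⟨g, ⟨rfl, rfl⟩ | ⟨rfl, rfl⟩⟩ := adj_iff.mp h
  · left; rw [lvl_vt, lvl_vt, map_mul, expo_t]
  · right; rw [lvl_vt, lvl_vt, map_mul, expo_t]

theorem treeAct : TreeAct (HNNExtension G A B φ) (graph φ) where
  isTree := isTree
  adj := by
    intro g v w h
    obtain ⟨k, ⟨rfl, rfl⟩ | ⟨rfl, rfl⟩⟩ := adj_iff.mp h
    · rw [smul_vt, smul_vt, ← mul_assoc]; exact adj_vt _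
    · rw [smul_vt, smul_vt, ← mul_assoc]; exact (adj_vt _).symm
  noInv := by
    rintro g v w h ⟨h1, h2⟩
    have e1 := lvl_smul g v
    have e2 := lvl_smul g w
    rw [h1] at e1
    rw [h2] at e2
    have e3 := congrArg Multiplicative.toAdd e1
    have e4 := congrArg Multiplicative.toAdd e2
    rw [toAdd_mul] at e3 e4
    rcases lvl_adj h with h3 | h3
    · have e5 := congrArg Multiplicative.toAdd h3
      rw [toAdd_mul, toAdd_ofAdd] at e5
      omega
    · have e5 := congrArg Multiplicative.toAdd h3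
      rw [toAdd_mul, toAdd_ofAdd] at e5
      omega

theorem no_fixed_vertex (v : Vert φ) : (t : HNNExtension G A B φ) • v ≠ v := by
  intro h
  have e1 := lvl_smul (t : HNNExtension G A B φ) v
  rw [h, expo_t] at e1
  have e3 := congrArg Multiplicative.toAdd e1
  rw [toAdd_mul, toAdd_ofAdd] at e3
  omega

theorem one_orbit {x y : Vert φ} (h : (graph φ).Adj x y) : ∃ g : HNNExtension G A B φ,
    (g • vt 1 = x ∧ g • vt t⁻¹ = y) ∨ (g • vt 1 = y ∧ g • vt t⁻¹ = x) := by
  obtain ⟨k, ⟨rfl, rfl⟩ | ⟨rfl, rfl⟩⟩ := adj_iff.mp h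
  · refine ⟨k * t, Or.inr ?_⟩
    rw [smul_vt, smul_vt, mul_one, mul_inv_cancel_right]
    exact ⟨rfl, rfl⟩
  · refine ⟨k * t, Or.inl ?_⟩
    rw [smul_vt, smul_vt, mul_one, mul_inv_cancel_right]
    exact ⟨rfl, rfl⟩

theorem adj_base : (graph φ).Adj (vt 1) (vt (t⁻¹ : HNNExtension G A B φ)) := by
  have := (adj_vt (t⁻¹ : HNNExtension G A B φ)).symm
  rwa [inv_mul_cancel] at this

theorem adj_vt_one {y : Vert φ} (h : (graph φ).Adj (vt 1) y) :
    ∃ x : G, y = vt (of x * t) ∨ y = vt (of x * t⁻¹) := by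
  obtain ⟨k, ⟨h1, rfl⟩ | ⟨rfl, h1⟩⟩ := adj_iff.mp h
  · obtain ⟨x, hx⟩ := vt_eq_iff.mp h1
    rw [one_mul] at hx
    exact ⟨x, Or.inl (by rw [hx])⟩
  · obtain ⟨x, hx⟩ := vt_eq_iff.mp h1
    rw [one_mul] at hx
    exact ⟨x, Or.inr (by rw [hx, mul_inv_cancel_right])⟩

theorem stab_one (g : HNNExtension G A B φ) : g • (vt 1 : Vert φ) = vt 1 ↔
    ∃ x : G, g = of x := by
  rw [smul_vt, mul_one, eq_comm, vt_eq_iff]
  constructor
  · rintro ⟨x, hx⟩; exact ⟨x, by rw [← hx, one_mul]⟩
  · rintro ⟨x, rfl⟩; exact ⟨x, one_mul _⟩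

/-- Britton's lemma for a word of length two. -/
theorem conj_t_inv (x : G) : (∃ y : G, (t : HNNExtension G A B φ) * of x * t⁻¹ = of y) ↔
    x ∈ A := by
  constructor
  · rintro ⟨y, hy⟩
    by_contra hx
    let w : ReducedWord G A B :=
      { head := 1
        toList := [(1, x), (-1, 1)]
        chain := by
          refine List.isChain_cons_cons.mpr ⟨fun h => absurd h hx, List.isChain_singleton _⟩ }
    have hw : w.prod φ ∈ (of.range : Subgroup (HNNExtension G A B φ)) := by
      refine ⟨y, ?_⟩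
      rw [← hy]
      simp [w, ReducedWord.prod, mul_assoc]
    have := ReducedWord.toList_eq_nil_of_mem_of_range φ w hw
    simp [w] at this
  · intro hx
    exact ⟨φ ⟨x, hx⟩, (equiv_eq_conj (⟨x, hx⟩ : A)).symm⟩

theorem conj_t (x : G) : (∃ y : G, (t : HNNExtension G A B φ)⁻¹ * of x * t = of y) ↔
    x ∈ B := by
  constructor
  · rintro ⟨y, hy⟩
    by_contra hx
    let w : ReducedWord G A B :=
      { head := 1
        toList := [(-1, x), (1, 1)]
        chain := by
          refine List.isChain_cons_cons.mpr ⟨fun h => absurd h hx, List.isChain_singleton _⟩ }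
    have hw : w.prod φ ∈ (of.range : Subgroup (HNNExtension G A B φ)) := by
      refine ⟨y, ?_⟩
      rw [← hy]
      simp [w, ReducedWord.prod, mul_assoc]
    have := ReducedWord.toList_eq_nil_of_mem_of_range φ w hw
    simp [w] at this
  · intro hx
    exact ⟨φ.symm ⟨x, hx⟩, (equiv_symm_eq_conj (⟨x, hx⟩ : B)).symm⟩

theorem grp_aux {H : Type} [Group H] (x s k y : H) : x * k * y = s * (x * k) ↔
    k⁻¹ * (x⁻¹ * s * x) * k = y := by
  constructor
  · intro h
    have : y = (x * k)⁻¹ * (s * (x * k)) := by rw [← h]; group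
    rw [this]; group
  · rintro rfl; group

theorem fix_t_inv (x s : G) : (of s : HNNExtension G A B φ) • (vt (of x * t⁻¹) : Vert φ) =
    vt (of x * t⁻¹) ↔ x⁻¹ * s * x ∈ A := by
  rw [← conj_t_inv (φ := φ), smul_vt, eq_comm, vt_eq_iff]
  simp only [grp_aux, inv_inv, map_mul, map_inv]

theorem fix_t (x s : G) : (of s : HNNExtension G A B φ) • (vt (of x * t) : Vert φ) =
    vt (of x * t) ↔ x⁻¹ * s * x ∈ B := by
  rw [← conj_t (φ := φ), smul_vt, eq_comm, vt_eq_iff]
  simp only [grp_aux, map_mul, map_inv]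

/-- The stabiliser of the base edge. -/
theorem stab_edge : MulAction.stabilizer (HNNExtension G A B φ) (vt 1 : Vert φ) ⊓
    MulAction.stabilizer (HNNExtension G A B φ) (vt t⁻¹ : Vert φ) = A.map of := by
  ext g
  rw [Subgroup.mem_inf, MulAction.mem_stabilizer_iff, MulAction.mem_stabilizer_iff, stab_one,
    Subgroup.mem_map]
  constructor
  · rintro ⟨⟨x, rfl⟩, h2⟩
    refine ⟨x, ?_, rfl⟩
    have := (fix_t_inv (φ := φ) 1 x).mp (by rw [map_one, one_mul]; exact h2)
    simpa using this
  · rintro ⟨x, hx, rfl⟩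
    refine ⟨⟨x, rfl⟩, ?_⟩
    have := (fix_t_inv (φ := φ) 1 x).mpr (by simpa using hx)
    rwa [map_one, one_mul] at this

end HNNTree

section Next

variable {G V : Type} [Group G] [MulAction G V] {T : SimpleGraph V}

/-- The next vertex on the geodesic from `u` to `v`. -/
theorem exists_next (h : TreeAct G T) {u v : V} (huv : u ≠ v) :
    ∃ w, T.Adj u w ∧ T.dist u v = T.dist w v + 1 ∧ ∀ g : G, g • u = u → g • v = v → g • w = w := by
  obtain ⟨q, hq0, hqn, hadj, hd, _⟩ := exists_geod h.isTree u v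
  have hpos : 0 < T.dist u v := by
    rcases Nat.eq_zero_or_pos (T.dist u v) with h0 | h0
    · exact absurd (h.isTree.connected.dist_eq_zero_iff.mp h0) huv
    · exact h0
  have h1 := hadj 0 hpos
  rw [hq0] at h1
  have h2 := hd 1 hpos
  refine ⟨q 1, h1, by omega, fun g hu hv => ?_⟩
  exact h.convex hu hv (by omega)

/-- An element which translates a line and has a fixed vertex fixes the line. -/
theorem trans_zero (h : TreeAct G T) {L : ℤ → V} (hL : IsLine T L) {p : G} {c : ℤ}
    (hp : ∀ i, p • L i = L (c + i)) {v : V} (hv : p • v = v) : c = 0 := by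
  rcases lt_trichotomy c 0 with hc | hc | hc
  · exfalso
    have hax : IsAxis T p⁻¹ L c.natAbs := ⟨hL, by omega, fun i => by
      rw [inv_smul_eq_iff, hp]; congr 1; omega⟩
    obtain ⟨i, _, h2⟩ := h.proj_between hax v
    have : p⁻¹ • v = v := by rw [inv_smul_eq_iff, hv]
    rw [this, SimpleGraph.dist_self] at h2
    omega
  · exact hc
  · exfalso
    have hax : IsAxis T p L c.natAbs := ⟨hL, by omega, fun i => by
      rw [hp]; congr 1; omega⟩
    obtain ⟨i, _, h2⟩ := h.proj_between hax v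
    rw [hv, SimpleGraph.dist_self] at h2
    omega

/-- An elliptic element commuting with a hyperbolic element fixes its axis. -/
theorem fix_axis_of_commute (h : TreeAct G T) {g : G} {L : ℤ → V} {l : ℕ}
    (hax : IsAxis T g L l) {p : G} (hc : p * g = g * p) {v : V} (hv : p • v = v) (i : ℤ) :
    p • L i = L i := by
  obtain ⟨c, hc'⟩ := h.commute_axis hax hc
  have := trans_zero h hax.line hc' hv
  rw [hc', this, zero_add]

/-- If the set of common fixed vertices of `S` is invariant under an element `b` with a fixed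
vertex, then `S` and `b` have a common fixed vertex. -/
theorem common_of_invariant (h : TreeAct G T) (S : Set G) (b : G)
    (hS : ∃ x : V, ∀ a ∈ S, a • x = x) (hb : ∃ y : V, b • y = y)
    (hinv : ∀ x : V, (∀ a ∈ S, a • x = x) → ∀ a ∈ S, a • b • x = b • x) :
    ∃ x : V, (∀ a ∈ S, a • x = x) ∧ b • x = x := by
  classical
  have hex : ∃ n, ∃ x y : V, (∀ a ∈ S, a • x = x) ∧ b • y = y ∧ T.dist x y = n := by
    obtain ⟨x, hx⟩ := hS
    obtain ⟨y, hy⟩ := hb
    exact ⟨_, x, y, hx, hy, rfl⟩
  obtain ⟨x, y, hx, hy, hxy⟩ := Nat.find_spec hex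
  have hmin : ∀ x' y' : V, (∀ a ∈ S, a • x' = x') → b • y' = y' → T.dist x y ≤ T.dist x' y' := by
    intro x' y' hx' hy'
    rw [hxy]
    exact Nat.find_min' hex ⟨x', y', hx', hy', rfl⟩
  by_cases hbx : b • x = x
  · exact ⟨x, hx, hbx⟩
  exfalso
  have hne : x ≠ b • x := fun h0 => hbx h0.symm
  obtain ⟨q, hq0, hqn, hadj, hd, hnb⟩ := exists_geod h.isTree x (b • x)
  have hpos : 0 < T.dist x (b • x) := by
    rcases Nat.eq_zero_or_pos (T.dist x (b • x)) with h0 | h0
    · exact absurd (h.isTree.connected.dist_eq_zero_iff.mp h0) hne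
    · exact h0
  have hfix : ∀ a ∈ S, a • q 1 = q 1 := by
    intro a ha
    have h2 := hd 1 hpos
    exact h.convex (hx a ha) (hinv x hx a ha) (by omega)
  have h3 : T.dist y (q 1) = T.dist y (q 0) + 1 := by
    have h4 := hmin (q 1) y hfix hy
    have h5 := hadj 0 hpos
    rcases h.isTree.dist_eq_dist_add_one_of_adj y h5 with h6 | h6
    · rw [hq0, zero_add] at h6
      rw [SimpleGraph.dist_comm (u := x), SimpleGraph.dist_comm (u := q 1)] at h4
      omega
    · rw [zero_add] at h6; exact h6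
  have h4 := Tree.nb h.isTree q _ hadj hnb y (fun _ => h3) _ le_rfl
  rw [hqn, hq0] at h4
  have h5 := h.dist_smul b y x
  rw [hy] at h5
  omega

end Next

end Pool.Agent.Helper270.HNN
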