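import Mathlib
import Pool.Agent.Helper270.HNN

set_option autoImplicit false

namespace Pool.Agent.Helper270.FP

open Pool.Agent.Helper270.Tree Pool.Agent.Helper270.HNN

section FPProd

variable {G H : Type} [Group G] [Group H]

open Monoid.Coprod

theorem fp_prod [Group.IsFinitelyPresented G] [Group.IsFinitelyPresented H] [hG : Group.FG G]
    [hH : Group.FG H] : Group.IsFinitelyPresented (G × H) := by
  obtain ⟨S, hS, hSf⟩ := Group.fg_iff.mp hG
  obtain ⟨U, hU, hUf⟩ := Group.fg_iff.mp hH
  let R : Set (Monoid.Coprod G H) := (fun p : G × H =>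
    (inl p.1 : Monoid.Coprod G H) * inr p.2 * (inl p.1)⁻¹ * (inr p.2)⁻¹) '' (S ×ˢ U)
  let K := Subgroup.normalClosure R
  have hcomm : ∀ (g : G) (h : H),
      Commute ((QuotientGroup.mk' K).comp inl g) ((QuotientGroup.mk' K).comp inr h) := by
    have h0 : ∀ g ∈ S, ∀ h ∈ U,
        Commute ((QuotientGroup.mk' K).comp inl g) ((QuotientGroup.mk' K).comp inr h) := by
      intro g hg h hh
      have h1 : QuotientGroup.mk' K ((inl g : Monoid.Coprod G H) * inr h * (inl g)⁻¹ *
          (inr h)⁻¹) = 1 :=
        (QuotientGroup.eq_one_iff _).mpr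
          (Subgroup.subset_normalClosure ⟨(g, h), ⟨hg, hh⟩, rfl⟩)
      rw [map_mul, map_mul, map_mul, map_inv, map_inv, mul_inv_eq_one,
        mul_inv_eq_iff_eq_mul] at h1
      exact h1
    have h1 : ∀ g, ∀ h ∈ U,
        Commute ((QuotientGroup.mk' K).comp inl g) ((QuotientGroup.mk' K).comp inr h) := by
      intro g h hh
      have hg : g ∈ Subgroup.closure S := by rw [hS]; trivial
      induction hg using Subgroup.closure_induction with
      | mem x hx => exact h0 x hx h hh
      | one => rw [map_one]; exact Commute.one_left _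
      | mul x y _ _ hx hy => rw [map_mul]; exact hx.mul_left hy
      | inv x _ hx => rw [map_inv]; exact hx.inv_left
    intro g h
    have hh : h ∈ Subgroup.closure U := by rw [hU]; trivial
    induction hh using Subgroup.closure_induction with
    | mem x hx => exact h1 g x hx
    | one => rw [map_one]; exact Commute.one_right _
    | mul x y _ _ hx hy => rw [map_mul]; exact hx.mul_right hy
    | inv x _ hx => rw [map_inv]; exact hx.inv_right
  let back : G × H →* Monoid.Coprod G H ⧸ K := MonoidHom.noncommCoprod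
    ((QuotientGroup.mk' K).comp inl) ((QuotientGroup.mk' K).comp inr) hcomm
  have hback : back.comp toProd = QuotientGroup.mk' K := by
    apply Monoid.Coprod.hom_ext
    · ext g; simp [back]
    · ext h; simp [back]
  refine Group.IsFinitelyPresented.of_surjective (toProd : Monoid.Coprod G H →* G × H)
    toProd_surjective ⟨R, (hSf.prod hUf).image _, ?_⟩
  apply le_antisymm
  · apply Subgroup.normalClosure_le_normal
    rintro _ ⟨⟨g, h⟩, _, rfl⟩
    change toProd _ = 1
    simp
  · intro x hx
    have h1 : back (toProd x) = 1 := by rw [MonoidHom.mem_ker.mp hx, map_one]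
    rw [← MonoidHom.comp_apply, hback] at h1
    exact (QuotientGroup.eq_one_iff x).mp h1

end FPProd

section FPHnn

open HNNExtension Monoid.Coprod

variable {G : Type} [Group G] {A B : Subgroup G} {φ : A ≃* B}

theorem fp_hnn [Group.IsFinitelyPresented G] [hA : Group.FG A] :
    Group.IsFinitelyPresented (HNNExtension G A B φ) := by
  obtain ⟨S, hS, hSf⟩ := Group.fg_iff.mp hA
  let τ : Monoid.Coprod G (Multiplicative ℤ) := inr (Multiplicative.ofAdd 1)
  let rel : A → Monoid.Coprod G (Multiplicative ℤ) := fun a =>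
    τ * inl (a : G) * τ⁻¹ * (inl (φ a : G))⁻¹
  let R : Set (Monoid.Coprod G (Multiplicative ℤ)) := rel '' S
  let K := Subgroup.normalClosure R
  let f1 : A →* Monoid.Coprod G (Multiplicative ℤ) ⧸ K :=
    (MulAut.conj (QuotientGroup.mk' K τ)).toMonoidHom.comp
      (((QuotientGroup.mk' K).comp inl).comp A.subtype)
  let f2 : A →* Monoid.Coprod G (Multiplicative ℤ) ⧸ K :=
    (((QuotientGroup.mk' K).comp inl).comp B.subtype).comp φ.toMonoidHom
  have h12 : f1 = f2 := by
    apply MonoidHom.eq_of_eqOn_dense hS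
    intro a ha
    have : QuotientGroup.mk' K (rel a) = 1 :=
      (QuotientGroup.eq_one_iff _).mpr (Subgroup.subset_normalClosure ⟨a, ha, rfl⟩)
    simp only [rel, map_mul, map_inv] at this
    rw [mul_inv_eq_one] at this
    exact this
  have hlift : ∀ a : A, QuotientGroup.mk' K τ * ((QuotientGroup.mk' K).comp inl) (a : G) =
      ((QuotientGroup.mk' K).comp inl) (φ a : G) * QuotientGroup.mk' K τ := by
    intro a
    have := DFunLike.congr_fun h12 a
    change QuotientGroup.mk' K τ * ((QuotientGroup.mk' K).comp inl) (a : G) *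
      (QuotientGroup.mk' K τ)⁻¹ = ((QuotientGroup.mk' K).comp inl) (φ a : G) at this
    rw [mul_inv_eq_iff_eq_mul] at this
    exact this
  let back : HNNExtension G A B φ →* Monoid.Coprod G (Multiplicative ℤ) ⧸ K :=
    HNNExtension.lift ((QuotientGroup.mk' K).comp inl) (QuotientGroup.mk' K τ) hlift
  let f : Monoid.Coprod G (Multiplicative ℤ) →* HNNExtension G A B φ :=
    Monoid.Coprod.lift of (zpowersHom _ t)
  have hfτ : f τ = t := by simp [f, τ]
  have hfl : ∀ g : G, f (inl g) = of g := by intro g; simp [f]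
  have hback : back.comp f = QuotientGroup.mk' K := by
    apply Monoid.Coprod.hom_ext
    · ext g; simp [back, f]
    · apply MonoidHom.ext_mint
      change back (f τ) = _
      rw [hfτ]
      simp [back, τ]
  have hsurj : Function.Surjective f := by
    rw [← MonoidHom.range_eq_top, eq_top_iff]
    intro x _
    induction x using HNNExtension.induction_on with
    | of g => exact ⟨inl g, hfl g⟩
    | t => exact ⟨τ, hfτ⟩
    | mul x y hx hy => exact mul_mem (hx trivial) (hy trivial)
    | inv x hx => exact inv_mem (hx trivial)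
  refine Group.IsFinitelyPresented.of_surjective f hsurj ⟨R, hSf.image _, ?_⟩
  apply le_antisymm
  · apply Subgroup.normalClosure_le_normal
    rintro _ ⟨a, _, rfl⟩
    change f (rel a) = 1
    simp only [rel, map_mul, map_inv, hfτ, hfl]
    rw [← equiv_eq_conj, mul_inv_cancel]
  · intro x hx
    have h1 : back (f x) = 1 := by rw [MonoidHom.mem_ker.mp hx, map_one]
    rw [← MonoidHom.comp_apply, hback] at h1
    exact (QuotientGroup.eq_one_iff x).mp h1

end FPHnn

section Base

open HNNExtension

variable {G : Type} [Group G] {A B : Subgroup G} {φ : A ≃* B}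

/-- If no conjugate of `S` is contained in an associated subgroup, then an element which
conjugates `S` into the base group lies in the base group. -/
theorem base_of_conj {S : Set G} (hA : ∀ x : G, ∃ s ∈ S, x⁻¹ * s * x ∉ A)
    (hB : ∀ x : G, ∃ s ∈ S, x⁻¹ * s * x ∉ B) {g : HNNExtension G A B φ}
    (hg : ∀ s ∈ S, ∃ y, g * of s * g⁻¹ = of y) : ∃ x, g = of x := by
  have hfix : ∀ s ∈ S, (of s : HNNExtension G A B φ) • (vt g⁻¹ : Vert φ) = vt g⁻¹ := by
    intro s hs
    obtain ⟨y, hy⟩ := hg s hs
    rw [smul_vt, eq_comm, vt_eq_iff]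
    exact ⟨y, by rw [← hy]; group⟩
  have hfix1 : ∀ s : G, (of s : HNNExtension G A B φ) • (vt 1 : Vert φ) = vt 1 :=
    fun s => (stab_one _).mpr ⟨s, rfl⟩
  by_cases h1 : (vt 1 : Vert φ) = vt g⁻¹
  · obtain ⟨x, hx⟩ := vt_eq_iff.mp h1
    rw [one_mul] at hx
    exact ⟨x⁻¹, by rw [map_inv, hx, inv_inv]⟩
  · exfalso
    obtain ⟨w, hw, _, hw'⟩ := exists_next (treeAct (φ := φ)) h1
    have hws : ∀ s ∈ S, (of s : HNNExtension G A B φ) • w = w :=
      fun s hs => hw' _ (hfix1 s) (hfix s hs)
    obtain ⟨x, rfl | rfl⟩ := adj_vt_one hw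
    · obtain ⟨s, hs, hs'⟩ := hB x
      exact hs' ((fix_t x s).mp (hws s hs))
    · obtain ⟨s, hs, hs'⟩ := hA x
      exact hs' ((fix_t_inv x s).mp (hws s hs))

end Base

end Pool.Agent.Helper270.FP
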