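import Mathlib
import Pool.Agent.Helper270.HNN
import Pool.Agent.Helper270.FP

set_option autoImplicit false

namespace Pool.Agent.Helper270.Unf

open HNNExtension Pool.Agent.Helper270.Tree Pool.Agent.Helper270.HNN Pool.Agent.Helper270.FP

section Free

variable {α : Type}

/-- In a free group, an element commuting with two different generators is trivial. -/
theorem free_centralizer {j k : α} (hjk : j ≠ k) {s : FreeGroup α}
    (hj : Commute s (FreeGroup.of j)) (hk : Commute s (FreeGroup.of k)) : s = 1 := by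
  classical
  by_contra hs
  have hL : s.toWord ≠ [] := fun h => hs (FreeGroup.toWord_eq_nil_iff.mp h)
  have hred : FreeGroup.IsReduced s.toWord := FreeGroup.isReduced_toWord
  obtain ⟨⟨i, ε⟩, L, hiL⟩ := List.exists_cons_of_ne_nil hL
  obtain ⟨m, hm, hmi⟩ : ∃ m, Commute s (FreeGroup.of m) ∧ m ≠ i := by
    by_cases h : j = i
    · exact ⟨k, hk, fun h2 => hjk (h.trans h2.symm)⟩
    · exact ⟨j, hj, h⟩
  have hm2 : ∀ δ : Bool, Commute s (FreeGroup.mk [(m, δ)]) := by
    intro δ
    cases δ with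
    | true => exact hm
    | false =>
      have : (FreeGroup.mk [(m, false)] : FreeGroup α) = (FreeGroup.of m)⁻¹ := rfl
      rw [this]; exact hm.inv_right
  -- the sign avoiding cancellation on the right
  obtain ⟨δ, hδ⟩ : ∃ δ : Bool, FreeGroup.IsReduced (s.toWord ++ [(m, δ)]) := by
    obtain ⟨L', ⟨i', ε'⟩, hL'⟩ := List.eq_nil_or_concat' s.toWord |>.resolve_left hL
    refine ⟨ε', ?_⟩
    rw [FreeGroup.IsReduced, List.isChain_append]
    refine ⟨hred, List.isChain_singleton _, ?_⟩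
    intro x hx y hy
    rw [hL'] at hx
    simp at hx hy
    subst hx hy
    intro _
    rfl
  have h1 : FreeGroup.IsReduced ((m, δ) :: s.toWord) := by
    rw [FreeGroup.IsReduced, hiL, List.isChain_cons_cons]
    refine ⟨fun h => absurd h hmi, ?_⟩
    rw [← hiL]; exact hred
  have h2 : (FreeGroup.mk [(m, δ)] * s).toWord = (m, δ) :: s.toWord := by
    conv_lhs => rw [← FreeGroup.mk_toWord (x := s), FreeGroup.mul_mk, FreeGroup.toWord_mk]
    exact h1.reduce_eq
  have h3 : (s * FreeGroup.mk [(m, δ)]).toWord = s.toWord ++ [(m, δ)] := by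
    conv_lhs => rw [← FreeGroup.mk_toWord (x := s), FreeGroup.mul_mk, FreeGroup.toWord_mk]
    exact hδ.reduce_eq
  rw [(hm2 δ).eq, h2, hiL] at h3
  simp at h3
  exact hmi h3.1.1

end Free

section General

variable {F G : Type} [Group F] [Group G] {i j : F →* G}

/-- The isomorphism between the ranges of two injective homomorphisms. -/
noncomputable def rangeEquiv (hi : Function.Injective i) (hj : Function.Injective j) :
    i.range ≃* j.range :=
  (MonoidHom.ofInjective hi).symm.trans (MonoidHom.ofInjective hj)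

theorem rangeEquiv_apply (hi : Function.Injective i) (hj : Function.Injective j) (w : F) :
    (rangeEquiv hi hj ⟨i w, w, rfl⟩ : G) = j w := by
  have h1 : (⟨i w, w, rfl⟩ : i.range) = MonoidHom.ofInjective hi w := rfl
  rw [rangeEquiv, MulEquiv.trans_apply, h1, MulEquiv.symm_apply_apply]
  rfl

theorem lift_cond (hi : Function.Injective i) (hj : Function.Injective j) {H : Type} [Group H]
    (f : G →* H) (x : H) (h : ∀ w, x * f (i w) = f (j w) * x) (a : i.range) :
    x * f a = f (rangeEquiv hi hj a) * x := by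
  obtain ⟨_, w, rfl⟩ := a
  rw [rangeEquiv_apply]
  exact h w

theorem t_rel (hi : Function.Injective i) (hj : Function.Injective j) (w : F) :
    (t : HNNExtension G i.range j.range (rangeEquiv hi hj)) * of (i w) = of (j w) * t := by
  have := t_mul_of (φ := rangeEquiv hi hj) ⟨i w, w, rfl⟩
  rw [rangeEquiv_apply] at this
  exact this

end General

section Group

/-- The free group of rank six. -/
abbrev F6 : Type := FreeGroup (Fin 6)

/-- The free group of rank two. -/
abbrev F2 : Type := FreeGroup (Fin 2)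

/-- The product of two free groups of rank six. -/
abbrev Q : Type := F6 × F6

/-- Generators of the first factor. -/
def g1 (k : Fin 6) : Q := (FreeGroup.of k, 1)
/-- Generators of the second factor. -/
def g2 (k : Fin 6) : Q := (1, FreeGroup.of k)

def b : Q := g1 0 * g2 0
def b1 : Q := g1 1
def b2 : Q := g1 2 * g2 1
def y : Q := g2 2

theorem g_comm (k l : Fin 6) : g1 k * g2 l = g2 l * g1 k := by
  simp [g1, g2]

/-- Homomorphisms from the free group of rank two agreeing on generators. -/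
theorem cond2 {H : Type} [Group H] {f f' : F2 →* H} (h0 : f (FreeGroup.of 0) = f' (FreeGroup.of 0))
    (h1 : f (FreeGroup.of 1) = f' (FreeGroup.of 1)) (w : F2) : f w = f' w := by
  have : f = f' := by
    apply FreeGroup.ext_hom
    intro k
    fin_cases k
    · exact h0
    · exact h1
  rw [this]

/-- The subgroup `⟨b, b₁⟩`. -/
def i0 : F2 →* Q := FreeGroup.lift ![b, b1]
/-- The subgroup `⟨b₁, b₂⟩`. -/
def i1 : F2 →* Q := FreeGroup.lift ![b1, b2]

@[simp] theorem i0_0 : i0 (FreeGroup.of 0) = b := by simp [i0]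
@[simp] theorem i0_1 : i0 (FreeGroup.of 1) = b1 := by simp [i0]
@[simp] theorem i1_0 : i1 (FreeGroup.of 0) = b1 := by simp [i1]
@[simp] theorem i1_1 : i1 (FreeGroup.of 1) = b2 := by simp [i1]

/-- A homomorphism from `Q` which is trivial on the second factor. -/
def fst' {H : Type} [Group H] (f : Fin 6 → H) : Q →* H :=
  (FreeGroup.lift f).comp (MonoidHom.fst F6 F6)

/-- A homomorphism from `Q` which is trivial on the first factor. -/
def snd' {H : Type} [Group H] (f : Fin 6 → H) : Q →* H :=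
  (FreeGroup.lift f).comp (MonoidHom.snd F6 F6)

@[simp] theorem fst'_g1 {H : Type} [Group H] (f : Fin 6 → H) (k : Fin 6) : fst' f (g1 k) = f k := by
  simp [fst', g1]
@[simp] theorem fst'_g2 {H : Type} [Group H] (f : Fin 6 → H) (k : Fin 6) : fst' f (g2 k) = 1 := by
  simp [fst', g2]
@[simp] theorem snd'_g1 {H : Type} [Group H] (f : Fin 6 → H) (k : Fin 6) : snd' f (g1 k) = 1 := by
  simp [snd', g1]
@[simp] theorem snd'_g2 {H : Type} [Group H] (f : Fin 6 → H) (k : Fin 6) : snd' f (g2 k) = f k := by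
  simp [snd', g2]

theorem i0_inj : Function.Injective i0 := by
  have h : ∀ w, fst' ![FreeGroup.of 0, FreeGroup.of 1, 1, 1, 1, 1] (i0 w) = w := by
    intro w
    exact cond2 (f := (fst' ![FreeGroup.of 0, FreeGroup.of 1, 1, 1, 1, 1]).comp i0)
      (f' := MonoidHom.id _) (by simp [b]) (by simp [b1]) w
  exact Function.LeftInverse.injective h

theorem i1_inj : Function.Injective i1 := by
  have h : ∀ w, fst' ![1, FreeGroup.of 0, FreeGroup.of 1, 1, 1, 1] (i1 w) = w := by
    intro w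
    exact cond2 (f := (fst' ![1, FreeGroup.of 0, FreeGroup.of 1, 1, 1, 1]).comp i1)
      (f' := MonoidHom.id _) (by simp [b1]) (by simp [b2]) w
  exact Function.LeftInverse.injective h

/-- The group `⟨Q, a | a b a⁻¹ = b₁, a b₁ a⁻¹ = b₂⟩`. -/
abbrev B : Type := HNNExtension Q i0.range i1.range (rangeEquiv i0_inj i1_inj)

theorem condQ {H : Type} [Group H] (f : Q →* H) (x : H) (h0 : x * f b = f b1 * x)
    (h1 : x * f b1 = f b2 * x) (w : F2) : x * f (i0 w) = f (i1 w) * x := by
  have := cond2 (f := (MulAut.conj x).toMonoidHom.comp (f.comp i0)) (f' := f.comp i1)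
    (by simp [h0]) (by simp [h1]) w
  simp only [MonoidHom.comp_apply, MulEquiv.coe_toMonoidHom, MulAut.conj_apply] at this
  rw [← this]; group

/-- Homomorphisms from `B`. -/
noncomputable def liftB {H : Type} [Group H] (f : Q →* H) (x : H) (h0 : x * f b = f b1 * x)
    (h1 : x * f b1 = f b2 * x) : B →* H :=
  lift f x (lift_cond i0_inj i1_inj f x (condQ f x h0 h1))

@[simp] theorem liftB_of {H : Type} [Group H] (f : Q →* H) (x : H) (h0 : x * f b = f b1 * x)
    (h1 : x * f b1 = f b2 * x) (q : Q) : liftB f x h0 h1 (of q) = f q := by simp [liftB]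
@[simp] theorem liftB_t {H : Type} [Group H] (f : Q →* H) (x : H) (h0 : x * f b = f b1 * x)
    (h1 : x * f b1 = f b2 * x) : liftB f x h0 h1 t = x := by simp [liftB]

/-- The subgroup `⟨a, b⟩`. -/
noncomputable def j0 : F2 →* B := FreeGroup.lift ![t, of b]
/-- The subgroup `⟨y a, b⟩`. -/
noncomputable def j1 : F2 →* B := FreeGroup.lift ![of y * t, of b]

@[simp] theorem j0_0 : j0 (FreeGroup.of 0) = t := by simp [j0]
@[simp] theorem j0_1 : j0 (FreeGroup.of 1) = of b := by simp [j0]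
@[simp] theorem j1_0 : j1 (FreeGroup.of 0) = of y * t := by simp [j1]
@[simp] theorem j1_1 : j1 (FreeGroup.of 1) = of b := by simp [j1]

/-- The retraction on `Q`. -/
def rQ : Q →* F2 := fst' ![FreeGroup.of 1,
  FreeGroup.of 0 * FreeGroup.of 1 * (FreeGroup.of 0)⁻¹,
  FreeGroup.of 0 * FreeGroup.of 0 * FreeGroup.of 1 * (FreeGroup.of 0)⁻¹ * (FreeGroup.of 0)⁻¹,
  1, 1, 1]

/-- The retraction of `B`. -/
noncomputable def rB : B →* F2 := liftB rQ (FreeGroup.of 0) (by simp [rQ, b, b1])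
  (by simp [rQ, b1, b2, mul_assoc])

theorem rB_j0 (w : F2) : rB (j0 w) = w :=
  cond2 (f := rB.comp j0) (f' := MonoidHom.id _) (by simp [rB]) (by simp [rB, rQ, b]) w

theorem rB_j1 (w : F2) : rB (j1 w) = w :=
  cond2 (f := rB.comp j1) (f' := MonoidHom.id _) (by simp [rB, rQ, y]) (by simp [rB, rQ, b]) w

theorem j0_inj : Function.Injective j0 := Function.LeftInverse.injective rB_j0
theorem j1_inj : Function.Injective j1 := Function.LeftInverse.injective rB_j1

/-- The group `⟨B, z | z b z⁻¹ = b, z a z⁻¹ = y a⟩`. -/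
abbrev G : Type := HNNExtension B j0.range j1.range (rangeEquiv j0_inj j1_inj)

/-- The inclusion of `Q`. -/
noncomputable def ι : Q →* G := of.comp of
/-- The first stable letter. -/
noncomputable def a : G := of t
/-- The second stable letter. -/
noncomputable def z : G := t

theorem ι_inj : Function.Injective ι := by
  have := (of_injective (φ := rangeEquiv j0_inj j1_inj)).comp
    (of_injective (φ := rangeEquiv i0_inj i1_inj))
  exact this

theorem rel_a (w : F2) : a * ι (i0 w) = ι (i1 w) * a := by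
  have := congrArg (of (φ := rangeEquiv j0_inj j1_inj)) (t_rel i0_inj i1_inj w)
  rw [map_mul, map_mul] at this
  exact this

theorem rel_ab : a * ι b = ι b1 * a := by
  have := rel_a (FreeGroup.of 0)
  simpa using this

theorem rel_ab1 : a * ι b1 = ι b2 * a := by
  have := rel_a (FreeGroup.of 1)
  simpa using this

theorem rel_za : z * a = ι y * a * z := by
  have := t_rel j0_inj j1_inj (FreeGroup.of 0)
  rw [j0_0, j1_0, map_mul] at this
  exact this

theorem rel_zb : z * ι b = ι b * z := by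
  have := t_rel j0_inj j1_inj (FreeGroup.of 1)
  rw [j0_1, j1_1] at this
  exact this

theorem b1_eq : ι b1 = a * ι b * a⁻¹ := by rw [rel_ab]; group
theorem b2_eq : ι b2 = a * ι b1 * a⁻¹ := by rw [rel_ab1]; group

theorem zaz : z * a * z⁻¹ = ι y * a := by rw [rel_za]; group

theorem ι_comm (k l : Fin 6) : ι (g1 k) * ι (g2 l) = ι (g2 l) * ι (g1 k) := by
  rw [← map_mul, g_comm, map_mul]

theorem rel_zb1 : z * ι b1 = ι b1 * z := by
  have h1 : z * (a * ι b * a⁻¹) * z⁻¹ = (z * a * z⁻¹) * (z * ι b * z⁻¹) * (z * a * z⁻¹)⁻¹ := by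
    group
  have h2 : z * ι b * z⁻¹ = ι b := by rw [rel_zb]; group
  rw [← b1_eq, zaz, h2] at h1
  have h3 : ι y * a * ι b * (ι y * a)⁻¹ = ι y * (a * ι b * a⁻¹) * (ι y)⁻¹ := by group
  rw [h3, ← b1_eq] at h1
  have h4 : ι y * ι b1 * (ι y)⁻¹ = ι b1 := by
    rw [y, b1, ← ι_comm]; group
  rw [h4, mul_inv_eq_iff_eq_mul] at h1
  exact h1

/-- Homomorphisms from `G`. -/
noncomputable def liftG {H : Type} [Group H] (f : Q →* H) (x w : H) (h0 : x * f b = f b1 * x)
    (h1 : x * f b1 = f b2 * x) (h2 : w * x = f y * x * w) (h3 : w * f b = f b * w) : G →* H :=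
  lift (liftB f x h0 h1) w (lift_cond j0_inj j1_inj _ w (by
    intro v
    have := cond2 (f := (MulAut.conj w).toMonoidHom.comp ((liftB f x h0 h1).comp j0))
      (f' := (liftB f x h0 h1).comp j1) (by simp [h2]) (by simp [h3]) v
    simp only [MonoidHom.comp_apply, MulEquiv.coe_toMonoidHom, MulAut.conj_apply] at this
    rw [← this]; group))

section

variable {H : Type} [Group H] (f : Q →* H) (x w : H) (h0 : x * f b = f b1 * x)
    (h1 : x * f b1 = f b2 * x) (h2 : w * x = f y * x * w) (h3 : w * f b = f b * w)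

@[simp] theorem liftG_ι (q : Q) : liftG f x w h0 h1 h2 h3 (ι q) = f q := by simp [liftG, ι]
@[simp] theorem liftG_a : liftG f x w h0 h1 h2 h3 a = x := by simp [liftG, a]
@[simp] theorem liftG_z : liftG f x w h0 h1 h2 h3 z = w := by simp [liftG, z]

end

/-- Induction principle for subgroups of `G`. -/
theorem eq_top_of {S : Subgroup G} (hQ : ∀ q, ι q ∈ S) (ha : a ∈ S) (hz : z ∈ S) : S = ⊤ := by
  rw [eq_top_iff]
  have hB : ∀ x : B, of x ∈ S := by
    intro x
    induction x using HNNExtension.induction_on with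
    | of q => exact hQ q
    | t => exact ha
    | mul x y hx hy => rw [map_mul]; exact S.mul_mem hx hy
    | inv x hx => rw [map_inv]; exact S.inv_mem hx
  intro g _
  induction g using HNNExtension.induction_on with
  | of x => exact hB x
  | t => exact hz
  | mul x y hx hy => exact S.mul_mem (hx trivial) (hy trivial)
  | inv x hx => exact S.inv_mem (hx trivial)

instance : Group.FG Q := by
  have h1 : Group.FG (FreeGroup (Fin 6)) := inferInstance
  have h2 := Subgroup.FG.prod (Group.fg_def.mp h1) (Group.fg_def.mp h1)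
  rw [Subgroup.top_prod_top] at h2
  exact Group.fg_def.mpr h2

instance : Group.IsFinitelyPresented G := by
  have h1 : Group.IsFinitelyPresented Q := fp_prod
  have h2 : Group.IsFinitelyPresented B := fp_hnn
  exact fp_hnn


section Homs

open Multiplicative

/-- Counts the letter `a`. -/
noncomputable def thA : G →* Multiplicative ℤ :=
  liftG 1 (ofAdd 1) 1 (by simp) (by simp) (by simp) (by simp)

/-- Counts the letter `z`. -/
noncomputable def thZ : G →* Multiplicative ℤ :=
  liftG 1 1 (ofAdd 1) (by simp) (by simp) (by simp) (by simp)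

@[simp] theorem thA_ι (q : Q) : thA (ι q) = 1 := by simp [thA]
@[simp] theorem thA_a : thA a = ofAdd 1 := by simp [thA]
@[simp] theorem thA_z : thA z = 1 := by simp [thA]
@[simp] theorem thZ_ι (q : Q) : thZ (ι q) = 1 := by simp [thZ]
@[simp] theorem thZ_a : thZ a = 1 := by simp [thZ]
@[simp] theorem thZ_z : thZ z = ofAdd 1 := by simp [thZ]

/-- The retraction of `G` onto `⟨a, b⟩`. -/
noncomputable def rG : G →* F2 := liftG rQ (FreeGroup.of 0) 1 (by simp [rQ, b, b1])
  (by simp [rQ, b1, b2, mul_assoc]) (by simp [rQ, y]) (by simp)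

/-- The inclusion of `⟨a, b⟩`. -/
noncomputable def ιN : F2 →* G := of.comp j0

/-- The subgroup `N = ⟨a, b⟩`. -/
noncomputable def N : Subgroup G := ιN.range

@[simp] theorem ιN_0 : ιN (FreeGroup.of 0) = a := by simp [ιN, a]
@[simp] theorem ιN_1 : ιN (FreeGroup.of 1) = ι b := by simp [ιN, ι]

theorem rG_ιN (w : F2) : rG (ιN w) = w :=
  cond2 (f := rG.comp ιN) (f' := MonoidHom.id _) (by simp [rG]) (by simp [rG, rQ, b]) w

theorem ιN_inj : Function.Injective ιN := Function.LeftInverse.injective rG_ιN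

theorem ιN_rG {s : G} (hs : s ∈ N) : ιN (rG s) = s := by
  obtain ⟨w, rfl⟩ := hs
  rw [rG_ιN]

theorem a_mem_N : a ∈ N := ⟨FreeGroup.of 0, ιN_0⟩
theorem b_mem_N : ι b ∈ N := ⟨FreeGroup.of 1, ιN_1⟩

theorem N_le {S : Subgroup G} (ha : a ∈ S) (hb : ι b ∈ S) : N ≤ S := by
  rintro _ ⟨w, rfl⟩
  induction w using FreeGroup.induction_on with
  | C1 => rw [map_one]; exact S.one_mem
  | of k => fin_cases k
            · simpa using ha
            · simpa using hb
  | inv_of k ih => rw [map_inv]; exact S.inv_mem ih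
  | mul x y hx hy => rw [map_mul]; exact S.mul_mem hx hy

theorem b1_mem_N : ι b1 ∈ N := by
  rw [b1_eq]; exact N.mul_mem (N.mul_mem a_mem_N b_mem_N) (N.inv_mem a_mem_N)
theorem b2_mem_N : ι b2 ∈ N := by
  rw [b2_eq]; exact N.mul_mem (N.mul_mem a_mem_N b1_mem_N) (N.inv_mem a_mem_N)

/-- Conjugating an element of `N` into `N` is the same as conjugating by the retract. -/
theorem retract_conj {s g : G} (hs : s ∈ N) (h : g⁻¹ * s * g ∈ N) :
    g⁻¹ * s * g = (ιN (rG g))⁻¹ * s * ιN (rG g) := by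
  have h1 := ιN_rG h
  simp only [map_mul, map_inv, ιN_rG hs] at h1
  exact h1.symm

theorem thZ_N {n : G} (hn : n ∈ N) : thZ n = 1 := by
  have : N ≤ thZ.ker := N_le thZ_a (thZ_ι b)
  exact this hn

theorem z_not_conj (g : G) : g⁻¹ * z * g ∉ N := by
  intro h
  have := thZ_N h
  rw [map_mul, map_mul, map_inv, mul_comm (thZ g)⁻¹, inv_mul_cancel_right, thZ_z] at this
  exact absurd (congrArg toAdd this) (by simp)

/-- The plane. -/
abbrev Pl : Type := ℚ × ℚ

def pU : Equiv.Perm Pl where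
  toFun p := (p.1 + p.2, p.2)
  invFun p := (p.1 - p.2, p.2)
  left_inv p := by ext <;> simp
  right_inv p := by ext <;> simp

def pL : Equiv.Perm Pl where
  toFun p := (p.1, p.2 + p.1)
  invFun p := (p.1, p.2 - p.1)
  left_inv p := by ext <;> simp
  right_inv p := by ext <;> simp

def pD : Equiv.Perm Pl where
  toFun p := (2 * p.1, p.2)
  invFun p := (p.1 / 2, p.2)
  left_inv p := by ext <;> simp
  right_inv p := by ext <;> simp; ring

def pS : Equiv.Perm Pl where
  toFun p := (p.2, p.1)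
  invFun p := (p.2, p.1)
  left_inv p := by ext <;> simp
  right_inv p := by ext <;> simp

theorem pU_pow (k : ℕ) (p : Pl) : (pU ^ k) p = (p.1 + k * p.2, p.2) := by
  induction k with
  | zero => simp
  | succ k ih => rw [pow_succ', Equiv.Perm.mul_apply, ih]; ext <;> simp [pU]; ring

theorem pL_pow (k : ℕ) (p : Pl) : (pL ^ k) p = (p.1, p.2 + k * p.1) := by
  induction k with
  | zero => simp
  | succ k ih => rw [pow_succ', Equiv.Perm.mul_apply, ih]; ext <;> simp [pL]; ring

/-- The commutators. -/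
def pM : Equiv.Perm Pl := pD * pL * pD⁻¹ * pL⁻¹

theorem pM_apply (p : Pl) : pM p = (p.1, p.2 - p.1 / 2) := by
  simp only [pM, Equiv.Perm.mul_apply]
  ext
  · simp [pD, pL, Equiv.Perm.inv_def]; ring
  · simp [pD, pL, Equiv.Perm.inv_def]; ring

theorem pDU : pD * pU * pD⁻¹ * pU⁻¹ = pU := by
  ext p <;> simp [pD, pU, Equiv.Perm.inv_def]; ring

theorem pM_pow (k : ℕ) (p : Pl) : (pM ^ k) p = (p.1, p.2 - k * p.1 / 2) := by
  induction k with
  | zero => simp
  | succ k ih => rw [pow_succ', Equiv.Perm.mul_apply, ih, pM_apply]; ext <;> simp; ring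

/-- The representation detecting the second factor. -/
noncomputable def psi2 : G →* Equiv.Perm Pl :=
  liftG (snd' ![1, 1, 1, pD, pU, pL]) 1 1 (by simp [b, b1]) (by simp [b1, b2]) (by simp [y])
    (by simp)

/-- The representation detecting the first factor. -/
noncomputable def psi1 : G →* Equiv.Perm Pl :=
  liftG (fst' ![1, 1, 1, pD, pU, pL]) 1 1 (by simp [b, b1]) (by simp [b1, b2]) (by simp [y])
    (by simp)

/-- Two commutators in the second factor. -/
def w1 : Q := g2 3 * g2 4 * (g2 3)⁻¹ * (g2 4)⁻¹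
def w2 : Q := g2 3 * g2 5 * (g2 3)⁻¹ * (g2 5)⁻¹
/-- Two commutators in the first factor. -/
def v1 : Q := g1 3 * g1 4 * (g1 3)⁻¹ * (g1 4)⁻¹
def v2 : Q := g1 3 * g1 5 * (g1 3)⁻¹ * (g1 5)⁻¹

theorem psi2_w1 : psi2 (ι w1) = pU := by
  rw [psi2, liftG_ι]
  simp only [w1, map_mul, map_inv, snd'_g2]
  exact pDU

theorem psi2_w2 : psi2 (ι w2) = pM := by
  rw [psi2, liftG_ι]
  simp only [w2, map_mul, map_inv, snd'_g2]
  rfl

theorem psi1_v1 : psi1 (ι v1) = pU := by
  rw [psi1, liftG_ι]
  simp only [v1, map_mul, map_inv, fst'_g1]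
  exact pDU

theorem psi1_v2 : psi1 (ι v2) = pM := by
  rw [psi1, liftG_ι]
  simp only [v2, map_mul, map_inv, fst'_g1]
  rfl

theorem pU_ne : pU ≠ 1 := by
  intro h
  have := congrArg (fun σ : Equiv.Perm Pl => (σ (0, 1)).1) h
  simp [pU] at this

theorem UM_not_commute {k : ℕ} (hk : 0 < k) : ¬ Commute (pU ^ k) (pM ^ k) := by
  intro h
  have h1 := congrArg (fun σ : Equiv.Perm Pl => (σ (1, 0)).1) h.eq
  simp only [Equiv.Perm.mul_apply, pU_pow, pM_pow] at h1
  have h2 : (k : ℚ) ≠ 0 := by exact_mod_cast hk.ne'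
  apply h2
  have h3 : (k : ℚ) * k = 0 := by linarith
  exact mul_self_eq_zero.mp h3

theorem UL_not_commute {k : ℕ} (hk : 0 < k) : ¬ Commute (pU ^ k) (pL ^ k) := by
  intro h
  have h1 := congrArg (fun σ : Equiv.Perm Pl => (σ (1, 0)).1) h.eq
  simp only [Equiv.Perm.mul_apply, pU_pow, pL_pow] at h1
  have h2 : (k : ℚ) ≠ 0 := by exact_mod_cast hk.ne'
  apply h2
  have h3 : (k : ℚ) * k = 0 := by linarith
  exact mul_self_eq_zero.mp h3

theorem w_not_commute {k : ℕ} (hk : 0 < k) : ¬ Commute (ι w1 ^ k) (ι w2 ^ k) := by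
  intro h
  have := h.map psi2
  rw [map_pow, map_pow, psi2_w1, psi2_w2] at this
  exact UM_not_commute hk this

theorem v_not_commute {k : ℕ} (hk : 0 < k) : ¬ Commute (ι v1 ^ k) (ι v2 ^ k) := by
  intro h
  have := h.map psi1
  rw [map_pow, map_pow, psi1_v1, psi1_v2] at this
  exact UM_not_commute hk this

theorem w1_not_conj (g : G) : g⁻¹ * ι w1 * g ∉ N := by
  intro h
  have hN : N ≤ psi2.ker := N_le (by simp [MonoidHom.mem_ker, psi2])
    (by simp [MonoidHom.mem_ker, psi2, b])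
  have h1 := hN h
  rw [MonoidHom.mem_ker, map_mul, map_mul, map_inv, psi2_w1, mul_assoc, inv_mul_eq_one,
    eq_comm, mul_eq_right] at h1
  exact pU_ne h1

theorem v1_not_conj (g : G) : g⁻¹ * ι v1 * g ∉ N := by
  intro h
  have hN : N ≤ psi1.ker := N_le (by simp [MonoidHom.mem_ker, psi1])
    (by simp [MonoidHom.mem_ker, psi1, b])
  have h1 := hN h
  rw [MonoidHom.mem_ker, map_mul, map_mul, map_inv, psi1_v1, mul_assoc, inv_mul_eq_one,
    eq_comm, mul_eq_right] at h1
  exact pU_ne h1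

/-- The representation detecting `⟨b, b₁⟩`. -/
noncomputable def rho : G →* Equiv.Perm Pl :=
  liftG (fst' ![pU, pL, pU, 1, 1, 1]) pS 1
    (by simp [b, b1]; ext p <;> simp [pS, pU, pL])
    (by simp [b1, b2]; ext p <;> simp [pS, pU, pL]) (by simp [y]) (by simp)

theorem b_not_commute {k : ℕ} (hk : 0 < k) : ¬ Commute (ι b ^ k) (ι b1 ^ k) := by
  intro h
  have := h.map rho
  rw [map_pow, map_pow] at this
  have e1 : rho (ι b) = pU := by simp [rho, b]
  have e2 : rho (ι b1) = pL := by simp [rho, b1]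
  rw [e1, e2] at this
  exact UL_not_commute hk this

/-- The representation detecting `y`. -/
noncomputable def phi : G →* Equiv.Perm (Fin 3) :=
  liftG (snd' ![1, 1, Equiv.swap 1 2 * Equiv.swap 0 1 * (Equiv.swap 1 2)⁻¹ * (Equiv.swap 0 1)⁻¹,
    1, 1, 1]) (Equiv.swap 0 1) (Equiv.swap 1 2) (by simp [b, b1]) (by simp [b1, b2])
    (by simp only [y, snd'_g2]; decide) (by simp [b])

theorem y_not_conj (g : G) : g⁻¹ * ι y * g ∉ N := by
  intro h
  have hN : N ≤ (Subgroup.zpowers (Equiv.swap (0 : Fin 3) 1)).comap phi := by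
    apply N_le
    · rw [Subgroup.mem_comap, phi, liftG_a]; exact Subgroup.mem_zpowers _
    · rw [Subgroup.mem_comap, phi, liftG_ι]
      have : snd' ![1, 1, Equiv.swap 1 2 * Equiv.swap 0 1 * (Equiv.swap 1 2)⁻¹ *
        (Equiv.swap 0 1)⁻¹, 1, 1, 1] b = (1 : Equiv.Perm (Fin 3)) := by simp [b]
      rw [this]; exact Subgroup.one_mem _
  have h1 := hN h
  rw [Subgroup.mem_comap, map_mul, map_mul, map_inv, Subgroup.mem_zpowers_iff] at h1
  obtain ⟨k, hk⟩ := h1
  have hy : phi (ι y) = Equiv.swap 1 2 * Equiv.swap 0 1 * (Equiv.swap 1 2)⁻¹ *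
      (Equiv.swap 0 1)⁻¹ := by
    rw [phi, liftG_ι, y, snd'_g2]; rfl
  rw [hy] at hk
  have hcase : (Equiv.swap (0 : Fin 3) 1) ^ k = 1 ∨
      (Equiv.swap (0 : Fin 3) 1) ^ k = Equiv.swap 0 1 := by
    have h2 : (Equiv.swap (0 : Fin 3) 1) ^ (2 : ℤ) = 1 := by decide
    rcases Int.even_or_odd' k with ⟨m, rfl | rfl⟩
    · left; rw [zpow_mul, h2, one_zpow]
    · right; rw [zpow_add, zpow_mul, h2, one_zpow, one_mul, zpow_one]
  have key : ∀ σ : Equiv.Perm (Fin 3),
      σ⁻¹ * (Equiv.swap 1 2 * Equiv.swap 0 1 * (Equiv.swap 1 2)⁻¹ * (Equiv.swap 0 1)⁻¹) * σ ≠ 1 ∧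
      σ⁻¹ * (Equiv.swap 1 2 * Equiv.swap 0 1 * (Equiv.swap 1 2)⁻¹ * (Equiv.swap 0 1)⁻¹) * σ ≠
        Equiv.swap 0 1 := by decide
  rcases hcase with h3 | h3
  · exact (key (phi g)).1 (hk.symm.trans h3)
  · exact (key (phi g)).2 (hk.symm.trans h3)

end Homs


section Centralizer

open Multiplicative

/-- The elements `b, b₁, b₂`. -/
def bs : Fin 3 → Q := ![b, b1, b2]
/-- Their images under conjugation by `z`. -/
def bs' : Fin 3 → Q := ![b, b1, y * b2 * y⁻¹]

/-- The exponent of `x₀`. -/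
def e0 : Q →* Multiplicative ℤ := fst' ![ofAdd 1, 1, 1, 1, 1, 1]
/-- The exponent of `x₂`. -/
def e2 : Q →* Multiplicative ℤ := fst' ![1, 1, ofAdd 1, 1, 1, 1]

theorem e2_i0 {x : Q} (hx : x ∈ i0.range) : e2 x = 1 := by
  obtain ⟨w, rfl⟩ := hx
  exact cond2 (f := e2.comp i0) (f' := 1) (by simp [e2, b]) (by simp [e2, b1]) w

theorem e0_i1 {x : Q} (hx : x ∈ i1.range) : e0 x = 1 := by
  obtain ⟨w, rfl⟩ := hx
  exact cond2 (f := e0.comp i1) (f' := 1) (by simp [e0, b1]) (by simp [e0, b2]) w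

theorem ofAdd_one_ne : (ofAdd 1 : Multiplicative ℤ) ≠ 1 := by
  intro h
  have := congrArg toAdd h
  simp at this

theorem not_i0 (s : Q) (hs : e2 s = ofAdd 1) (x : Q) : x⁻¹ * s * x ∉ i0.range := by
  intro h
  have := e2_i0 h
  rw [map_mul, map_mul, map_inv, mul_comm (e2 x)⁻¹, inv_mul_cancel_right, hs] at this
  exact ofAdd_one_ne this

theorem not_i1 (s : Q) (hs : e0 s = ofAdd 1) (x : Q) : x⁻¹ * s * x ∉ i1.range := by
  intro h
  have := e0_i1 h
  rw [map_mul, map_mul, map_inv, mul_comm (e0 x)⁻¹, inv_mul_cancel_right, hs] at this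
  exact ofAdd_one_ne this

/-- Elements conjugating the triple into `Q` lie in `Q`. -/
theorem base_bs {g : B} (hg : ∀ k, ∃ q : Q, g * of (bs k) * g⁻¹ = of q) : ∃ x : Q, g = of x := by
  refine base_of_conj (S := Set.range bs) (fun x => ⟨b2, ⟨2, rfl⟩, not_i0 _ ?_ x⟩)
    (fun x => ⟨b, ⟨0, rfl⟩, not_i1 _ ?_ x⟩) ?_
  · simp [e2, b2]
  · simp [e0, b]
  · rintro _ ⟨k, rfl⟩; exact hg k

theorem base_bs' {g : B} (hg : ∀ k, ∃ q : Q, g * of (bs' k) * g⁻¹ = of q) :
    ∃ x : Q, g = of x := by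
  refine base_of_conj (S := Set.range bs') (fun x => ⟨y * b2 * y⁻¹, ⟨2, rfl⟩, not_i0 _ ?_ x⟩)
    (fun x => ⟨b, ⟨0, rfl⟩, not_i1 _ ?_ x⟩) ?_
  · simp [e2, b2, y]
  · simp [e0, b]
  · rintro _ ⟨k, rfl⟩; exact hg k

theorem ofB_inj : Function.Injective (of : Q → B) := of_injective _

theorem C1 {c : B} (hc : ∀ k, c * of (bs k) = of (bs k) * c) : c = 1 := by
  obtain ⟨⟨r, s⟩, rfl⟩ := base_bs (g := c) (fun k => ⟨bs k, by rw [hc k, mul_inv_cancel_right]⟩)
  have h : ∀ k, (r, s) * bs k = bs k * (r, s) := by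
    intro k
    apply ofB_inj
    rw [map_mul, map_mul]
    exact hc k
  have h0 := h 0
  have h1 := h 1
  have h2 := h 2
  simp only [bs, b, b1, b2, g1, g2, Matrix.cons_val_zero, Matrix.cons_val_one, Matrix.cons_val,
    Prod.mk_mul_mk, mul_one, one_mul, Prod.mk.injEq] at h0 h1 h2
  have hr : r = 1 := free_centralizer (j := 0) (k := 1) (by decide) h0.1 h1.1
  have hs : s = 1 := free_centralizer (j := 0) (k := 1) (by decide) h0.2 h2.2
  rw [hr, hs]
  exact map_one _

/-- An automorphism of the second factor. -/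
def tw : F6 →* F6 := FreeGroup.lift ![FreeGroup.of 0,
  (FreeGroup.of 2)⁻¹ * FreeGroup.of 1 * FreeGroup.of 2, FreeGroup.of 2, FreeGroup.of 3,
  FreeGroup.of 4, FreeGroup.of 5]
def tw' : F6 →* F6 := FreeGroup.lift ![FreeGroup.of 0,
  FreeGroup.of 2 * FreeGroup.of 1 * (FreeGroup.of 2)⁻¹, FreeGroup.of 2, FreeGroup.of 3,
  FreeGroup.of 4, FreeGroup.of 5]

theorem tw_inj : Function.Injective tw := by
  have h : tw'.comp tw = MonoidHom.id _ := by
    apply FreeGroup.ext_hom
    intro k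
    fin_cases k <;> simp [tw, tw', mul_assoc]
  exact Function.LeftInverse.injective (g := tw') (fun x => DFunLike.congr_fun h x)

theorem C2 {c : B} (hc : ∀ k, c * of (bs' k) = of (bs' k) * c) : c = 1 := by
  obtain ⟨⟨r, s⟩, rfl⟩ := base_bs' (g := c) (fun k => ⟨bs' k, by rw [hc k, mul_inv_cancel_right]⟩)
  have h : ∀ k, (r, s) * bs' k = bs' k * (r, s) := by
    intro k
    apply ofB_inj
    rw [map_mul, map_mul]
    exact hc k
  have h0 := h 0
  have h1 := h 1
  have h2 := h 2
  simp only [bs', b, b1, b2, y, g1, g2, Matrix.cons_val_zero, Matrix.cons_val_one,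
    Matrix.cons_val, Prod.inv_mk, Prod.mk_mul_mk, mul_one, one_mul, inv_one,
    Prod.mk.injEq] at h0 h1 h2
  have hr : r = 1 := free_centralizer (j := 0) (k := 1) (by decide) h0.1 h1.1
  have hs : tw s = 1 := by
    refine free_centralizer (j := 0) (k := 1) (by decide) ?_ ?_
    · have := congrArg tw h0.2
      rw [map_mul, map_mul] at this
      have e : tw (FreeGroup.of 0) = FreeGroup.of 0 := by simp [tw]
      rw [e] at this
      exact this
    · have := congrArg tw h2.2
      have e : tw (FreeGroup.of 2 * FreeGroup.of 1 * (FreeGroup.of 2)⁻¹) = FreeGroup.of 1 := by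
        simp [tw, mul_assoc]
      rw [map_mul, map_mul _ _ s, e] at this
      exact this
  have hs' : s = 1 := tw_inj (by rw [hs, map_one])
  rw [hr, hs']
  exact map_one _

theorem Dd {c : B} (hc : ∀ k, c * of (bs' k) * c⁻¹ = of (bs k)) : False := by
  obtain ⟨⟨r, s⟩, rfl⟩ := base_bs' (g := c) (fun k => ⟨bs k, hc k⟩)
  have h : ∀ k, (r, s) * bs' k = bs k * (r, s) := by
    intro k
    apply ofB_inj
    rw [map_mul, map_mul, ← hc k]; group
  have h0 := h 0
  have h2 := h 2
  simp only [bs', bs, b, b2, y, g1, g2, Matrix.cons_val_zero,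
    Matrix.cons_val, Prod.inv_mk, Prod.mk_mul_mk, mul_one, one_mul, inv_one,
    Prod.mk.injEq] at h0 h2
  let ρ : F6 →* Equiv.Perm (Fin 3) :=
    FreeGroup.lift ![Equiv.swap 0 1, Equiv.swap 1 2, Equiv.swap 0 2, 1, 1, 1]
  have k0 := congrArg ρ h0.2
  have k2 := congrArg ρ h2.2
  have f0 : ρ (FreeGroup.of 0) = Equiv.swap 0 1 := by simp [ρ]
  have f1 : ρ (FreeGroup.of 1) = Equiv.swap 1 2 := by simp [ρ]
  have f2 : ρ (FreeGroup.of 2) = Equiv.swap 0 2 := by simp [ρ]
  simp only [map_mul, map_inv, f0, f1, f2] at k0 k2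
  have key : ∀ σ : Equiv.Perm (Fin 3), σ * Equiv.swap 0 1 = Equiv.swap 0 1 * σ →
      σ * (Equiv.swap 0 2 * Equiv.swap 1 2 * (Equiv.swap 0 2)⁻¹) ≠ Equiv.swap 1 2 * σ := by
    decide
  exact key _ k0 k2

/-- Words for the triple in the free group of rank two. -/
def wd : Fin 3 → F2 := ![FreeGroup.of 1, FreeGroup.of 0 * FreeGroup.of 1 * (FreeGroup.of 0)⁻¹,
  FreeGroup.of 0 * (FreeGroup.of 0 * FreeGroup.of 1 * (FreeGroup.of 0)⁻¹) * (FreeGroup.of 0)⁻¹]

theorem b_conj : (t : B) * of b * t⁻¹ = of b1 := by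
  have := t_rel i0_inj i1_inj (FreeGroup.of 0)
  rw [i0_0, i1_0] at this
  rw [this]; group

theorem b1_conj : (t : B) * of b1 * t⁻¹ = of b2 := by
  have := t_rel i0_inj i1_inj (FreeGroup.of 1)
  rw [i0_1, i1_1] at this
  rw [this]; group

theorem j0_wd (k : Fin 3) : j0 (wd k) = of (bs k) := by
  fin_cases k
  · simp [wd, bs]
  · simp [wd, bs, b_conj]
  · simp [wd, bs, b_conj, b1_conj]

theorem yt_conj (x : B) : of y * t * x * (of y * t)⁻¹ = of y * (t * x * t⁻¹) * (of y)⁻¹ := by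
  group

theorem y_b1 : (of y : B) * of b1 * (of y)⁻¹ = of b1 := by
  rw [← map_mul, y, b1, ← g_comm, map_mul]; group

theorem j1_wd (k : Fin 3) : j1 (wd k) = of (bs' k) := by
  fin_cases k
  · simp [wd, bs']
  · have : j1 (FreeGroup.of 0 * FreeGroup.of 1 * (FreeGroup.of 0)⁻¹) = of b1 := by
      rw [map_mul, map_mul, map_inv, j1_0, j1_1, yt_conj, b_conj, y_b1]
    exact this
  · have : j1 (FreeGroup.of 0 * FreeGroup.of 1 * (FreeGroup.of 0)⁻¹) = of b1 := by
      rw [map_mul, map_mul, map_inv, j1_0, j1_1, yt_conj, b_conj, y_b1]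
    have h2 : j1 (FreeGroup.of 0 * (FreeGroup.of 0 * FreeGroup.of 1 * (FreeGroup.of 0)⁻¹) *
        (FreeGroup.of 0)⁻¹) = of (y * b2 * y⁻¹) := by
      rw [map_mul, map_mul, map_inv, j1_0, this, yt_conj, b1_conj, map_mul, map_mul, map_inv]
    exact h2

theorem rB_bs (k : Fin 3) : rB (of (bs k)) = wd k := by rw [← j0_wd, rB_j0]
theorem rB_bs' (k : Fin 3) : rB (of (bs' k)) = wd k := by rw [← j1_wd, rB_j1]

theorem rBconj {i : F2 →* B} (hi : ∀ w, rB (i w) = w) {x s : B} (h : x⁻¹ * s * x ∈ i.range) :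
    x⁻¹ * s * x = (i (rB x))⁻¹ * i (rB s) * i (rB x) := by
  obtain ⟨w, hw⟩ := h
  have h1 := hi w
  rw [hw] at h1
  rw [← hw, ← h1]
  simp only [map_mul, map_inv]

/-- The images of the triple in `G`. -/
noncomputable def gb (k : Fin 3) : G := ι (bs k)

/-- The vertices of the tree of the splitting over `N`. -/
abbrev W : Type := Vert (rangeEquiv j0_inj j1_inj)

/-- The tree of the splitting over `N`. -/
noncomputable abbrev TN : SimpleGraph W := graph (rangeEquiv j0_inj j1_inj)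

theorem TN_act : TreeAct G TN := treeAct

theorem local1 {w : W} (hw : TN.Adj (vt 1) w) (hfix : ∀ k, gb k • w = w) : w = vt t⁻¹ := by
  obtain ⟨x, rfl | rfl⟩ := adj_vt_one hw
  · exfalso
    have h1 : ∀ k, x⁻¹ * of (bs k) * x ∈ j1.range := fun k => (fix_t x _).mp (hfix k)
    apply Dd (c := x * (j1 (rB x))⁻¹)
    intro k
    have h2 := rBconj rB_j1 (h1 k)
    rw [rB_bs, j1_wd] at h2
    have : x * (j1 (rB x))⁻¹ * of (bs' k) * (x * (j1 (rB x))⁻¹)⁻¹ =
        x * ((j1 (rB x))⁻¹ * of (bs' k) * j1 (rB x)) * x⁻¹ := by group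
    rw [this, ← h2]; group
  · have h1 : ∀ k, x⁻¹ * of (bs k) * x ∈ j0.range := fun k => (fix_t_inv x _).mp (hfix k)
    have hc : x * (j0 (rB x))⁻¹ = 1 := by
      apply C1
      intro k
      have h2 := rBconj rB_j0 (h1 k)
      rw [rB_bs, j0_wd] at h2
      have : x * (j0 (rB x))⁻¹ * of (bs k) =
          x * ((j0 (rB x))⁻¹ * of (bs k) * j0 (rB x)) * (j0 (rB x))⁻¹ := by group
      rw [this, ← h2]; group
    have hx : x = j0 (rB x) := mul_inv_eq_one.mp hc
    have h3 := t_rel j0_inj j1_inj (rB x)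
    rw [← hx] at h3
    rw [eq_comm, vt_eq_iff]
    refine ⟨j1 (rB x), ?_⟩
    rw [inv_mul_eq_iff_eq_mul, ← mul_assoc, h3]; group

theorem local2 {w : W} (hw : TN.Adj (vt t⁻¹) w) (hfix : ∀ k, gb k • w = w) : w = vt 1 := by
  have hw' : TN.Adj (vt 1) ((t : G) • w) := by
    have := TN_act.adj t _ _ hw
    rwa [smul_vt, mul_inv_cancel] at this
  have hfix' : ∀ k, (of (of (bs' k)) : G) • (t : G) • w = (t : G) • w := by
    intro k
    have h3 := t_rel j0_inj j1_inj (wd k)
    rw [j0_wd, j1_wd] at h3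
    rw [← mul_smul, ← h3, mul_smul]
    congr 1
    exact hfix k
  suffices h : (t : G) • w = vt t by
    have := congrArg (fun v => (t : G)⁻¹ • v) h
    simp only [inv_smul_smul, smul_vt, inv_mul_cancel] at this
    exact this
  generalize (t : G) • w = w' at hw' hfix'
  obtain ⟨x, rfl | rfl⟩ := adj_vt_one hw'
  · have h1 : ∀ k, x⁻¹ * of (bs' k) * x ∈ j1.range := fun k => (fix_t x _).mp (hfix' k)
    have hc : x * (j1 (rB x))⁻¹ = 1 := by
      apply C2
      intro k
      have h2 := rBconj rB_j1 (h1 k)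
      rw [rB_bs', j1_wd] at h2
      have : x * (j1 (rB x))⁻¹ * of (bs' k) =
          x * ((j1 (rB x))⁻¹ * of (bs' k) * j1 (rB x)) * (j1 (rB x))⁻¹ := by group
      rw [this, ← h2]; group
    have hx : x = j1 (rB x) := mul_inv_eq_one.mp hc
    have h3 := t_rel j0_inj j1_inj (rB x)
    rw [← hx] at h3
    rw [eq_comm, vt_eq_iff]
    exact ⟨j0 (rB x), h3⟩
  · exfalso
    have h1 : ∀ k, x⁻¹ * of (bs' k) * x ∈ j0.range := fun k => (fix_t_inv x _).mp (hfix' k)
    apply Dd (c := j0 (rB x) * x⁻¹)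
    intro k
    have h2 := rBconj rB_j0 (h1 k)
    rw [rB_bs', j0_wd] at h2
    have : j0 (rB x) * x⁻¹ * of (bs' k) * (j0 (rB x) * x⁻¹)⁻¹ =
        j0 (rB x) * (x⁻¹ * of (bs' k) * x) * (j0 (rB x))⁻¹ := by group
    rw [this, h2]; group

theorem gb_fix_one (k : Fin 3) : gb k • (vt 1 : W) = vt 1 := (stab_one _).mpr ⟨of (bs k), rfl⟩

theorem gb_mem (k : Fin 3) : gb k ∈ N := by
  fin_cases k
  · exact b_mem_N
  · exact b1_mem_N
  · exact b2_mem_N

theorem stab_N : MulAction.stabilizer G (vt 1 : W) ⊓ MulAction.stabilizer G (vt t⁻¹ : W) = N := by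
  have := stab_edge (φ := rangeEquiv j0_inj j1_inj)
  rw [this, N, ιN, MonoidHom.range_comp]

theorem gb_fix_t (k : Fin 3) : gb k • (vt t⁻¹ : W) = vt t⁻¹ := by
  have := gb_mem k
  rw [← stab_N] at this
  exact this.2

theorem fixed_set {v : W} (hfix : ∀ k, gb k • v = v) : v = vt 1 ∨ v = vt t⁻¹ := by
  by_cases h1 : (vt 1 : W) = v
  · exact Or.inl h1.symm
  right
  obtain ⟨w, hw, hd, hw'⟩ := exists_next TN_act h1
  have hwt := local1 hw (fun k => hw' _ (gb_fix_one k) (hfix k))
  subst hwt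
  by_contra h2
  have h2' : (vt t⁻¹ : W) ≠ v := fun h => h2 h.symm
  obtain ⟨w2, hw2, hd2, hw2'⟩ := exists_next TN_act h2'
  have := local2 hw2 (fun k => hw2' _ (gb_fix_t k) (hfix k))
  subst this
  omega

/-- The centraliser of the triple is contained in `N`. -/
theorem centralizer_le {c : G} (hc : ∀ k, c * gb k = gb k * c) : c ∈ N := by
  have hf : ∀ {v : W}, (∀ k, gb k • v = v) → ∀ k, gb k • c • v = c • v := by
    intro v hv k
    rw [← mul_smul, ← hc k, mul_smul, hv k]
  have hadj : TN.Adj (vt 1) (vt t⁻¹) := adj_base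
  have h1 := fixed_set (hf gb_fix_one)
  have h2 := fixed_set (hf gb_fix_t)
  have hne : c • (vt 1 : W) ≠ c • (vt t⁻¹ : W) := fun h => hadj.ne (smul_left_cancel _ h)
  rcases h1 with h1 | h1
  · rcases h2 with h2 | h2
    · exact absurd (h1.trans h2.symm) hne
    · rw [← stab_N]; exact ⟨h1, h2⟩
  · rcases h2 with h2 | h2
    · exact absurd ⟨h1, h2⟩ (TN_act.noInv c _ _ hadj)
    · exact absurd (h1.trans h2.symm) hne

/-- If a conjugate of `N` contains the triple, then it is `N`. -/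
theorem mem_N_of_conj {g : G} (h : ∀ k, g⁻¹ * gb k * g ∈ N) : g ∈ N := by
  have h1 : g * (ιN (rG g))⁻¹ ∈ N := by
    apply centralizer_le
    intro k
    have h2 := retract_conj (gb_mem k) (h k)
    have : g * (ιN (rG g))⁻¹ * gb k =
        g * ((ιN (rG g))⁻¹ * gb k * ιN (rG g)) * (ιN (rG g))⁻¹ := by group
    rw [this, ← h2]; group
  have := N.mul_mem h1 (⟨rG g, rfl⟩ : ιN (rG g) ∈ N)
  rwa [inv_mul_cancel_right] at this

/-- `y` and `b` do not commute. -/
theorem y_b_not_commute : ι y * ι b ≠ ι b * ι y := by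
  rw [← map_mul, ← map_mul]
  intro h
  have h1 := ι_inj h
  simp only [y, b, g1, g2, Prod.mk_mul_mk, mul_one, one_mul, Prod.mk.injEq, true_and] at h1
  have h2 := congrArg (FreeGroup.lift (![Equiv.swap 0 1, 1, Equiv.swap 0 2, 1, 1, 1] :
    Fin 6 → Equiv.Perm (Fin 3))) h1
  simp at h2
  exact absurd h2 (by decide)

end Centralizer

end Group

end Pool.Agent.Helper270.Unf
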