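import Mathlib
import Pool.Agent.Helper270.Tree
import Pool.Agent.Helper270.HNN
import Pool.Agent.Helper270.FP
import Pool.Agent.Helper270.Unf

set_option autoImplicit false

/-! Facts about free products of two groups. -/

namespace Pool.Agent.Helper270.Cop

open Monoid.Coprod HNNExtension Pool.Agent.Helper270.Tree Pool.Agent.Helper270.HNN
  Pool.Agent.Helper270.FP

section Emb

variable {M N : Type} [Group M] [Group N]

/-- An HNN extension of `M × N` with trivial associated subgroups. -/
abbrev E (M N : Type) [Group M] [Group N] : Type :=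
  HNNExtension (M × N) (⊥ : Subgroup (M × N)) ⊥ (MulEquiv.refl _)

/-- Homomorphisms from `E`. -/
def liftE {H : Type} [Group H] (f : M × N →* H) (x : H) : E M N →* H :=
  HNNExtension.lift f x (by
    rintro ⟨a, ha⟩
    have : a = 1 := ha
    subst this
    simp)

@[simp] theorem liftE_of {H : Type} [Group H] (f : M × N →* H) (x : H) (a : M × N) :
    liftE f x (of a) = f a := by simp [liftE]

@[simp] theorem liftE_t {H : Type} [Group H] (f : M × N →* H) (x : H) :
    liftE f x t = x := by simp [liftE]

/-- The embedding of the free product in `E`. -/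
def emb : Monoid.Coprod M N →* E M N :=
  Monoid.Coprod.lift (of.comp (MonoidHom.inl M N))
    (((MulAut.conj (t : E M N)).toMonoidHom.comp of).comp (MonoidHom.inr M N))

@[simp] theorem emb_inl (m : M) : emb (inl m : Monoid.Coprod M N) = of (m, 1) := by
  simp [emb]

@[simp] theorem emb_inr (n : N) : emb (inr n : Monoid.Coprod M N) = t * of (1, n) * t⁻¹ := by
  simp [emb]

/-- The left regular representation on the first sheet. -/
def kap : E M N →* Equiv.Perm (Monoid.Coprod M N ⊕ Monoid.Coprod M N) :=
  liftE ((Equiv.Perm.sumCongrHom _ _).comp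
    (MonoidHom.prodMap ((MulAction.toPermHom (Monoid.Coprod M N) (Monoid.Coprod M N)).comp inl)
      ((MulAction.toPermHom (Monoid.Coprod M N) (Monoid.Coprod M N)).comp inr)))
    (Equiv.sumComm _ _)

theorem kap_of (m : M) (n : N) (x : Monoid.Coprod M N) :
    kap (of (m, n)) (Sum.inl x) = Sum.inl (inl m * x) := by
  simp [kap]

theorem kap_emb (c x : Monoid.Coprod M N) : kap (emb c) (Sum.inl x) = Sum.inl (c * x) := by
  induction c using Monoid.Coprod.induction_on generalizing x with
  | inl m => simp [kap]
  | inr n =>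
    have hinv : (Equiv.sumComm (Monoid.Coprod M N) (Monoid.Coprod M N))⁻¹ =
      Equiv.sumComm (Monoid.Coprod M N) (Monoid.Coprod M N) := by
      ext z; rcases z with z | z <;> rfl
    simp [kap, hinv]
  | mul a b ha hb => rw [map_mul, map_mul, Equiv.Perm.mul_apply, hb, ha, mul_assoc]

theorem emb_inj : Function.Injective (emb : Monoid.Coprod M N →* E M N) := by
  intro a b h
  have h1 := kap_emb a 1
  rw [h, kap_emb] at h1
  simpa using h1.symm

/-- Malnormality of the left factor. -/
theorem malnormal_inl {c : Monoid.Coprod M N} {m : M} (hm : m ≠ 1) {m' : M}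
    (h : c * inl m * c⁻¹ = inl m') : ∃ m0 : M, c = inl m0 := by
  have h1 : ∃ x, emb c = (of x : E M N) := by
    apply base_of_conj (S := {(m, 1)})
    · intro x
      refine ⟨_, rfl, fun hx => hm ?_⟩
      have : x⁻¹ * (m, 1) * x = 1 := hx
      have h2 : ((m, 1) : M × N) = 1 := by
        have : ((m, 1) : M × N) = x * (x⁻¹ * (m, 1) * x) * x⁻¹ := by group
        rw [this, hx]; group
      exact congrArg Prod.fst h2
    · intro x
      refine ⟨_, rfl, fun hx => hm ?_⟩
      have : x⁻¹ * (m, 1) * x = 1 := hx
      have h2 : ((m, 1) : M × N) = 1 := by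
        have : ((m, 1) : M × N) = x * (x⁻¹ * (m, 1) * x) * x⁻¹ := by group
        rw [this, hx]; group
      exact congrArg Prod.fst h2
    · intro s hs
      rw [Set.mem_singleton_iff] at hs
      subst hs
      refine ⟨(m', 1), ?_⟩
      have h2 := congrArg emb h
      simpa using h2
  obtain ⟨⟨m0, n0⟩, h2⟩ := h1
  refine ⟨m0, ?_⟩
  have h3 := kap_emb c 1
  rw [h2, kap_of] at h3
  simpa using h3.symm

theorem commute_inl {c : Monoid.Coprod M N} {m : M} (hm : m ≠ 1)
    (h : Commute c (inl m)) : ∃ m0 : M, c = inl m0 :=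
  malnormal_inl hm (m' := m) (by rw [h.eq]; group)

theorem commute_inr {c : Monoid.Coprod M N} {n : N} (hn : n ≠ 1)
    (h : Commute c (inr n)) : ∃ n0 : N, c = inr n0 := by
  have h1 : Commute (swap M N c) (inl n) := by
    have := h.map (swap M N)
    simpa using this
  obtain ⟨n0, h2⟩ := commute_inl hn h1
  refine ⟨n0, ?_⟩
  have := congrArg (swap N M) h2
  simpa using this

theorem center_trivial {c : Monoid.Coprod M N} {m : M} {n : N} (hm : m ≠ 1) (hn : n ≠ 1)
    (h : Commute c (inl m)) (h' : Commute c (inr n)) : c = 1 := by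
  obtain ⟨m0, rfl⟩ := commute_inl hm h
  obtain ⟨n0, h2⟩ := commute_inr hn h'
  have h3 := congrArg fst h2
  simp at h3
  rw [h3, map_one]

end Emb

section Free

variable {M N : Type} [Group M] [Group N]

/-- Pairs of nontrivial elements. -/
abbrev X (M N : Type) [Group M] [Group N] : Type := {p : M × N // p.1 ≠ 1 ∧ p.2 ≠ 1}

open Classical in
/-- The generator `xx u v`, equal to one if `u = 1` or `v = 1`. -/
noncomputable def xx (u : M) (v : N) : FreeGroup (X M N) :=
  if h : u ≠ 1 ∧ v ≠ 1 then FreeGroup.of ⟨(u, v), h⟩ else 1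

@[simp] theorem xx_one_left (v : N) : xx (1 : M) v = 1 := by simp [xx]
@[simp] theorem xx_one_right (u : M) : xx u (1 : N) = 1 := by simp [xx]

/-- Action of `M` on the free group. -/
noncomputable def AM (h : M) : FreeGroup (X M N) →* FreeGroup (X M N) :=
  FreeGroup.lift fun p => xx (h * p.1.1) p.1.2 * (xx h p.1.2)⁻¹

/-- Action of `N` on the free group. -/
noncomputable def BN (k : N) : FreeGroup (X M N) →* FreeGroup (X M N) :=
  FreeGroup.lift fun p => (xx p.1.1 k)⁻¹ * xx p.1.1 (k * p.1.2)

theorem AM_xx (h u : M) (v : N) : AM h (xx u v) = xx (h * u) v * (xx h v)⁻¹ := by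
  by_cases hu : u = 1
  · subst hu; simp
  by_cases hv : v = 1
  · subst hv; simp
  conv_lhs => rw [xx, dif_pos ⟨hu, hv⟩]
  simp [AM]

theorem BN_xx (k : N) (u : M) (v : N) : BN k (xx u v) = (xx u k)⁻¹ * xx u (k * v) := by
  by_cases hu : u = 1
  · subst hu; simp
  by_cases hv : v = 1
  · subst hv; simp
  conv_lhs => rw [xx, dif_pos ⟨hu, hv⟩]
  simp [BN]

theorem ext_xx {H : Type} [Group H] {f g : FreeGroup (X M N) →* H}
    (h : ∀ u v, f (xx u v) = g (xx u v)) : f = g := by
  apply FreeGroup.ext_hom
  rintro ⟨⟨u, v⟩, hp⟩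
  have := h u v
  rw [xx, dif_pos hp] at this
  exact this

theorem AM_mul (h h' : M) (w : FreeGroup (X M N)) : AM (h * h') w = AM h (AM h' w) := by
  have : (AM (h * h') : FreeGroup (X M N) →* _) = (AM h).comp (AM h') := by
    apply ext_xx
    intro u v
    simp only [MonoidHom.comp_apply, AM_xx, map_mul, map_inv]
    simp [mul_assoc]
  rw [this]; rfl

theorem AM_one (w : FreeGroup (X M N)) : AM (1 : M) w = w := by
  have : (AM (1 : M) : FreeGroup (X M N) →* _) = MonoidHom.id _ := by
    apply ext_xx
    intro u v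
    simp [AM_xx]
  rw [this]; rfl

theorem BN_mul (k k' : N) (w : FreeGroup (X M N)) : BN (k * k') w = BN k (BN k' w) := by
  have : (BN (k * k') : FreeGroup (X M N) →* _) = (BN k).comp (BN k') := by
    apply ext_xx
    intro u v
    simp only [MonoidHom.comp_apply, BN_xx, map_mul, map_inv]
    simp [mul_assoc]
  rw [this]; rfl

theorem BN_one (w : FreeGroup (X M N)) : BN (1 : N) w = w := by
  have : (BN (1 : N) : FreeGroup (X M N) →* _) = MonoidHom.id _ := by
    apply ext_xx
    intro u v
    simp [BN_xx]
  rw [this]; rfl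

/-- The regular representation in normal form coordinates. -/
noncomputable def reg : Monoid.Coprod M N →* Function.End (FreeGroup (X M N) × M × N) :=
  Monoid.Coprod.lift
    { toFun := fun h y => (AM h y.1, h * y.2.1, y.2.2)
      map_one' := by
        funext y
        simp only [AM_one, one_mul]
        rfl
      map_mul' := by
        intro h h'
        funext y
        simp only [AM_mul, mul_assoc]
        rfl }
    { toFun := fun k y => (BN k y.1 * (xx y.2.1 k)⁻¹, y.2.1, k * y.2.2)
      map_one' := by
        funext y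
        simp only [BN_one, one_mul, xx_one_right, inv_one, mul_one]
        rfl
      map_mul' := by
        intro k k'
        funext y
        change _ = (BN k (BN k' y.1 * (xx y.2.1 k')⁻¹) * (xx y.2.1 k)⁻¹, y.2.1, k * (k' * y.2.2))
        rw [map_mul, map_inv, BN_xx, BN_mul]
        simp [mul_assoc] }

theorem reg_inl (h : M) (y : FreeGroup (X M N) × M × N) :
    reg (inl h) y = (AM h y.1, h * y.2.1, y.2.2) := rfl

theorem reg_inr (k : N) (y : FreeGroup (X M N) × M × N) :
    reg (inr k) y = (BN k y.1 * (xx y.2.1 k)⁻¹, y.2.1, k * y.2.2) := rfl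

theorem reg_mul (a b : Monoid.Coprod M N) (y : FreeGroup (X M N) × M × N) :
    reg (a * b) y = reg a (reg b y) := by rw [map_mul]; rfl

theorem conj_xx (u : M) (v : N) (w : FreeGroup (X M N)) :
    AM u (BN v (AM u⁻¹ (BN v⁻¹ w))) = xx u v * w * (xx u v)⁻¹ := by
  have : ((((AM u).comp (BN v)).comp (AM u⁻¹)).comp (BN v⁻¹) : FreeGroup (X M N) →* _) =
      (MulAut.conj (xx u v)).toMonoidHom := by
    apply ext_xx
    intro a b
    simp only [MonoidHom.comp_apply, AM_xx, BN_xx, map_mul, map_inv, MulEquiv.coe_toMonoidHom,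
      MulAut.conj_apply]
    simp [mul_assoc]
  exact DFunLike.congr_fun this w

/-- The commutator of `u` and `v`. -/
def cm (u : M) (v : N) : Monoid.Coprod M N := inl u * inr v * (inl u)⁻¹ * (inr v)⁻¹

theorem reg_comm (u : M) (v : N) (w : FreeGroup (X M N)) :
    reg (cm u v) (w, 1, 1) = (xx u v * w, 1, 1) := by
  rw [cm, ← map_inv, ← map_inv, reg_mul, reg_mul, reg_mul, reg_inr, reg_inl,
    reg_inr, reg_inl]
  simp only [xx_one_left, inv_one, mul_one, map_mul, map_inv, conj_xx, AM_xx, mul_inv_cancel,
    one_mul, inv_inv]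
  simp

/-- The homomorphism onto the kernel of `M * N → M × N`. -/
noncomputable def commHom : FreeGroup (X M N) →* Monoid.Coprod M N :=
  FreeGroup.lift fun p => cm p.1.1 p.1.2

theorem reg_commHom (x w : FreeGroup (X M N)) :
    reg (commHom x) (w, (1 : M), (1 : N)) = (x * w, 1, 1) := by
  induction x using FreeGroup.induction_on generalizing w with
  | C1 => rw [map_one, map_one, one_mul]; rfl
  | of p =>
    rw [commHom, FreeGroup.lift_apply_of, reg_comm, xx, dif_pos p.2]
  | inv_of p ih =>
    have h1 := ih ((FreeGroup.of p)⁻¹ * w)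
    rw [mul_inv_cancel_left] at h1
    rw [map_inv]
    conv_lhs => rw [← h1, ← reg_mul, inv_mul_cancel, map_one]
    rfl
  | mul a b ha hb => rw [map_mul, reg_mul, hb, ha, mul_assoc]

theorem commHom_inj : Function.Injective (commHom : FreeGroup (X M N) →* Monoid.Coprod M N) := by
  intro x y h
  have h1 := reg_commHom x 1
  rw [h, reg_commHom, mul_one, mul_one] at h1
  exact (congrArg Prod.fst h1).symm

end Free

section Gen

variable {L : Type} [Group L]

/-- The infinite cyclic group. -/
abbrev Z : Type := Multiplicative ℤ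

/-- The generator of the infinite cyclic group. -/
abbrev zg : Z := Multiplicative.ofAdd 1

/-- Every element of `L * Z` is a product of conjugates of the generator and an element of `L`. -/
theorem exists_normal (c : Monoid.Coprod L Z) : ∃ (x : FreeGroup L) (l : L),
    c = FreeGroup.lift (fun l : L => (inl l * inr zg * (inl l)⁻¹ : Monoid.Coprod L Z)) x *
      inl l := by
  set Θ : FreeGroup L →* Monoid.Coprod L Z :=
    FreeGroup.lift (fun l : L => (inl l * inr zg * (inl l)⁻¹ : Monoid.Coprod L Z)) with hΘ
  have hmv : ∀ (l : L) (x : FreeGroup L), inl l * Θ x = Θ (FreeGroup.map (fun l' => l * l') x) *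
      inl l := by
    intro l x
    have : (MulAut.conj (inl l : Monoid.Coprod L Z)).toMonoidHom.comp Θ =
        Θ.comp (FreeGroup.map (fun l' => l * l')) := by
      apply FreeGroup.ext_hom
      intro l'
      simp [hΘ, mul_assoc]
    have h2 := DFunLike.congr_fun this x
    simp only [MonoidHom.comp_apply, MulEquiv.coe_toMonoidHom, MulAut.conj_apply] at h2
    rw [← h2]; group
  induction c using Monoid.Coprod.induction_on' with
  | one => exact ⟨1, 1, by simp⟩
  | inl_mul m c ih =>
    obtain ⟨x, l, rfl⟩ := ih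
    refine ⟨FreeGroup.map (fun l' => m * l') x, m * l, ?_⟩
    rw [← mul_assoc, hmv, map_mul, mul_assoc]
  | inr_mul n c ih =>
    obtain ⟨x, l, rfl⟩ := ih
    refine ⟨FreeGroup.of 1 ^ (Multiplicative.toAdd n) * x, l, ?_⟩
    have : (inr n : Monoid.Coprod L Z) = Θ (FreeGroup.of 1 ^ (Multiplicative.toAdd n)) := by
      rw [map_zpow, hΘ, FreeGroup.lift_apply_of, map_one, one_mul, inv_one, mul_one, ← map_zpow]
      congr 1
      rw [← ofAdd_zsmul, smul_eq_mul, mul_one, ofAdd_toAdd]
    rw [map_mul, ← mul_assoc, this]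

end Gen

end Pool.Agent.Helper270.Cop
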