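import Mathlib

set_option autoImplicit false

/-! Definitions: mapping class groups, free indecomposability, splittings over the integers. -/

namespace Pool.Agent.Helper270.MCG

/-- The relator `[a_0,b_0] ⋯ [a_{n-1},b_{n-1}]`; `a_i` is the generator `(i, false)` and `b_i` the
generator `(i, true)`. -/
def surfaceRelator (n : ℕ) : FreeGroup (Fin n × Bool) :=
  (List.ofFn fun i : Fin n => FreeGroup.of (i, false) * FreeGroup.of (i, true) *
    (FreeGroup.of (i, false))⁻¹ * (FreeGroup.of (i, true))⁻¹).prod

/-- The fundamental group of the closed orientable surface of genus `n`. -/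
abbrev SurfaceGroup (n : ℕ) : Type :=
  PresentedGroup ({surfaceRelator n} : Set (FreeGroup (Fin n × Bool)))

/-- The group structure of a surface group. -/
instance surfaceGroupGroup (n : ℕ) : Group (SurfaceGroup n) := inferInstance

/-- The homology class of an element of a surface group, in the basis given by the standard
generators. -/
def homologyClass (n : ℕ) : SurfaceGroup n →* Multiplicative (Fin n × Bool → ℤ) :=
  PresentedGroup.toGroup (f := fun s => Multiplicative.ofAdd (Pi.single s 1)) (by
    intro r hr
    rw [Set.mem_singleton_iff] at hr
    subst hr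
    rw [surfaceRelator, map_list_prod]
    apply List.prod_eq_one
    intro x hx
    rw [List.mem_map] at hx
    obtain ⟨y, hy, rfl⟩ := hx
    rw [List.mem_ofFn] at hy
    obtain ⟨i, rfl⟩ := hy
    simp [mul_comm])

/-- The algebraic intersection number on homology. -/
def form {n : ℕ} (u v : Multiplicative (Fin n × Bool → ℤ)) : ℤ :=
  ∑ i : Fin n, (u.toAdd (i, false) * v.toAdd (i, true) - u.toAdd (i, true) * v.toAdd (i, false))

/-- The algebraic intersection number of two elements of a surface group. -/
def inter {n : ℕ} (x y : SurfaceGroup n) : ℤ := form (homologyClass n x) (homologyClass n y)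

/-- An automorphism of a surface group is orientation preserving if it preserves the algebraic
intersection number. -/
def OrientationPreserving {n : ℕ} (φ : MulAut (SurfaceGroup n)) : Prop :=
  ∀ x y, inter (φ x) (φ y) = inter x y

theorem OrientationPreserving.mul {n : ℕ} {φ ψ : MulAut (SurfaceGroup n)}
    (hφ : OrientationPreserving φ) (hψ : OrientationPreserving ψ) :
    OrientationPreserving (φ * ψ) := by
  intro x y
  rw [MulAut.mul_apply, MulAut.mul_apply, hφ, hψ]

theorem OrientationPreserving.one {n : ℕ} :
    OrientationPreserving (1 : MulAut (SurfaceGroup n)) := fun _ _ => rfl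

theorem OrientationPreserving.inv {n : ℕ} {φ : MulAut (SurfaceGroup n)}
    (hφ : OrientationPreserving φ) : OrientationPreserving φ⁻¹ := by
  intro x y
  rw [← hφ, MulAut.apply_inv_self, MulAut.apply_inv_self]

/-- The orientation preserving automorphisms of a surface group. -/
def AutPlus (n : ℕ) : Subgroup (MulAut (SurfaceGroup n)) where
  carrier := {φ | OrientationPreserving φ}
  mul_mem' := OrientationPreserving.mul
  one_mem' := OrientationPreserving.one
  inv_mem' := OrientationPreserving.inv

/-- The group structure. -/
instance autPlusGroup (n : ℕ) : Group (AutPlus n) := inferInstance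

/-- The inner automorphisms. -/
def InnerAut (n : ℕ) : Subgroup (AutPlus n) :=
  (MulAut.conj : SurfaceGroup n →* MulAut (SurfaceGroup n)).range.subgroupOf (AutPlus n)

instance (n : ℕ) : (InnerAut n).Normal := by
  refine ⟨?_⟩
  rintro ⟨φ, hφ⟩ hφ' ⟨ψ, hψ⟩
  obtain ⟨x, hx⟩ : ∃ x, MulAut.conj x = φ := hφ'
  refine ⟨ψ x, ?_⟩
  apply MulEquiv.ext
  intro y
  subst hx
  simp

/-- The mapping class group of the closed orientable surface of genus `n`, as the group of
orientation preserving outer automorphisms of its fundamental group. -/
abbrev MappingClassGroup (n : ℕ) : Type := AutPlus n ⧸ InnerAut n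

/-- The group structure of the mapping class group. -/
instance mappingClassGroupGroup (n : ℕ) : Group (MappingClassGroup n) := inferInstance

end Pool.Agent.Helper270.MCG

namespace Pool.Agent.Helper270.Split

/-- `G` is freely indecomposable: it is not isomorphic to a free product of two nontrivial
groups. -/
def FreelyIndecomposable (G : Type) [Group G] : Prop :=
  ¬ ∃ (A B : Type) (_ : Group A) (_ : Group B),
    Nontrivial A ∧ Nontrivial B ∧ Nonempty (G ≃* Monoid.Coprod A B)

/-- `G` splits over the infinite cyclic group: it acts on a simplicial tree without inversions and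
without a global fixed vertex, with one orbit of edges and with infinite cyclic edge
stabilisers. -/
def SplitsOverZ (G : Type) [Group G] : Prop :=
  ∃ (V : Type) (_ : MulAction G V) (T : SimpleGraph V), T.IsTree ∧
    (∀ (g : G) (v w : V), T.Adj v w → T.Adj (g • v) (g • w)) ∧
    (∀ (g : G) (v w : V), T.Adj v w → ¬ (g • v = w ∧ g • w = v)) ∧
    (∀ v : V, ∃ g : G, g • v ≠ v) ∧
    (∀ v w v' w' : V, T.Adj v w → T.Adj v' w' →
      ∃ g : G, (g • v = v' ∧ g • w = w') ∨ (g • v = w' ∧ g • w = v')) ∧
    (∀ v w : V, T.Adj v w → Nonempty
      (↥(MulAction.stabilizer G v ⊓ MulAction.stabilizer G w) ≃* Multiplicative ℤ))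

end Pool.Agent.Helper270.Split

namespace Pool.Agent.Helper270.FIN

/-- The element represented by a word in the letters `s i` and their inverses; the letter
`(i, true)` stands for `s i` and `(i, false)` for its inverse. -/
def evalWord {G : Type} [Group G] {k : ℕ} (s : Fin k → G) (w : List (Fin k × Bool)) : G :=
  (w.map fun x => if x.2 then s x.1 else (s x.1)⁻¹).prod

/-- The subgroup generated by the elements represented by the words in a list. -/
def subgroupOfWords {G : Type} [Group G] {k : ℕ} (s : Fin k → G)
    (ws : List (List (Fin k × Bool))) : Subgroup G :=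
  Subgroup.closure {x | ∃ w ∈ ws, x = evalWord s w}

end Pool.Agent.Helper270.FIN
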