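import Mathlib
import Pool.Agent.Helper270.Cop
import Pool.Agent.Helper270.MCGDef

set_option autoImplicit false

/-! Free decompositions and splittings over the integers. -/

namespace Pool.Agent.Helper270.Split

open Monoid.Coprod HNNExtension Pool.Agent.Helper270.Tree Pool.Agent.Helper270.HNN
  Pool.Agent.Helper270.FP Pool.Agent.Helper270.Cop

theorem FreelyIndecomposable.of_equiv {G H : Type} [Group G] [Group H] (e : G ≃* H)
    (h : FreelyIndecomposable G) : FreelyIndecomposable H := by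
  rintro ⟨A, B, iA, iB, hA, hB, ⟨f⟩⟩
  exact h ⟨A, B, iA, iB, hA, hB, ⟨e.trans f⟩⟩

theorem freelyIndecomposable_iff {G H : Type} [Group G] [Group H] (e : G ≃* H) :
    FreelyIndecomposable G ↔ FreelyIndecomposable H :=
  ⟨fun h => h.of_equiv e, fun h => h.of_equiv e.symm⟩

/-- Stabilisers in a pulled back action. -/
def stabEquiv {G H : Type} [Group G] [Group H] (e : G ≃* H) {S : Subgroup G} {S' : Subgroup H}
    (h : ∀ g, g ∈ S ↔ e g ∈ S') : S ≃* S' where
  toFun x := ⟨e x.1, (h _).mp x.2⟩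
  invFun y := ⟨e.symm y.1, (h _).mpr (by rw [MulEquiv.apply_symm_apply]; exact y.2)⟩
  left_inv x := by simp
  right_inv y := by simp
  map_mul' x y := by ext; simp

theorem SplitsOverZ.of_equiv {G H : Type} [Group G] [Group H] (e : G ≃* H)
    (h : SplitsOverZ H) : SplitsOverZ G := by
  obtain ⟨V, act, T, h1, h2, h3, h4, h5, h6⟩ := h
  let : MulAction G V := MulAction.compHom V e.toMonoidHom
  have hsm : ∀ (g : G) (v : V), g • v = e g • v := fun g v => rfl
  refine ⟨V, inferInstance, T, h1, fun g v w => h2 (e g) v w, fun g v w => h3 (e g) v w, ?_, ?_, ?_⟩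
  · intro v
    obtain ⟨g, hg⟩ := h4 v
    exact ⟨e.symm g, by rw [hsm, MulEquiv.apply_symm_apply]; exact hg⟩
  · intro v w v' w' hvw hvw'
    obtain ⟨g, hg⟩ := h5 v w v' w' hvw hvw'
    exact ⟨e.symm g, by rw [hsm, hsm, MulEquiv.apply_symm_apply]; exact hg⟩
  · intro v w hvw
    obtain ⟨f⟩ := h6 v w hvw
    exact ⟨(stabEquiv e (fun g => Iff.rfl)).trans f⟩

theorem splitsOverZ_iff {G H : Type} [Group G] [Group H] (e : G ≃* H) :
    SplitsOverZ G ↔ SplitsOverZ H :=
  ⟨fun h => h.of_equiv e.symm, fun h => h.of_equiv e⟩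

section NoSplit

variable {G V : Type} [Group G] [MulAction G V] {T : SimpleGraph V}

theorem subgroup_treeAct (h : TreeAct G T) (K : Subgroup G) : TreeAct K T where
  isTree := h.isTree
  adj g v w hvw := h.adj g.1 v w hvw
  noInv g v w hvw := h.noInv g.1 v w hvw

/-- A criterion for a global fixed vertex. -/
theorem exists_fixed (h : TreeAct G T) (N : Subgroup G) (hN : N.Normal) {x y p q r : G}
    (hxy : ¬ Commute x y) (hx : ∀ n ∈ N, Commute n x) (hy : ∀ n ∈ N, Commute n y)
    (hp : p ∈ N) (hq : q ∈ N) (hr : r ∈ N)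
    (hne : ¬ Commute (p * q * p⁻¹ * q⁻¹) (p * r * p⁻¹ * r⁻¹))
    (hab : ∀ u v : V, T.Adj u v → ∀ a b : G, a • u = u → a • v = v → b • u = u → b • v = v →
      Commute a b) : ∃ v : V, ∀ g : G, g • v = v := by
  -- elements commuting with `N` are elliptic
  have hell : ∀ g : G, (∀ n ∈ N, Commute n g) → ∃ v : V, g • v = v := by
    intro g hg
    by_contra hcon
    push Not at hcon
    obtain ⟨L, l, hax⟩ := h.exists_axis hcon
    have hcomm : ∀ a ∈ N, ∀ b ∈ N, ∀ i, (a * b * a⁻¹ * b⁻¹) • L i = L i := by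
      intro a ha b hb i
      obtain ⟨c, hc⟩ := h.commute_axis hax (hg a ha).eq
      obtain ⟨d, hd⟩ := h.commute_axis hax (hg b hb).eq
      have hc' : ∀ i, a⁻¹ • L i = L (-c + i) := by
        intro i; rw [inv_smul_eq_iff, hc]; congr 1; ring
      have hd' : ∀ i, b⁻¹ • L i = L (-d + i) := by
        intro i; rw [inv_smul_eq_iff, hd]; congr 1; ring
      rw [mul_smul, mul_smul, mul_smul, hd', hc', hd, hc]
      congr 1; ring
    exact hne (hab (L 0) (L 1) (by simpa using hax.line.adj 0) _ _ (hcomm p hp q hq 0)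
      (hcomm p hp q hq 1) (hcomm p hp r hr 0) (hcomm p hp r hr 1))
  -- common fixed vertex of `x` and `y`
  let K : Subgroup G := Subgroup.centralizer (N : Set G)
  have hK : ∀ g ∈ K, ∀ n ∈ N, Commute n g := fun g hg n hn =>
    (Subgroup.mem_centralizer_iff.mp hg n hn)
  have hmem : ∀ g : G, (∀ n ∈ N, Commute n g) → g ∈ K := fun g hg =>
    Subgroup.mem_centralizer_iff.mpr fun n hn => hg n hn
  classical
  obtain ⟨v, hv⟩ := (subgroup_treeAct h K).serre (fun g => hell g.1 (hK g.1 g.2))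
    {⟨x, hmem x hx⟩, ⟨y, hmem y hy⟩}
  have hvx : x • v = v := hv ⟨x, hmem x hx⟩ (by simp)
  have hvy : y • v = v := hv ⟨y, hmem y hy⟩ (by simp)
  -- it is unique
  have huniq : ∀ w : V, x • w = w → y • w = w → w = v := by
    intro w hwx hwy
    by_contra hne'
    obtain ⟨u, hu, _, hu'⟩ := exists_next h (u := v) (v := w) (fun h0 => hne' h0.symm)
    exact hxy (hab v u hu x y hvx (hu' x hvx hwx) hvy (hu' y hvy hwy))
  have hNv : ∀ n ∈ N, n • v = v := by
    intro n hn
    apply huniq
    · rw [← mul_smul, ← (hx n hn).eq, mul_smul, hvx]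
    · rw [← mul_smul, ← (hy n hn).eq, mul_smul, hvy]
  have huniqN : ∀ w : V, (∀ n ∈ N, n • w = w) → w = v := by
    intro w hw
    by_contra hne'
    obtain ⟨u, hu, _, hu'⟩ := exists_next h (u := v) (v := w) (fun h0 => hne' h0.symm)
    have hfix : ∀ n ∈ N, n • u = u := fun n hn => hu' n (hNv n hn) (hw n hn)
    have hcm : ∀ a ∈ N, ∀ b ∈ N, a * b * a⁻¹ * b⁻¹ ∈ N := fun a ha b hb =>
      N.mul_mem (N.mul_mem (N.mul_mem ha hb) (N.inv_mem ha)) (N.inv_mem hb)
    exact hne (hab v u hu _ _ (hNv _ (hcm p hp q hq)) (hfix _ (hcm p hp q hq))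
      (hNv _ (hcm p hp r hr)) (hfix _ (hcm p hp r hr)))
  refine ⟨v, fun g => huniqN (g • v) fun n hn => ?_⟩
  have h1 : g⁻¹ * n * g ∈ N := by
    have := hN.conj_mem n hn g⁻¹
    rwa [inv_inv] at this
  have h2 := hNv _ h1
  rw [mul_smul, mul_smul, inv_smul_eq_iff] at h2
  exact h2

end NoSplit

section Applications

variable {G : Type} [Group G]

/-- The configuration which prevents splittings. -/
def Rigid (G : Type) [Group G] : Prop :=
  ∃ N : Subgroup G, N.Normal ∧ ∃ x y p q r : G, ¬ Commute x y ∧ (∀ n ∈ N, Commute n x) ∧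
    (∀ n ∈ N, Commute n y) ∧ p ∈ N ∧ q ∈ N ∧ r ∈ N ∧
    ¬ Commute (p * q * p⁻¹ * q⁻¹) (p * r * p⁻¹ * r⁻¹)

theorem Rigid.not_splitsOverZ (hG : Rigid G) : ¬ SplitsOverZ G := by
  rintro ⟨V, act, T, h1, h2, h3, h4, h5, h6⟩
  obtain ⟨N, hN, x, y, p, q, r, hxy, hx, hy, hp, hq, hr, hne⟩ := hG
  obtain ⟨v, hv⟩ := exists_fixed (T := T) ⟨h1, h2, h3⟩ N hN hxy hx hy hp hq hr hne (by
    intro u v huv a b hau hav hbu hbv
    obtain ⟨f⟩ := h6 u v huv
    let a' : ↥(MulAction.stabilizer G u ⊓ MulAction.stabilizer G v) := ⟨a, hau, hav⟩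
    let b' : ↥(MulAction.stabilizer G u ⊓ MulAction.stabilizer G v) := ⟨b, hbu, hbv⟩
    have : a' * b' = b' * a' := f.injective (by rw [map_mul, map_mul, mul_comm])
    exact congrArg Subtype.val this)
  obtain ⟨g, hg⟩ := h4 v
  exact hg (hv g)

theorem of_fix {A B : Type} [Group A] [Group B] {s : A × B} (hs : s ≠ 1)
    {v : Vert (MulEquiv.refl (⊥ : Subgroup (A × B)))}
    (hv : (of s : E A B) • v = v) : v = vt 1 := by
  by_contra hne
  obtain ⟨w, hw, _, hw'⟩ := exists_next (treeAct (φ := MulEquiv.refl (⊥ : Subgroup (A × B))))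
    (u := vt 1) (v := v) (fun h0 => hne h0.symm)
  have h1 := hw' (of s) ((stab_one _).mpr ⟨_, rfl⟩) hv
  obtain ⟨x, rfl | rfl⟩ := adj_vt_one hw
  · have h2 := (fix_t x _).mp h1
    have h3 : x⁻¹ * s * x = 1 := h2
    apply hs
    have : s = x * (x⁻¹ * s * x) * x⁻¹ := by group
    rw [this, h3]; group
  · have h2 := (fix_t_inv x _).mp h1
    have h3 : x⁻¹ * s * x = 1 := h2
    apply hs
    have : s = x * (x⁻¹ * s * x) * x⁻¹ := by group
    rw [this, h3]; group

theorem edge_trivial {A B : Type} [Group A] [Group B]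
    {u v : Vert (MulEquiv.refl (⊥ : Subgroup (A × B)))}
    (huv : (graph (MulEquiv.refl (⊥ : Subgroup (A × B)))).Adj u v) {a : E A B}
    (hu : a • u = u) (hv : a • v = v) : a = 1 := by
  have key : ∀ g : E A B, a • g • (vt 1 : Vert (MulEquiv.refl (⊥ : Subgroup (A × B)))) =
      g • vt 1 → a • g • (vt t⁻¹ : Vert (MulEquiv.refl (⊥ : Subgroup (A × B)))) = g • vt t⁻¹ →
      a = 1 := by
    intro g h1 h2
    have h3 : g⁻¹ * a * g ∈ MulAction.stabilizer (E A B)
        (vt 1 : Vert (MulEquiv.refl (⊥ : Subgroup (A × B)))) ⊓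
        MulAction.stabilizer (E A B) (vt t⁻¹ : Vert (MulEquiv.refl (⊥ : Subgroup (A × B)))) := by
      rw [Subgroup.mem_inf, MulAction.mem_stabilizer_iff, MulAction.mem_stabilizer_iff]
      rw [mul_smul, mul_smul, h1, inv_smul_smul, mul_smul, mul_smul, h2, inv_smul_smul]
      exact ⟨rfl, rfl⟩
    rw [stab_edge, Subgroup.mem_map] at h3
    obtain ⟨x, hx, h4⟩ := h3
    have hx1 : x = 1 := hx
    rw [hx1, map_one] at h4
    have : a = g * (g⁻¹ * a * g) * g⁻¹ := by group
    rw [this, ← h4]; group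
  obtain ⟨g, ⟨rfl, rfl⟩ | ⟨rfl, rfl⟩⟩ := one_orbit huv
  · exact key g hu hv
  · exact key g hv hu

theorem Rigid.freelyIndecomposable (hG : Rigid G) : FreelyIndecomposable G := by
  rintro ⟨A, B, iA, iB, hA, hB, ⟨e⟩⟩
  obtain ⟨N, hN, x, y, p, q, r, hxy, hx, hy, hp, hq, hr, hne⟩ := hG
  let f : G →* E A B := (emb : Monoid.Coprod A B →* E A B).comp e.toMonoidHom
  have hf : Function.Injective f := emb_inj.comp e.injective
  let : MulAction G (Vert (MulEquiv.refl (⊥ : Subgroup (A × B)))) := MulAction.compHom _ f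
  have hsm : ∀ (g : G) (v : Vert (MulEquiv.refl (⊥ : Subgroup (A × B)))), g • v = f g • v :=
    fun g v => rfl
  have hT := treeAct (φ := MulEquiv.refl (⊥ : Subgroup (A × B)))
  obtain ⟨v, hv⟩ := exists_fixed (G := G) (T := graph (MulEquiv.refl (⊥ : Subgroup (A × B))))
    ⟨hT.isTree, fun g v w => hT.adj (f g) v w, fun g v w => hT.noInv (f g) v w⟩
    N hN hxy hx hy hp hq hr hne (by
      intro u v huv a b hau hav hbu hbv
      have h1 : a = 1 := hf (by rw [map_one]; exact edge_trivial huv hau hav)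
      rw [h1]
      exact Commute.one_left b)
  have hv' : ∀ c : Monoid.Coprod A B, emb c • v = v := by
    intro c
    have := hv (e.symm c)
    rw [hsm] at this
    simpa [f] using this
  obtain ⟨a, ha⟩ := exists_ne (1 : A)
  obtain ⟨b, hb⟩ := exists_ne (1 : B)
  have h1 := hv' (inl a)
  rw [emb_inl] at h1
  have h2 : v = vt 1 := of_fix (fun h => ha (congrArg Prod.fst h)) h1
  have h3 := hv' (inr b)
  rw [emb_inr] at h3
  have h4 : (t : E A B)⁻¹ • v = vt 1 := by
    apply of_fix (s := (1, b)) (fun h => hb (congrArg Prod.snd h))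
    rw [mul_smul, mul_smul] at h3
    exact eq_inv_smul_iff.mpr h3
  rw [← h2] at h4
  have h5 : (t : E A B) • v = v := by
    conv_lhs => rw [← h4]
    rw [smul_inv_smul]
  exact no_fixed_vertex v h5

end Applications

section HNNSplit

variable {G : Type} [Group G] {A B : Subgroup G} (φ : A ≃* B)

theorem edge_stab_equiv {v w : Vert φ} (hvw : (graph φ).Adj v w) :
    Nonempty (↥(MulAction.stabilizer (HNNExtension G A B φ) v ⊓
      MulAction.stabilizer (HNNExtension G A B φ) w) ≃* A) := by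
  have key : Nonempty (↥(MulAction.stabilizer (HNNExtension G A B φ) (vt 1 : Vert φ) ⊓
      MulAction.stabilizer (HNNExtension G A B φ) (vt t⁻¹ : Vert φ)) ≃* A) := by
    rw [stab_edge]
    exact ⟨(Subgroup.equivMapOfInjective _ (of : _ →* HNNExtension G A B φ)
      (HNNExtension.of_injective _)).symm⟩
  obtain ⟨f⟩ := key
  obtain ⟨g, ⟨rfl, rfl⟩ | ⟨rfl, rfl⟩⟩ := one_orbit hvw
  · refine ⟨(stabEquiv (MulAut.conj g⁻¹) fun a => ?_).trans f⟩
    simp only [Subgroup.mem_inf, MulAction.mem_stabilizer_iff, MulAut.conj_apply, inv_inv,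
      mul_smul, inv_smul_eq_iff]
  · refine ⟨(stabEquiv (MulAut.conj g⁻¹) fun a => ?_).trans f⟩
    simp only [Subgroup.mem_inf, MulAction.mem_stabilizer_iff, MulAut.conj_apply, inv_inv,
      mul_smul, inv_smul_eq_iff]
    exact and_comm

theorem splitsOverZ_hnn (e : A ≃* Multiplicative ℤ) : SplitsOverZ (HNNExtension G A B φ) := by
  have hT := treeAct (φ := φ)
  refine ⟨Vert φ, inferInstance, graph φ, hT.isTree, hT.adj, hT.noInv,
    fun v => ⟨t, no_fixed_vertex v⟩, ?_, ?_⟩
  · intro v w v' w' hvw hvw'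
    obtain ⟨g, hg⟩ := one_orbit hvw
    obtain ⟨g', hg'⟩ := one_orbit hvw'
    refine ⟨g' * g⁻¹, ?_⟩
    rcases hg with ⟨rfl, rfl⟩ | ⟨rfl, rfl⟩ <;> rcases hg' with ⟨rfl, rfl⟩ | ⟨rfl, rfl⟩ <;>
      simp [mul_smul]
  · intro v w hvw
    obtain ⟨f⟩ := edge_stab_equiv φ hvw
    exact ⟨f.trans e⟩

end HNNSplit

section Examples

variable {L : Type} [Group L]

/-- `L * Z` is freely decomposable. -/
theorem not_freelyIndecomposable_coprod [Nontrivial L] :
    ¬ FreelyIndecomposable (Monoid.Coprod L Z) := by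
  intro h
  exact h ⟨L, Z, inferInstance, inferInstance, inferInstance, inferInstance,
    ⟨MulEquiv.refl _⟩⟩

variable (l : L)

/-- The inclusion of the cyclic group generated by `l`. -/
def il : Z →* Monoid.Coprod L Z := inl.comp (zpowersHom L l)

variable {l} (hl : Function.Injective (zpowersHom L l))

include hl in
theorem il_inj : Function.Injective (il l) := inl_injective.comp hl

/-- The HNN extension isomorphic to `L * Z`. -/
abbrev HL : Type := HNNExtension (Monoid.Coprod L Z) (il l).range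
    (inr : Z →* Monoid.Coprod L Z).range
    (Pool.Agent.Helper270.Unf.rangeEquiv (il_inj hl) inr_injective)

/-- The map from `L * Z`. -/
noncomputable def toHL : Monoid.Coprod L Z →* HL hl :=
  Monoid.Coprod.lift (of.comp inl) (zpowersHom (HL hl) t)

/-- The map to `L * Z`. -/
noncomputable def ofHL : HL hl →* Monoid.Coprod L Z :=
  HNNExtension.lift
    (Monoid.Coprod.lift inl ((MulAut.conj (inr zg : Monoid.Coprod L Z)).toMonoidHom.comp (il l)))
    (inr zg) (Pool.Agent.Helper270.Unf.lift_cond (il_inj hl) inr_injective _ _ (by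
      intro w
      simp [il]))

theorem ofHL_toHL (c : Monoid.Coprod L Z) : ofHL hl (toHL hl c) = c := by
  have : (ofHL hl).comp (toHL hl) = MonoidHom.id _ := by
    apply Monoid.Coprod.hom_ext
    · ext x
      simp [ofHL, toHL]
    · apply MonoidHom.ext_mint
      simp [ofHL, toHL]
  exact DFunLike.congr_fun this c

theorem toHL_ofHL (c : HL hl) : toHL hl (ofHL hl c) = c := by
  have : (toHL hl).comp (ofHL hl) = MonoidHom.id _ := by
    apply HNNExtension.hom_ext
    · apply Monoid.Coprod.hom_ext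
      · ext x
        simp [ofHL, toHL]
      · apply MonoidHom.ext_mint
        have h1 := Pool.Agent.Helper270.Unf.t_rel (il_inj hl) inr_injective zg
        simp only [ofHL, toHL, MonoidHom.comp_apply, HNNExtension.lift_of, lift_apply_inr,
          MulEquiv.coe_toMonoidHom, MulAut.conj_apply, map_mul, map_inv, MonoidHom.id_apply]
        change _ = (of (inr zg) : HL hl)
        rw [← mul_inv_eq_iff_eq_mul.mpr h1]
        have h2 : Monoid.Coprod.lift (of.comp inl) ((zpowersHom (HL hl)) t)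
            ((il l) (Multiplicative.ofAdd 1)) = (of (il l zg) : HL hl) :=
          Monoid.Coprod.lift_apply_inl _ _ _
        rw [h2]
        simp
    · simp [ofHL, toHL]
  exact DFunLike.congr_fun this c

/-- The isomorphism of `L * Z` with an HNN extension over an infinite cyclic group. -/
noncomputable def equivHL : HL hl ≃* Monoid.Coprod L Z where
  toFun := ofHL hl
  invFun := toHL hl
  left_inv := toHL_ofHL hl
  right_inv := ofHL_toHL hl
  map_mul' := map_mul _

include hl in
theorem splitsOverZ_coprod : SplitsOverZ (Monoid.Coprod L Z) := by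
  apply (splitsOverZ_iff (equivHL hl)).mp
  exact splitsOverZ_hnn _ (MonoidHom.ofInjective (il_inj hl)).symm

end Examples

end Pool.Agent.Helper270.Split
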