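import Mathlib
import Pool.Agent.Helper270.Split

set_option autoImplicit false

/-! The reduction of the word problem to free indecomposability. -/

namespace Pool.Agent.Helper270.Red

open Pool.Agent.Helper270.Split Pool.Agent.Helper270.Cop

/-- The index set of the free generators. -/
abbrev I (m : ℕ) : Type := Fin m ⊕ Bool

/-- The free group. -/
abbrev F (m : ℕ) : Type := FreeGroup (I m)

variable {m : ℕ}

/-- The inclusion of the small free group. -/
def em : FreeGroup (Fin m) →* F m := FreeGroup.map Sum.inl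

/-- The first extra generator. -/
def ey : F m := FreeGroup.of (Sum.inr false)

/-- The second extra generator. -/
def es : F m := FreeGroup.of (Sum.inr true)

/-- Commutator. -/
def comm {G : Type} [Group G] (a b : G) : G := a * b * a⁻¹ * b⁻¹

theorem map_comm' {G H : Type} [Group G] [Group H] (f : G →* H) (a b : G) :
    f (comm a b) = comm (f a) (f b) := by simp [comm]

/-- The double commutator. -/
def rho (w : FreeGroup (Fin m)) : F m := comm (comm (em w) ey) es

section Perm

variable (R : Set (FreeGroup (Fin m)))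

/-- The group of the presentation. -/
abbrev U : Type := FreeGroup (Fin m) ⧸ Subgroup.normalClosure R

/-- The set acted upon. -/
abbrev St : Type := (U R → ℤ) × ℤ

/-- Translations. -/
def tr : U R →* Equiv.Perm (St R) where
  toFun u :=
    { toFun := fun p => (fun v => p.1 (u⁻¹ * v), p.2)
      invFun := fun p => (fun v => p.1 (u * v), p.2)
      left_inv := by intro p; simp
      right_inv := by intro p; simp }
  map_one' := by ext p <;> simp
  map_mul' a b := by
    apply Equiv.ext
    intro p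
    simp [mul_assoc]

open Classical in
/-- Adding the indicator function of the identity. -/
noncomputable def pY : Equiv.Perm (St R) where
  toFun p := (fun v => p.1 v + (if v = 1 then 1 else 0), p.2)
  invFun p := (fun v => p.1 v - (if v = 1 then 1 else 0), p.2)
  left_inv := by intro p; simp
  right_inv := by intro p; simp

/-- Reading off the value at the identity. -/
def pS : Equiv.Perm (St R) where
  toFun p := (p.1, p.2 + p.1 1)
  invFun p := (p.1, p.2 - p.1 1)
  left_inv := by intro p; simp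
  right_inv := by intro p; simp

/-- The shift. -/
def pC (n : ℤ) : Equiv.Perm (St R) where
  toFun p := (p.1, p.2 + n)
  invFun p := (p.1, p.2 - n)
  left_inv := by intro p; simp
  right_inv := by intro p; simp

theorem pC_add (a b : ℤ) : pC R (a + b) = pC R a * pC R b := by
  apply Equiv.ext
  intro p
  simp [pC, add_comm a b, add_assoc]

theorem pC_zero : pC R 0 = 1 := by
  apply Equiv.ext
  intro p
  simp [pC]

/-- The permutation representation. -/
noncomputable def rep : F m →* Equiv.Perm (St R) :=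
  FreeGroup.lift (Sum.elim (fun i => tr R (QuotientGroup.mk (FreeGroup.of i)))
    (fun b => cond b (pS R) (pY R)))

theorem rep_em (w : FreeGroup (Fin m)) : rep R (em w) = tr R (QuotientGroup.mk w) := by
  have : (rep R).comp em = (tr R).comp (QuotientGroup.mk' _) := by
    apply FreeGroup.ext_hom
    intro i
    simp [rep, em]
  exact DFunLike.congr_fun this w

theorem rep_ey : rep R ey = pY R := by simp [rep, ey]
theorem rep_es : rep R es = pS R := by simp [rep, es]

theorem rep_comm (f : F m) (n : ℤ) : Commute (pC R n) (rep R f) := by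
  have : (rep R).range ≤ Subgroup.centralizer {pC R n} := by
    rw [rep, FreeGroup.range_lift_eq_closure, Subgroup.closure_le]
    rintro _ ⟨i, rfl⟩
    rw [SetLike.mem_coe, Subgroup.mem_centralizer_singleton_iff]
    rcases i with i | b
    · apply Equiv.ext
      intro p
      simp [tr, pC]
    · cases b <;>
      · apply Equiv.ext
        intro p
        simp [pY, pS, pC, add_right_comm]
  have h1 := this ⟨f, rfl⟩
  rw [Subgroup.mem_centralizer_singleton_iff] at h1
  exact h1.symm

open Classical in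
theorem rep_inner (u : U R) (p : St R) : comm (tr R u) (pY R) p =
    (fun v => p.1 v - (if v = 1 then 1 else 0) + (if v = u then 1 else 0), p.2) := by
  have h1 : ∀ p, (tr R u) p = (fun v => p.1 (u⁻¹ * v), p.2) := fun p => rfl
  have h2 : ∀ p, (tr R u)⁻¹ p = (fun v => p.1 (u * v), p.2) := fun p => rfl
  have h3 : ∀ p, pY R p = (fun v => p.1 v + (if v = 1 then 1 else 0), p.2) := fun p => rfl
  have h4 : ∀ p, (pY R)⁻¹ p = (fun v => p.1 v - (if v = 1 then 1 else 0), p.2) := fun p => rfl
  simp only [comm, Equiv.Perm.mul_apply, h1, h2, h3, h4, mul_inv_cancel_left,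
    inv_mul_eq_one]
  simp only [eq_comm]

open Classical in
theorem rep_inner_inv (u : U R) (p : St R) : (comm (tr R u) (pY R))⁻¹ p =
    (fun v => p.1 v + (if v = 1 then 1 else 0) - (if v = u then 1 else 0), p.2) := by
  rw [Equiv.Perm.inv_eq_iff_eq, rep_inner]
  ext v
  · simp only; ring
  · rfl

theorem rep_rho {w : FreeGroup (Fin m)} (hw : w ∉ Subgroup.normalClosure R) :
    rep R (rho w) = pC R 1 := by
  classical
  rw [rho, map_comm', map_comm', rep_em, rep_ey, rep_es]
  set u : U R := QuotientGroup.mk w with hu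
  have hu1 : (1 : U R) ≠ u := fun h => hw ((QuotientGroup.eq_one_iff w).mp h.symm)
  have h3 : ∀ p, pS R p = (p.1, p.2 + p.1 1) := fun p => rfl
  have h4 : ∀ p, (pS R)⁻¹ p = (p.1, p.2 - p.1 1) := fun p => rfl
  apply Equiv.ext
  intro p
  change comm (comm (tr R u) (pY R)) (pS R) p = (p.1, p.2 + 1)
  rw [comm, Equiv.Perm.mul_apply, Equiv.Perm.mul_apply, Equiv.Perm.mul_apply, h4, rep_inner_inv,
    h3, rep_inner]
  simp only [if_true, if_neg hu1]
  ext v
  · simp only; ring
  · simp only; ring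

theorem rep_rel {r : FreeGroup (Fin m)} (hr : r ∈ R) : rep R (em r) = 1 := by
  rw [rep_em, (QuotientGroup.eq_one_iff r).mpr (Subgroup.subset_normalClosure hr), map_one]

end Perm

section Theta

variable (R : Set (FreeGroup (Fin m))) (w : FreeGroup (Fin m))

/-- The generators of the fibre product. -/
def gensL : Set (F m × F m) :=
  Set.range (fun i : I m => (FreeGroup.of i, FreeGroup.of i)) ∪
    (fun r => ((1 : F m), em r)) '' R ∪ {(1, rho w)}

/-- The fibre product. -/
def L : Subgroup (F m × F m) := Subgroup.closure (gensL R w)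

variable {R w}

theorem exists_theta (hw : w ∉ Subgroup.normalClosure R) {l : F m × F m} (hl : l ∈ L R w) :
    ∃ n : ℤ, rep R l.2 = rep R l.1 * pC R n := by
  induction hl using Subgroup.closure_induction with
  | mem l hl =>
    rcases hl with (⟨i, rfl⟩ | ⟨r, hr, rfl⟩) | rfl
    · exact ⟨0, by simp [pC_zero]⟩
    · exact ⟨0, by simp [pC_zero, rep_rel R hr]⟩
    · exact ⟨1, by simp [rep_rho R hw]⟩
  | one => exact ⟨0, by simp [pC_zero]⟩
  | mul a b _ _ ha hb =>
    obtain ⟨n, hn⟩ := ha
    obtain ⟨k, hk⟩ := hb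
    refine ⟨n + k, ?_⟩
    rw [Prod.snd_mul, Prod.fst_mul, map_mul, map_mul, hn, hk, pC_add, mul_assoc, mul_assoc]
    congr 1
    rw [← mul_assoc, (rep_comm R b.1 n).eq, mul_assoc]
  | inv a _ ha =>
    obtain ⟨n, hn⟩ := ha
    refine ⟨-n, ?_⟩
    have h1 : pC R (-n) = (pC R n)⁻¹ := by
      rw [eq_inv_iff_mul_eq_one, ← pC_add, neg_add_cancel, pC_zero]
    rw [Prod.snd_inv, Prod.fst_inv, map_inv, map_inv, hn, mul_inv_rev, h1,
      ((rep_comm R a.1 n).inv_inv).eq]

theorem pC_inj {a b : ℤ} (h : pC R a = pC R b) : a = b := by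
  have h1 := congrArg (fun f => (f ((fun _ => 0), 0)).2) h
  simpa [pC] using h1

/-- The exponent. -/
noncomputable def th (hw : w ∉ Subgroup.normalClosure R) (l : L R w) : ℤ :=
  (exists_theta hw l.2).choose

theorem th_spec (hw : w ∉ Subgroup.normalClosure R) (l : L R w) :
    rep R l.1.2 = rep R l.1.1 * pC R (th hw l) := (exists_theta hw l.2).choose_spec

/-- The homomorphism to the integers. -/
noncomputable def theta (hw : w ∉ Subgroup.normalClosure R) : L R w →* Multiplicative ℤ :=
  MonoidHom.mk' (fun l => Multiplicative.ofAdd (th hw l)) (by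
    intro a b
    apply Multiplicative.toAdd.injective
    rw [toAdd_mul, toAdd_ofAdd, toAdd_ofAdd, toAdd_ofAdd]
    apply pC_inj (R := R)
    have h1 := th_spec hw (a * b)
    have h2 := th_spec hw a
    have h3 := th_spec hw b
    rw [Subgroup.coe_mul, Prod.snd_mul, Prod.fst_mul, map_mul, map_mul, h2, h3, mul_assoc,
      mul_assoc, mul_right_inj, ← mul_assoc, (rep_comm R _ _).eq, mul_assoc, mul_right_inj,
      ← pC_add] at h1
    exact h1.symm)

theorem theta_spec (hw : w ∉ Subgroup.normalClosure R) (l : L R w) (n : ℤ)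
    (h : rep R l.1.2 = rep R l.1.1 * pC R n) : theta hw l = Multiplicative.ofAdd n := by
  have h2 := th_spec hw l
  rw [h2, mul_right_inj] at h
  exact congrArg Multiplicative.ofAdd (pC_inj h)

end Theta

/-- A configuration in a group `M`: a copy of `((F × F) * Z) × F(2)`. -/
structure Frame (m : ℕ) (M : Type) [Group M] where
  /-- the first factor -/
  δ : F m × F m →* M
  /-- the second factor -/
  ε : FreeGroup Bool →* M
  /-- the cyclic factor -/
  z : M
  hδε : ∀ p β, Commute (δ p) (ε β)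
  hzε : ∀ β, Commute z (ε β)
  det : ∀ (x : FreeGroup (F m × F m)) (p : F m × F m) (β : FreeGroup Bool),
    FreeGroup.lift (fun l => δ l * z * (δ l)⁻¹) x * δ p * ε β = 1 → x = 1 ∧ p = 1 ∧ β = 1

section Main

variable {M : Type} [Group M] (D : Frame m M) (R : Set (FreeGroup (Fin m)))
  (w : FreeGroup (Fin m))

theorem Frame.δ_inj : Function.Injective D.δ := by
  rw [injective_iff_map_eq_one]
  intro p hp
  exact (D.det 1 p 1 (by simp [hp])).2.1

theorem Frame.ε_inj : Function.Injective D.ε := by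
  rw [injective_iff_map_eq_one]
  intro β hβ
  exact (D.det 1 1 β (by simp [hβ])).2.2

/-- The first generator of the free group of rank two. -/
def gc : FreeGroup Bool := FreeGroup.of false
/-- The second generator of the free group of rank two. -/
def gd : FreeGroup Bool := FreeGroup.of true

/-- The generators of the subgroup. -/
def gens : Set M :=
  Set.range (fun i : I m => D.δ (FreeGroup.of i, FreeGroup.of i)) ∪
    (fun r => D.δ ((1 : F m), em r)) '' R ∪ {D.δ (1, rho w) * D.ε gc, D.z * D.ε gd}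

/-- The subgroup. -/
def H : Subgroup M := Subgroup.closure (gens D R w)

variable {R w}

theorem diag_mem (f : F m) : D.δ (f, f) ∈ H D R w := by
  have : (D.δ.comp ((MonoidHom.id _).prod (MonoidHom.id _))).range ≤ H D R w := by
    rw [MonoidHom.range_eq_map, ← FreeGroup.closure_range_of, MonoidHom.map_closure,
      Subgroup.closure_le]
    rintro _ ⟨_, ⟨i, rfl⟩, rfl⟩
    exact Subgroup.subset_closure (Or.inl (Or.inl ⟨i, rfl⟩))
  exact this ⟨f, rfl⟩

theorem rel_mem {r : FreeGroup (Fin m)} (hr : r ∈ R) : D.δ (1, em r) ∈ H D R w :=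
  Subgroup.subset_closure (Or.inl (Or.inr ⟨r, hr, rfl⟩))

theorem rho_mem : D.δ (1, rho w) * D.ε gc ∈ H D R w :=
  Subgroup.subset_closure (Or.inr (Or.inl rfl))

theorem z_mem : D.z * D.ε gd ∈ H D R w :=
  Subgroup.subset_closure (Or.inr (Or.inr rfl))

theorem snd_mem (hw : w ∈ Subgroup.normalClosure R) : D.δ (1, rho w) ∈ H D R w := by
  let K : Subgroup (F m) := (H D R w).comap (D.δ.comp (MonoidHom.inr _ _))
  have hK : K.Normal := by
    refine ⟨fun n hn g => ?_⟩
    have h1 : D.δ (1, n) ∈ H D R w := hn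
    have h2 := (H D R w).mul_mem ((H D R w).mul_mem (diag_mem D g) h1)
      ((H D R w).inv_mem (diag_mem D g))
    rw [← map_inv, ← map_mul, ← map_mul] at h2
    change D.δ (1, g * n * g⁻¹) ∈ H D R w
    have h3 : ((1 : F m), g * n * g⁻¹) = (g, g) * (1, n) * (g, g)⁻¹ := by
      ext <;> simp
    rw [h3]; exact h2
  have h1 : Subgroup.normalClosure R ≤ K.comap em := by
    have : (K.comap em).Normal := hK.comap em
    apply Subgroup.normalClosure_le_normal
    intro r hr
    exact rel_mem D hr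
  have h2 : em w ∈ K := h1 hw
  have hcm : ∀ a ∈ K, ∀ b, comm a b ∈ K := by
    intro a ha b
    have : comm a b = a * (b * a⁻¹ * b⁻¹) := by simp [comm, mul_assoc]
    rw [this]
    exact K.mul_mem ha (hK.conj_mem _ (K.inv_mem ha) b)
  exact hcm _ (hcm _ h2 _) _

theorem conj_exists {h : M} (hh : h ∈ H D R w) :
    ∃ γ : FreeGroup Bool, ∀ β, h * D.ε β * h⁻¹ = D.ε (γ * β * γ⁻¹) := by
  induction hh using Subgroup.closure_induction with
  | mem h hh =>
    have h1 : ∀ p, ∃ γ : FreeGroup Bool, ∀ β, D.δ p * D.ε β * (D.δ p)⁻¹ = D.ε (γ * β * γ⁻¹) := by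
      intro p
      refine ⟨1, fun β => ?_⟩
      rw [(D.hδε p β).eq]; simp
    rcases hh with (⟨i, rfl⟩ | ⟨r, hr, rfl⟩) | rfl | rfl
    · exact h1 _
    · exact h1 _
    · refine ⟨gc, fun β => ?_⟩
      have h2 := (D.hδε (1, rho w) (gc * β * gc⁻¹)).eq
      rw [map_mul, map_mul, map_inv] at h2
      rw [map_mul, map_mul, map_inv, mul_inv_rev]
      calc _ = D.δ (1, rho w) * (D.ε gc * D.ε β * (D.ε gc)⁻¹) * (D.δ (1, rho w))⁻¹ := by group
        _ = _ := by rw [h2]; group
    · refine ⟨gd, fun β => ?_⟩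
      have h2 := (D.hzε (gd * β * gd⁻¹)).eq
      rw [map_mul, map_mul, map_inv] at h2
      rw [map_mul, map_mul, map_inv, mul_inv_rev]
      calc _ = D.z * (D.ε gd * D.ε β * (D.ε gd)⁻¹) * D.z⁻¹ := by group
        _ = _ := by rw [h2]; group
  | one => exact ⟨1, fun β => by simp⟩
  | mul a b _ _ ha hb =>
    obtain ⟨γ, hγ⟩ := ha
    obtain ⟨γ', hγ'⟩ := hb
    refine ⟨γ * γ', fun β => ?_⟩
    have : a * b * D.ε β * (a * b)⁻¹ = a * (b * D.ε β * b⁻¹) * a⁻¹ := by group
    rw [this, hγ', hγ]
    congr 1; group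
  | inv a _ ha =>
    obtain ⟨γ, hγ⟩ := ha
    refine ⟨γ⁻¹, fun β => ?_⟩
    have h1 := hγ (γ⁻¹ * β * γ)
    have h2 : γ * (γ⁻¹ * β * γ) * γ⁻¹ = β := by group
    rw [h2] at h1
    rw [← h1, inv_inv]; group

theorem eps_c_mem (hw : w ∈ Subgroup.normalClosure R) : D.ε gc ∈ H D R w := by
  have h1 := (H D R w).mul_mem ((H D R w).inv_mem (snd_mem D hw)) (rho_mem D)
  rwa [inv_mul_cancel_left] at h1

theorem conj_eps (β : FreeGroup Bool) :
    (D.z * D.ε gd) * D.ε β * (D.z * D.ε gd)⁻¹ = D.ε (gd * β * gd⁻¹) := by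
  have h1 := (D.hzε (gd * β * gd⁻¹)).eq
  rw [map_mul, map_mul, map_inv] at h1
  rw [map_mul, map_mul, map_inv, mul_inv_rev]
  calc _ = D.z * (D.ε gd * D.ε β * (D.ε gd)⁻¹) * D.z⁻¹ := by group
    _ = _ := by rw [h1]; group

theorem eps_conj_mem {β : FreeGroup Bool} (h : D.ε β ∈ H D R w) :
    D.ε (gd * β * gd⁻¹) ∈ H D R w := by
  rw [← conj_eps]
  exact (H D R w).mul_mem ((H D R w).mul_mem (z_mem D) h) ((H D R w).inv_mem (z_mem D))

/-- In the first case the subgroup is rigid. -/
theorem rigid_of_mem (hw : w ∈ Subgroup.normalClosure R) : Rigid (H D R w) := by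
  have h1 := eps_c_mem D hw
  have h2 := eps_conj_mem D h1
  have h3 := eps_conj_mem D h2
  set β0 : FreeGroup Bool := gc with hβ0
  set β1 : FreeGroup Bool := gd * β0 * gd⁻¹ with hβ1
  set β2 : FreeGroup Bool := gd * β1 * gd⁻¹ with hβ2
  refine ⟨(D.ε.range).subgroupOf (H D R w), ⟨?_⟩, ⟨_, diag_mem D ey⟩, ⟨_, diag_mem D es⟩,
    ⟨_, h1⟩, ⟨_, h2⟩, ⟨_, h3⟩, ?_, ?_, ?_, ?_, ?_, ?_, ?_⟩
  · rintro ⟨n, hn⟩ hn' ⟨g, hg⟩
    obtain ⟨β, rfl⟩ : ∃ β, D.ε β = n := hn'
    obtain ⟨γ, hγ⟩ := conj_exists D hg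
    exact ⟨_, (hγ β).symm⟩
  · intro hcon
    have h4 := congrArg Subtype.val hcon.eq
    rw [Subgroup.coe_mul, Subgroup.coe_mul] at h4
    simp only at h4
    rw [← map_mul, ← map_mul] at h4
    have h5 := congrArg Prod.fst (D.δ_inj h4)
    have h6 : (FreeGroup.of (Sum.inr false) * FreeGroup.of (Sum.inr true) : F m) =
      FreeGroup.of (Sum.inr true) * FreeGroup.of (Sum.inr false) := h5
    have h7 := congrArg (FreeGroup.lift (Sum.elim (fun _ => (1 : FreeGroup Bool))
      (fun b => FreeGroup.of b))) h6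
    simp at h7
    revert h7
    decide
  · rintro ⟨n, hn⟩ ⟨β, hβ⟩
    apply Subtype.ext
    simp only [Subgroup.coe_mul]
    have hβ' : D.ε β = n := hβ
    rw [← hβ', (D.hδε _ _).eq]
  · rintro ⟨n, hn⟩ ⟨β, hβ⟩
    apply Subtype.ext
    simp only [Subgroup.coe_mul]
    have hβ' : D.ε β = n := hβ
    rw [← hβ', (D.hδε _ _).eq]
  · exact ⟨_, rfl⟩
  · exact ⟨_, rfl⟩
  · exact ⟨_, rfl⟩
  · intro hcon
    have h4 := congrArg Subtype.val hcon.eq
    simp only [Subgroup.coe_mul, Subgroup.coe_inv] at h4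
    simp only [← map_mul, ← map_inv] at h4
    have h5 := D.ε_inj h4
    rw [hβ2, hβ1, hβ0] at h5
    revert h5
    unfold gc gd
    decide

open Monoid.Coprod in
/-- The power of the first generator. -/
noncomputable def pc (hw : w ∉ Subgroup.normalClosure R) : L R w →* FreeGroup Bool :=
  (zpowersHom (FreeGroup Bool) gc).comp (theta hw)

/-- The homomorphism from the fibre product. -/
noncomputable def phiL (hw : w ∉ Subgroup.normalClosure R) : L R w →* M :=
  MonoidHom.mk' (fun l => D.δ l.1 * D.ε (pc hw l)) (by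
    intro a b
    rw [Subgroup.coe_mul, map_mul, map_mul, map_mul, mul_assoc, mul_assoc, mul_right_inj,
      ← mul_assoc, ← mul_assoc, (D.hδε b.1 (pc hw a)).eq])

theorem phiL_apply (hw : w ∉ Subgroup.normalClosure R) (l : L R w) :
    phiL D hw l = D.δ l.1 * D.ε (pc hw l) := rfl

/-- The homomorphism from the free product. -/
noncomputable def Phi (hw : w ∉ Subgroup.normalClosure R) : Monoid.Coprod (L R w) Z →* M :=
  Monoid.Coprod.lift (phiL D hw) (zpowersHom M (D.z * D.ε gd))

theorem Phi_inl (hw : w ∉ Subgroup.normalClosure R) (l : L R w) :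
    Phi D hw (Monoid.Coprod.inl l) = D.δ l.1 * D.ε (pc hw l) := by
  rw [Phi, Monoid.Coprod.lift_apply_inl, phiL_apply]

theorem Phi_inr (hw : w ∉ Subgroup.normalClosure R) :
    Phi D hw (Monoid.Coprod.inr zg) = D.z * D.ε gd := by
  rw [Phi, Monoid.Coprod.lift_apply_inr]
  simp

theorem Phi_inj (hw : w ∉ Subgroup.normalClosure R) : Function.Injective (Phi D hw) := by
  rw [injective_iff_map_eq_one]
  intro c hc
  obtain ⟨x, l, rfl⟩ := exists_normal c
  set Θ : FreeGroup (L R w) →* Monoid.Coprod (L R w) Z :=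
    FreeGroup.lift (fun l : L R w => (Monoid.Coprod.inl l * Monoid.Coprod.inr zg *
      (Monoid.Coprod.inl l)⁻¹ : Monoid.Coprod (L R w) Z)) with hΘ
  set Ψ : FreeGroup (F m × F m) →* M := FreeGroup.lift (fun l => D.δ l * D.z * (D.δ l)⁻¹) with hΨ
  have hΨε : ∀ x β, Commute (Ψ x) (D.ε β) := by
    intro x β
    have : Ψ.range ≤ Subgroup.centralizer {D.ε β} := by
      rw [hΨ, FreeGroup.range_lift_eq_closure, Subgroup.closure_le]
      rintro _ ⟨i, rfl⟩
      rw [SetLike.mem_coe, Subgroup.mem_centralizer_singleton_iff]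
      have h1 := D.hδε i β
      have h2 := D.hzε β
      exact ((h1.mul_left h2).mul_left h1.inv_left).eq
    have h1 := this ⟨x, rfl⟩
    rw [Subgroup.mem_centralizer_singleton_iff] at h1
    exact h1
  have key : ∀ x : FreeGroup (L R w), ∃ β, Phi D hw (Θ x) =
      Ψ (FreeGroup.map (fun l : L R w => (l : F m × F m)) x) * D.ε β := by
    intro x
    induction x using FreeGroup.induction_on with
    | C1 => exact ⟨1, by simp⟩
    | of l =>
      refine ⟨pc hw l * gd * (pc hw l)⁻¹, ?_⟩
      rw [hΘ, FreeGroup.lift_apply_of, map_mul, map_mul, map_inv, Phi_inl, Phi_inr,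
        FreeGroup.map.of, hΨ, FreeGroup.lift_apply_of, map_mul, map_mul, map_inv]
      have h1 := D.hδε l.1 (pc hw l)
      have h2 := D.hzε (pc hw l)
      have h3 := D.hδε l.1 (pc hw l * gd * (pc hw l)⁻¹)
      rw [map_mul, map_mul, map_inv] at h3
      calc D.δ l.1 * D.ε (pc hw l) * (D.z * D.ε gd) * (D.δ l.1 * D.ε (pc hw l))⁻¹
          = D.δ l.1 * (D.ε (pc hw l) * D.z) * D.ε gd * (D.ε (pc hw l))⁻¹ * (D.δ l.1)⁻¹ := by
            group
        _ = D.δ l.1 * D.z * ((D.ε (pc hw l) * D.ε gd * (D.ε (pc hw l))⁻¹) * (D.δ l.1)⁻¹) := by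
            rw [← h2.eq]; group
        _ = _ := by rw [← h3.inv_left.eq]; group
    | inv_of l ih =>
      obtain ⟨β, hβ⟩ := ih
      refine ⟨β⁻¹, ?_⟩
      rw [map_inv, map_inv, hβ, mul_inv_rev, map_inv, map_inv, map_inv]
      exact ((hΨε _ β).inv_inv).eq.symm
    | mul a b ha hb =>
      obtain ⟨β, hβ⟩ := ha
      obtain ⟨β', hβ'⟩ := hb
      refine ⟨β * β', ?_⟩
      rw [map_mul, map_mul, hβ, hβ', map_mul, map_mul, map_mul, mul_assoc, mul_assoc,
        mul_right_inj, ← mul_assoc, ← mul_assoc, (hΨε _ β).eq]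
  obtain ⟨β, hβ⟩ := key x
  rw [map_mul, hβ, Phi_inl] at hc
  have h1 := D.det (FreeGroup.map (fun l : L R w => (l : F m × F m)) x) l.1 (β * pc hw l) (by
    rw [map_mul, ← hc]
    have h2 := (D.hδε l.1 β).eq
    rw [mul_assoc, mul_assoc, mul_right_inj, ← mul_assoc, ← mul_assoc, h2])
  have h2 : x = 1 := by
    apply FreeGroup.map_injective Subtype.val_injective
    rw [h1.1, map_one]
  have h3 : l = 1 := Subtype.ext h1.2.1
  rw [h2, h3, map_one, map_one, one_mul]

theorem Phi_range (hw : w ∉ Subgroup.normalClosure R) : (Phi D hw).range = H D R w := by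
  have hgen : ∀ (l : F m × F m) (n : ℤ) (hl : l ∈ L R w),
      rep R l.2 = rep R l.1 * pC R n → Phi D hw (Monoid.Coprod.inl ⟨l, hl⟩) =
        D.δ l * D.ε (gc ^ n) := by
    intro l n hl h
    rw [Phi_inl, pc, MonoidHom.comp_apply, theta_spec hw ⟨l, hl⟩ n h]
    rfl
  have hd : ∀ i : I m, ((FreeGroup.of i, FreeGroup.of i) : F m × F m) ∈ L R w := fun i =>
    Subgroup.subset_closure (Or.inl (Or.inl ⟨i, rfl⟩))
  have hr : ∀ r ∈ R, ((1, em r) : F m × F m) ∈ L R w := fun r hr =>
    Subgroup.subset_closure (Or.inl (Or.inr ⟨r, hr, rfl⟩))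
  have hρ : ((1, rho w) : F m × F m) ∈ L R w := Subgroup.subset_closure (Or.inr rfl)
  have ed : ∀ i : I m, Phi D hw (Monoid.Coprod.inl ⟨_, hd i⟩) =
      D.δ (FreeGroup.of i, FreeGroup.of i) := fun i => by
    rw [hgen _ 0 (hd i) (by simp [pC_zero])]; simp
  have er : ∀ r (hr' : r ∈ R), Phi D hw (Monoid.Coprod.inl ⟨_, hr r hr'⟩) = D.δ (1, em r) :=
    fun r hr' => by
    rw [hgen _ 0 (hr r hr') (by simp [pC_zero, rep_rel R hr'])]; simp
  have eρ : Phi D hw (Monoid.Coprod.inl ⟨_, hρ⟩) = D.δ (1, rho w) * D.ε gc := by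
    rw [hgen _ 1 hρ (by simp [rep_rho R hw])]; simp
  apply le_antisymm
  · rw [Phi, Monoid.Coprod.range_lift, sup_le_iff]
    constructor
    · have h1 : L R w ≤ ((H D R w).comap (phiL D hw)).map (L R w).subtype := by
        conv_lhs => rw [L]
        rw [Subgroup.closure_le]
        rintro l ((⟨i, rfl⟩ | ⟨r, hr', rfl⟩) | rfl)
        · refine ⟨⟨_, hd i⟩, ?_, rfl⟩
          have := ed i
          rw [Phi_inl, ← phiL_apply] at this
          change phiL D hw _ ∈ H D R w
          rw [this]
          exact Subgroup.subset_closure (Or.inl (Or.inl ⟨i, rfl⟩))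
        · refine ⟨⟨_, hr r hr'⟩, ?_, rfl⟩
          have := er r hr'
          rw [Phi_inl, ← phiL_apply] at this
          change phiL D hw _ ∈ H D R w
          rw [this]
          exact rel_mem D hr'
        · refine ⟨⟨_, hρ⟩, ?_, rfl⟩
          have := eρ
          rw [Phi_inl, ← phiL_apply] at this
          change phiL D hw _ ∈ H D R w
          rw [this]
          exact rho_mem D
      rintro _ ⟨l, rfl⟩
      obtain ⟨l', hl', h2⟩ := h1 l.2
      have h3 : l' = l := Subtype.ext h2
      rw [← h3]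
      exact hl'
    · rintro _ ⟨n, rfl⟩
      exact (H D R w).zpow_mem (z_mem D) _
  · rw [H, Subgroup.closure_le]
    rintro _ ((⟨i, rfl⟩ | ⟨r, hr', rfl⟩) | rfl | rfl)
    · exact ⟨_, ed i⟩
    · exact ⟨_, er r hr'⟩
    · exact ⟨_, eρ⟩
    · exact ⟨_, Phi_inr D hw⟩

/-- In the second case the subgroup is a free product. -/
noncomputable def equiv_of_not_mem (hw : w ∉ Subgroup.normalClosure R) :
    H D R w ≃* Monoid.Coprod (L R w) Z :=
  ((MonoidHom.ofInjective (Phi_inj D hw)).trans (MulEquiv.subgroupCongr (Phi_range D hw))).symm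

/-- An element of infinite order. -/
def l0 : L R w := ⟨(ey, ey), Subgroup.subset_closure (Or.inl (Or.inl ⟨Sum.inr false, rfl⟩))⟩

theorem l0_inj : Function.Injective (zpowersHom (L R w) l0) := by
  rw [injective_iff_map_eq_one]
  intro n hn
  have h1 : ((l0 : L R w) ^ (Multiplicative.toAdd n)) = 1 := hn
  have h2 := congrArg (fun l : L R w => l.1.1) h1
  have h3 : (ey : F m) ^ (Multiplicative.toAdd n) = 1 := by
    simpa [l0] using h2
  have h4 := congrArg (FreeGroup.lift (fun _ => (Multiplicative.ofAdd (1 : ℤ)))) h3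
  rw [map_zpow, ey, FreeGroup.lift_apply_of, MonoidHom.map_one, ← ofAdd_zsmul, smul_eq_mul,
    mul_one] at h4
  exact h4

theorem main_iff : (FreelyIndecomposable (H D R w) ↔ w ∈ Subgroup.normalClosure R) ∧
    (SplitsOverZ (H D R w) ↔ w ∉ Subgroup.normalClosure R) := by
  by_cases hw : w ∈ Subgroup.normalClosure R
  · have h1 := rigid_of_mem D hw
    exact ⟨⟨fun _ => hw, fun _ => h1.freelyIndecomposable⟩,
      ⟨fun h => absurd h h1.not_splitsOverZ, fun h => absurd hw h⟩⟩
  · have e := equiv_of_not_mem D hw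
    have hnt : Nontrivial (L R w) := by
      refine ⟨l0, 1, fun h => ?_⟩
      have h1 := l0_inj (R := R) (w := w) (a₁ := Multiplicative.ofAdd 1) (a₂ := 1) (by simp [h])
      exact absurd h1 (by decide)
    refine ⟨⟨fun h => ?_, fun h => absurd h hw⟩, ⟨fun _ => hw, fun _ => ?_⟩⟩
    · exact absurd ((freelyIndecomposable_iff e).mp h) not_freelyIndecomposable_coprod
    · exact (splitsOverZ_iff e).mpr (splitsOverZ_coprod l0_inj)

end Main

end Pool.Agent.Helper270.Red
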