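import Mathlib
import Pool.Agent.Helper270.MCGDef

set_option autoImplicit false

/-! Mapping class groups of closed orientable surfaces, as outer automorphism groups. -/

namespace Pool.Agent.Helper270.MCG

section Form

variable {n : ℕ}

theorem form_mul_left (u u' v : Multiplicative (Fin n × Bool → ℤ)) :
    form (u * u') v = form u v + form u' v := by
  simp only [form, toAdd_mul, Pi.add_apply, ← Finset.sum_add_distrib]
  apply Finset.sum_congr rfl
  intro i _
  ring

theorem form_mul_right (u v v' : Multiplicative (Fin n × Bool → ℤ)) :
    form u (v * v') = form u v + form u v' := by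
  simp only [form, toAdd_mul, Pi.add_apply, ← Finset.sum_add_distrib]
  apply Finset.sum_congr rfl
  intro i _
  ring

theorem form_one_left (v : Multiplicative (Fin n × Bool → ℤ)) : form 1 v = 0 := by
  simp [form]

theorem form_one_right (v : Multiplicative (Fin n × Bool → ℤ)) : form v 1 = 0 := by
  simp [form]

theorem form_inv_left (u v : Multiplicative (Fin n × Bool → ℤ)) : form u⁻¹ v = - form u v := by
  have := form_mul_left u u⁻¹ v
  rw [mul_inv_cancel, form_one_left] at this
  linarith

theorem form_inv_right (u v : Multiplicative (Fin n × Bool → ℤ)) : form u v⁻¹ = - form u v := by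
  have := form_mul_right u v v⁻¹
  rw [mul_inv_cancel, form_one_right] at this
  linarith

/-- It suffices to compare forms on generators. -/
theorem form_gens {k : ℕ} {K : Type} [Group K] {S : Set K} (hS : Subgroup.closure S = ⊤)
    (h1 : K →* Multiplicative (Fin n × Bool → ℤ)) (h2 : K →* Multiplicative (Fin k × Bool → ℤ))
    (h : ∀ s ∈ S, ∀ t ∈ S, form (h1 s) (h1 t) = form (h2 s) (h2 t)) (x y : K) :
    form (h1 x) (h1 y) = form (h2 x) (h2 y) := by
  have hx : x ∈ Subgroup.closure S := by rw [hS]; trivial
  have hy : y ∈ Subgroup.closure S := by rw [hS]; trivial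
  have key : ∀ s ∈ S, ∀ y ∈ Subgroup.closure S, form (h1 s) (h1 y) = form (h2 s) (h2 y) := by
    intro s hs y hy
    induction hy using Subgroup.closure_induction with
    | mem t ht => exact h s hs t ht
    | one => rw [map_one, map_one, form_one_right, form_one_right]
    | mul a b _ _ ha hb => rw [map_mul, map_mul, form_mul_right, form_mul_right, ha, hb]
    | inv a _ ha => rw [map_inv, map_inv, form_inv_right, form_inv_right, ha]
  induction hx using Subgroup.closure_induction with
  | mem s hs => exact key s hs y hy
  | one => rw [map_one, map_one, form_one_left, form_one_left]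
  | mul a b _ _ ha hb => rw [map_mul, map_mul, form_mul_left, form_mul_left, ha, hb]
  | inv a _ ha => rw [map_inv, map_inv, form_inv_left, form_inv_left, ha]

end Form

end Pool.Agent.Helper270.MCG
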