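import Mathlib

set_option autoImplicit false

/-! Ping-pong in `ℤ × ℤ`. -/

namespace Pool.Agent.Helper270.PP

/-- The free abelian group of rank two. -/
abbrev G : Type := Multiplicative (ℤ × ℤ)

/-- The first basis element. -/
abbrev e : G := Multiplicative.ofAdd (1, 0)
/-- The second basis element. -/
abbrev f : G := Multiplicative.ofAdd (0, 1)

/-- Powers of the first transvection. -/
def hA (n : ℤ) : MulAut G where
  toFun p := Multiplicative.ofAdd (p.toAdd.1 + n * p.toAdd.2, p.toAdd.2)
  invFun p := Multiplicative.ofAdd (p.toAdd.1 - n * p.toAdd.2, p.toAdd.2)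
  left_inv p := by simp
  right_inv p := by simp
  map_mul' p q := by
    apply Multiplicative.toAdd.injective
    ext <;> simp <;> ring

/-- Powers of the second transvection. -/
def hB (n : ℤ) : MulAut G where
  toFun p := Multiplicative.ofAdd (p.toAdd.1, p.toAdd.2 + n * p.toAdd.1)
  invFun p := Multiplicative.ofAdd (p.toAdd.1, p.toAdd.2 - n * p.toAdd.1)
  left_inv p := by simp
  right_inv p := by simp
  map_mul' p q := by
    apply Multiplicative.toAdd.injective
    ext <;> simp <;> ring

/-- The power homomorphism. -/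
def hAz : Multiplicative ℤ →* MulAut G where
  toFun n := hA n.toAdd
  map_one' := by
    apply MulEquiv.ext
    intro p
    simp [hA]
  map_mul' a b := by
    apply MulEquiv.ext
    intro p
    apply Multiplicative.toAdd.injective
    ext <;> simp [hA] <;> ring

/-- The power homomorphism. -/
def hBz : Multiplicative ℤ →* MulAut G where
  toFun n := hB n.toAdd
  map_one' := by
    apply MulEquiv.ext
    intro p
    simp [hB]
  map_mul' a b := by
    apply MulEquiv.ext
    intro p
    apply Multiplicative.toAdd.injective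
    ext <;> simp [hB] <;> ring

theorem hA_pow (n : ℤ) : (hA 1) ^ n = hA n := by
  have : hA 1 = hAz (Multiplicative.ofAdd 1) := rfl
  rw [this, ← map_zpow, ← ofAdd_zsmul, smul_eq_mul, mul_one]; rfl

theorem hB_pow (n : ℤ) : (hB 1) ^ n = hB n := by
  have : hB 1 = hBz (Multiplicative.ofAdd 1) := rfl
  rw [this, ← map_zpow, ← ofAdd_zsmul, smul_eq_mul, mul_one]; rfl

/-- The representation of the free group of rank two. -/
def rho0 : FreeGroup Bool →* MulAut G := FreeGroup.lift fun b => cond b (hB 1) (hA 1)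

variable {ι : Type}

/-- The free subgroup. -/
def sub (idx : ι → ℤ) : FreeGroup ι →* FreeGroup Bool :=
  FreeGroup.lift fun i => (FreeGroup.of false) ^ (2 * idx i) * (FreeGroup.of true) ^ (2 : ℤ) *
    ((FreeGroup.of false) ^ (2 * idx i))⁻¹

/-- The representation. -/
def rep (idx : ι → ℤ) : FreeGroup ι →* MulAut G := rho0.comp (sub idx)

theorem rep_of (idx : ι → ℤ) (i : ι) :
    rep idx (FreeGroup.of i) = hA (2 * idx i) * hB 2 * (hA (2 * idx i))⁻¹ := by
  simp only [rep, sub, rho0, MonoidHom.comp_apply, FreeGroup.lift_apply_of, map_mul, map_inv,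
    map_zpow, cond_false, cond_true, hA_pow, hB_pow]

/-- Sign of a boolean. -/
def sg (b : Bool) : ℤ := if b then 1 else -1

theorem rep_letter (idx : ι → ℤ) (i : ι) (b : Bool) (p : G) :
    rep idx (FreeGroup.mk [(i, b)]) p = Multiplicative.ofAdd
      (p.toAdd.1 - 2 * (idx i * p.toAdd.2) + 2 * (idx i * (p.toAdd.2 + 2 * sg b *
        (p.toAdd.1 - 2 * (idx i * p.toAdd.2)))),
        p.toAdd.2 + 2 * sg b * (p.toAdd.1 - 2 * (idx i * p.toAdd.2))) := by
  have h1 : ∀ n p, hA n p = Multiplicative.ofAdd (p.toAdd.1 + n * p.toAdd.2, p.toAdd.2) :=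
    fun n p => rfl
  have h2 : ∀ n p, (hA n)⁻¹ p = Multiplicative.ofAdd (p.toAdd.1 - n * p.toAdd.2, p.toAdd.2) :=
    fun n p => rfl
  have h3 : ∀ n p, hB n p = Multiplicative.ofAdd (p.toAdd.1, p.toAdd.2 + n * p.toAdd.1) :=
    fun n p => rfl
  have h4 : ∀ n p, (hB n)⁻¹ p = Multiplicative.ofAdd (p.toAdd.1, p.toAdd.2 - n * p.toAdd.1) :=
    fun n p => rfl
  cases b with
  | true =>
    change rep idx (FreeGroup.of i) p = _
    rw [rep_of, MulAut.mul_apply, MulAut.mul_apply, h2, h3, h1]
    apply Multiplicative.toAdd.injective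
    ext <;> simp [sg] <;> ring
  | false =>
    change rep idx (FreeGroup.of i)⁻¹ p = _
    rw [map_inv, rep_of, mul_inv_rev, mul_inv_rev, inv_inv, MulAut.mul_apply, MulAut.mul_apply,
      h2, h4, h1]
    apply Multiplicative.toAdd.injective
    ext <;> simp [sg] <;> ring

/-- The ping-pong sets. -/
def Q (b : Bool) (x y : ℤ) : Prop :=
  x.natAbs < y.natAbs ∧ ((0 < x ∧ 0 < sg b * y) ∨ (x < 0 ∧ sg b * y < 0))

theorem step (k k' : ℤ) (b b' : Bool) (x y : ℤ) (h : Q b' (x - 2 * (k' * y)) y)
    (hb : k = k' → b = b') :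
    Q b (x - 2 * (k * y)) (y + 2 * sg b * (x - 2 * (k * y))) := by
  by_cases hk : k = k'
  · subst hk
    obtain rfl := hb rfl
    unfold Q at *
    cases b <;> simp only [sg, if_true, if_false, Bool.false_eq_true] at * <;> omega
  · have h1 : y.natAbs ≤ ((k' - k) * y).natAbs := by
      rw [Int.natAbs_mul]
      exact Nat.le_mul_of_pos_left _ (by omega)
    have h2 : x - 2 * (k * y) = x - 2 * (k' * y) + 2 * ((k' - k) * y) := by ring
    rw [h2]
    generalize (k' - k) * y = t at h1
    generalize x - 2 * (k' * y) = u at *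
    unfold Q at *
    cases b <;> cases b' <;> simp only [sg, if_true, if_false, Bool.false_eq_true] at * <;> omega

theorem pingpong {idx : ι → ℤ} (hidx : Function.Injective idx) (i : ι) (b : Bool)
    (L : List (ι × Bool)) (hL : FreeGroup.IsReduced ((i, b) :: L)) :
    Q b ((rep idx (FreeGroup.mk ((i, b) :: L)) e).toAdd.1 -
      2 * (idx i * (rep idx (FreeGroup.mk ((i, b) :: L)) e).toAdd.2))
      (rep idx (FreeGroup.mk ((i, b) :: L)) e).toAdd.2 := by
  induction L generalizing i b with
  | nil =>
    rw [rep_letter]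
    unfold Q
    cases b <;> simp [sg]
  | cons c L ih =>
    obtain ⟨i', b'⟩ := c
    rw [FreeGroup.IsReduced, List.isChain_cons_cons] at hL
    have h1 := ih i' b' hL.2
    have h2 : (FreeGroup.mk ((i, b) :: (i', b') :: L) : FreeGroup ι) =
        FreeGroup.mk [(i, b)] * FreeGroup.mk ((i', b') :: L) := by
      rw [FreeGroup.mul_mk]; rfl
    rw [h2, map_mul, MulAut.mul_apply, rep_letter]
    have h3 := step (idx i) (idx i') b b' _ _ h1 (fun h => hL.1 (hidx h))
    simp only [toAdd_ofAdd]
    convert h3 using 1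
    ring

theorem rep_faithful {idx : ι → ℤ} (hidx : Function.Injective idx) {w : FreeGroup ι}
    (hw : rep idx w e = e) : w = 1 := by
  classical
  by_contra hne
  have hL : w.toWord ≠ [] := fun h => hne (FreeGroup.toWord_eq_nil_iff.mp h)
  obtain ⟨⟨i, b⟩, L, hiL⟩ := List.exists_cons_of_ne_nil hL
  have h1 := pingpong hidx i b L (by rw [← hiL]; exact FreeGroup.isReduced_toWord)
  rw [← hiL, FreeGroup.mk_toWord, hw] at h1
  unfold Q at h1
  simp at h1

theorem rep_inj {idx : ι → ℤ} (hidx : Function.Injective idx) {w w' : FreeGroup ι}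
    (hw : rep idx w e = rep idx w' e) : w = w' := by
  have h1 : rep idx (w'⁻¹ * w) e = e := by
    rw [map_mul, MulAut.mul_apply, hw, map_inv, MulAut.inv_apply_self]
  have h2 := rep_faithful hidx h1
  exact (inv_mul_eq_one.mp h2).symm

end Pool.Agent.Helper270.PP
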