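import Mathlib
import Pool.Agent.Helper270.MCG
import Pool.Agent.Helper270.PP
import Pool.Agent.Helper270.Cop

set_option autoImplicit false

/-! Automorphisms of the free group of rank six compatible with the free product. -/

namespace Pool.Agent.Helper270.TT

open Pool.Agent.Helper270.MCG Pool.Agent.Helper270.PP Monoid.Coprod

/-- Generators of the first three handles. -/
abbrev S6 : Type := Fin 3 × Bool
/-- The free group on the first three handles. -/
abbrev F6 : Type := FreeGroup S6
/-- Two factors. -/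
abbrev GG : Type := Monoid.Coprod G G
/-- Three factors. -/
abbrev P : Type := Monoid.Coprod GG G

/-- The inclusions of the factors. -/
def hd : Fin 3 → (G →* P)
  | 0 => inl.comp inl
  | 1 => inl.comp inr
  | 2 => inr

/-- The quotient map. -/
def q : F6 →* P := FreeGroup.lift fun s => hd s.1 (cond s.2 f e)

theorem q_of (i : Fin 3) (b : Bool) : q (FreeGroup.of (i, b)) = hd i (cond b f e) := by
  simp [q]

theorem closure_ef : Subgroup.closure {e, f} = (⊤ : Subgroup G) := by
  rw [eq_top_iff]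
  rintro x -
  have h1 : x = e ^ x.toAdd.1 * f ^ x.toAdd.2 := by
    apply Multiplicative.toAdd.injective
    rw [toAdd_mul, toAdd_zpow, toAdd_zpow]
    ext <;> simp
  rw [h1]
  exact Subgroup.mul_mem _ (Subgroup.zpow_mem _ (Subgroup.subset_closure (by simp)) _)
    (Subgroup.zpow_mem _ (Subgroup.subset_closure (by simp)) _)

theorem hd_mem (i : Fin 3) (g : G) : hd i g ∈ q.range := by
  have hg : g ∈ Subgroup.closure {e, f} := by rw [closure_ef]; trivial
  induction hg using Subgroup.closure_induction with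
  | mem x hx =>
    rcases hx with rfl | rfl
    · exact ⟨FreeGroup.of (i, false), q_of i false⟩
    · exact ⟨FreeGroup.of (i, true), q_of i true⟩
  | one => rw [map_one]; exact one_mem _
  | mul a b _ _ ha hb => rw [map_mul]; exact mul_mem ha hb
  | inv a _ ha => rw [map_inv]; exact inv_mem ha

theorem q_surj : Function.Surjective q := by
  intro x
  change x ∈ q.range
  induction x using Monoid.Coprod.induction_on with
  | inl m =>
    induction m using Monoid.Coprod.induction_on with
    | inl m => exact hd_mem 0 m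
    | inr m => exact hd_mem 1 m
    | mul a b ha hb => rw [map_mul]; exact mul_mem ha hb
  | inr m => exact hd_mem 2 m
  | mul a b ha hb => exact mul_mem ha hb

/-- Extension of an automorphism of a factor. -/
def k0 {A B : Type} [Group A] [Group B] : MulAut A →* MulAut (Monoid.Coprod A B) where
  toFun φ := MulEquiv.coprodCongr φ (MulEquiv.refl B)
  map_one' := by
    apply MulEquiv.toMonoidHom_injective
    apply Monoid.Coprod.hom_ext <;> ext x <;> rfl
  map_mul' φ ψ := by
    apply MulEquiv.toMonoidHom_injective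
    apply Monoid.Coprod.hom_ext <;> ext x <;> rfl

/-- Extension of an automorphism of a factor. -/
def k1 {A B : Type} [Group A] [Group B] : MulAut B →* MulAut (Monoid.Coprod A B) where
  toFun φ := MulEquiv.coprodCongr (MulEquiv.refl A) φ
  map_one' := by
    apply MulEquiv.toMonoidHom_injective
    apply Monoid.Coprod.hom_ext <;> ext x <;> rfl
  map_mul' φ ψ := by
    apply MulEquiv.toMonoidHom_injective
    apply Monoid.Coprod.hom_ext <;> ext x <;> rfl

section K

variable {A B : Type} [Group A] [Group B]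

@[simp] theorem k0_inl (φ : MulAut A) (a : A) :
    k0 φ (inl a : Monoid.Coprod A B) = inl (φ a) := rfl
@[simp] theorem k0_inr (φ : MulAut A) (b : B) :
    k0 φ (inr b : Monoid.Coprod A B) = inr b := rfl
@[simp] theorem k1_inl (φ : MulAut B) (a : A) :
    k1 φ (inl a : Monoid.Coprod A B) = inl a := rfl
@[simp] theorem k1_inr (φ : MulAut B) (b : B) :
    k1 φ (inr b : Monoid.Coprod A B) = inr (φ b) := rfl

end K

/-- The action on one factor. -/
def act : Fin 3 → (MulAut G →* MulAut P)
  | 0 => k0.comp k0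
  | 1 => k0.comp k1
  | 2 => k1

theorem act_same (i : Fin 3) (φ : MulAut G) (g : G) : act i φ (hd i g) = hd i (φ g) := by
  fin_cases i <;> rfl

theorem act_ne {i j : Fin 3} (h : i ≠ j) (φ : MulAut G) (g : G) : act i φ (hd j g) = hd j g := by
  fin_cases i <;> fin_cases j <;> first | rfl | exact absurd rfl h

/-- The class in homology. -/
def cls : F6 →* Multiplicative (Fin 3 × Bool → ℤ) :=
  FreeGroup.lift fun s => Multiplicative.ofAdd (Pi.single s 1)

/-- Compatible pairs of automorphisms. -/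
def T : Subgroup (MulAut F6 × MulAut P) where
  carrier := {p | (∀ x, q (p.1 x) = p.2 (q x)) ∧ p.1 (surfaceRelator 3) = surfaceRelator 3 ∧
    ∀ x y, form (cls (p.1 x)) (cls (p.1 y)) = form (cls x) (cls y)}
  mul_mem' {a b} ha hb := by
    refine ⟨fun x => ?_, ?_, fun x y => ?_⟩
    · rw [Prod.fst_mul, Prod.snd_mul, MulAut.mul_apply, MulAut.mul_apply, ha.1, hb.1]
    · rw [Prod.fst_mul, MulAut.mul_apply, hb.2.1, ha.2.1]
    · rw [Prod.fst_mul, MulAut.mul_apply, MulAut.mul_apply, ha.2.2, hb.2.2]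
  one_mem' := ⟨fun x => rfl, rfl, fun x y => rfl⟩
  inv_mem' {a} ha := by
    refine ⟨fun x => ?_, ?_, fun x y => ?_⟩
    · apply a.2.injective
      rw [← ha.1, Prod.fst_inv, Prod.snd_inv, MulAut.apply_inv_self, MulAut.apply_inv_self]
    · rw [Prod.fst_inv]
      conv_lhs => rw [← ha.2.1]
      rw [MulAut.inv_apply_self]
    · rw [Prod.fst_inv, ← ha.2.2, MulAut.apply_inv_self, MulAut.apply_inv_self]

theorem T_ext {a b : T} (h : a.1.1 = b.1.1) : a = b := by
  apply Subtype.ext
  refine Prod.ext h ?_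
  apply MulEquiv.ext
  intro y
  obtain ⟨x, rfl⟩ := q_surj y
  rw [← a.2.1, ← b.2.1, h]

/-- Constructor for compatible pairs. -/
def mkT (u v : S6 → F6) (h1 : ∀ s, FreeGroup.lift v (u s) = FreeGroup.of s)
    (h2 : ∀ s, FreeGroup.lift u (v s) = FreeGroup.of s) (φ : MulAut P)
    (hq : ∀ s, q (u s) = φ (q (FreeGroup.of s)))
    (hC : FreeGroup.lift u (surfaceRelator 3) = surfaceRelator 3)
    (hf : ∀ s t, form (cls (u s)) (cls (u t)) =
      form (cls (FreeGroup.of s)) (cls (FreeGroup.of t))) : T :=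
  ⟨(MonoidHom.toMulEquiv (FreeGroup.lift u) (FreeGroup.lift v)
    (by apply FreeGroup.ext_hom; intro s; simpa using h1 s)
    (by apply FreeGroup.ext_hom; intro s; simpa using h2 s), φ), by
    refine ⟨fun x => ?_, hC, fun x y => ?_⟩
    · change q (FreeGroup.lift u x) = φ (q x)
      induction x using FreeGroup.induction_on with
      | C1 => simp only [map_one]
      | of s => rw [FreeGroup.lift_apply_of]; exact hq s
      | inv_of s ih => rw [map_inv, map_inv, map_inv, map_inv, ih]
      | mul a b ha hb => rw [map_mul, map_mul, map_mul, map_mul, ha, hb]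
    · apply form_gens (FreeGroup.closure_range_of S6) (cls.comp (FreeGroup.lift u)) cls
      rintro _ ⟨s, rfl⟩ _ ⟨t, rfl⟩
      simpa using hf s t⟩

theorem mkT_apply (u v : S6 → F6) (h1 h2 φ hq hC hf) (s : S6) :
    (mkT u v h1 h2 φ hq hC hf).1.1 (FreeGroup.of s) = u s := by
  simp [mkT]

theorem mkT_snd (u v : S6 → F6) (h1 h2 φ hq hC hf) :
    (mkT u v h1 h2 φ hq hC hf).1.2 = φ := rfl

/-- The standard generators. -/
abbrev a (i : Fin 3) : F6 := FreeGroup.of (i, false)
/-- The standard generators. -/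
abbrev b (i : Fin 3) : F6 := FreeGroup.of (i, true)

/-- The first twist. -/
def uA (i : Fin 3) (s : S6) : F6 := if s = (i, true) then b i * a i else FreeGroup.of s
/-- Its inverse. -/
def vA (i : Fin 3) (s : S6) : F6 := if s = (i, true) then b i * (a i)⁻¹ else FreeGroup.of s
/-- The second twist. -/
def uB (i : Fin 3) (s : S6) : F6 := if s = (i, false) then a i * b i else FreeGroup.of s
/-- Its inverse. -/
def vB (i : Fin 3) (s : S6) : F6 := if s = (i, false) then a i * (b i)⁻¹ else FreeGroup.of s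

theorem uA_vA : ∀ i s, FreeGroup.lift (vA i) (uA i s) = FreeGroup.of s := by decide
theorem vA_uA : ∀ i s, FreeGroup.lift (uA i) (vA i s) = FreeGroup.of s := by decide
theorem uB_vB : ∀ i s, FreeGroup.lift (vB i) (uB i s) = FreeGroup.of s := by decide
theorem vB_uB : ∀ i s, FreeGroup.lift (uB i) (vB i s) = FreeGroup.of s := by decide
theorem uA_C : ∀ i, FreeGroup.lift (uA i) (surfaceRelator 3) = surfaceRelator 3 := by decide
theorem uB_C : ∀ i, FreeGroup.lift (uB i) (surfaceRelator 3) = surfaceRelator 3 := by decide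
theorem uA_form : ∀ i s t, form (cls (uA i s)) (cls (uA i t)) =
      form (cls (FreeGroup.of s)) (cls (FreeGroup.of t)) := by decide
theorem uB_form : ∀ i s t, form (cls (uB i s)) (cls (uB i t)) =
      form (cls (FreeGroup.of s)) (cls (FreeGroup.of t)) := by decide

/-- The product of the first two commutators. -/
def C2 : F6 := a 0 * b 0 * (a 0)⁻¹ * (b 0)⁻¹ * (a 1 * b 1 * (a 1)⁻¹ * (b 1)⁻¹)

/-- The first commutator. -/
def K0 : F6 := a 0 * b 0 * (a 0)⁻¹ * (b 0)⁻¹

/-- The second commutator. -/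
def K1 : F6 := a 1 * b 1 * (a 1)⁻¹ * (b 1)⁻¹

/-- The pushing word. -/
def yy : F6 := C2⁻¹ * a 0

/-- The push. -/
def uP : S6 → F6
  | (0, false) => a 0
  | (0, true) => yy * b 0 * (a 0)⁻¹
  | (1, false) => yy * a 1 * yy⁻¹
  | (1, true) => yy * b 1 * yy⁻¹
  | (2, b) => FreeGroup.of (2, b)

/-- The inverse push. -/
def vP : S6 → F6
  | (0, false) => a 0
  | (0, true) => yy⁻¹ * b 0 * a 0
  | (1, false) => yy⁻¹ * a 1 * yy
  | (1, true) => yy⁻¹ * b 1 * yy
  | (2, b) => FreeGroup.of (2, b)

/-- The exchange of two handles. -/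
def uS : S6 → F6
  | (0, false) => K0 * a 1 * K0⁻¹
  | (0, true) => K0 * b 1 * K0⁻¹
  | (1, false) => a 0
  | (1, true) => b 0
  | (2, b) => FreeGroup.of (2, b)

/-- The inverse exchange of two handles. -/
def vS : S6 → F6
  | (0, false) => a 1
  | (0, true) => b 1
  | (1, false) => K1⁻¹ * a 0 * K1
  | (1, true) => K1⁻¹ * b 0 * K1
  | (2, b) => FreeGroup.of (2, b)

theorem uP_vP : ∀ s, FreeGroup.lift vP (uP s) = FreeGroup.of s := by decide
theorem vP_uP : ∀ s, FreeGroup.lift uP (vP s) = FreeGroup.of s := by decide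
theorem uS_vS : ∀ s, FreeGroup.lift vS (uS s) = FreeGroup.of s := by decide
theorem vS_uS : ∀ s, FreeGroup.lift uS (vS s) = FreeGroup.of s := by decide
theorem uP_C : FreeGroup.lift uP (surfaceRelator 3) = surfaceRelator 3 := by decide
theorem uS_C : FreeGroup.lift uS (surfaceRelator 3) = surfaceRelator 3 := by decide
theorem uP_form : ∀ s t, form (cls (uP s)) (cls (uP t)) =
      form (cls (FreeGroup.of s)) (cls (FreeGroup.of t)) := by decide
theorem uS_form : ∀ s t, form (cls (uS s)) (cls (uS t)) =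
      form (cls (FreeGroup.of s)) (cls (FreeGroup.of t)) := by decide

theorem hA_e : hA 1 e = e := rfl
theorem hA_f : hA 1 f = f * e := rfl
theorem hB_e : hB 1 e = e * f := rfl
theorem hB_f : hB 1 f = f := rfl

theorem uA_q (i : Fin 3) (s : S6) : q (uA i s) = act i (hA 1) (q (FreeGroup.of s)) := by
  obtain ⟨j, c⟩ := s
  rw [q_of]
  by_cases h : i = j
  · subst h
    rw [act_same]
    cases c with
    | false =>
      rw [uA, if_neg (by simp), q_of, cond_false, hA_e]
    | true =>
      rw [uA, if_pos rfl, map_mul, q_of, q_of, cond_true, cond_false, hA_f, map_mul]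
  · rw [act_ne h, uA, if_neg (by rintro h'; exact h (congrArg Prod.fst h').symm), q_of]

theorem uB_q (i : Fin 3) (s : S6) : q (uB i s) = act i (hB 1) (q (FreeGroup.of s)) := by
  obtain ⟨j, c⟩ := s
  rw [q_of]
  by_cases h : i = j
  · subst h
    rw [act_same]
    cases c with
    | true =>
      rw [uB, if_neg (by simp), q_of, cond_true, hB_f]
    | false =>
      rw [uB, if_pos rfl, map_mul, q_of, q_of, cond_true, cond_false, hB_e, map_mul]
  · rw [act_ne h, uB, if_neg (by rintro h'; exact h (congrArg Prod.fst h').symm), q_of]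

/-- The first twist. -/
def tA (i : Fin 3) : T :=
  mkT (uA i) (vA i) (uA_vA i) (vA_uA i) (act i (hA 1)) (uA_q i) (uA_C i) (uA_form i)

/-- The second twist. -/
def tB (i : Fin 3) : T :=
  mkT (uB i) (vB i) (uB_vB i) (vB_uB i) (act i (hB 1)) (uB_q i) (uB_C i) (uB_form i)

theorem hom_comm_one {K : Type} [Group K] (φ : G →* K) (g h : G) :
    φ g * φ h * (φ g)⁻¹ * (φ h)⁻¹ = 1 := by
  have h1 : φ g * φ h = φ h * φ g := by rw [← map_mul, mul_comm g h, map_mul]
  rw [h1]; group

theorem q_K (i : Fin 3) : q (a i * b i * (a i)⁻¹ * (b i)⁻¹) = 1 := by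
  rw [map_mul, map_mul, map_mul, map_inv, map_inv, q_of, q_of]
  exact hom_comm_one (K := P) (hd i) _ _

theorem q_K0 : q K0 = 1 := q_K 0
theorem q_C2 : q C2 = 1 := by
  rw [C2, map_mul, q_K 0, q_K 1, one_mul]
theorem q_yy : q yy = inl (inl e) := by
  rw [yy, map_mul, map_inv, q_C2, inv_one, one_mul, q_of]; rfl

theorem uP_q (s : S6) : q (uP s) = k0 (MulAut.conj (inl e : GG)) (q (FreeGroup.of s)) := by
  obtain ⟨j, c⟩ := s
  rw [q_of]
  fin_cases j <;> cases c
  · change q (a 0) = inl (inl e * inl e * (inl e)⁻¹)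
    rw [q_of, mul_inv_cancel_right]; rfl
  · change q (yy * b 0 * (a 0)⁻¹) = inl (inl e * inl f * (inl e)⁻¹)
    rw [map_mul, map_mul, map_inv, q_of, q_of, q_yy, map_mul, map_mul, map_inv]; rfl
  · change q (yy * a 1 * yy⁻¹) = inl (inl e * inr e * (inl e)⁻¹)
    rw [map_mul, map_mul, map_inv, q_of, q_yy, map_mul, map_mul, map_inv]; rfl
  · change q (yy * b 1 * yy⁻¹) = inl (inl e * inr f * (inl e)⁻¹)
    rw [map_mul, map_mul, map_inv, q_of, q_yy, map_mul, map_mul, map_inv]; rfl
  · exact q_of _ _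
  · exact q_of _ _

theorem uS_q (s : S6) : q (uS s) = k0 (MulEquiv.coprodComm G G : MulAut GG)
    (q (FreeGroup.of s)) := by
  obtain ⟨j, c⟩ := s
  rw [q_of]
  fin_cases j <;> cases c
  · change q (K0 * a 1 * K0⁻¹) = inl (inr e)
    rw [map_mul, map_mul, map_inv, q_of, q_K0, one_mul, inv_one, mul_one]; rfl
  · change q (K0 * b 1 * K0⁻¹) = inl (inr f)
    rw [map_mul, map_mul, map_inv, q_of, q_K0, one_mul, inv_one, mul_one]; rfl
  · exact q_of _ _
  · exact q_of _ _
  · exact q_of _ _
  · exact q_of _ _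

/-- The push. -/
def tP : T :=
  mkT uP vP uP_vP vP_uP (k0 (MulAut.conj (inl e : GG))) uP_q uP_C uP_form

/-- The exchange. -/
def tS : T :=
  mkT uS vS uS_vS vS_uS (k0 (MulEquiv.coprodComm G G : MulAut GG)) uS_q uS_C uS_form

/-- The commutator of two pushes. -/
def tz : T := tP * (tS * tP * tS⁻¹) * tP⁻¹ * (tS * tP * tS⁻¹)⁻¹

theorem comm_conj (g : GG) : (MulEquiv.coprodComm G G : MulAut GG) * MulAut.conj g *
    (MulEquiv.coprodComm G G : MulAut GG)⁻¹ = MulAut.conj (swap G G g) := by
  apply MulEquiv.ext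
  intro x
  rw [MulAut.mul_apply, MulAut.mul_apply, MulAut.conj_apply, MulAut.conj_apply, map_mul, map_mul,
    MulAut.apply_inv_self, map_inv]
  rfl

theorem tz_snd : tz.1.2 = k0 (MulAut.conj (Pool.Agent.Helper270.Cop.cm e e)) := by
  have h1 : (tS * tP * tS⁻¹).1.2 = k0 (MulAut.conj (inr e : GG)) := by
    change tS.1.2 * tP.1.2 * tS.1.2⁻¹ = _
    rw [tS, tP, mkT_snd, mkT_snd, ← map_inv, ← map_mul, ← map_mul, comm_conj, swap_inl]
  change tP.1.2 * (tS * tP * tS⁻¹).1.2 * tP.1.2⁻¹ * (tS * tP * tS⁻¹).1.2⁻¹ = _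
  rw [h1, tP, mkT_snd, Pool.Agent.Helper270.Cop.cm]
  simp only [← map_inv, ← map_mul]

end Pool.Agent.Helper270.TT
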