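import Mathlib
import Pool.Agent.Helper270.TT
import Pool.Agent.Helper270.Red

set_option autoImplicit false

/-! The frame in the group of compatible pairs. -/

namespace Pool.Agent.Helper270.FR

open Pool.Agent.Helper270.MCG Pool.Agent.Helper270.PP Pool.Agent.Helper270.TT Monoid.Coprod
open Pool.Agent.Helper270.Red (I F)

/-- The twists. -/
def tw (i : Fin 3) (c : Bool) : T := cond c (tB i) (tA i)

/-- The twists on generators. -/
def utw (i : Fin 3) (c : Bool) : S6 → F6 := cond c (uB i) (uA i)

theorem tw_of (i : Fin 3) (c : Bool) (x : F6) : (tw i c).1.1 x = FreeGroup.lift (utw i c) x := by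
  cases c <;> rfl

theorem tP_of (x : F6) : tP.1.1 x = FreeGroup.lift uP x := rfl
theorem tS_of (x : F6) : tS.1.1 x = FreeGroup.lift uS x := rfl

theorem utw_comm : ∀ (i j : Fin 3) (c d : Bool) (s : S6), i ≠ j →
    FreeGroup.lift (utw i c) (utw j d s) = FreeGroup.lift (utw j d) (utw i c s) := by decide

theorem uP_comm : ∀ (c : Bool) (s : S6),
    FreeGroup.lift uP (utw 2 c s) = FreeGroup.lift (utw 2 c) (uP s) := by decide

theorem uS_comm : ∀ (c : Bool) (s : S6),
    FreeGroup.lift uS (utw 2 c s) = FreeGroup.lift (utw 2 c) (uS s) := by decide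

theorem T_eq {x y : T} (h : ∀ s, x.1.1 (FreeGroup.of s) = y.1.1 (FreeGroup.of s)) : x = y := by
  apply T_ext
  apply MulEquiv.toMonoidHom_injective
  apply FreeGroup.ext_hom
  exact h

theorem tw_comm {i j : Fin 3} (hij : i ≠ j) (c d : Bool) : Commute (tw i c) (tw j d) := by
  apply T_eq
  intro s
  change (tw i c).1.1 ((tw j d).1.1 _) = (tw j d).1.1 ((tw i c).1.1 _)
  rw [tw_of, tw_of, tw_of, tw_of, FreeGroup.lift_apply_of, FreeGroup.lift_apply_of]
  exact utw_comm i j c d s hij

theorem tP_comm (c : Bool) : Commute tP (tw 2 c) := by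
  apply T_eq
  intro s
  change tP.1.1 ((tw 2 c).1.1 _) = (tw 2 c).1.1 (tP.1.1 _)
  rw [tw_of, tw_of, tP_of, tP_of, FreeGroup.lift_apply_of, FreeGroup.lift_apply_of]
  exact uP_comm c s

theorem tS_comm (c : Bool) : Commute tS (tw 2 c) := by
  apply T_eq
  intro s
  change tS.1.1 ((tw 2 c).1.1 _) = (tw 2 c).1.1 (tS.1.1 _)
  rw [tw_of, tw_of, tS_of, tS_of, FreeGroup.lift_apply_of, FreeGroup.lift_apply_of]
  exact uS_comm c s

theorem tz_comm (c : Bool) : Commute tz (tw 2 c) := by
  have h1 := tP_comm c
  have h2 := tS_comm c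
  have h3 := (h2.mul_left h1).mul_left h2.inv_left
  exact ((h1.mul_left h3).mul_left h1.inv_left).mul_left h3.inv_left

theorem commute_lift {K : Type} [Group K] {α : Type} {g : K} {u : α → K}
    (h : ∀ a, Commute g (u a)) (w : FreeGroup α) : Commute g (FreeGroup.lift u w) := by
  induction w using FreeGroup.induction_on with
  | C1 => rw [map_one]; exact Commute.one_right g
  | of a => rw [FreeGroup.lift_apply_of]; exact h a
  | inv_of a ih => rw [map_inv]; exact ih.inv_right
  | mul a b ha hb => rw [map_mul]; exact ha.mul_right hb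

/-- The representation of the free group of rank two on a handle. -/
def base (i : Fin 3) : FreeGroup Bool →* T := FreeGroup.lift (tw i)

theorem base_comm {i j : Fin 3} (hij : i ≠ j) (x y : FreeGroup Bool) :
    Commute (base i x) (base j y) :=
  commute_lift (fun d => (commute_lift (fun c => (tw_comm hij c d).symm) x).symm) y

theorem base_comm_z (y : FreeGroup Bool) : Commute tz (base 2 y) :=
  commute_lift (fun c => tz_comm c) y

/-- The second projection. -/
def sndT : T →* MulAut P := (MonoidHom.snd _ _).comp T.subtype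

theorem base_snd (i : Fin 3) (w : FreeGroup Bool) : sndT (base i w) = act i (rho0 w) := by
  have : sndT.comp (base i) = (act i).comp rho0 := by
    refine FreeGroup.ext_hom (M := MulAut P) _ _ fun c => ?_
    rw [MonoidHom.comp_apply, MonoidHom.comp_apply, base, FreeGroup.lift_apply_of, rho0,
      FreeGroup.lift_apply_of]
    cases c <;> rfl
  exact DFunLike.congr_fun this w

variable {m : ℕ}

/-- The index function. -/
def idx : I m → ℤ := Sum.elim (fun i => (i : ℤ) + 2) (fun c => cond c 1 0)

theorem idx_inj : Function.Injective (idx : I m → ℤ) := by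
  rintro (i | c) (j | d) h
  · simp only [idx, Sum.elim_inl] at h
    congr 1
    apply Fin.ext
    omega
  · cases d <;> simp only [idx, Sum.elim_inl, Sum.elim_inr, cond_true, cond_false] at h <;> omega
  · cases c <;> simp only [idx, Sum.elim_inl, Sum.elim_inr, cond_true, cond_false] at h <;> omega
  · cases c <;> cases d <;> simp [idx] at h ⊢

/-- The index function of the second factor. -/
def idx2 : Bool → ℤ := fun c => cond c 1 0

theorem idx2_inj : Function.Injective idx2 := by
  intro c d h
  cases c <;> cases d <;> simp [idx2] at h ⊢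

/-- The first homomorphism. -/
def dl : F m × F m →* T :=
  MonoidHom.noncommCoprod ((base 0).comp (sub idx)) ((base 1).comp (sub idx))
    (fun x y => base_comm (by decide) _ _)

/-- The second homomorphism. -/
def ep : FreeGroup Bool →* T := (base 2).comp (sub idx2)

theorem dl_apply (p : F m × F m) : dl p = base 0 (sub idx p.1) * base 1 (sub idx p.2) := rfl

theorem dl_ep (p : F m × F m) (β : FreeGroup Bool) : Commute (dl p) (ep β) :=
  (base_comm (by decide) _ _).mul_left (base_comm (by decide) _ _)

theorem tz_ep (β : FreeGroup Bool) : Commute tz (ep β) := base_comm_z _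

theorem dl_snd (p : F m × F m) : sndT (dl p) = k0 (k0 (rep idx p.1) * k1 (rep idx p.2)) := by
  rw [dl_apply, map_mul, base_snd, base_snd, map_mul]
  rfl

theorem ep_snd (β : FreeGroup Bool) : sndT (ep β) = k1 (rep idx2 β) := by
  rw [ep, MonoidHom.comp_apply, base_snd]
  rfl

/-- The conjugating elements. -/
def cc : FreeGroup (F m × F m) →* GG :=
  FreeGroup.lift fun l => Pool.Agent.Helper270.Cop.cm (rep idx l.1 e) (rep idx l.2 e)

theorem conj_cm (φ ψ : MulAut G) : (k0 φ * k1 ψ : MulAut GG) *
    MulAut.conj (Pool.Agent.Helper270.Cop.cm e e) * (k0 φ * k1 ψ : MulAut GG)⁻¹ =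
    MulAut.conj (Pool.Agent.Helper270.Cop.cm (φ e) (ψ e)) := by
  apply MulEquiv.ext
  intro x
  rw [MulAut.mul_apply, MulAut.mul_apply, MulAut.conj_apply, MulAut.conj_apply, map_mul, map_mul,
    MulAut.apply_inv_self, map_inv]
  have h1 : (k0 φ * k1 ψ : MulAut GG) (Pool.Agent.Helper270.Cop.cm e e) =
      Pool.Agent.Helper270.Cop.cm (φ e) (ψ e) := by
    rw [Pool.Agent.Helper270.Cop.cm, Pool.Agent.Helper270.Cop.cm, map_mul, map_mul, map_mul,
      map_inv, map_inv]
    rfl
  rw [h1]

theorem psi_snd (x : FreeGroup (F m × F m)) :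
    sndT (FreeGroup.lift (fun l => dl l * tz * (dl l)⁻¹) x) = k0 (MulAut.conj (cc x)) := by
  have hg : ∀ l : F m × F m, sndT (dl l * tz * (dl l)⁻¹) = k0 (MulAut.conj
      (Pool.Agent.Helper270.Cop.cm (rep idx l.1 e) (rep idx l.2 e))) := by
    intro l
    have h1 : sndT tz = k0 (MulAut.conj (Pool.Agent.Helper270.Cop.cm e e)) := tz_snd
    rw [map_mul, map_mul, map_inv, dl_snd, h1, ← map_inv, ← map_mul, ← map_mul, conj_cm]
  induction x using FreeGroup.induction_on with
  | C1 => simp only [map_one]
  | of l => rw [FreeGroup.lift_apply_of, hg, cc, FreeGroup.lift_apply_of]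
  | inv_of l ih =>
    rw [map_inv, map_inv, ih, map_inv, map_inv, map_inv]
  | mul a b ha hb => rw [map_mul, map_mul, ha, hb, map_mul, map_mul, map_mul]

theorem conj_hom {K A : Type} [Group K] [CommGroup A] (φ : K →* A) {x y g : K}
    (h : x = g * y * g⁻¹) : φ x = φ y := by
  rw [h, map_mul, map_mul, map_inv, mul_comm (φ g), mul_inv_cancel_right]

theorem conj_hom1 {K A : Type} [Group K] [Group A] (φ : K →* A) {x y g : K} (hg : φ g = 1)
    (h : x = g * y * g⁻¹) : φ x = φ y := by
  rw [h, map_mul, map_mul, map_inv, hg, one_mul, inv_one, mul_one]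

theorem commute_of_conj {K : Type} [Group K] {y g : K} (h : y = g * y * g⁻¹) : Commute g y := by
  have : y * g = g * y := by
    conv_lhs => rw [h]
    group
  exact this.symm

theorem e_ne : (e : G) ≠ 1 := by decide

theorem rep_ne {ι : Type} (j : ι → ℤ) (w : FreeGroup ι) : rep j w e ≠ 1 := by
  intro h
  apply e_ne
  apply (rep j w).injective
  rw [h, map_one]

/-- The free basis. -/
def toX (l : F m × F m) : Pool.Agent.Helper270.Cop.X G G :=
  ⟨(rep idx l.1 e, rep idx l.2 e), rep_ne _ _, rep_ne _ _⟩

theorem toX_inj : Function.Injective (toX : F m × F m → _) := by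
  intro l l' h
  have h1 := congrArg Subtype.val h
  exact Prod.ext (rep_inj idx_inj (congrArg Prod.fst h1)) (rep_inj idx_inj (congrArg Prod.snd h1))

theorem cc_eq (x : FreeGroup (F m × F m)) :
    cc x = Pool.Agent.Helper270.Cop.commHom (FreeGroup.map toX x) := by
  have : (cc : FreeGroup (F m × F m) →* GG) =
      Pool.Agent.Helper270.Cop.commHom.comp (FreeGroup.map toX) := by
    refine FreeGroup.ext_hom (M := GG) _ _ fun l => ?_
    rw [cc, FreeGroup.lift_apply_of, MonoidHom.comp_apply, FreeGroup.map.of,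
      Pool.Agent.Helper270.Cop.commHom, FreeGroup.lift_apply_of]
    rfl
  rw [this]; rfl

theorem cc_inj : Function.Injective (cc : FreeGroup (F m × F m) →* GG) := by
  intro x y h
  rw [cc_eq, cc_eq] at h
  exact FreeGroup.map_injective toX_inj (Pool.Agent.Helper270.Cop.commHom_inj h)

theorem det (x : FreeGroup (F m × F m)) (p : F m × F m) (β : FreeGroup Bool) (g : P)
    (h : sndT (FreeGroup.lift (fun l => dl l * tz * (dl l)⁻¹) x * dl p * ep β) =
      MulAut.conj g) : x = 1 ∧ p = 1 ∧ β = 1 := by
  rw [map_mul, map_mul, psi_snd, dl_snd, ep_snd] at h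
  -- action on the last factor
  have h2 : ∀ v : G, (inr (rep idx2 β v) : P) = g * inr v * g⁻¹ := by
    intro v
    exact DFunLike.congr_fun h (inr v)
  have h01 : ∀ u : GG, (inl (cc x * ((k0 (rep idx p.1) * k1 (rep idx p.2) : MulAut GG) u) *
      (cc x)⁻¹) : P) = g * inl u * g⁻¹ := by
    intro u
    exact DFunLike.congr_fun h (inl u)
  have hβ : β = 1 := by
    apply rep_faithful idx2_inj
    exact conj_hom (K := P) (A := G) snd (h2 e)
  have hp1 : p.1 = 1 := by
    apply rep_faithful (idx_inj (m := m))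
    have h3 := conj_hom (K := P) (A := G) ((fst : GG →* G).comp (fst : P →* GG)) (h01 (inl e))
    have h4 : (fst : GG →* G) (cc x * ((k0 (rep idx p.1) * k1 (rep idx p.2) : MulAut GG) (inl e)) *
      (cc x)⁻¹) = (fst : GG →* G) ((k0 (rep idx p.1) * k1 (rep idx p.2) : MulAut GG) (inl e)) :=
      conj_hom (K := GG) (A := G) fst rfl
    exact h4.symm.trans h3
  have hp2 : p.2 = 1 := by
    apply rep_faithful (idx_inj (m := m))
    have h3 := conj_hom (K := P) (A := G) ((snd : GG →* G).comp (fst : P →* GG)) (h01 (inr e))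
    have h4 : (snd : GG →* G) (cc x * ((k0 (rep idx p.1) * k1 (rep idx p.2) : MulAut GG) (inr e)) *
      (cc x)⁻¹) = (snd : GG →* G) ((k0 (rep idx p.1) * k1 (rep idx p.2) : MulAut GG) (inr e)) :=
      conj_hom (K := GG) (A := G) snd rfl
    exact h4.symm.trans h3
  refine ⟨?_, Prod.ext hp1 hp2, hβ⟩
  rw [hβ, map_one] at h2
  rw [hp1, hp2, map_one, map_one, map_one, mul_one] at h01
  have h3 : Commute g (inr e : P) := commute_of_conj (K := P) (h2 e)
  obtain ⟨n0, hn0⟩ := Pool.Agent.Helper270.Cop.commute_inr (M := GG) (N := G) e_ne h3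
  have h4 : ∀ u : GG, u = cc x * u * (cc x)⁻¹ := by
    intro u
    exact (conj_hom1 (K := P) (A := GG) fst (by rw [hn0]; rfl) (h01 u)).symm
  have h5 : cc x = 1 := Pool.Agent.Helper270.Cop.center_trivial (M := G) (N := G) e_ne e_ne
    (commute_of_conj (K := GG) (h4 (inl e))) (commute_of_conj (K := GG) (h4 (inr e)))
  apply cc_inj
  rw [h5, map_one]

end Pool.Agent.Helper270.FR
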