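import Mathlib
import Pool.Agent.Helper270.FR

set_option autoImplicit false

/-! Extension of automorphisms to surface groups of genus at least three. -/

namespace Pool.Agent.Helper270.EX

open Pool.Agent.Helper270.MCG Pool.Agent.Helper270.TT Pool.Agent.Helper270.FR

variable {k : ℕ}

/-- Relator in a group. -/
def relIn {K : Type} [Group K] {n : ℕ} (v : Fin n × Bool → K) : K :=
  (List.ofFn fun i : Fin n => v (i, false) * v (i, true) * (v (i, false))⁻¹ *
    (v (i, true))⁻¹).prod

theorem lift_rel {K : Type} [Group K] {n : ℕ} (v : Fin n × Bool → K) :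
    FreeGroup.lift v (surfaceRelator n) = relIn v := by
  rw [surfaceRelator, map_list_prod, relIn, List.map_ofFn]
  congr 2
  funext i
  simp

theorem relIn_add {K : Type} [Group K] (v : Fin (3 + k) × Bool → K) :
    relIn v = relIn (fun s : Fin 3 × Bool => v (Fin.castAdd k s.1, s.2)) *
      relIn (fun s : Fin k × Bool => v (Fin.natAdd 3 s.1, s.2)) := by
  rw [relIn, List.ofFn_add, List.prod_append]
  rfl

/-- Homomorphisms from surface groups. -/
def liftS {K : Type} [Group K] {n : ℕ} (v : Fin n × Bool → K) (h : relIn v = 1) :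
    SurfaceGroup n →* K :=
  PresentedGroup.toGroup (f := v) (by
    intro r hr
    rw [Set.mem_singleton_iff] at hr
    subst hr
    rw [lift_rel, h])

theorem liftS_of {K : Type} [Group K] {n : ℕ} (v : Fin n × Bool → K) (h : relIn v = 1)
    (s : Fin n × Bool) : liftS v h (PresentedGroup.of s) = v s :=
  PresentedGroup.toGroup.of _

theorem relIn_of (n : ℕ) : relIn (fun s : Fin n × Bool => (PresentedGroup.of s : SurfaceGroup n))
    = 1 := by
  rw [← lift_rel]
  have : FreeGroup.lift (fun s : Fin n × Bool => (PresentedGroup.of s : SurfaceGroup n)) =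
      PresentedGroup.mk _ := by
    apply FreeGroup.ext_hom
    intro s
    rw [FreeGroup.lift_apply_of]
    rfl
  rw [this]
  exact PresentedGroup.one_of_mem rfl

/-- The first handles. -/
def incl : F6 →* SurfaceGroup (3 + k) :=
  FreeGroup.lift fun s => PresentedGroup.of (Fin.castAdd k s.1, s.2)

/-- The images of the generators under the extension. -/
def ext (α : F6 →* F6) (s : Fin (3 + k) × Bool) : SurfaceGroup (3 + k) :=
  Fin.addCases (fun i : Fin 3 => incl (α (FreeGroup.of (i, s.2))))
    (fun j : Fin k => PresentedGroup.of (Fin.natAdd 3 j, s.2)) s.1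

theorem ext_left (α : F6 →* F6) (i : Fin 3) (b : Bool) :
    (ext α (Fin.castAdd k i, b)) = incl (α (FreeGroup.of (i, b))) := by
  rw [ext, Fin.addCases_left]

theorem ext_right (α : F6 →* F6) (j : Fin k) (b : Bool) :
    (ext α (Fin.natAdd 3 j, b)) = PresentedGroup.of (Fin.natAdd 3 j, b) := by
  rw [ext, Fin.addCases_right]

theorem relIn_map {K K' : Type} [Group K] [Group K'] {n : ℕ} (φ : K →* K') (v : Fin n × Bool → K) :
    relIn (fun s => φ (v s)) = φ (relIn v) := by
  rw [← lift_rel, ← lift_rel]
  have : FreeGroup.lift (fun s => φ (v s)) = φ.comp (FreeGroup.lift v) := by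
    apply FreeGroup.ext_hom
    intro s
    simp
  rw [this]; rfl

theorem relIn_ext (α : F6 →* F6) (h : α (surfaceRelator 3) = surfaceRelator 3) :
    relIn (ext α : Fin (3 + k) × Bool → _) = 1 := by
  rw [relIn_add]
  simp only [ext_left, ext_right]
  have h1 : relIn (fun s : Fin 3 × Bool => (incl (α (FreeGroup.of (s.1, s.2))) :
      SurfaceGroup (3 + k))) = incl (surfaceRelator 3) := by
    have h2 := relIn_map ((incl : F6 →* SurfaceGroup (3 + k)).comp α)
      (fun s : Fin 3 × Bool => FreeGroup.of s)
    have h3 : relIn (fun s : Fin 3 × Bool => FreeGroup.of s) = surfaceRelator 3 := rfl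
    rw [h3, MonoidHom.comp_apply, h] at h2
    exact h2
  have h4 := relIn_of (3 + k)
  rw [relIn_add] at h4
  rw [h1, incl, lift_rel]
  exact h4

/-- The extension of an endomorphism. -/
def E (α : F6 →* F6) (h : α (surfaceRelator 3) = surfaceRelator 3) :
    SurfaceGroup (3 + k) →* SurfaceGroup (3 + k) := liftS (ext α) (relIn_ext α h)

theorem E_left (α : F6 →* F6) (h : α (surfaceRelator 3) = surfaceRelator 3) (i : Fin 3)
    (b : Bool) : E (k := k) α h (PresentedGroup.of (Fin.castAdd k i, b)) =
      incl (α (FreeGroup.of (i, b))) := by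
  rw [E, liftS_of, ext_left]

theorem E_right (α : F6 →* F6) (h : α (surfaceRelator 3) = surfaceRelator 3) (j : Fin k)
    (b : Bool) : E (k := k) α h (PresentedGroup.of (Fin.natAdd 3 j, b)) =
      PresentedGroup.of (Fin.natAdd 3 j, b) := by
  rw [E, liftS_of, ext_right]

theorem E_incl (α : F6 →* F6) (h : α (surfaceRelator 3) = surfaceRelator 3) (x : F6) :
    E (k := k) α h (incl x) = incl (α x) := by
  have : (E (k := k) α h).comp incl = incl.comp α := by
    apply FreeGroup.ext_hom
    rintro ⟨i, b⟩
    rw [MonoidHom.comp_apply, MonoidHom.comp_apply, ← E_left α h]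
    simp [incl]
  exact DFunLike.congr_fun this x

theorem hom_ext {K : Type} [Group K] {φ ψ : SurfaceGroup (3 + k) →* K}
    (h1 : ∀ i b, φ (PresentedGroup.of (Fin.castAdd k i, b)) =
      ψ (PresentedGroup.of (Fin.castAdd k i, b)))
    (h2 : ∀ j b, φ (PresentedGroup.of (Fin.natAdd 3 j, b)) =
      ψ (PresentedGroup.of (Fin.natAdd 3 j, b))) : φ = ψ := by
  apply PresentedGroup.ext
  rintro ⟨i, b⟩
  induction i using Fin.addCases with
  | left i => exact h1 i b
  | right j => exact h2 j b

theorem E_comp (α β γ : F6 →* F6) (hα : α (surfaceRelator 3) = surfaceRelator 3)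
    (hβ : β (surfaceRelator 3) = surfaceRelator 3)
    (hγ : γ (surfaceRelator 3) = surfaceRelator 3) (h : ∀ x, γ x = α (β x))
    (x : SurfaceGroup (3 + k)) : E γ hγ x = E α hα (E β hβ x) := by
  have : E (k := k) γ hγ = (E α hα).comp (E β hβ) := by
    apply hom_ext
    · intro i b
      rw [E_left, h, MonoidHom.comp_apply, E_left, E_incl]
    · intro j b
      rw [E_right, MonoidHom.comp_apply, E_right, E_right]
  rw [this]; rfl

theorem E_id (α : F6 →* F6) (hα : α (surfaceRelator 3) = surfaceRelator 3)
    (h : ∀ x, α x = x) (x : SurfaceGroup (3 + k)) : E α hα x = x := by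
  have : E (k := k) α hα = MonoidHom.id _ := by
    apply hom_ext
    · intro i b
      rw [E_left, h, incl, FreeGroup.lift_apply_of]
      rfl
    · intro j b
      rw [E_right]
      rfl
  rw [this]; rfl

/-- The underlying homomorphism. -/
def toHom (α : MulAut F6) : F6 →* F6 := α.toMonoidHom

theorem toHom_apply (α : MulAut F6) (x : F6) : toHom α x = α x := rfl

theorem inv_fix {α : MulAut F6} (h : toHom α (surfaceRelator 3) = surfaceRelator 3) :
    toHom α⁻¹ (surfaceRelator 3) = surfaceRelator 3 := by
  rw [toHom_apply] at *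
  conv_lhs => rw [← h]
  rw [MulAut.inv_apply_self]

/-- The extension of an automorphism. -/
def EA (α : MulAut F6) (h : toHom α (surfaceRelator 3) = surfaceRelator 3) :
    MulAut (SurfaceGroup (3 + k)) where
  toFun := E (toHom α) h
  invFun := E (toHom α⁻¹) (inv_fix h)
  left_inv x := by
    have h1 : toHom (1 : MulAut F6) (surfaceRelator 3) = surfaceRelator 3 := rfl
    rw [← E_comp (toHom α⁻¹) (toHom α) (toHom 1) (inv_fix h) h h1
      (fun x => (MulAut.inv_apply_self _ _ _).symm)]
    exact E_id _ _ (fun x => rfl) x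
  right_inv x := by
    have h1 : toHom (1 : MulAut F6) (surfaceRelator 3) = surfaceRelator 3 := rfl
    rw [← E_comp (toHom α) (toHom α⁻¹) (toHom 1) h (inv_fix h) h1
      (fun x => (MulAut.apply_inv_self _ _ _).symm)]
    exact E_id _ _ (fun x => rfl) x
  map_mul' := map_mul _

theorem EA_apply (α : MulAut F6) (h : toHom α (surfaceRelator 3) = surfaceRelator 3)
    (x : SurfaceGroup (3 + k)) : EA α h x = E (toHom α) h x := rfl

/-- Extension of homology classes by zero. -/
def extCls (u : Multiplicative (Fin 3 × Bool → ℤ)) : Multiplicative (Fin (3 + k) × Bool → ℤ) :=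
  Multiplicative.ofAdd fun s => Fin.addCases (fun i : Fin 3 => u.toAdd (i, s.2))
    (fun _ : Fin k => 0) s.1

theorem cls_incl (x : F6) : homologyClass (3 + k) (incl x) = extCls (cls x) := by
  induction x using FreeGroup.induction_on with
  | C1 =>
    rw [map_one, map_one, map_one]
    apply Multiplicative.toAdd.injective
    funext ⟨i, b⟩
    induction i using Fin.addCases with
    | left i => simp [extCls]
    | right j => simp [extCls]
  | of s =>
    obtain ⟨i', b'⟩ := s
    rw [incl, FreeGroup.lift_apply_of, homologyClass, PresentedGroup.toGroup.of, cls,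
      FreeGroup.lift_apply_of]
    apply Multiplicative.toAdd.injective
    funext ⟨i, b⟩
    induction i using Fin.addCases with
    | left i =>
      simp only [extCls, toAdd_ofAdd, Fin.addCases_left, Pi.single_apply, Prod.mk.injEq,
        Fin.castAdd_inj]
    | right j =>
      simp only [extCls, toAdd_ofAdd, Fin.addCases_right, Pi.single_apply, Prod.mk.injEq]
      rw [if_neg]
      rintro ⟨h, -⟩
      have := congrArg Fin.val h
      simp at this
      omega
  | inv_of s ih =>
    rw [map_inv, map_inv, map_inv, ih]
    apply Multiplicative.toAdd.injective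
    funext ⟨i, b⟩
    induction i using Fin.addCases with
    | left i => simp [extCls]
    | right j => simp [extCls]
  | mul a b ha hb =>
    rw [map_mul, map_mul, map_mul, ha, hb]
    apply Multiplicative.toAdd.injective
    funext ⟨i, b⟩
    induction i using Fin.addCases with
    | left i => simp [extCls]
    | right j => simp [extCls]

theorem form_ext (u v : Multiplicative (Fin 3 × Bool → ℤ)) :
    form (extCls (k := k) u) (extCls v) = form u v := by
  rw [form, form, Fin.sum_univ_add]
  simp [extCls]

theorem form_ext_right (u : Multiplicative (Fin 3 × Bool → ℤ)) (j : Fin k) (b : Bool) :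
    form (extCls (k := k) u) (homologyClass (3 + k) (PresentedGroup.of (Fin.natAdd 3 j, b))) = 0 := by
  rw [form, Fin.sum_univ_add, homologyClass, PresentedGroup.toGroup.of]
  have h1 : ∀ (i : Fin 3) (c : Bool), (Pi.single (Fin.natAdd 3 j, b) 1 :
      Fin (3 + k) × Bool → ℤ) (Fin.castAdd k i, c) = 0 := by
    intro i c
    rw [Pi.single_apply, if_neg]
    intro h
    have := congrArg (fun s => s.1.val) h
    simp at this
    omega
  simp [extCls, h1]

theorem form_symm {n : ℕ} (u v : Multiplicative (Fin n × Bool → ℤ)) : form u v = - form v u := by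
  rw [form, form, ← Finset.sum_neg_distrib]
  apply Finset.sum_congr rfl
  intro i _
  ring

theorem closure_gens (n : ℕ) : Subgroup.closure
    (Set.range (fun s : Fin n × Bool => (PresentedGroup.of s : SurfaceGroup n))) = ⊤ :=
  PresentedGroup.closure_range_of _

theorem E_form (α : F6 →* F6) (h : α (surfaceRelator 3) = surfaceRelator 3)
    (hf : ∀ x y, form (cls (α x)) (cls (α y)) = form (cls x) (cls y))
    (x y : SurfaceGroup (3 + k)) : inter (E α h x) (E α h y) = inter x y := by
  apply form_gens (closure_gens (3 + k)) ((homologyClass (3 + k)).comp (E α h))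
    (homologyClass (3 + k))
  have e1 : ∀ (i : Fin 3) (b : Bool), homologyClass (3 + k) (PresentedGroup.of
      (Fin.castAdd k i, b)) = extCls (cls (FreeGroup.of (i, b))) := by
    intro i b
    rw [← cls_incl, incl, FreeGroup.lift_apply_of]
  rintro _ ⟨⟨i, b⟩, rfl⟩ _ ⟨⟨i', b'⟩, rfl⟩
  simp only [MonoidHom.comp_apply]
  induction i using Fin.addCases with
  | left i =>
    induction i' using Fin.addCases with
    | left i' => rw [E_left, E_left, cls_incl, cls_incl, form_ext, hf, e1, e1, form_ext]
    | right j' => rw [E_left, E_right, cls_incl, form_ext_right, e1, form_ext_right]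
  | right j =>
    induction i' using Fin.addCases with
    | left i' =>
      rw [E_left, E_right, cls_incl, form_symm, form_ext_right, form_symm, e1, form_ext_right]
    | right j' => rw [E_right, E_right]

theorem Tq (t : T) (x : F6) : q (toHom t.1.1 x) = t.1.2 (q x) := t.2.1 x

theorem Tfix (t : T) : toHom t.1.1 (surfaceRelator 3) = surfaceRelator 3 := t.2.2.1

theorem Tform (t : T) (x y : F6) : form (cls (toHom t.1.1 x)) (cls (toHom t.1.1 y)) =
    form (cls x) (cls y) := t.2.2.2 x y

/-- The extension of a compatible pair. -/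
def ET (t : T) : SurfaceGroup (3 + k) →* SurfaceGroup (3 + k) := E (toHom t.1.1) (Tfix t)

theorem ET_mul (s t : T) (x : SurfaceGroup (3 + k)) : ET (s * t) x = ET s (ET t x) :=
  E_comp (toHom s.1.1) (toHom t.1.1) (toHom (s * t).1.1) (Tfix s) (Tfix t) (Tfix (s * t))
    (fun _ => rfl) x

/-- The extension in the orientation preserving automorphism group. -/
def autOf (t : T) : AutPlus (3 + k) :=
  ⟨EA t.1.1 (Tfix t), fun x y => E_form (toHom t.1.1) (Tfix t) (Tform t) x y⟩

theorem autOf_apply (t : T) (x : SurfaceGroup (3 + k)) :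
    (autOf t : AutPlus (3 + k)).1 x = ET t x := rfl

theorem autOf_mul (s t : T) : (autOf (s * t) : AutPlus (3 + k)) = autOf s * autOf t := by
  apply Subtype.ext
  apply MulEquiv.ext
  intro x
  rw [autOf_apply, ET_mul]
  rfl

/-- The extension in the orientation preserving automorphism group. -/
def toAut : T →* AutPlus (3 + k) := MonoidHom.mk' autOf autOf_mul

theorem toAut_apply (t : T) (x : SurfaceGroup (3 + k)) :
    (toAut t : AutPlus (3 + k)).1 x = ET t x := rfl

/-- The images of the generators in the free product. -/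
def gP (s : Fin (3 + k) × Bool) : P :=
  Fin.addCases (motive := fun _ => P) (fun i : Fin 3 => q (FreeGroup.of (i, s.2)))
    (fun _ : Fin k => (1 : P)) s.1

theorem gP_left (i : Fin 3) (b : Bool) : gP (Fin.castAdd k i, b) = q (FreeGroup.of (i, b)) := by
  rw [gP, Fin.addCases_left]

theorem gP_right (j : Fin k) (b : Bool) : gP (Fin.natAdd 3 j, b) = 1 := by
  rw [gP, Fin.addCases_right]

/-- The projection of the surface group to the free product. -/
def toP : SurfaceGroup (3 + k) →* P :=
  liftS gP (by
    rw [relIn_add]
    simp only [gP_left, gP_right]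
    have h1 : relIn (fun s : Fin 3 × Bool => q (FreeGroup.of (s.1, s.2))) = 1 := by
      rw [relIn]
      apply List.prod_eq_one
      intro x hx
      rw [List.mem_ofFn] at hx
      obtain ⟨i, rfl⟩ := hx
      have h2 := q_K i
      rw [map_mul, map_mul, map_mul, map_inv, map_inv] at h2
      exact h2
    rw [h1, relIn, one_mul]
    apply List.prod_eq_one
    intro x hx
    rw [List.mem_ofFn] at hx
    obtain ⟨i, rfl⟩ := hx
    simp)

theorem toP_left (i : Fin 3) (b : Bool) : toP (k := k) (PresentedGroup.of (Fin.castAdd k i, b)) =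
    q (FreeGroup.of (i, b)) := by
  rw [toP, liftS_of, gP_left]

theorem toP_right (j : Fin k) (b : Bool) :
    toP (k := k) (PresentedGroup.of (Fin.natAdd 3 j, b)) = 1 := by
  rw [toP, liftS_of, gP_right]

theorem toP_incl (x : F6) : toP (k := k) (incl x) = q x := by
  induction x using FreeGroup.induction_on with
  | C1 => simp only [map_one]
  | of s =>
    obtain ⟨i, b⟩ := s
    rw [incl, FreeGroup.lift_apply_of, toP_left]
  | inv_of s ih => rw [map_inv, map_inv, map_inv, ih]
  | mul a b ha hb => rw [map_mul, map_mul, map_mul, ha, hb]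

theorem toP_surj : Function.Surjective (toP (k := k)) := fun y => by
  obtain ⟨x, rfl⟩ := q_surj y
  exact ⟨incl x, toP_incl x⟩

theorem toP_E (t : T) (x : SurfaceGroup (3 + k)) : toP (ET t x) = t.1.2 (toP x) := by
  have : toP.comp (ET (k := k) t) = t.1.2.toMonoidHom.comp toP := by
    refine hom_ext (K := P) ?_ ?_
    · intro i b
      change toP (ET t _) = t.1.2 (toP _)
      rw [ET, E_left, toP_incl, Tq, toP_left]
    · intro j b
      change toP (ET t _) = t.1.2 (toP _)
      rw [ET, E_right, toP_right]
      exact (map_one t.1.2).symm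
  exact DFunLike.congr_fun this x

/-- The homomorphism to the mapping class group. -/
def toMod : T →* MappingClassGroup (3 + k) := (QuotientGroup.mk' _).comp toAut

theorem detect {t : T} (h : toMod (k := k) t = 1) : ∃ g : P, sndT t = MulAut.conj g := by
  have h1 : (toAut t : AutPlus (3 + k)) ∈ InnerAut (3 + k) := (QuotientGroup.eq_one_iff _).mp h
  obtain ⟨x, hx⟩ : ∃ x : SurfaceGroup (3 + k), MulAut.conj x =
    (toAut t : AutPlus (3 + k)).1 := h1
  refine ⟨toP x, ?_⟩
  apply MulEquiv.ext
  intro y
  obtain ⟨z, rfl⟩ := toP_surj (k := k) y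
  have h2 := DFunLike.congr_fun hx z
  rw [toAut_apply] at h2
  change t.1.2 (toP z) = _
  rw [← toP_E, ← h2, MulAut.conj_apply, MulAut.conj_apply, map_mul, map_mul, map_inv]

variable {m : ℕ}

theorem psi_toMod (x : FreeGroup (Pool.Agent.Helper270.Red.F m × Pool.Agent.Helper270.Red.F m)) :
    toMod (k := k) (FreeGroup.lift (fun l => dl l * tz * (dl l)⁻¹) x) =
      FreeGroup.lift (fun l => (toMod.comp dl) l * toMod tz * ((toMod.comp dl) l)⁻¹) x := by
  induction x using FreeGroup.induction_on with
  | C1 => simp only [map_one]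
  | of l =>
    rw [FreeGroup.lift_apply_of, FreeGroup.lift_apply_of, map_mul, map_mul, map_inv]
    rfl
  | inv_of l ih => rw [map_inv, map_inv, map_inv, ih]
  | mul a b ha hb => rw [map_mul, map_mul, map_mul, ha, hb]

/-- The frame in the mapping class group. -/
def frame (m k : ℕ) : Pool.Agent.Helper270.Red.Frame m (MappingClassGroup (3 + k)) where
  δ := toMod.comp dl
  ε := toMod.comp ep
  z := toMod tz
  hδε p β := (dl_ep p β).map toMod
  hzε β := (tz_ep β).map toMod
  det x p β h := by
    have h1 : toMod (k := k) (FreeGroup.lift (fun l => dl l * tz * (dl l)⁻¹) x * dl p * ep β) =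
        1 := by
      rw [map_mul, map_mul, psi_toMod]
      exact h
    obtain ⟨g, hg⟩ := detect h1
    exact det x p β g hg

end Pool.Agent.Helper270.EX
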