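import Mathlib
import Pool.Agent.Helper270.WPA

set_option autoImplicit false

/-! A finitely presented group with undecidable word problem: the model. -/

namespace Pool.Agent.Helper270.WP

open Pool.Agent.Helper270.WPA

/-- Pairs of integers. -/
abbrev V : Type := Bool → ℤ

theorem aut_ext {α : Type} {e f : MulAut (FreeGroup α)}
    (h : ∀ a, e (FreeGroup.of a) = f (FreeGroup.of a)) : e = f := by
  apply MulEquiv.ext
  intro x
  exact DFunLike.congr_fun (FreeGroup.ext_hom (f := e.toMonoidHom) (g := f.toMonoidHom) h) x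

section Model

variable (P : Type)

/-- Translation of the index. -/
def tr (v : V) : P × V ≃ P × V where
  toFun x := (x.1, x.2 - v)
  invFun x := (x.1, x.2 + v)
  left_inv := by rintro ⟨p, n⟩; simp
  right_inv := by rintro ⟨p, n⟩; simp

/-- The action of translations on the free group. -/
def φ : Multiplicative V →* MulAut (FreeGroup (P × V)) where
  toFun v := FreeGroup.freeGroupCongr (tr P v.toAdd)
  map_one' := by
    apply aut_ext
    rintro ⟨p, n⟩
    simp [tr]
  map_mul' v w := by
    apply aut_ext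
    rintro ⟨p, n⟩
    simp only [FreeGroup.freeGroupCongr_apply, MulAut.mul_apply, FreeGroup.map.of, tr,
      Equiv.coe_fn_mk, toAdd_mul]
    congr 2
    abel

theorem φ_of (v : Multiplicative V) (p : P) (n : V) :
    φ P v (FreeGroup.of (p, n)) = FreeGroup.of (p, n - v.toAdd) := by
  simp [φ, tr]

/-- The free product of `P` infinite cyclic groups and a free abelian group of rank two. -/
abbrev G0 : Type := FreeGroup (P × V) ⋊[φ P] Multiplicative V

variable {P}

/-- The subgroup of a rule. -/
def jj (p : P) (m ρ : V) : G0 Unit →* G0 P :=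
  SemidirectProduct.map (FreeGroup.map (fun x : Unit × V => (p, m * x.2 + ρ)))
    (AddMonoidHom.toMultiplicative (AddMonoidHom.mulLeft m)) (by
      intro v
      apply FreeGroup.ext_hom
      rintro ⟨⟨⟩, u⟩
      simp only [MonoidHom.comp_apply, MulEquiv.coe_toMonoidHom, φ_of, FreeGroup.map.of]
      congr 2
      simp
      ring)

theorem jj_inl (p : P) (m ρ u : V) : jj p m ρ (SemidirectProduct.inl (FreeGroup.of ((), u))) =
    SemidirectProduct.inl (FreeGroup.of (p, m * u + ρ)) := by
  simp [jj]

theorem jj_inr (p : P) (m ρ v : V) : jj p m ρ (SemidirectProduct.inr (Multiplicative.ofAdd v)) =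
    SemidirectProduct.inr (Multiplicative.ofAdd (m * v)) := by
  simp [jj]

theorem jj_injective (p : P) (m ρ : V) (hm : ∀ j, m j ≠ 0) : Function.Injective (jj p m ρ) := by
  have hmul : ∀ u v : V, m * u = m * v → u = v := by
    intro u v h
    funext j
    exact mul_left_cancel₀ (hm j) (congrFun h j)
  intro x y hxy
  have h1 := congrArg SemidirectProduct.left hxy
  have h2 := congrArg SemidirectProduct.right hxy
  simp only [jj, SemidirectProduct.map_left, SemidirectProduct.map_right] at h1 h2
  have h3 : x.left = y.left := by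
    refine FreeGroup.map_injective ?_ h1
    rintro ⟨⟨⟩, u⟩ ⟨⟨⟩, v⟩ huv
    have := hmul u v (add_right_cancel (Prod.mk.inj huv).2)
    rw [this]
  have h4 : x.right = y.right := hmul _ _ h2
  exact SemidirectProduct.ext h3 h4

/-- Translations. -/
def trans : Multiplicative V →* Equiv.Perm (V × Bool) where
  toFun v := Equiv.prodCongr (Equiv.addRight v.toAdd) (Equiv.refl _)
  map_one' := by ext x <;> simp
  map_mul' v w := by
    apply Equiv.ext
    rintro ⟨u, ε⟩
    simp only [Equiv.prodCongr_apply, Equiv.coe_addRight, Prod.map_apply, Equiv.refl_apply,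
      Equiv.Perm.mul_apply, toAdd_mul, Prod.mk.injEq, and_true]
    rw [add_assoc, add_comm w.toAdd]

theorem trans_apply (v : Multiplicative V) (u : V) (ε : Bool) :
    trans v (u, ε) = (u + v.toAdd, ε) := rfl

open Classical in
/-- Swap the sheets away from the set. -/
noncomputable def tog (H : P → V → Prop) (x : P × V) : Equiv.Perm (V × Bool) :=
  Function.Involutive.toPerm (fun y => (y.1, if H x.1 (y.1 + x.2) then y.2 else !y.2)) (by
    rintro ⟨u, ε⟩
    simp only
    split_ifs <;> simp)

open Classical in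
theorem tog_apply (H : P → V → Prop) (p : P) (n u : V) (ε : Bool) :
    tog H (p, n) (u, ε) = (u, if H p (u + n) then ε else !ε) := rfl

/-- The action on two sheets. -/
noncomputable def act0 (H : P → V → Prop) : G0 P →* Equiv.Perm (V × Bool) :=
  SemidirectProduct.lift (FreeGroup.lift (tog H)) trans (by
    intro v
    apply FreeGroup.ext_hom
    rintro ⟨p, n⟩
    simp only [MonoidHom.comp_apply, MulEquiv.coe_toMonoidHom, φ_of, FreeGroup.lift_apply_of,
      MulAut.conj_apply]
    apply Equiv.ext
    rintro ⟨u, ε⟩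
    have h1 : (trans v)⁻¹ (u, ε) = (u - v.toAdd, ε) := by
      rw [← map_inv, trans_apply, toAdd_inv, sub_eq_add_neg]
    rw [Equiv.Perm.mul_apply, Equiv.Perm.mul_apply, h1, tog_apply, tog_apply, trans_apply]
    simp only [sub_add_cancel]
    rw [show u + (n - v.toAdd) = u - v.toAdd + n from by abel])

theorem act0_inr (H : P → V → Prop) (v : Multiplicative V) :
    act0 H (SemidirectProduct.inr v) = trans v := by simp [act0]

theorem act0_inl (H : P → V → Prop) (x : P × V) :
    act0 H (SemidirectProduct.inl (FreeGroup.of x)) = tog H x := by simp [act0]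

/-- Restriction of the action to a sublattice. -/
theorem act0_jj (H : P → V → Prop) (p : P) (m ρ : V) (s : G0 Unit) (u : V) (ε : Bool) :
    act0 H (jj p m ρ s) (m * u, ε) =
      ((m * (act0 (fun (_ : Unit) u => H p (m * u + ρ)) s (u, ε)).1),
        (act0 (fun (_ : Unit) u => H p (m * u + ρ)) s (u, ε)).2) := by
  set Hu : Unit → V → Prop := fun _ u => H p (m * u + ρ) with hHu
  let θ : V × Bool → V × Bool := fun x => (m * x.1, x.2)
  suffices h : ∀ (s : G0 Unit) (x : V × Bool), act0 H (jj p m ρ s) (θ x) = θ (act0 Hu s x) from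
    h s (u, ε)
  have hmul : ∀ s t : G0 Unit, (∀ x, act0 H (jj p m ρ s) (θ x) = θ (act0 Hu s x)) →
      (∀ x, act0 H (jj p m ρ t) (θ x) = θ (act0 Hu t x)) →
      ∀ x, act0 H (jj p m ρ (s * t)) (θ x) = θ (act0 Hu (s * t) x) := by
    intro s t hs ht x
    rw [map_mul, map_mul, map_mul, Equiv.Perm.mul_apply, Equiv.Perm.mul_apply, ht, hs]
  have hinv : ∀ s : G0 Unit, (∀ x, act0 H (jj p m ρ s) (θ x) = θ (act0 Hu s x)) →
      ∀ x, act0 H (jj p m ρ s⁻¹) (θ x) = θ (act0 Hu s⁻¹ x) := by
    intro s hs x
    have := hs (act0 Hu s⁻¹ x)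
    rw [← Equiv.Perm.mul_apply (act0 Hu s), ← map_mul, mul_inv_cancel, map_one,
      Equiv.Perm.one_apply] at this
    rw [← this, ← Equiv.Perm.mul_apply, ← map_mul, ← map_mul, inv_mul_cancel, map_one, map_one,
      Equiv.Perm.one_apply]
  have hgen : ∀ (n : V) x, act0 H (jj p m ρ (SemidirectProduct.inl (FreeGroup.of ((), n)))) (θ x)
      = θ (act0 Hu (SemidirectProduct.inl (FreeGroup.of ((), n))) x) := by
    rintro n ⟨u, ε⟩
    rw [jj_inl, act0_inl, act0_inl]
    simp only [θ, tog_apply, hHu]
    rw [show m * u + (m * n + ρ) = m * (u + n) + ρ from by ring]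
  have hl : ∀ (w : FreeGroup (Unit × V)) x, act0 H (jj p m ρ (SemidirectProduct.inl w)) (θ x) =
      θ (act0 Hu (SemidirectProduct.inl w) x) := by
    intro w
    induction w using FreeGroup.induction_on with
    | C1 => intro x; simp
    | of y => obtain ⟨⟨⟩, n⟩ := y; exact hgen n
    | inv_of y ih => rw [map_inv]; exact hinv _ ih
    | mul a b ha hb => rw [map_mul]; exact hmul _ _ ha hb
  have hr : ∀ (v : Multiplicative V) x, act0 H (jj p m ρ (SemidirectProduct.inr v)) (θ x) =
      θ (act0 Hu (SemidirectProduct.inr v) x) := by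
    rintro v ⟨u, ε⟩
    have e1 := jj_inr p m ρ v.toAdd
    rw [ofAdd_toAdd] at e1
    rw [e1, act0_inr, act0_inr]
    simp only [θ, trans_apply, toAdd_ofAdd]
    rw [mul_add]
  intro s
  rw [← SemidirectProduct.inl_left_mul_inr_right s]
  exact hmul _ _ (hl _) (hr _)

theorem stab_iff (H : P → V → Prop) (p p' : P) (m ρ a b : V) (hm : ∀ j, m j ≠ 0)
    (ha : ∀ j, a j ≠ 0) (h : ∀ u, H p (m * u + ρ) ↔ H p' (a * u + b)) (s : G0 Unit) :
    act0 H (jj p m ρ s) (0, false) = (0, false) ↔ act0 H (jj p' a b s) (0, false) = (0, false) := by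
  have hHu : (fun (_ : Unit) u => H p (m * u + ρ)) = fun (_ : Unit) u => H p' (a * u + b) := by
    funext _ u; exact propext (h u)
  have h1 := act0_jj H p m ρ s 0 false
  have h2 := act0_jj H p' a b s 0 false
  rw [mul_zero] at h1 h2
  rw [hHu] at h1
  rw [h1, h2]
  have key : ∀ c : V, (∀ j, c j ≠ 0) → ∀ y : V × Bool, (c * y.1, y.2) = ((0 : V), false) ↔
      y = (0, false) := by
    rintro c hc ⟨u, ε⟩
    simp only [Prod.mk.injEq]
    constructor
    · rintro ⟨h1, h2⟩
      refine ⟨?_, h2⟩
      funext j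
      have := congrFun h1 j
      simp only [Pi.mul_apply, Pi.zero_apply, mul_eq_zero] at this
      exact this.resolve_left (hc j)
    · rintro ⟨rfl, rfl⟩; simp
  rw [key m hm, key a ha]

end Model

/-- The rules of a machine. -/
structure Rules (P ι : Type) where
  src : ι → P
  tgt : ι → P
  m : ι → V
  r : ι → V
  a : ι → V
  b : ι → V
  hm : ∀ i j, m i j ≠ 0
  ha : ∀ i j, a i j ≠ 0

section Words

variable {P H : Type} [Group H]

/-- Translations as words. -/
def Xw (x : Bool → H) (n : V) : H := x false ^ n false * x true ^ n true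

/-- Conjugates of the state letters. -/
def Tw (x : Bool → H) (t : P → H) (p : P) (n : V) : H := (Xw x n)⁻¹ * t p * Xw x n

theorem map_Xw {H' : Type} [Group H'] (f : H →* H') (x : Bool → H) (n : V) :
    f (Xw x n) = Xw (fun j => f (x j)) n := by simp [Xw]

theorem map_Tw {H' : Type} [Group H'] (f : H →* H') (x : Bool → H) (t : P → H) (p : P) (n : V) :
    f (Tw x t p n) = Tw (fun j => f (x j)) (fun p => f (t p)) p n := by simp [Tw, map_Xw]

end Words

/-- The permutation model of the machine. -/
theorem exists_model {P ι : Type} (D : Rules P ι) (H : P → V → Prop)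
    (hH : ∀ i u, H (D.src i) (D.m i * u + D.r i) ↔ H (D.tgt i) (D.a i * u + D.b i)) :
    ∃ (Ω : Type) (x : Bool → Equiv.Perm Ω) (t : P → Equiv.Perm Ω) (R : ι → Equiv.Perm Ω) (o : Ω),
      x false * x true = x true * x false ∧
      (∀ i, R i * Tw x t (D.src i) (D.r i) = Tw x t (D.tgt i) (D.b i) * R i) ∧
      (∀ i j, R i * x j ^ D.m i j = x j ^ D.a i j * R i) ∧
      (∀ i, R i o = o) ∧ (∀ p n, Tw x t p n o = o ↔ H p n) := by
  classical
  obtain ⟨K, κ, hκ⟩ := exists_kappa (V × Bool) (Set (G0 P))
  have hR := fun i => exists_conj (act0 H) κ hκ (0, false)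
    (jj (D.src i) (D.m i) (D.r i)) (jj (D.tgt i) (D.a i) (D.b i))
    (jj_injective _ _ _ (D.hm i)) (jj_injective _ _ _ (D.ha i))
    (stab_iff H _ _ _ _ _ _ (D.hm i) (D.ha i) (hH i))
  choose R hR1 hR2 using hR
  let A := big K (act0 H)
  let x : Bool → Equiv.Perm _ := fun j =>
    A (SemidirectProduct.inr (Multiplicative.ofAdd (Pi.single j 1)))
  let t : P → Equiv.Perm _ := fun p => A (SemidirectProduct.inl (FreeGroup.of (p, 0)))
  have hz : ∀ j (c : ℤ), x j ^ c =
      A (SemidirectProduct.inr (Multiplicative.ofAdd (c • Pi.single j 1))) := by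
    intro j c
    rw [ofAdd_zsmul, map_zpow (SemidirectProduct.inr), map_zpow A]
  have hX : ∀ n : V, Xw x n = A (SemidirectProduct.inr (Multiplicative.ofAdd n)) := by
    intro n
    rw [Xw, hz, hz, ← map_mul A, ← map_mul (SemidirectProduct.inr), ← ofAdd_add]
    congr 3
    funext j
    cases j <;> simp
  have hT : ∀ p n, Tw x t p n = A (SemidirectProduct.inl (FreeGroup.of (p, n))) := by
    intro p n
    rw [Tw, hX, ← map_inv, ← map_mul, ← map_mul]
    congr 1
    have := SemidirectProduct.inl_aut (φ := φ P) (Multiplicative.ofAdd (-n))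
      (FreeGroup.of (p, 0))
    rw [φ_of] at this
    rw [toAdd_ofAdd, sub_neg_eq_add, zero_add, ofAdd_neg, map_inv, inv_inv] at this
    exact this.symm
  refine ⟨_, x, t, R, Sum.inl (0, false), ?_, ?_, ?_, hR1, ?_⟩
  · have h1 := hz false 1
    have h2 := hz true 1
    rw [zpow_one] at h1 h2
    rw [h1, h2, ← map_mul A, ← map_mul (SemidirectProduct.inr), ← map_mul A,
      ← map_mul (SemidirectProduct.inr), mul_comm]
  · intro i
    rw [hT, hT]
    have := hR2 i (SemidirectProduct.inl (FreeGroup.of ((), 0)))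
    rw [jj_inl, jj_inl, mul_zero, mul_zero, zero_add, zero_add] at this
    exact this
  · intro i j
    have := hR2 i (SemidirectProduct.inr (Multiplicative.ofAdd (Pi.single j 1)))
    rw [jj_inr, jj_inr] at this
    have key : ∀ c : V, x j ^ c j =
        A (SemidirectProduct.inr (Multiplicative.ofAdd (c * Pi.single j 1))) := by
      intro c
      rw [hz]
      congr 3
      funext k
      by_cases hk : k = j
      · subst hk; simp
      · simp [hk]
    rw [key, key]
    exact this
  · intro p n
    rw [hT]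
    change Sum.inl (act0 H (SemidirectProduct.inl (FreeGroup.of (p, n))) (0, false)) =
      Sum.inl (0, false) ↔ _
    rw [act0_inl, tog_apply, zero_add, Sum.inl.injEq, Prod.mk.injEq]
    by_cases h : H p n <;> simp [h]

end Pool.Agent.Helper270.WP
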