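import Mathlib
import Pool.Agent.Helper270.WP
import Pool.Agent.Helper270.WPSource

set_option autoImplicit false

/-! A finitely presented group with undecidable word problem. -/

namespace Pool.Agent.Helper270.WP

open Pool.Agent.Helper270.WPA

/-- The generators. -/
inductive Gen (P ι : Type) : Type
  | x (j : Bool)
  | t (p : P)
  | r (i : ι)
  | k

/-- The generators as a sum. -/
def genEquiv (P ι : Type) : Gen P ι ≃ (Bool ⊕ P ⊕ ι ⊕ Unit) where
  toFun g := match g with
    | .x j => .inl j
    | .t p => .inr (.inl p)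
    | .r i => .inr (.inr (.inl i))
    | .k => .inr (.inr (.inr ()))
  invFun g := match g with
    | .inl j => .x j
    | .inr (.inl p) => .t p
    | .inr (.inr (.inl i)) => .r i
    | .inr (.inr (.inr ())) => .k
  left_inv g := by cases g <;> rfl
  right_inv g := by rcases g with j | p | i | ⟨⟨⟩⟩ <;> rfl

/-- The configurations leading to the final one. -/
inductive Acc {P ι : Type} (D : Rules P ι) (p0 : P) : P → V → Prop
  | base : Acc D p0 p0 0
  | step (i : ι) (u : V) : Acc D p0 (D.tgt i) (D.a i * u + D.b i) →
      Acc D p0 (D.src i) (D.m i * u + D.r i)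

section Group

variable {P ι : Type} (D : Rules P ι) (p0 : P)

theorem Xw_add {H : Type} [Group H] (x : Bool → H) (h0 : x false * x true = x true * x false)
    (n n' : V) : Xw x (n + n') = Xw x n * Xw x n' := by
  have hc : Commute (x false) (x true) := h0
  have h1 := (hc.zpow_zpow (n' false) (n true)).eq
  simp only [Xw, Pi.add_apply, zpow_add]
  calc x false ^ n false * x false ^ n' false * (x true ^ n true * x true ^ n' true)
      = x false ^ n false * (x false ^ n' false * x true ^ n true) * x true ^ n' true := by group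
    _ = x false ^ n false * (x true ^ n true * x false ^ n' false) * x true ^ n' true := by rw [h1]
    _ = _ := by group

theorem comm_of_acc {H : Type} [Group H] (x : Bool → H) (t : P → H) (r : ι → H) (k : H)
    (h0 : x false * x true = x true * x false)
    (h1 : ∀ i, r i * Tw x t (D.src i) (D.r i) = Tw x t (D.tgt i) (D.b i) * r i)
    (h2 : ∀ i j, r i * x j ^ D.m i j = x j ^ D.a i j * r i)
    (h3 : k * t p0 = t p0 * k) (h4 : ∀ i, k * r i = r i * k) {p : P} {n : V}
    (h : Acc D p0 p n) : k * Tw x t p n = Tw x t p n * k := by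
  induction h with
  | base => simpa [Tw, Xw] using h3
  | step i u _ ih =>
    have e2 : SemiconjBy (r i) (Xw x (D.m i * u)) (Xw x (D.a i * u)) := by
      have f1 : ∀ j, SemiconjBy (r i) (x j ^ (D.m i j * u j)) (x j ^ (D.a i j * u j)) := by
        intro j
        rw [zpow_mul, zpow_mul]
        exact SemiconjBy.zpow_right (h2 i j) (u j)
      exact (f1 false).mul_right (f1 true)
    have hT : ∀ (p : P) (w ρ : V), Tw x t p (w + ρ) = (Xw x w)⁻¹ * Tw x t p ρ * Xw x w := by
      intro p w ρ
      have : Xw x (w + ρ) = Xw x ρ * Xw x w := by rw [add_comm, Xw_add x h0]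
      rw [Tw, Tw, this]; group
    have e3 : SemiconjBy (r i) (Tw x t (D.src i) (D.m i * u + D.r i))
        (Tw x t (D.tgt i) (D.a i * u + D.b i)) := by
      rw [hT, hT]
      exact (e2.inv_right.mul_right (h1 i)).mul_right e2
    have e4 : Commute k (r i) := h4 i
    have e5 : Commute k (Tw x t (D.tgt i) (D.a i * u + D.b i)) := ih
    have e6 : Tw x t (D.src i) (D.m i * u + D.r i) =
        (r i)⁻¹ * Tw x t (D.tgt i) (D.a i * u + D.b i) * r i := by
      rw [mul_assoc, ← e3.eq]; group
    rw [e6]
    exact (e4.inv_right.mul_right e5).mul_right e4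

/-- The generators in the free group. -/
def gx (j : Bool) : FreeGroup (Gen P ι) := FreeGroup.of (.x j)
def gt (p : P) : FreeGroup (Gen P ι) := FreeGroup.of (.t p)
def gr (i : ι) : FreeGroup (Gen P ι) := FreeGroup.of (.r i)
def gk : FreeGroup (Gen P ι) := FreeGroup.of .k

/-- The relators. -/
def rels : Set (FreeGroup (Gen P ι)) :=
  {gx false * gx true * (gx false)⁻¹ * (gx true)⁻¹} ∪
  Set.range (fun i => gr i * Tw gx gt (D.src i) (D.r i) * (gr i)⁻¹ *
    (Tw gx gt (D.tgt i) (D.b i))⁻¹) ∪
  Set.range (fun ij : ι × Bool => gr ij.1 * gx ij.2 ^ D.m ij.1 ij.2 * (gr ij.1)⁻¹ *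
    (gx ij.2 ^ D.a ij.1 ij.2)⁻¹) ∪
  {gk * gt p0 * gk⁻¹ * (gt p0)⁻¹} ∪ Set.range (fun i => gk * gr i * gk⁻¹ * (gr i)⁻¹)

theorem rels_finite [Finite ι] : (rels D p0).Finite := by
  unfold rels
  exact ((((Set.finite_singleton _).union (Set.finite_range _)).union
    (Set.finite_range _)).union (Set.finite_singleton _)).union (Set.finite_range _)

/-- The test word. -/
def tw (p : P) (n : V) : FreeGroup (Gen P ι) :=
  gk * Tw gx gt p n * gk⁻¹ * (Tw gx gt p n)⁻¹

theorem mem_normalClosure_iff (hH : ∀ i u, Acc D p0 (D.src i) (D.m i * u + D.r i) →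
    Acc D p0 (D.tgt i) (D.a i * u + D.b i)) (p : P) (n : V) :
    tw p n ∈ Subgroup.normalClosure (rels D p0) ↔ Acc D p0 p n := by
  classical
  constructor
  · intro hmem
    by_contra hacc
    obtain ⟨Ω, x, t, R, o, m0, m1, m2, m3, m4⟩ := exists_model D (Acc D p0)
      (fun i u => ⟨hH i u, Acc.step i u⟩)
    let dup : Equiv.Perm Ω →* Equiv.Perm (Ω × Bool) :=
      { toFun := fun σ => Equiv.prodCongr σ (Equiv.refl _)
        map_one' := by ext x <;> simp
        map_mul' := fun σ τ => by ext x <;> simp }
    have dup_apply : ∀ σ ω ε, dup σ (ω, ε) = (σ ω, ε) := fun σ ω ε => rfl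
    let kk : Equiv.Perm (Ω × Bool) := Equiv.swap (o, false) (o, true)
    have hkk : ∀ σ : Equiv.Perm Ω, σ o = o → kk * dup σ = dup σ * kk := by
      intro σ hσ
      have h1 : dup σ * kk * (dup σ)⁻¹ = kk := by
        rw [← Equiv.swap_apply_apply]
        change Equiv.swap (σ o, false) (σ o, true) = _
        rw [hσ]
      rw [mul_inv_eq_iff_eq_mul] at h1
      exact h1.symm
    let ξ : FreeGroup (Gen P ι) →* Equiv.Perm (Ω × Bool) := FreeGroup.lift (fun g =>
      match g with
      | .x j => dup (x j)
      | .t p => dup (t p)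
      | .r i => dup (R i)
      | .k => kk)
    have ξx : ∀ j, ξ (gx j) = dup (x j) := fun j => FreeGroup.lift_apply_of
    have ξt : ∀ p, ξ (gt p) = dup (t p) := fun j => FreeGroup.lift_apply_of
    have ξr : ∀ i, ξ (gr i) = dup (R i) := fun j => FreeGroup.lift_apply_of
    have ξk : ξ gk = kk := FreeGroup.lift_apply_of
    have ξT : ∀ p n, ξ (Tw gx gt p n) = dup (Tw x t p n) := by
      intro p n
      rw [map_Tw, map_Tw]
      simp only [ξx, ξt]
    have hle : Subgroup.normalClosure (rels D p0) ≤ ξ.ker := by
      apply Subgroup.normalClosure_le_normal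
      rintro w ((((hw | ⟨i, rfl⟩) | ⟨⟨i, j⟩, rfl⟩) | hw) | ⟨i, rfl⟩)
      · rw [Set.mem_singleton_iff.mp hw, SetLike.mem_coe, MonoidHom.mem_ker]
        simp only [map_mul, map_inv, ξx]
        rw [mul_inv_eq_one, mul_inv_eq_iff_eq_mul, ← map_mul, ← map_mul, m0]
      · rw [SetLike.mem_coe, MonoidHom.mem_ker]
        simp only [map_mul, map_inv, ξr, ξT]
        rw [mul_inv_eq_one, mul_inv_eq_iff_eq_mul, ← map_mul, ← map_mul, m1]
      · rw [SetLike.mem_coe, MonoidHom.mem_ker]
        simp only [map_mul, map_inv, map_zpow, ξr, ξx]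
        rw [mul_inv_eq_one, mul_inv_eq_iff_eq_mul, ← map_zpow, ← map_zpow, ← map_mul,
          ← map_mul, m2]
      · rw [Set.mem_singleton_iff.mp hw, SetLike.mem_coe, MonoidHom.mem_ker]
        simp only [map_mul, map_inv, ξk, ξt]
        rw [mul_inv_eq_one, mul_inv_eq_iff_eq_mul]
        apply hkk
        have := (m4 p0 0).mpr Acc.base
        simpa [Tw, Xw] using this
      · rw [SetLike.mem_coe, MonoidHom.mem_ker]
        simp only [map_mul, map_inv, ξk, ξr]
        rw [mul_inv_eq_one, mul_inv_eq_iff_eq_mul]
        exact hkk _ (m3 i)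
    have h1 := hle hmem
    rw [MonoidHom.mem_ker, tw] at h1
    simp only [map_mul, map_inv, ξk, ξT] at h1
    rw [mul_inv_eq_one, mul_inv_eq_iff_eq_mul] at h1
    have hne : Tw x t p n o ≠ o := fun h => hacc ((m4 p n).mp h)
    have h2 := congrArg (fun σ => σ (o, false)) h1
    simp only [Equiv.Perm.mul_apply, dup_apply] at h2
    have e1 : kk (Tw x t p n o, false) = (Tw x t p n o, false) := by
      apply Equiv.swap_apply_of_ne_of_ne
      · intro h; exact hne (Prod.mk.inj h).1
      · intro h; exact hne (Prod.mk.inj h).1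
    have e2 : kk (o, false) = (o, true) := Equiv.swap_apply_left _ _
    rw [e1, e2] at h2
    exact absurd (Prod.mk.inj h2).2 (by simp)
  · intro hacc
    have hmk : ∀ w : FreeGroup (Gen P ι), w ∈ rels D p0 → PresentedGroup.mk (rels D p0) w = 1 :=
      fun w hw => PresentedGroup.one_of_mem hw
    let π : FreeGroup (Gen P ι) →* PresentedGroup (rels D p0) := PresentedGroup.mk (rels D p0)
    have key := comm_of_acc D p0 (H := PresentedGroup (rels D p0)) (fun j => π (gx j))
      (fun p => π (gt p)) (fun i => π (gr i)) (π gk) (by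
        have := hmk _ (Or.inl (Or.inl (Or.inl (Or.inl rfl))))
        rw [map_mul, map_inv, mul_inv_eq_one, map_mul, map_inv, mul_inv_eq_iff_eq_mul,
          map_mul] at this
        exact this) (by
        intro i
        have := hmk _ (Or.inl (Or.inl (Or.inl (Or.inr ⟨i, rfl⟩))))
        rw [map_mul, map_inv, mul_inv_eq_one, map_mul, map_inv, mul_inv_eq_iff_eq_mul,
          map_mul, map_Tw, map_Tw] at this
        exact this) (by
        intro i j
        have := hmk _ (Or.inl (Or.inl (Or.inr ⟨(i, j), rfl⟩)))
        rw [map_mul, map_inv, mul_inv_eq_one, map_mul, map_inv, mul_inv_eq_iff_eq_mul,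
          map_mul, map_zpow, map_zpow] at this
        exact this) (by
        have := hmk _ (Or.inl (Or.inr rfl))
        rw [map_mul, map_inv, mul_inv_eq_one, map_mul, map_inv, mul_inv_eq_iff_eq_mul,
          map_mul] at this
        exact this) (by
        intro i
        have := hmk _ (Or.inr ⟨i, rfl⟩)
        rw [map_mul, map_inv, mul_inv_eq_one, map_mul, map_inv, mul_inv_eq_iff_eq_mul,
          map_mul] at this
        exact this) hacc
    rw [← map_Tw] at key
    have h2 : PresentedGroup.mk (rels D p0) (tw p n) = 1 := by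
      rw [tw, map_mul, map_inv, mul_inv_eq_one, map_mul, map_inv, mul_inv_eq_iff_eq_mul, map_mul]
      exact key
    exact (QuotientGroup.eq_one_iff _).mp h2

end Group

section Machine

open Pool.Agent.Helper270.WPSource

variable {Q : Type} (M : Sys Q Bool)

open Classical in
/-- The rules of the counter machine, completed by rules clearing the counters. -/
noncomputable def mrules (hpos : ∀ q r j, M.nxt q r ≠ none → 0 < M.a q r j) :
    Rules (Option Q) (Option Q × (Bool → Fin M.B)) where
  src i := i.1
  tgt i := match i.1 with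
    | none => none
    | some q => M.nxt q i.2
  m _ := fun _ => M.B
  r i := fun j => ((i.2 j : ℕ) : ℤ)
  a i := match i.1 with
    | none => 1
    | some q => if M.nxt q i.2 = none then 1 else fun j => (M.a q i.2 j : ℤ)
  b i := match i.1 with
    | none => 0
    | some q => if M.nxt q i.2 = none then 0 else fun j => (M.b q i.2 j : ℤ)
  hm _ _ := by
    have := M.hB
    simp only [ne_eq, Nat.cast_eq_zero]
    omega
  ha i j := by
    rcases i with ⟨_ | q, r⟩
    · simp
    · simp only
      split_ifs with h
      · simp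
      · have := hpos q r j h
        simp only [ne_eq, Nat.cast_eq_zero]
        omega

variable (hpos : ∀ q r j, M.nxt q r ≠ none → 0 < M.a q r j)

/-- The natural counters as integers. -/
def toV (n : Bool → ℕ) : V := fun j => n j

theorem toV_div (n : Bool → ℕ) :
    toV n = (fun _ => (M.B : ℤ)) * toV (fun j => n j / M.B) + fun j => ((M.res n j : ℕ) : ℤ) := by
  funext j
  simp only [toV, Pi.add_apply, Pi.mul_apply, Sys.res]
  have := Nat.div_add_mod (n j) M.B
  exact_mod_cast this.symm

theorem div_unique {b : ℕ} (hb : 0 < b) {u u' : ℤ} {r r' : ℕ} (hr : r < b) (hr' : r' < b)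
    (h : (b : ℤ) * u + r = b * u' + r') : u = u' ∧ r = r' := by
  have h1 : ((b : ℤ) * u + r) / b = u := by
    rw [add_comm, Int.add_mul_ediv_left _ _ (by omega), Int.ediv_eq_zero_of_lt (by omega)
      (by exact_mod_cast hr), zero_add]
  have h2 : ((b : ℤ) * u' + r') / b = u' := by
    rw [add_comm, Int.add_mul_ediv_left _ _ (by omega), Int.ediv_eq_zero_of_lt (by omega)
      (by exact_mod_cast hr'), zero_add]
  have h3 : u = u' := by rw [← h1, ← h2, h]
  subst h3
  exact ⟨rfl, by exact_mod_cast add_left_cancel h⟩

theorem rule_unique {i i' : Option Q × (Bool → Fin M.B)} {u u' : V} (h1 : i.1 = i'.1)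
    (h2 : (mrules M hpos).m i * u + (mrules M hpos).r i =
      (mrules M hpos).m i' * u' + (mrules M hpos).r i') : i = i' ∧ u = u' := by
  have key : ∀ j, u j = u' j ∧ (i.2 j : ℕ) = i'.2 j := by
    intro j
    have := congrFun h2 j
    exact div_unique M.hB (i.2 j).2 (i'.2 j).2 this
  refine ⟨?_, funext fun j => (key j).1⟩
  apply Prod.ext h1
  funext j
  exact Fin.ext (key j).2

theorem acc_cases {p : Option Q} {n : V} (h : Acc (mrules M hpos) none p n) :
    (p = none ∧ n = 0) ∨ ∃ i u, p = (mrules M hpos).src i ∧
      n = (mrules M hpos).m i * u + (mrules M hpos).r i ∧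
      Acc (mrules M hpos) none ((mrules M hpos).tgt i)
        ((mrules M hpos).a i * u + (mrules M hpos).b i) := by
  cases h with
  | base => exact Or.inl ⟨rfl, rfl⟩
  | step i u h => exact Or.inr ⟨i, u, rfl, rfl, h⟩

theorem acc_forward (i : Option Q × (Bool → Fin M.B)) (u : V)
    (h : Acc (mrules M hpos) none ((mrules M hpos).src i)
      ((mrules M hpos).m i * u + (mrules M hpos).r i)) :
    Acc (mrules M hpos) none ((mrules M hpos).tgt i)
      ((mrules M hpos).a i * u + (mrules M hpos).b i) := by
  rcases acc_cases M hpos h with ⟨h1, h2⟩ | ⟨i', u', h1, h2, h3⟩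
  · have h0 : ∀ j, u j = 0 ∧ (i.2 j : ℕ) = 0 := by
      intro j
      have := congrFun h2 j
      refine div_unique M.hB (i.2 j).2 M.hB ?_
      rw [mul_zero, Nat.cast_zero, zero_add]
      exact this
    have hu : u = 0 := funext fun j => (h0 j).1
    obtain ⟨i1, i2⟩ := i
    have h1 : i1 = none := h1
    subst h1
    subst hu
    change Acc (mrules M hpos) none none (1 * 0 + 0)
    rw [one_mul, zero_add]
    exact Acc.base
  · obtain ⟨rfl, rfl⟩ := rule_unique M hpos h1 h2
    exact h3

theorem acc_none (hB : 2 ≤ M.B) (n : Bool → ℕ) : Acc (mrules M hpos) none none (toV n) := by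
  induction hs : n false + n true using Nat.strong_induction_on generalizing n with
  | _ s ih =>
    by_cases h0 : n false + n true = 0
    · have : toV n = 0 := by
        funext j
        cases j
        · simp only [toV, Pi.zero_apply]; omega
        · simp only [toV, Pi.zero_apply]; omega
      rw [this]
      exact Acc.base
    · rw [toV_div M n]
      refine Acc.step (D := mrules M hpos) (none, M.res n) _ ?_
      change Acc (mrules M hpos) none none (1 * toV (fun j => n j / M.B) + 0)
      rw [one_mul, add_zero]
      refine ih (n false / M.B + n true / M.B) ?_ (fun j => n j / M.B) rfl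
      have key : ∀ k : ℕ, k / M.B ≤ k ∧ (k ≠ 0 → k / M.B < k) := fun k =>
        ⟨Nat.div_le_self _ _, fun hk => Nat.div_lt_self (by omega) hB⟩
      have k1 := key (n false)
      have k2 := key (n true)
      by_cases hf : n false = 0
      · have := k2.2 (by omega)
        omega
      · have := k1.2 hf
        omega

theorem acc_of_halts (hB : 2 ≤ M.B) {p : Option Q} {n : Bool → ℕ} (h : M.Halts p n) :
    Acc (mrules M hpos) none p (toV n) := by
  induction h with
  | stop n => exact acc_none M hpos hB n
  | step q n h ih =>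
    rw [toV_div M n]
    refine Acc.step (D := mrules M hpos) (some q, M.res n) _ ?_
    by_cases hn : M.nxt q (M.res n) = none
    · change Acc (mrules M hpos) none (M.nxt q (M.res n))
        ((if M.nxt q (M.res n) = none then 1 else fun j => (M.a q (M.res n) j : ℤ)) * _ +
          if M.nxt q (M.res n) = none then 0 else fun j => (M.b q (M.res n) j : ℤ))
      rw [if_pos hn, if_pos hn, hn, one_mul, add_zero]
      exact acc_none M hpos hB _
    · change Acc (mrules M hpos) none (M.nxt q (M.res n))
        ((if M.nxt q (M.res n) = none then 1 else fun j => (M.a q (M.res n) j : ℤ)) * _ +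
          if M.nxt q (M.res n) = none then 0 else fun j => (M.b q (M.res n) j : ℤ))
      rw [if_neg hn, if_neg hn]
      have e : toV (M.nn q n) = (fun j => (M.a q (M.res n) j : ℤ)) * toV (fun j => n j / M.B) +
          fun j => (M.b q (M.res n) j : ℤ) := by
        funext j
        simp [toV, Sys.nn]
      rw [← e]
      exact ih

theorem halts_of_acc {p : Option Q} {v : V} (h : Acc (mrules M hpos) none p v) :
    ∀ n : Bool → ℕ, v = toV n → M.Halts p n := by
  induction h with
  | base => intro n _; exact Sys.Halts.stop n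
  | step i u _ ih =>
    intro n hn
    obtain ⟨_ | q, ρ⟩ := i
    · exact Sys.Halts.stop n
    · rw [toV_div M n] at hn
      have h1 : ∀ j, u j = toV (fun j => n j / M.B) j ∧ (ρ j : ℕ) = M.res n j := by
        intro j
        have := congrFun hn j
        exact div_unique M.hB (ρ j).2 (M.res n j).2 this
      have hu : u = toV (fun j => n j / M.B) := funext fun j => (h1 j).1
      have hρ : ρ = M.res n := funext fun j => Fin.ext (h1 j).2
      subst hρ
      apply Sys.Halts.step
      by_cases hnx : M.nxt q (M.res n) = none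
      · rw [hnx]; exact Sys.Halts.stop _
      · apply ih
        change ((if M.nxt q (M.res n) = none then 1 else fun j => (M.a q (M.res n) j : ℤ)) * u +
          if M.nxt q (M.res n) = none then 0 else fun j => (M.b q (M.res n) j : ℤ)) = _
        rw [if_neg hnx, if_neg hnx, hu]
        funext j
        simp [toV, Sys.nn]

end Machine

section Final

open Pool.Agent.Helper270.WPSource

/-- Powers of a letter as a list. -/
def rep {α : Type} (c : α) (N : ℕ) : List α := (List.range N).map (fun _ => c)

theorem mk_rep {α : Type} (c : α) (ε : Bool) (N : ℕ) :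
    FreeGroup.mk (rep (c, ε) N) = (FreeGroup.mk [(c, ε)]) ^ N := by
  induction N with
  | zero => rfl
  | succ N ih =>
    rw [rep, List.range_succ, List.map_append, ← FreeGroup.mul_mk, pow_succ]
    congr 1

/-- The list of the test word. -/
def twl {α : Type} (k t x : α) (N : ℕ) : List (α × Bool) :=
  [(k, true)] ++ (rep (x, false) N ++ ([(t, true)] ++ (rep (x, true) N ++ ([(k, false)] ++
    (rep (x, false) N ++ ([(t, false)] ++ rep (x, true) N))))))

theorem mk_twl {α : Type} (k t x : α) (N : ℕ) : FreeGroup.mk (twl k t x N) =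
    FreeGroup.of k * ((FreeGroup.of x ^ N)⁻¹ * FreeGroup.of t * FreeGroup.of x ^ N) *
      (FreeGroup.of k)⁻¹ * ((FreeGroup.of x ^ N)⁻¹ * FreeGroup.of t * FreeGroup.of x ^ N)⁻¹ := by
  have e1 : ∀ a : α, FreeGroup.mk [(a, true)] = FreeGroup.of a := fun a => rfl
  have e2 : ∀ a : α, FreeGroup.mk [(a, false)] = (FreeGroup.of a)⁻¹ := fun a => rfl
  simp only [twl, ← FreeGroup.mul_mk, mk_rep, e1, e2, inv_pow]
  group

theorem twl_computable {α : Type} [Primcodable α] (k t x : α) (N : ℕ → ℕ) (hN : Computable N) :
    Computable (fun n => twl k t x (N n)) := by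
  have h : Primrec (fun n : ℕ => twl k t x n) := by
    have hr : ∀ c : α × Bool, Primrec (fun n : ℕ => rep c n) := fun c =>
      Primrec.list_map Primrec.list_range (Primrec.const c).to₂
    unfold twl
    exact Primrec.list_append.comp (Primrec.const _) (Primrec.list_append.comp (hr _)
      (Primrec.list_append.comp (Primrec.const _) (Primrec.list_append.comp (hr _)
      (Primrec.list_append.comp (Primrec.const _) (Primrec.list_append.comp (hr _)
      (Primrec.list_append.comp (Primrec.const _) (hr _)))))))
  exact h.to_comp.comp hN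

/-- The Novikov-Boone theorem: a finitely presented group with undecidable word problem. -/
theorem word_problem : ∃ (m : ℕ) (R : Finset (FreeGroup (Fin m))) (W : ℕ → List (Fin m × Bool)),
    Computable W ∧ ¬ ComputablePred (fun n => FreeGroup.mk (W n) ∈
      Subgroup.normalClosure (R : Set (FreeGroup (Fin m)))) := by
  classical
  obtain ⟨Q, hQ, M, q0, N, hB, hpos, hN, hu⟩ := exists_sys
  have : Finite (Option Q × (Bool → Fin M.B)) := inferInstance
  have : Finite (Gen (Option Q) (Option Q × (Bool → Fin M.B))) :=
    Finite.of_equiv _ (genEquiv _ _).symm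
  obtain ⟨m, ⟨e⟩⟩ := Finite.exists_equiv_fin (Gen (Option Q) (Option Q × (Bool → Fin M.B)))
  let D := mrules M hpos
  let E := FreeGroup.freeGroupCongr e
  let R' : Set (FreeGroup (Fin m)) := E '' rels D none
  have hR' : R'.Finite := (rels_finite D none).image _
  refine ⟨m, hR'.toFinset, fun n => twl (e .k) (e (.t (some q0))) (e (.x true)) (N n),
    twl_computable _ _ _ N hN, ?_⟩
  intro hc
  apply hu
  refine hc.of_eq ?_
  intro n
  have h1 : M.Halts (some q0) (ini (N n)) ↔ Acc D none (some q0) (toV (ini (N n))) :=
    ⟨acc_of_halts M hpos hB, fun h => halts_of_acc M hpos h _ rfl⟩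
  rw [h1, ← mem_normalClosure_iff D none (acc_forward M hpos)]
  have h2 : FreeGroup.mk (twl (e .k) (e (.t (some q0))) (e (.x true)) (N n)) =
      E (tw (some q0) (toV (ini (N n)))) := by
    rw [mk_twl, tw, Tw, Xw]
    simp only [map_mul, map_inv, map_zpow, gk, gt, gx, E, FreeGroup.freeGroupCongr_apply,
      FreeGroup.map.of, toV, ini]
    simp
  rw [h2]
  have h3 : Subgroup.normalClosure ((hR'.toFinset : Finset _) : Set (FreeGroup (Fin m))) =
      (Subgroup.normalClosure (rels D none)).map E.toMonoidHom := by
    rw [Set.Finite.coe_toFinset]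
    exact (Subgroup.map_normalClosure _ E.toMonoidHom E.surjective).symm
  rw [h3]
  constructor
  · rintro ⟨y, hy, hyE⟩
    have := E.injective hyE
    rwa [this] at hy
  · intro h
    exact ⟨_, h, rfl⟩

end Final

end Pool.Agent.Helper270.WP
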