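import Mathlib
import Pool.Agent.Helper270.WPB
import Pool.Agent.Helper270.EX
import Pool.Agent.Helper270.MCGDef

set_option autoImplicit false

/-! The undecidability theorem. -/

namespace Pool.Agent.Helper270.FIN

open Pool.Agent.Helper270.Red Pool.Agent.Helper270.Split

section Words

variable {G : Type} [Group G] {k : ℕ} (s : Fin k → G)

theorem evalWord_nil : evalWord s [] = 1 := rfl

theorem evalWord_cons (x : Fin k × Bool) (w : List (Fin k × Bool)) :
    evalWord s (x :: w) = (if x.2 then s x.1 else (s x.1)⁻¹) * evalWord s w := by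
  simp [evalWord]

theorem evalWord_append (w w' : List (Fin k × Bool)) :
    evalWord s (w ++ w') = evalWord s w * evalWord s w' := by
  simp [evalWord]

theorem evalWord_eq (w : List (Fin k × Bool)) :
    evalWord s w = FreeGroup.lift s (FreeGroup.mk w) := by
  rw [FreeGroup.lift_mk, evalWord]
  congr 1
  apply List.map_congr_left
  rintro ⟨i, b⟩ -
  cases b <;> rfl

theorem exists_word {x : G} (hx : x ∈ Subgroup.closure (Set.range s)) :
    ∃ w : List (Fin k × Bool), evalWord s w = x := by
  classical
  rw [← FreeGroup.range_lift_eq_closure] at hx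
  obtain ⟨y, rfl⟩ := hx
  exact ⟨y.toWord, by rw [evalWord_eq, FreeGroup.mk_toWord]⟩

/-- Substitution of words for letters. -/
theorem evalWord_flatMap {α : Type} (v : α → G) (V : α × Bool → List (Fin k × Bool))
    (hV : ∀ a b, evalWord s (V (a, b)) = if b then v a else (v a)⁻¹) (w : List (α × Bool)) :
    evalWord s (w.flatMap V) = FreeGroup.lift v (FreeGroup.mk w) := by
  rw [FreeGroup.lift_mk]
  induction w with
  | nil => rfl
  | cons x w ih =>
    obtain ⟨a, b⟩ := x
    rw [List.flatMap_cons, evalWord_append, hV, ih, List.map_cons, List.prod_cons]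
    cases b <;> rfl

end Words

section Rho

variable {m : ℕ}

/-- Formal inverse. -/
def inv {α : Type} (w : List (α × Bool)) : List (α × Bool) :=
  (w.map fun x => (x.1, !x.2)).reverse

theorem mk_inv {α : Type} (w : List (α × Bool)) : FreeGroup.mk (inv w) = (FreeGroup.mk w)⁻¹ := by
  rw [FreeGroup.inv_mk]; rfl

/-- Formal commutator with a letter. -/
def cw {α : Type} (w : List (α × Bool)) (a : α) : List (α × Bool) :=
  w ++ ((a, true) :: (inv w ++ [(a, false)]))

theorem mk_cw {α : Type} (w : List (α × Bool)) (a : α) :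
    FreeGroup.mk (cw w a) = comm (FreeGroup.mk w) (FreeGroup.of a) := by
  have h1 : (FreeGroup.mk [(a, false)] : FreeGroup α) = (FreeGroup.of a)⁻¹ := rfl
  have h2 : (FreeGroup.mk ((a, true) :: (inv w ++ [(a, false)])) : FreeGroup α) =
      FreeGroup.of a * (FreeGroup.mk (inv w) * FreeGroup.mk [(a, false)]) := by
    rw [FreeGroup.mul_mk]
    change _ = FreeGroup.mk [(a, true)] * _
    rw [FreeGroup.mul_mk]
    rfl
  rw [cw, ← FreeGroup.mul_mk, h2, mk_inv, h1, Red.comm]
  simp only [mul_assoc]

/-- The word representing the double commutator. -/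
def rw' (w : List (Fin m × Bool)) : List (I m × Bool) :=
  cw (cw (w.map fun x => (Sum.inl x.1, x.2)) (Sum.inr false)) (Sum.inr true)

theorem mk_rw (w : List (Fin m × Bool)) : FreeGroup.mk (rw' w) = rho (FreeGroup.mk w) := by
  rw [rw', mk_cw, mk_cw, rho, ey, es]
  have h1 : em (FreeGroup.mk w) =
      (FreeGroup.mk (w.map fun x => (Sum.inl x.1, x.2)) : F m) := by
    rw [Red.em, FreeGroup.map.mk]
  rw [h1]

theorem inv_primrec {α : Type} [Primcodable α] : Primrec (inv : List (α × Bool) → _) := by
  apply Primrec.list_reverse.comp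
  apply Primrec.list_map Primrec.id
  exact (Primrec.pair (Primrec.fst.comp Primrec.snd)
    (Primrec.not.comp (Primrec.snd.comp Primrec.snd))).to₂

theorem cw_primrec {α β : Type} [Primcodable α] [Primcodable β] (a : α)
    {f : β → List (α × Bool)} (hf : Primrec f) : Primrec (fun x => cw (f x) a) := by
  apply Primrec.list_append.comp hf
  apply Primrec.list_cons.comp (Primrec.const _)
  exact Primrec.list_append.comp (inv_primrec.comp hf) (Primrec.const _)

theorem rw_primrec : Primrec (rw' : List (Fin m × Bool) → _) := by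
  apply cw_primrec
  apply cw_primrec
  apply Primrec.list_map Primrec.id
  exact (Primrec.pair (Primrec.sumInl.comp (Primrec.fst.comp Primrec.snd))
    (Primrec.snd.comp Primrec.snd)).to₂

end Rho

section Final

variable {M : Type} [Group M]

theorem computable_comp {α : Type} [Primcodable α] {p : α → Prop} (hp : ComputablePred p)
    {f : ℕ → α} (hf : Computable f) : ComputablePred (fun n => p (f n)) := by
  obtain ⟨g, hg, rfl⟩ := ComputablePred.computable_iff.mp hp
  exact ComputablePred.computable_iff.mpr ⟨fun n => g (f n), hg.comp hf, rfl⟩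

/-- Undecidability for groups containing all the frames. -/
theorem undecidable (D : ∀ m, Frame m M) : ∃ E : Set M, E.Finite ∧
    ∀ (k : ℕ) (s : Fin k → M), E ⊆ Subgroup.closure (Set.range s) →
      (¬ ComputablePred fun ws : List (List (Fin k × Bool)) =>
        FreelyIndecomposable (subgroupOfWords s ws)) ∧
      (¬ ComputablePred fun ws : List (List (Fin k × Bool)) =>
        SplitsOverZ (subgroupOfWords s ws)) := by
  classical
  obtain ⟨m, R, W, hW, hu⟩ := Pool.Agent.Helper270.WP.word_problem
  let Dm := D m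
  refine ⟨Set.range (fun i : I m => Dm.δ (FreeGroup.of i, FreeGroup.of i)) ∪
    Set.range (fun i : I m => Dm.δ (1, FreeGroup.of i)) ∪ {Dm.ε gc, Dm.z * Dm.ε gd}, ?_, ?_⟩
  · exact ((Set.finite_range _).union (Set.finite_range _)).union (by simp)
  intro k s hs
  have hdiag : ∀ i : I m, ∃ w, evalWord s w = Dm.δ (FreeGroup.of i, FreeGroup.of i) :=
    fun i => exists_word s (hs (Or.inl (Or.inl ⟨i, rfl⟩)))
  have hsnd : ∀ i : I m, Dm.δ (1, FreeGroup.of i) ∈ Subgroup.closure (Set.range s) :=
    fun i => hs (Or.inl (Or.inr ⟨i, rfl⟩))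
  have hlet : ∀ x : I m × Bool, ∃ w, evalWord s w =
      if x.2 then Dm.δ (1, FreeGroup.of x.1) else (Dm.δ (1, FreeGroup.of x.1))⁻¹ := by
    rintro ⟨i, b⟩
    apply exists_word
    cases b
    · exact inv_mem (hsnd i)
    · exact hsnd i
  obtain ⟨wc, hwc⟩ := exists_word s (hs (Or.inr (Or.inl rfl)))
  obtain ⟨wz, hwz⟩ := exists_word s (hs (Or.inr (Or.inr rfl)))
  choose wd hwd using hdiag
  choose V hV using hlet
  -- the substitution
  let δ2 : F m →* M := Dm.δ.comp (MonoidHom.inr _ _)
  have hsub : ∀ w : List (I m × Bool), evalWord s (w.flatMap V) = δ2 (FreeGroup.mk w) := by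
    intro w
    rw [evalWord_flatMap s (fun i => Dm.δ (1, FreeGroup.of i)) V (fun a b => hV (a, b))]
    have : FreeGroup.lift (fun i => Dm.δ (1, FreeGroup.of i)) = δ2 := by
      apply FreeGroup.ext_hom
      intro i
      simp [δ2]
    rw [this]
  -- the fixed words
  let fixed : List (List (Fin k × Bool)) :=
    (Finset.univ : Finset (I m)).toList.map wd ++
      (R.toList.map fun r => (em r).toWord.flatMap V) ++ [wz]
  let Fw : ℕ → List (List (Fin k × Bool)) := fun n => ((rw' (W n)).flatMap V ++ wc) :: fixed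
  have hF : Computable Fw := by
    have h1 : Primrec (fun w : List (Fin m × Bool) => ((rw' w).flatMap V ++ wc) :: fixed) := by
      apply Primrec.list_cons.comp _ (Primrec.const _)
      apply Primrec.list_append.comp _ (Primrec.const _)
      apply Primrec.list_flatMap rw_primrec
      exact ((Primrec.dom_finite V).comp Primrec.snd).to₂
    exact h1.to_comp.comp hW
  have hH : ∀ n, subgroupOfWords s (Fw n) = H Dm (R : Set (FreeGroup (Fin m)))
      (FreeGroup.mk (W n)) := by
    intro n
    rw [subgroupOfWords, H]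
    congr 1
    ext x
    have hr : ∀ r : FreeGroup (Fin m), evalWord s ((em r).toWord.flatMap V) =
        Dm.δ (1, em r) := by
      intro r
      rw [hsub, FreeGroup.mk_toWord]
      rfl
    have hrho : evalWord s ((rw' (W n)).flatMap V ++ wc) =
        Dm.δ (1, rho (FreeGroup.mk (W n))) * Dm.ε gc := by
      rw [evalWord_append, hsub, mk_rw, hwc]
      rfl
    simp only [Set.mem_ofPred_eq, Fw, fixed, List.mem_cons, List.mem_append, List.mem_map,
      Finset.mem_toList, Finset.mem_univ, true_and, gens, Set.mem_union, Set.mem_range,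
      Set.mem_image, Set.mem_insert_iff, Set.mem_singleton_iff, Finset.mem_coe]
    constructor
    · rintro ⟨w, rfl | ((⟨i, rfl⟩ | ⟨r, hr', rfl⟩) | (rfl | h)), rfl⟩
      · exact Or.inr (Or.inl hrho)
      · exact Or.inl (Or.inl ⟨i, (hwd i).symm⟩)
      · exact Or.inl (Or.inr ⟨r, hr', (hr r).symm⟩)
      · exact Or.inr (Or.inr hwz)
      · simp at h
    · rintro ((⟨i, rfl⟩ | ⟨r, hr', rfl⟩) | rfl | rfl)
      · exact ⟨wd i, Or.inr (Or.inl (Or.inl ⟨i, rfl⟩)), (hwd i).symm⟩
      · exact ⟨_, Or.inr (Or.inl (Or.inr ⟨r, hr', rfl⟩)), (hr r).symm⟩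
      · exact ⟨_, Or.inl rfl, hrho.symm⟩
      · exact ⟨_, Or.inr (Or.inr (Or.inl rfl)), hwz.symm⟩
  constructor
  · intro hc
    apply hu
    refine (computable_comp hc hF).of_eq fun n => ?_
    rw [hH n]
    exact (main_iff Dm).1
  · intro hc
    apply hu
    refine ((computable_comp hc hF).not).of_eq fun n => ?_
    rw [hH n, (main_iff Dm).2, not_not]

end Final

end Pool.Agent.Helper270.FIN
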