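import Mathlib
set_option autoImplicit false

/-! Edge cocycle on the Gaussian Farey complex, and its potential. -/

namespace Pool.Agent.H270.Gau

abbrev O := GaussianInt
abbrev V := O × O

def nn (z : O) : ℤ := z.re * z.re + z.im * z.im
def dt (v w : V) : O := v.1 * w.2 - v.2 * w.1
def ar (v : V) : ZMod 5 := ((v.1.re * v.2.im - v.1.im * v.2.re : ℤ) : ZMod 5)
def F5 (s t : ZMod 5) : ℤ := if s = 4 ∧ t = 1 then 1 else if s = 1 ∧ t = 4 then -1 else 0
def FF (v w : V) : ℤ := F5 (ar v) (ar w)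

theorem nn_mul (z w : O) : nn (z * w) = nn z * nn w := by
  simp only [nn, Zsqrtd.re_mul, Zsqrtd.im_mul]; ring

theorem nn_nonneg (z : O) : 0 ≤ nn z := by
  unfold nn; nlinarith [mul_self_nonneg z.re, mul_self_nonneg z.im]

theorem nn_zero_iff (z : O) : nn z = 0 ↔ z = 0 := by
  unfold nn
  constructor
  · intro h
    have h1 : z.re = 0 := by nlinarith [mul_self_nonneg z.re, mul_self_nonneg z.im]
    have h2 : z.im = 0 := by nlinarith [mul_self_nonneg z.re, mul_self_nonneg z.im]
    ext <;> simp [h1, h2]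
  · rintro rfl; simp

def cj (z : O) : O := ⟨z.re, -z.im⟩

theorem cj_mul_self (z : O) : z * cj z = (nn z : O) := by
  ext
  · simp [cj, nn, Zsqrtd.re_mul]
  · simp [cj, Zsqrtd.im_mul]; ring

theorem nn_cj (z : O) : nn (cj z) = nn z := by
  simp [nn, cj]

theorem cj_of_unit {z : O} (h : nn z = 1) : z * cj z = 1 := by
  rw [cj_mul_self, h]; simp

theorem dec1 : ∀ s t c d : ZMod 5, c * c + d * d = 1 + 4 * s * t →
    F5 s t = F5 s (s + t + c) + F5 (s + t + c) t := by
  decide +kernel

theorem F5_anti : ∀ s t : ZMod 5, F5 s t = - F5 t s := by decide +kernel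

theorem FF_anti (v w : V) : FF v w = - FF w v := F5_anti _ _

theorem ar_smul {α : O} (h : nn α = 1) (v : V) : ar (α • v) = ar v := by
  unfold ar
  congr 1
  have : (α • v).1.re * (α • v).2.im - (α • v).1.im * (α • v).2.re
      = nn α * (v.1.re * v.2.im - v.1.im * v.2.re) := by
    simp only [Prod.smul_fst, Prod.smul_snd, smul_eq_mul, Zsqrtd.re_mul, Zsqrtd.im_mul, nn]
    ring
  rw [this, h, one_mul]

theorem FF_smul_left {α : O} (h : nn α = 1) (v w : V) : FF (α • v) w = FF v w := by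
  unfold FF; rw [ar_smul h]

theorem FF_smul_right {α : O} (h : nn α = 1) (v w : V) : FF v (α • w) = FF v w := by
  unfold FF; rw [ar_smul h]

theorem tri (v w : V) (α β : O) (hα : nn α = 1) (hβ : nn β = 1) (h : nn (dt v w) = 1) :
    FF v w = FF v (α • v + β • w) + FF (α • v + β • w) w := by
  set z0 : O := cj v.1 * w.2 - w.1 * cj v.2 with hz0
  set z1 : O := cj α * β * z0 with hz1
  have H1 : z1.im * z1.im + z1.re * z1.re = nn α * nn β * (nn (dt v w)
      + 4 * (v.1.re * v.2.im - v.1.im * v.2.re) * (w.1.re * w.2.im - w.1.im * w.2.re)) := by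
    have e1 : z1.im * z1.im + z1.re * z1.re = nn z1 := by unfold nn; ring
    rw [e1, hz1, nn_mul, nn_mul, nn_cj]
    congr 1
    simp only [hz0, nn, dt, cj, Zsqrtd.re_mul, Zsqrtd.im_mul, Zsqrtd.re_sub, Zsqrtd.im_sub]
    ring
  have H2 : (α • v + β • w).1.re * (α • v + β • w).2.im - (α • v + β • w).1.im * (α • v + β • w).2.re
      = nn α * (v.1.re * v.2.im - v.1.im * v.2.re) + nn β * (w.1.re * w.2.im - w.1.im * w.2.re)
        + z1.im := by
    simp only [hz1, hz0, nn, cj, Zsqrtd.re_mul, Zsqrtd.im_mul, Zsqrtd.re_sub, Zsqrtd.im_sub,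
      Prod.fst_add, Prod.snd_add, Prod.smul_fst, Prod.smul_snd, smul_eq_mul, Zsqrtd.re_add,
      Zsqrtd.im_add]
    ring
  rw [hα, hβ, h] at H1
  rw [hα, hβ] at H2
  have K1 : ((z1.im : ℤ) : ZMod 5) * (z1.im : ZMod 5) + (z1.re : ZMod 5) * (z1.re : ZMod 5)
      = 1 + 4 * ar v * ar w := by
    unfold ar
    have := congrArg (Int.cast : ℤ → ZMod 5) H1
    push_cast at this ⊢
    rw [this]; ring
  have K2 : ar (α • v + β • w) = ar v + ar w + (z1.im : ZMod 5) := by
    unfold ar
    rw [H2]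
    push_cast
    ring
  unfold FF
  rw [K2]
  exact dec1 _ _ _ _ K1

/-! neighbours -/

theorem dt_anti (v w : V) : dt v w = - dt w v := by unfold dt; ring

theorem nn_neg (z : O) : nn (-z) = nn z := by simp [nn]

theorem nn_dt_symm (v w : V) : nn (dt v w) = nn (dt w v) := by rw [dt_anti, nn_neg]

theorem dt_smul_left (α : O) (v w : V) : dt (α • v) w = α * dt v w := by
  simp [dt]; ring

theorem dt_smul_right (α : O) (v w : V) : dt v (α • w) = α * dt v w := by
  simp [dt]; ring

theorem dt_comb_right (α β : O) (v w : V) : dt v (α • v + β • w) = β * dt v w := by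
  simp [dt]; ring

theorem dt_comb_left (α β : O) (v w : V) : dt (α • v + β • w) w = α * dt v w := by
  simp [dt]; ring

/-- a primitive vector with nonzero second entry has a lower neighbour -/
theorem exists_lower {v w : V} (h : nn (dt v w) = 1) (hv : v.2 ≠ 0) :
    ∃ u : V, nn (dt u v) = 1 ∧ nn u.2 < nn v.2 := by
  refine ⟨w - (w.2 / v.2) • v, ?_, ?_⟩
  · have : dt (w - (w.2 / v.2) • v) v = dt w v := by
      simp [dt]; ring
    rw [this, nn_dt_symm, h]
  · have h1 : (w - (w.2 / v.2) • v).2 = w.2 % v.2 := by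
      have := EuclideanDomain.div_add_mod w.2 v.2
      simp only [Prod.snd_sub, Prod.smul_snd, smul_eq_mul]
      linear_combination -this
    rw [h1]
    have h2 := GaussianInt.norm_mod_lt w.2 hv
    simp only [Zsqrtd.norm] at h2
    unfold nn
    linarith

open Classical in
noncomputable def Phi (v : V) : ℤ :=
  if h : ∃ w : V, nn (dt w v) = 1 ∧ nn w.2 < nn v.2 then
    Phi (choose h) + FF (choose h) v
  else 0
termination_by (nn v.2).toNat
decreasing_by
  have := (choose_spec h).2
  have h0 := nn_nonneg (choose h).2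
  omega

theorem Phi_pos {v : V} (h : ∃ w : V, nn (dt w v) = 1 ∧ nn w.2 < nn v.2) :
    ∃ w : V, nn (dt w v) = 1 ∧ nn w.2 < nn v.2 ∧ Phi v = Phi w + FF w v := by
  refine ⟨Classical.choose h, (Classical.choose_spec h).1, (Classical.choose_spec h).2, ?_⟩
  rw [Phi, dif_pos h]

theorem Phi_neg {v : V} (h : ¬ ∃ w : V, nn (dt w v) = 1 ∧ nn w.2 < nn v.2) : Phi v = 0 := by
  rw [Phi, dif_neg h]

theorem Phi_zero {v : V} (h : v.2 = 0) : Phi v = 0 := by
  apply Phi_neg
  rintro ⟨w, -, hw⟩
  have := nn_nonneg w.2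
  rw [h] at hw
  simp [nn] at hw
  unfold nn at this
  linarith

def PP (n : ℤ) : Prop := ∀ v w : V, nn (dt v w) = 1 → nn v.2 < n → nn w.2 < n → Phi w - Phi v = FF v w

theorem PP_unit {n : ℤ} (hP : PP n) {w z : V} {α : O} (hα : nn α = 1) (hw : nn w.2 < n)
    (hz : nn (dt w z) = 1) : Phi (α • w) = Phi w := by
  by_cases h0 : w.2 = 0
  · rw [Phi_zero h0, Phi_zero (by simp [h0])]
  · obtain ⟨u, hu, hu2⟩ := exists_lower hz h0
    have h1 := hP u w hu (lt_trans hu2 hw) hw
    have h2 := hP u (α • w) (by rw [dt_smul_right, nn_mul, hα, hu]; rfl) (lt_trans hu2 hw)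
      (by rw [Prod.smul_snd, smul_eq_mul, nn_mul, hα, one_mul]; exact hw)
    rw [FF_smul_right hα] at h2
    linarith

theorem PP_desc1 {n : ℤ} (hP : PP n) {w0 v : V} (he : nn (dt w0 v) = 1) (h0 : nn w0.2 < n)
    {α t : O} (hα : nn α = 1) (ht : nn t = 1) (hw : nn (α • w0 + t • v).2 < n) :
    Phi (α • w0 + t • v) + FF (α • w0 + t • v) v = Phi w0 + FF w0 v := by
  have h1 := hP w0 (α • w0 + t • v) (by rw [dt_comb_right, nn_mul, ht, he]; rfl) h0 hw
  have h2 := tri w0 v α t hα ht he
  linarith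

theorem PP_desc2 {n : ℤ} (hP : PP n) {w0 v : V} (he : nn (dt w0 v) = 1) (h0 : nn w0.2 < n)
    {α t : O} (hα : nn α = 1) (ht1 : t.re * t.re = 1) (ht2 : t.im * t.im = 1)
    (hw : nn (α • w0 + t • v).2 < n) :
    Phi (α • w0 + t • v) + FF (α • w0 + t • v) v = Phi w0 + FF w0 v := by
  set t1 : O := ⟨t.re, 0⟩ with h1
  set t2 : O := ⟨0, t.im⟩ with h2
  have n1 : nn t1 = 1 := by simp [nn, h1, ht1]
  have n2 : nn t2 = 1 := by simp [nn, h2, ht2]
  have ha : nn (α • w0).2 < n := by
    rw [Prod.smul_snd, smul_eq_mul, nn_mul, hα, one_mul]; exact h0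
  have hpar : nn (α • w0 + t1 • v).2 + nn (α • w0 + t2 • v).2
      = nn (α • w0).2 + nn (α • w0 + t • v).2 := by
    simp only [nn, h1, h2, Prod.snd_add, Prod.smul_snd, smul_eq_mul, Zsqrtd.re_add, Zsqrtd.im_add,
      Zsqrtd.re_mul, Zsqrtd.im_mul]
    ring
  have key : ∀ x y : O, nn x = 1 → nn y = 1 → x + y = t → nn (α • w0 + x • v).2 < n →
      Phi (α • w0 + t • v) + FF (α • w0 + t • v) v = Phi w0 + FF w0 v := by
    intro x y hx hy hxy hlt
    have k1 := PP_desc1 hP he h0 hα hx hlt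
    have e1 : (1 : O) • (α • w0 + x • v) + y • v = α • w0 + t • v := by
      rw [one_smul, add_assoc, ← add_smul, hxy]
    have k2 := PP_desc1 hP (w0 := α • w0 + x • v) (v := v) (α := 1) (t := y)
      (by rw [dt_comb_left, nn_mul, hα, he]; rfl) hlt (by simp [nn]) hy (by rw [e1]; exact hw)
    rw [e1] at k2
    linarith
  have hsum : t1 + t2 = t := by ext <;> simp [h1, h2]
  rcases lt_or_ge (nn (α • w0 + t1 • v).2) n with hh | hh
  · exact key t1 t2 n1 n2 hsum hh
  · have : nn (α • w0 + t2 • v).2 < n := by linarith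
    exact key t2 t1 n2 n1 (by rw [add_comm]; exact hsum) this

theorem cramer (w0 v w : V) : dt w0 v • w = dt w v • w0 + dt w0 w • v := by
  ext1 <;> simp [dt] <;> ring

theorem PP_desc {n : ℤ} (hP : PP n) {w0 v w : V} (hv : nn v.2 = n) (he0 : nn (dt w0 v) = 1)
    (he : nn (dt w v) = 1) (h0 : nn w0.2 < n) (hw : nn w.2 < n) :
    Phi w + FF w v = Phi w0 + FF w0 v := by
  set δ := cj (dt w0 v) with hδ
  have hδ1 : nn δ = 1 := by rw [hδ, nn_cj, he0]
  set α := δ * dt w v with hα
  set t := δ * dt w0 w with ht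
  have hα1 : nn α = 1 := by rw [hα, nn_mul, hδ1, he]; rfl
  have hwe : w = α • w0 + t • v := by
    have h1 := congrArg (fun x => δ • x) (cramer w0 v w)
    simp only [smul_add, smul_smul] at h1
    rw [mul_comm δ (dt w0 v), hδ, cj_of_unit he0, one_smul] at h1
    rw [hα, ht, hδ]
    exact h1
  have hn : 0 < n := lt_of_le_of_lt (nn_nonneg _) h0
  have hb : nn t * n < 4 * n := by
    have e1 : nn t * n = nn (w.2 - α * w0.2) := by
      rw [← hv, ← nn_mul]
      congr 1
      have := congrArg Prod.snd hwe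
      simp only [Prod.snd_add, Prod.smul_snd, smul_eq_mul] at this
      linear_combination -this
    have e2 : nn (w.2 - α * w0.2) + nn (w.2 + α * w0.2) = 2 * nn w.2 + 2 * nn (α * w0.2) := by
      simp only [nn, Zsqrtd.re_add, Zsqrtd.im_add, Zsqrtd.re_sub, Zsqrtd.im_sub]; ring
    have e3 : nn (α * w0.2) = nn w0.2 := by rw [nn_mul, hα1, one_mul]
    have e4 := nn_nonneg (w.2 + α * w0.2)
    rw [e1]; linarith
  have ht4 : nn t < 4 := lt_of_mul_lt_mul_right hb hn.le
  have hr1 : t.re < 2 := by unfold nn at ht4; nlinarith [mul_self_nonneg t.im]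
  have hr2 : -2 < t.re := by unfold nn at ht4; nlinarith [mul_self_nonneg t.im]
  have hi1 : t.im < 2 := by unfold nn at ht4; nlinarith [mul_self_nonneg t.re]
  have hi2 : -2 < t.im := by unfold nn at ht4; nlinarith [mul_self_nonneg t.re]
  have hr : t.re = 0 ∨ t.re * t.re = 1 := by
    have : t.re = -1 ∨ t.re = 0 ∨ t.re = 1 := by omega
    rcases this with h | h | h <;> simp [h]
  have hi : t.im = 0 ∨ t.im * t.im = 1 := by
    have : t.im = -1 ∨ t.im = 0 ∨ t.im = 1 := by omega
    rcases this with h | h | h <;> simp [h]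
  rcases hr with hr | hr <;> rcases hi with hi | hi
  · have ht0 : t = 0 := by ext <;> simp [hr, hi]
    rw [ht0, zero_smul, add_zero] at hwe
    rw [hwe, FF_smul_left hα1]
    rw [PP_unit hP hα1 h0 he0]
  · have : nn t = 1 := by unfold nn; rw [hr, hi]; rfl
    rw [hwe] at hw ⊢
    exact PP_desc1 hP he0 h0 hα1 this hw
  · have : nn t = 1 := by unfold nn; rw [hr, hi]; rfl
    rw [hwe] at hw ⊢
    exact PP_desc1 hP he0 h0 hα1 this hw
  · rw [hwe] at hw ⊢
    exact PP_desc2 hP he0 h0 hα1 hr hi hw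

theorem exists_eps {a b : O} {n : ℤ} (hn : 0 < n) (ha : nn a = n) (hb : nn b = n) :
    ∃ ε : O, nn ε = 1 ∧ nn (a + ε * b) < n := by
  by_contra hcon
  push Not at hcon
  have h1 := hcon ⟨1, 0⟩ (by simp [nn])
  have h2 := hcon ⟨-1, 0⟩ (by simp [nn])
  have h3 := hcon ⟨0, 1⟩ (by simp [nn])
  have h4 := hcon ⟨0, -1⟩ (by simp [nn])
  set x := a.re * b.re + a.im * b.im with hx
  set y := a.re * b.im - a.im * b.re with hy
  have hxy : x * x + y * y = n * n := by
    have : x * x + y * y = nn a * nn b := by simp only [hx, hy, nn]; ring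
    rw [this, ha, hb]
  have e1 : nn (a + ⟨1, 0⟩ * b) = nn a + nn b + 2 * x := by
    simp only [nn, hx, Zsqrtd.re_add, Zsqrtd.im_add, Zsqrtd.re_mul, Zsqrtd.im_mul]; ring
  have e2 : nn (a + ⟨-1, 0⟩ * b) = nn a + nn b - 2 * x := by
    simp only [nn, hx, Zsqrtd.re_add, Zsqrtd.im_add, Zsqrtd.re_mul, Zsqrtd.im_mul]; ring
  have e3 : nn (a + ⟨0, 1⟩ * b) = nn a + nn b - 2 * y := by
    simp only [nn, hy, Zsqrtd.re_add, Zsqrtd.im_add, Zsqrtd.re_mul, Zsqrtd.im_mul]; ring
  have e4 : nn (a + ⟨0, -1⟩ * b) = nn a + nn b + 2 * y := by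
    simp only [nn, hy, Zsqrtd.re_add, Zsqrtd.im_add, Zsqrtd.re_mul, Zsqrtd.im_mul]; ring
  rw [e1, ha, hb] at h1
  rw [e2, ha, hb] at h2
  rw [e3, ha, hb] at h3
  rw [e4, ha, hb] at h4
  have k1 : (n + 2 * x) * (n - 2 * x) ≥ 0 := mul_nonneg (by linarith) (by linarith)
  have k2 : (n + 2 * y) * (n - 2 * y) ≥ 0 := mul_nonneg (by linarith) (by linarith)
  nlinarith

theorem PP_edge {n : ℤ} (hP : PP n) {v w : V} (he : nn (dt v w) = 1) (hv : nn v.2 = n)
    (hw : nn w.2 < n) : Phi w - Phi v = FF v w := by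
  have he' : nn (dt w v) = 1 := by rw [nn_dt_symm]; exact he
  obtain ⟨w0, h1, h2, h3⟩ := Phi_pos (v := v) ⟨w, he', by rw [hv]; exact hw⟩
  rw [hv] at h2
  have h4 := PP_desc hP hv h1 he' h2 hw
  rw [FF_anti v w]
  linarith

theorem PP_succ {n : ℤ} (hP : PP n) : PP (n + 1) := by
  intro v w he hv hw
  have he' : nn (dt w v) = 1 := by rw [nn_dt_symm]; exact he
  rcases lt_or_ge (nn v.2) n with h1 | h1 <;> rcases lt_or_ge (nn w.2) n with h2 | h2
  · exact hP v w he h1 h2
  · have h3 : nn w.2 = n := by omega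
    have := PP_edge hP he' h3 h1
    rw [FF_anti v w]; linarith
  · have h3 : nn v.2 = n := by omega
    exact PP_edge hP he h3 h2
  · have h3 : nn v.2 = n := by omega
    have h4 : nn w.2 = n := by omega
    have hn : 0 < n := by
      rcases lt_or_ge 0 n with h | h
      · exact h
      · exfalso
        have a1 := nn_nonneg v.2
        have a2 := nn_nonneg w.2
        have b1 : v.2 = 0 := (nn_zero_iff _).1 (by omega)
        have b2 : w.2 = 0 := (nn_zero_iff _).1 (by omega)
        rw [dt, b1, b2] at he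
        simp [nn] at he
    obtain ⟨ε, hε, hlt⟩ := exists_eps hn h3 h4
    have hu : nn ((1 : O) • v + ε • w).2 < n := by
      simpa only [Prod.snd_add, Prod.smul_snd, smul_eq_mul, one_mul] using hlt
    have k1 := PP_edge hP (v := v) (w := (1 : O) • v + ε • w)
      (by rw [dt_comb_right, nn_mul, hε, he]; rfl) h3 hu
    have k2 := PP_edge hP (v := w) (w := (1 : O) • v + ε • w)
      (by rw [nn_dt_symm, dt_comb_left, nn_mul, he]; simp [nn]) h4 hu
    have k3 := tri v w 1 ε (by simp [nn]) hε he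
    rw [FF_anti w] at k2
    linarith

theorem PP_all (n : ℕ) : PP (n : ℤ) := by
  induction n with
  | zero =>
      intro v w _ hv _
      have := nn_nonneg v.2
      simp at hv
      omega
  | succ n ih => exact_mod_cast PP_succ ih

theorem Phi_edge {v w : V} (he : nn (dt v w) = 1) : Phi w - Phi v = FF v w := by
  have h1 := nn_nonneg v.2
  have h2 := nn_nonneg w.2
  refine PP_all ((nn v.2).toNat + (nn w.2).toNat + 1) v w he ?_ ?_ <;> push_cast <;> omega

theorem Phi_smul {v w : V} (he : nn (dt v w) = 1) {α : O} (hα : nn α = 1) : Phi (α • v) = Phi v := by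
  have h1 := Phi_edge he
  have h2 := Phi_edge (v := α • v) (w := w) (by rw [dt_smul_left, nn_mul, hα, he]; rfl)
  rw [FF_smul_left hα] at h2
  linarith

def e1 : V := (1, 0)

/-- a transformation preserving edges and areas mod 5 shifts the potential by a constant -/
theorem Phi_shift (T : V → V) (hT1 : ∀ v w, nn (dt v w) = 1 → nn (dt (T v) (T w)) = 1)
    (hT2 : ∀ v, ar (T v) = ar v) (hT3 : ∀ (α : O) v, T (α • v) = α • T v) {v w : V}
    (he : nn (dt v w) = 1) :
    Phi (T v) - Phi v = Phi (T e1) - Phi e1 := by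
  have main : ∀ n : ℕ, ∀ v w : V, nn (dt v w) = 1 → nn v.2 < n →
      Phi (T v) - Phi v = Phi (T e1) - Phi e1 := by
    intro n
    induction n with
    | zero =>
        intro v w _ hv
        have := nn_nonneg v.2
        simp at hv
        omega
    | succ n ih =>
        intro v w he hv
        by_cases h0 : v.2 = 0
        · have h1 : nn v.1 = 1 := by
            have : nn v.1 * nn w.2 = 1 := by
              have h9 := he
              rw [dt, h0, zero_mul, sub_zero, nn_mul] at h9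
              exact h9
            exact Int.eq_one_of_mul_eq_one_right (nn_nonneg _) this
          have h2 : v = v.1 • e1 := by
            ext1
            · simp [e1]
            · simp [e1, h0]
          have h3 : nn (dt e1 (0, 1)) = 1 := by simp [dt, e1, nn]
          rw [h2, hT3, Phi_smul h3 h1, Phi_smul (hT1 _ _ h3) h1]
        · obtain ⟨u, hu1, hu2⟩ := exists_lower he h0
          have k1 := ih u v hu1 (by push_cast at hv; omega)
          have k2 := Phi_edge hu1
          have k3 := Phi_edge (hT1 _ _ hu1)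
          have k4 : FF (T u) (T v) = FF u v := by unfold FF; rw [hT2, hT2]
          linarith
  refine main ((nn v.2).toNat + 1) v w he ?_
  have := nn_nonneg v.2
  push_cast; omega

end Pool.Agent.H270.Gau
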