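import Mathlib
import Pool.Agent.Helper270.GauA
set_option autoImplicit false
set_option linter.unusedSimpArgs false

/-! The potential along integer frames. -/

namespace Pool.Agent.H270.Gau

def z0 (v w : V) : O := cj v.1 * w.2 - w.1 * cj v.2
def zr (v w : V) : ZMod 5 := ((z0 v w).re : ℤ)
def zi (v w : V) : ZMod 5 := ((z0 v w).im : ℤ)

theorem zrel {v w : V} (h : nn (dt v w) = 1) :
    zi v w * zi v w + zr v w * zr v w = 1 + 4 * ar v * ar w := by
  have H1 : (z0 v w).im * (z0 v w).im + (z0 v w).re * (z0 v w).re = nn (dt v w)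
      + 4 * (v.1.re * v.2.im - v.1.im * v.2.re) * (w.1.re * w.2.im - w.1.im * w.2.re) := by
    simp only [z0, nn, dt, cj, Zsqrtd.re_mul, Zsqrtd.im_mul, Zsqrtd.re_sub, Zsqrtd.im_sub]
    ring
  rw [h] at H1
  unfold zi zr ar
  have := congrArg (Int.cast : ℤ → ZMod 5) H1
  push_cast at this ⊢
  rw [this]

/-- integer combinations -/
def ic (m n : ℤ) (v w : V) : V := (m : O) • v + (n : O) • w

theorem ar_ic (m n : ℤ) (v w : V) :
    ar (ic m n v w) = (m : ZMod 5) * m * ar v + n * n * ar w + m * n * zi v w := by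
  unfold ar zi z0 ic
  rw [← Int.cast_mul, ← Int.cast_mul, ← Int.cast_mul, ← Int.cast_mul, ← Int.cast_mul,
    ← Int.cast_mul, ← Int.cast_add, ← Int.cast_add]
  congr 1
  simp only [cj, Zsqrtd.re_mul, Zsqrtd.im_mul, Zsqrtd.re_sub, Zsqrtd.im_sub,
      Prod.fst_add, Prod.snd_add, Prod.smul_fst, Prod.smul_snd, smul_eq_mul, Zsqrtd.re_add,
      Zsqrtd.im_add, Zsqrtd.re_intCast, Zsqrtd.im_intCast]
  ring

theorem dt_ic (m n p q : ℤ) (v w : V) :
    dt (ic m n v w) (ic p q v w) = ((m * q - n * p : ℤ) : O) * dt v w := by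
  simp [dt, ic]; ring

theorem zr_ic (m n p q : ℤ) (v w : V) (h : m * q - n * p = 1) :
    zr (ic m n v w) (ic p q v w) = zr v w := by
  unfold zr
  congr 1
  have : (z0 (ic m n v w) (ic p q v w)).re = (m * q - n * p) * (z0 v w).re := by
    simp only [z0, ic, cj, Zsqrtd.re_mul, Zsqrtd.im_mul, Zsqrtd.re_sub, Zsqrtd.im_sub,
      Prod.fst_add, Prod.snd_add, Prod.smul_fst, Prod.smul_snd, smul_eq_mul, Zsqrtd.re_add,
      Zsqrtd.im_add, Zsqrtd.re_intCast, Zsqrtd.im_intCast]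
    ring
  rw [this, h, one_mul]

def chi (s t : ZMod 5) : ℤ := if s = 1 ∨ (s = 0 ∧ t = 1) then 1 else 0
def XX (d s t : ZMod 5) : ℤ := if d * d = 1 then chi s t else 0

theorem decS : ∀ s t c d : ZMod 5, c * c + d * d = 1 + 4 * s * t →
    F5 s t = XX d t s - XX d s t := by decide +kernel

theorem decT : ∀ s t c d : ZMod 5, c * c + d * d = 1 + 4 * s * t →
    XX d s (s + t + c) = XX d s t := by decide +kernel

open Matrix ModularGroup
open scoped MatrixGroups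

noncomputable def EE (v w : V) (A : SL(2, ℤ)) : ℤ :=
  Phi (ic (A 0 0) (A 1 0) v w)
    - XX (zr v w) (ar (ic (A 0 0) (A 1 0) v w)) (ar (ic (A 0 1) (A 1 1) v w))

theorem SLdet (A : SL(2, ℤ)) : A 0 0 * A 1 1 - A 1 0 * A 0 1 = 1 := by
  have := A.2
  rw [Matrix.det_fin_two] at this
  linarith

theorem nn_frame {v w : V} (h : nn (dt v w) = 1) (A : SL(2, ℤ)) :
    nn (dt (ic (A 0 0) (A 1 0) v w) (ic (A 0 1) (A 1 1) v w)) = 1 := by
  rw [dt_ic, SLdet, Int.cast_one, one_mul, h]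

theorem frame_rel {v w : V} (h : nn (dt v w) = 1) (A : SL(2, ℤ)) :
    zi (ic (A 0 0) (A 1 0) v w) (ic (A 0 1) (A 1 1) v w)
      * zi (ic (A 0 0) (A 1 0) v w) (ic (A 0 1) (A 1 1) v w) + zr v w * zr v w
      = 1 + 4 * ar (ic (A 0 0) (A 1 0) v w) * ar (ic (A 0 1) (A 1 1) v w) := by
  have := zrel (nn_frame h A)
  rw [zr_ic _ _ _ _ _ _ (SLdet A)] at this
  exact this

theorem mul_ent (A B : SL(2, ℤ)) (i j : Fin 2) :
    (A * B) i j = A i 0 * B 0 j + A i 1 * B 1 j := by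
  have h : ((A * B : SL(2, ℤ)) : Matrix (Fin 2) (Fin 2) ℤ)
      = (A : Matrix (Fin 2) (Fin 2) ℤ) * (B : Matrix (Fin 2) (Fin 2) ℤ) := rfl
  have h2 := congrFun (congrFun h i) j
  rw [Matrix.mul_apply, Fin.sum_univ_two] at h2
  exact h2

theorem EE_S {v w : V} (h : nn (dt v w) = 1) (A : SL(2, ℤ)) : EE v w (A * S) = EE v w A := by
  have a00 : (A * S) 0 0 = A 0 1 := by
    rw [mul_ent]; show A 0 0 * 0 + A 0 1 * 1 = _; ring
  have a10 : (A * S) 1 0 = A 1 1 := by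
    rw [mul_ent]; show A 1 0 * 0 + A 1 1 * 1 = _; ring
  have a01 : (A * S) 0 1 = - A 0 0 := by
    rw [mul_ent]; show A 0 0 * (-1) + A 0 1 * 0 = _; ring
  have a11 : (A * S) 1 1 = - A 1 0 := by
    rw [mul_ent]; show A 1 0 * (-1) + A 1 1 * 0 = _; ring
  unfold EE
  rw [a00, a10, a01, a11]
  have h1 : ar (ic (-A 0 0) (-A 1 0) v w) = ar (ic (A 0 0) (A 1 0) v w) := by
    rw [ar_ic, ar_ic]; push_cast; ring
  rw [h1]
  have h2 := Phi_edge (nn_frame h A)
  have h3 := decS _ _ _ _ (frame_rel h A)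
  unfold FF at h2
  linarith

theorem EE_T {v w : V} (h : nn (dt v w) = 1) (A : SL(2, ℤ)) : EE v w (A * T) = EE v w A := by
  have a00 : (A * T) 0 0 = A 0 0 := by
    rw [mul_ent]; show A 0 0 * 1 + A 0 1 * 0 = _; ring
  have a10 : (A * T) 1 0 = A 1 0 := by
    rw [mul_ent]; show A 1 0 * 1 + A 1 1 * 0 = _; ring
  have a01 : (A * T) 0 1 = A 0 0 + A 0 1 := by
    rw [mul_ent]; show A 0 0 * 1 + A 0 1 * 1 = _; ring
  have a11 : (A * T) 1 1 = A 1 0 + A 1 1 := by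
    rw [mul_ent]; show A 1 0 * 1 + A 1 1 * 1 = _; ring
  unfold EE
  rw [a00, a10, a01, a11]
  have e : ic (A 0 0 + A 0 1) (A 1 0 + A 1 1) v w
      = ic 1 1 (ic (A 0 0) (A 1 0) v w) (ic (A 0 1) (A 1 1) v w) := by
    simp only [ic]; push_cast; module
  have h1 : ar (ic (A 0 0 + A 0 1) (A 1 0 + A 1 1) v w) = ar (ic (A 0 0) (A 1 0) v w)
      + ar (ic (A 0 1) (A 1 1) v w)
      + zi (ic (A 0 0) (A 1 0) v w) (ic (A 0 1) (A 1 1) v w) := by
    rw [e, ar_ic]; push_cast; ring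
  rw [h1, decT _ _ _ _ (frame_rel h A)]

theorem EE_all {v w : V} (h : nn (dt v w) = 1) (B : SL(2, ℤ)) :
    ∀ A, EE v w (A * B) = EE v w A := by
  have hB : B ∈ Subgroup.closure {S, T} := by
    rw [SpecialLinearGroup.SL2Z_generators]; trivial
  induction hB using Subgroup.closure_induction with
  | mem x hx =>
      rcases hx with rfl | rfl
      · exact EE_S h
      · exact EE_T h
  | one => intro A; rw [mul_one]
  | mul x y _ _ hx hy => intro A; rw [← mul_assoc, hy, hx]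
  | inv x _ hx => intro A; rw [← hx (A * x⁻¹), inv_mul_cancel_right]

theorem typeA {v w : V} (h : nn (dt v w) = 1) (m n p q : ℤ) (hd : m * q - n * p = 1)
    (hm : (m : ZMod 5) = 1) (hn : (n : ZMod 5) = 0) (hp : (p : ZMod 5) = 0)
    (hq : (q : ZMod 5) = 1) : Phi (ic m n v w) = Phi v := by
  set A : SL(2, ℤ) := ⟨!![m, p; n, q], by rw [Matrix.det_fin_two_of]; linarith⟩ with hA
  have h1 := EE_all h A 1
  rw [one_mul] at h1
  have a00 : A 0 0 = m := rfl
  have a10 : A 1 0 = n := rfl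
  have a01 : A 0 1 = p := rfl
  have a11 : A 1 1 = q := rfl
  have b00 : (1 : SL(2, ℤ)) 0 0 = 1 := rfl
  have b10 : (1 : SL(2, ℤ)) 1 0 = 0 := rfl
  have b01 : (1 : SL(2, ℤ)) 0 1 = 0 := rfl
  have b11 : (1 : SL(2, ℤ)) 1 1 = 1 := rfl
  unfold EE at h1
  rw [a00, a10, a01, a11, b00, b10, b01, b11] at h1
  rw [ar_ic, ar_ic, ar_ic, ar_ic, hm, hn, hp, hq] at h1
  push_cast at h1
  have e : ic 1 0 v w = v := by simp [ic]
  rw [e] at h1
  linarith

end Pool.Agent.H270.Gau
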