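import Mathlib
import Pool.Agent.Helper270.GauB
set_option autoImplicit false
set_option linter.unusedSimpArgs false

/-! Affine groups, the twisted Fox derivative, and its equivariance. -/

namespace Pool.Agent.H270.Gau

@[ext] structure Af (R : Type) [CommRing R] where
  u : Rˣ
  v : Fin 3 → R

namespace Af
variable {R : Type} [CommRing R]

instance instMul : Mul (Af R) := ⟨fun a b => ⟨a.u * b.u, a.v + (a.u : R) • b.v⟩⟩
instance instOne : One (Af R) := ⟨⟨1, 0⟩⟩
instance instInv : Inv (Af R) := ⟨fun a => ⟨a.u⁻¹, -(((a.u⁻¹ : Rˣ) : R) • a.v)⟩⟩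

@[simp] theorem mul_u (a b : Af R) : (a * b).u = a.u * b.u := rfl
@[simp] theorem mul_v (a b : Af R) : (a * b).v = a.v + (a.u : R) • b.v := rfl
@[simp] theorem one_u : (1 : Af R).u = 1 := rfl
@[simp] theorem one_v : (1 : Af R).v = 0 := rfl
@[simp] theorem inv_u (a : Af R) : (a⁻¹).u = a.u⁻¹ := rfl
@[simp] theorem inv_v (a : Af R) : (a⁻¹).v = -(((a.u⁻¹ : Rˣ) : R) • a.v) := rfl

instance instGroup : Group (Af R) := Group.ofLeftAxioms
  (by
    intro a b c
    apply Af.ext
    · simp [mul_assoc]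
    · simp only [mul_v, mul_u, Units.val_mul, smul_add, smul_smul, add_assoc])
  (by
    intro a
    apply Af.ext <;> simp)
  (by
    intro a
    apply Af.ext <;> simp)

instance instFinite [Finite R] : Finite (Af R) :=
  Finite.of_injective (fun a : Af R => (a.u, a.v)) (by
    intro a b h
    simp only [Prod.mk.injEq] at h
    exact Af.ext h.1 h.2)

def map {S : Type} [CommRing S] (f : R →+* S) : Af R →* Af S where
  toFun a := ⟨Units.map (f : R →* S) a.u, fun i => f (a.v i)⟩
  map_one' := by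
    apply Af.ext
    · simp
    · funext i; simp
  map_mul' a b := by
    apply Af.ext
    · simp
    · funext i; simp

/-- linear substitution -/
def lin (m : (Fin 3 → R) →ₗ[R] (Fin 3 → R)) : Af R →* Af R where
  toFun a := ⟨a.u, m a.v⟩
  map_one' := by
    apply Af.ext <;> simp
  map_mul' a b := by
    apply Af.ext <;> simp

end Af

abbrev Fr := FreeGroup (Fin 3)
def xx (j : Fin 3) : Fr := FreeGroup.of j

/-- the Fox derivative twisted by an arbitrary character -/
def LamU {R : Type} [CommRing R] (u : Fin 3 → Rˣ) : Fr →* Af R :=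
  FreeGroup.lift (fun j => ⟨u j, Pi.single j 1⟩)

theorem LamU_of {R : Type} [CommRing R] (u : Fin 3 → Rˣ) (j : Fin 3) :
    LamU u (xx j) = ⟨u j, Pi.single j 1⟩ := by
  simp [LamU, xx]

def iu : Oˣ := ⟨⟨0, 1⟩, ⟨0, -1⟩, by ext <;> simp, by ext <;> simp⟩

def u3 : Fin 3 → Oˣ := ![1, 1, iu]

def Lam : Fr →* Af O := LamU u3

def th (g : Fr) : O := ((Lam g).u : O)
def L (g : Fr) : Fin 3 → O := (Lam g).v
def J (g : Fr) : V := (L g 0, L g 1)

theorem th_mul (g h : Fr) : th (g * h) = th g * th h := by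
  simp [th]

theorem th_inv_mul (g : Fr) : th g⁻¹ * th g = 1 := by
  rw [← th_mul]; simp [th]

theorem L_mul (g h : Fr) : L (g * h) = L g + th g • L h := by
  simp [L, th]

theorem nn_unit (u : Oˣ) : nn (u : O) = 1 := by
  have h1 : nn (u : O) * nn ((u⁻¹ : Oˣ) : O) = 1 := by
    rw [← nn_mul]; simp [nn]
  exact Int.eq_one_of_mul_eq_one_right (nn_nonneg _) h1

theorem nn_th (g : Fr) : nn (th g) = 1 := nn_unit _

theorem th_x0 : th (xx 0) = 1 := by simp [th, Lam, LamU_of, u3]
theorem th_x1 : th (xx 1) = 1 := by simp [th, Lam, LamU_of, u3]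
theorem th_x2 : th (xx 2) = ⟨0, 1⟩ := by simp [th, Lam, LamU_of, u3, iu]
theorem L_x (j : Fin 3) : L (xx j) = Pi.single j 1 := by simp [L, Lam, LamU_of]

theorem J_x0 : J (xx 0) = e1 := by simp [J, L_x, e1]
theorem J_x1 : J (xx 1) = (0, 1) := by simp [J, L_x]

/-- substitution map with given images of the basis -/
def sub3 {R : Type} [CommRing R] (a : Fin 3 → (Fin 3 → R)) : (Fin 3 → R) →ₗ[R] (Fin 3 → R) where
  toFun v := v 0 • a 0 + v 1 • a 1 + v 2 • a 2
  map_add' v w := by simp only [Pi.add_apply, add_smul]; abel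
  map_smul' c v := by
    simp only [Pi.smul_apply, smul_eq_mul, mul_smul, smul_add, RingHom.id_apply]

theorem sub3_single {R : Type} [CommRing R] (a : Fin 3 → (Fin 3 → R)) (j : Fin 3) :
    sub3 a (Pi.single j 1) = a j := by
  fin_cases j <;> simp [sub3]

/-- fundamental formula -/
theorem fund (a : Fr →* Fr) (g : Fr) :
    Lam (a g) = Af.lin (sub3 (fun j => L (a (xx j)))) (LamU (fun j => (Lam (a (xx j))).u) g) := by
  have h : Lam.comp a = (Af.lin (sub3 (fun j => L (a (xx j))))).comp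
      (LamU (fun j => (Lam (a (xx j))).u)) := by
    apply FreeGroup.ext_hom
    intro j
    have h1 : LamU (fun j => (Lam (a (xx j))).u) (FreeGroup.of j)
        = ⟨(Lam (a (xx j))).u, Pi.single j 1⟩ := LamU_of _ j
    rw [MonoidHom.comp_apply, MonoidHom.comp_apply, h1]
    apply Af.ext
    · rfl
    · show _ = sub3 (fun j => L (a (xx j))) (Pi.single j 1)
      rw [sub3_single]; rfl
  exact DFunLike.congr_fun h g

theorem L_sub (a : Fr →* Fr) (g : Fr) :
    L (a g) = sub3 (fun j => L (a (xx j))) (LamU (fun j => (Lam (a (xx j))).u) g).v := by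
  rw [L, fund]; rfl

/-- automorphisms preserving the character -/
def Pres (a : Fr →* Fr) : Prop := ∀ g, th (a g) = th g

theorem Pres_of {a : Fr →* Fr} (h : ∀ j, th (a (xx j)) = th (xx j)) : Pres a := by
  have h2 : ∀ j, (Lam (a (xx j))).u = (Lam (xx j)).u := fun j => Units.ext (h j)
  intro g
  have h3 : (Lam (a g)).u = (Lam g).u := by
    induction g using FreeGroup.induction_on with
    | C1 => simp
    | of j => exact h2 j
    | inv_of j ih => rw [map_inv, map_inv, map_inv, Af.inv_u, Af.inv_u, ih]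
    | mul x y hx hy => rw [map_mul, map_mul, map_mul, Af.mul_u, Af.mul_u, hx, hy]
  exact congrArg Units.val h3

theorem Pres.fundL {a : Fr →* Fr} (h : Pres a) (g : Fr) :
    L (a g) = L g 0 • L (a (xx 0)) + L g 1 • L (a (xx 1)) + L g 2 • L (a (xx 2)) := by
  have h1 : (fun j => (Lam (a (xx j))).u) = u3 := by
    funext j
    have h2 : (Lam (a (xx j))).u = (Lam (xx j)).u := Units.ext (h (xx j))
    rw [h2]
    simp [Lam, LamU_of]
  rw [L_sub, h1]
  rfl

/-- third coordinate -/
theorem kap (g : Fr) : L g 2 * (⟨-1, 1⟩ : O) = th g - 1 := by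
  induction g using FreeGroup.induction_on with
  | C1 => simp [L, th]
  | of j =>
      have h1 : L (FreeGroup.of j) = Pi.single j 1 := L_x j
      rw [h1]
      have h2 : th (FreeGroup.of j) = (u3 j : O) := by
        have : LamU u3 (FreeGroup.of j) = ⟨u3 j, Pi.single j 1⟩ := LamU_of u3 j
        simp [th, Lam, this]
      rw [h2]
      fin_cases j
      · simp [u3]
      · simp [u3]
      · ext <;> simp [u3, iu]
  | inv_of j ih =>
      have e : L (FreeGroup.of j)⁻¹ 2 = -(th (FreeGroup.of j)⁻¹ * L (FreeGroup.of j) 2) := by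
        simp [L, th]
      have h3 := th_inv_mul (FreeGroup.of j)
      rw [e]
      linear_combination (-(th (FreeGroup.of j)⁻¹)) * ih - h3
  | mul x y hx hy =>
      rw [L_mul, th_mul]
      simp only [Pi.add_apply, Pi.smul_apply, smul_eq_mul]
      linear_combination hx + th x * hy

theorem L2_zero {g : Fr} (h : th g = 1) : L g 2 = 0 := by
  have := kap g
  rw [h, sub_self] at this
  rcases mul_eq_zero.1 this with h | h
  · exact h
  · exfalso
    have := congrArg Zsqrtd.re h
    simp at this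

theorem th_one_of {g : Fr} (h : L g 2 = 0) : th g = 1 := by
  have := kap g
  rw [h, zero_mul] at this
  linear_combination -this

/-- the linear action on the first two coordinates -/
def PV (a : Fr →* Fr) (v : V) : V := v.1 • J (a (xx 0)) + v.2 • J (a (xx 1))

theorem J_PV {a : Fr →* Fr} (h : Pres a) {g : Fr} (hg : th g = 1) : J (a g) = PV a (J g) := by
  have h1 := h.fundL g
  rw [L2_zero hg, zero_smul, add_zero] at h1
  unfold J PV
  rw [h1]
  ext1 <;> simp [J]

theorem PV_smul (a : Fr →* Fr) (α : O) (v : V) : PV a (α • v) = α • PV a v := by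
  simp only [PV, Prod.smul_fst, Prod.smul_snd, smul_eq_mul, smul_add, smul_smul]

theorem PV_e1 (a : Fr →* Fr) : PV a e1 = J (a (xx 0)) := by simp [PV, e1]

theorem dt_PV (a : Fr →* Fr) (v w : V) :
    dt (PV a v) (PV a w) = dt v w * dt (J (a (xx 0))) (J (a (xx 1))) := by
  simp [dt, PV]; ring

theorem Pres_inv {σ : MulAut Fr} (h : Pres (σ : Fr →* Fr)) : Pres ((σ⁻¹ : MulAut Fr) : Fr →* Fr) := by
  intro g
  have h1 := h ((σ⁻¹ : MulAut Fr) g)
  have h2 : (σ : Fr →* Fr) ((σ⁻¹ : MulAut Fr) g) = g := MulAut.apply_inv_self _ _ _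
  rw [h2] at h1
  exact h1.symm

theorem nn_D {σ : MulAut Fr} (h : Pres (σ : Fr →* Fr)) :
    nn (dt (J (σ (xx 0))) (J (σ (xx 1)))) = 1 := by
  have hi := Pres_inv h
  have k0 := J_PV h (g := (σ⁻¹ : MulAut Fr) (xx 0)) (by
    have := hi (xx 0); rw [th_x0] at this; exact this)
  have k1 := J_PV h (g := (σ⁻¹ : MulAut Fr) (xx 1)) (by
    have := hi (xx 1); rw [th_x1] at this; exact this)
  have e0 : (σ : Fr →* Fr) ((σ⁻¹ : MulAut Fr) (xx 0)) = xx 0 := MulAut.apply_inv_self _ _ _
  have e1' : (σ : Fr →* Fr) ((σ⁻¹ : MulAut Fr) (xx 1)) = xx 1 := MulAut.apply_inv_self _ _ _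
  rw [e0, J_x0] at k0
  rw [e1', J_x1] at k1
  have h3 := dt_PV (σ : Fr →* Fr) (J ((σ⁻¹ : MulAut Fr) (xx 0))) (J ((σ⁻¹ : MulAut Fr) (xx 1)))
  rw [← k0, ← k1] at h3
  have h4 : dt e1 ((0, 1) : V) = 1 := by simp [dt, e1]
  rw [h4] at h3
  have h5 := congrArg nn h3
  rw [nn_mul] at h5
  have h6 : nn (1 : O) = 1 := by simp [nn]
  rw [h6] at h5
  exact Int.eq_one_of_mul_eq_one_left (nn_nonneg _) h5.symm

end Pool.Agent.H270.Gau
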