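import Mathlib
import Pool.Agent.Helper270.GauC
set_option autoImplicit false
set_option linter.unusedSimpArgs false

/-! Reduction mod 5, the finite index subgroup, and vanishing on stabilisers of free factors. -/

namespace Pool.Agent.H270.Gau

abbrev R5 := ZMod 5 × ZMod 5

def pr5 : O →+* R5 := Zsqrtd.lift ⟨((2, 3) : R5), by decide⟩

theorem pr5_apply (z : O) : pr5 z = ((z.re : ZMod 5) + z.im * 2, (z.re : ZMod 5) + z.im * 3) := by
  simp only [pr5, Zsqrtd.lift, Equiv.coe_fn_mk, RingHom.coe_mk, MonoidHom.coe_mk, OneHom.coe_mk]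
  ext
  · simp
  · simp

theorem dec5 : ∀ a b c d : ZMod 5, a + b * 2 = c + d * 2 → a + b * 3 = c + d * 3 →
    a = c ∧ b = d := by decide +kernel

theorem pr5_eq {z w : O} (h : pr5 z = pr5 w) :
    (z.re : ZMod 5) = w.re ∧ (z.im : ZMod 5) = w.im := by
  rw [pr5_apply, pr5_apply, Prod.mk.injEq] at h
  exact dec5 _ _ _ _ h.1 h.2

theorem unit_cases {z : O} (h : nn z = 1) :
    (z.re = 1 ∧ z.im = 0) ∨ (z.re = -1 ∧ z.im = 0) ∨ (z.re = 0 ∧ z.im = 1) ∨ (z.re = 0 ∧ z.im = -1) := by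
  unfold nn at h
  have h1 : z.re ≤ 1 := by nlinarith [mul_self_nonneg z.im, mul_self_nonneg (z.re - 1)]
  have h2 : -1 ≤ z.re := by nlinarith [mul_self_nonneg z.im, mul_self_nonneg (z.re + 1)]
  have h3 : z.im ≤ 1 := by nlinarith [mul_self_nonneg z.re, mul_self_nonneg (z.im - 1)]
  have h4 : -1 ≤ z.im := by nlinarith [mul_self_nonneg z.re, mul_self_nonneg (z.im + 1)]
  have h5 : z.re = -1 ∨ z.re = 0 ∨ z.re = 1 := by omega
  have h6 : z.im = -1 ∨ z.im = 0 ∨ z.im = 1 := by omega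
  rcases h5 with h5 | h5 | h5 <;> rcases h6 with h6 | h6 | h6 <;> simp [h5, h6] at h ⊢

theorem unit_inj5 {z w : O} (hz : nn z = 1) (hw : nn w = 1) (h : pr5 z = pr5 w) : z = w := by
  obtain ⟨h1, h2⟩ := pr5_eq h
  rcases unit_cases hz with ⟨a, b⟩ | ⟨a, b⟩ | ⟨a, b⟩ | ⟨a, b⟩ <;>
  rcases unit_cases hw with ⟨c, d⟩ | ⟨c, d⟩ | ⟨c, d⟩ | ⟨c, d⟩ <;>
  rw [a, c] at h1 <;> rw [b, d] at h2 <;>
  first
  | (exfalso; revert h1; decide)
  | (exfalso; revert h2; decide)
  | exact Zsqrtd.ext (by rw [a, c]) (by rw [b, d])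

theorem ar_congr {v w : V} (h1 : pr5 v.1 = pr5 w.1) (h2 : pr5 v.2 = pr5 w.2) : ar v = ar w := by
  obtain ⟨a, b⟩ := pr5_eq h1
  obtain ⟨c, d⟩ := pr5_eq h2
  unfold ar
  push_cast
  rw [a, b, c, d]

/-- the finite quotient -/
def eta : Fr →* Af R5 := (Af.map pr5).comp Lam

theorem eta_v (g : Fr) (i : Fin 3) : (eta g).v i = pr5 (L g i) := rfl
theorem eta_u (g : Fr) : ((eta g).u : R5) = pr5 (th g) := rfl

def G1 (a : Fr →* Fr) : Prop := ∀ g, eta (a g) = eta g

theorem G1.pres {a : Fr →* Fr} (h : G1 a) : Pres a := by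
  intro g
  apply unit_inj5 (nn_th _) (nn_th _)
  rw [← eta_u, ← eta_u, h g]

theorem G1.L5 {a : Fr →* Fr} (h : G1 a) (g : Fr) (i : Fin 3) : pr5 (L (a g) i) = pr5 (L g i) := by
  rw [← eta_v, ← eta_v, h g]

theorem G1.ar_PV {a : Fr →* Fr} (h : G1 a) (v : V) : ar (PV a v) = ar v := by
  have a0 := h.L5 (xx 0) 0
  have a1 := h.L5 (xx 0) 1
  have b0 := h.L5 (xx 1) 0
  have b1 := h.L5 (xx 1) 1
  rw [L_x] at a0 a1 b0 b1
  apply ar_congr
  · simp only [PV, J, Prod.fst_add, Prod.smul_fst, smul_eq_mul, map_add, map_mul, a0, b0]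
    simp
  · simp only [PV, J, Prod.snd_add, Prod.smul_snd, smul_eq_mul, map_add, map_mul, a1, b1]
    simp

noncomputable def ff (a : Fr →* Fr) : ℤ := Phi (J (a (xx 0))) - Phi e1

theorem shift {σ : MulAut Fr} (h : G1 (σ : Fr →* Fr)) {v w : V} (he : nn (dt v w) = 1) :
    Phi (PV (σ : Fr →* Fr) v) - Phi v = ff (σ : Fr →* Fr) := by
  have hD := nn_D h.pres
  have := Phi_shift (PV (σ : Fr →* Fr))
    (by
      intro v w hvw
      rw [dt_PV, nn_mul, hvw, one_mul]
      exact hD)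
    (fun v => h.ar_PV v) (fun α v => PV_smul _ α v) he
  rw [this, PV_e1]; rfl

theorem ff_mul {σ τ : MulAut Fr} (h : G1 (σ : Fr →* Fr)) (k : G1 (τ : Fr →* Fr)) :
    ff ((σ * τ : MulAut Fr) : Fr →* Fr) = ff (σ : Fr →* Fr) + ff (τ : Fr →* Fr) := by
  have e : J (((σ * τ : MulAut Fr) : Fr →* Fr) (xx 0)) = PV (σ : Fr →* Fr) (J (τ (xx 0))) := by
    have := J_PV h.pres (g := τ (xx 0)) (by have := k.pres (xx 0); rw [th_x0] at this; exact this)
    exact this
  have h2 := shift h (nn_D k.pres)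
  rw [← e] at h2
  unfold ff at h2 ⊢
  have : ((τ : Fr →* Fr) (xx 0)) = τ (xx 0) := rfl
  rw [this]
  linarith

theorem G1_mul {σ τ : MulAut Fr} (h : G1 (σ : Fr →* Fr)) (k : G1 (τ : Fr →* Fr)) :
    G1 ((σ * τ : MulAut Fr) : Fr →* Fr) := by
  intro g
  have : ((σ * τ : MulAut Fr) : Fr →* Fr) g = (σ : Fr →* Fr) ((τ : Fr →* Fr) g) := rfl
  rw [this, h, k]

theorem G1_one : G1 ((1 : MulAut Fr) : Fr →* Fr) := fun _ => rfl

theorem G1_inv {σ : MulAut Fr} (h : G1 (σ : Fr →* Fr)) : G1 ((σ⁻¹ : MulAut Fr) : Fr →* Fr) := by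
  intro g
  have h1 := h ((σ⁻¹ : MulAut Fr) g)
  have h2 : (σ : Fr →* Fr) ((σ⁻¹ : MulAut Fr) g) = g := MulAut.apply_inv_self _ _ _
  rw [h2] at h1
  exact h1.symm

theorem ff_one : ff ((1 : MulAut Fr) : Fr →* Fr) = 0 := by
  unfold ff
  have : ((1 : MulAut Fr) : Fr →* Fr) (xx 0) = xx 0 := rfl
  rw [this, J_x0, sub_self]

theorem ff_inv {σ : MulAut Fr} (h : G1 (σ : Fr →* Fr)) :
    ff ((σ⁻¹ : MulAut Fr) : Fr →* Fr) = - ff (σ : Fr →* Fr) := by
  have h1 := ff_mul h (G1_inv h)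
  rw [mul_inv_cancel, ff_one] at h1
  linarith

/-- the kernel -/
def KK : Subgroup (MulAut Fr) where
  carrier := {σ | G1 (σ : Fr →* Fr) ∧ ff (σ : Fr →* Fr) = 0}
  mul_mem' := by
    rintro σ τ ⟨h1, h2⟩ ⟨k1, k2⟩
    exact ⟨G1_mul h1 k1, by rw [ff_mul h1 k1, h2, k2]; rfl⟩
  one_mem' := ⟨G1_one, ff_one⟩
  inv_mem' := by
    rintro σ ⟨h1, h2⟩
    exact ⟨G1_inv h1, by rw [ff_inv h1, h2]; rfl⟩

/-! ### The vanishing lemma -/

def det3 (a b c : Fin 3 → O) : O :=
  a 0 * (b 1 * c 2 - b 2 * c 1) - b 0 * (a 1 * c 2 - a 2 * c 1) + c 0 * (a 1 * b 2 - a 2 * b 1)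

theorem det3_sub3 (y : Fin 3 → (Fin 3 → O)) (p q r : Fin 3 → O) :
    det3 (sub3 y p) (sub3 y q) (sub3 y r) = det3 (y 0) (y 1) (y 2) * det3 p q r := by
  simp only [det3, sub3, LinearMap.coe_mk, AddHom.coe_mk, Pi.add_apply, Pi.smul_apply, smul_eq_mul]
  ring

theorem nn_det3 (a : MulAut Fr) : nn (det3 (L (a (xx 0))) (L (a (xx 1))) (L (a (xx 2)))) = 1 := by
  have key : ∀ j, Pi.single j 1 = sub3 (fun j => L ((a : Fr →* Fr) (xx j)))
      (LamU (fun j => (Lam ((a : Fr →* Fr) (xx j))).u) ((a⁻¹ : MulAut Fr) (xx j))).v := by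
    intro j
    have h1 := L_sub (a : Fr →* Fr) ((a⁻¹ : MulAut Fr) (xx j))
    have h2 : (a : Fr →* Fr) ((a⁻¹ : MulAut Fr) (xx j)) = xx j := MulAut.apply_inv_self _ _ _
    rw [h2, L_x] at h1
    exact h1
  have h3 : det3 (Pi.single 0 1) (Pi.single 1 1) (Pi.single 2 1) = 1 := by
    simp [det3]
  rw [key 0, key 1, key 2, det3_sub3] at h3
  have h5 := congrArg nn h3
  rw [nn_mul] at h5
  have h6 : nn (1 : O) = 1 := by simp [nn]
  rw [h6] at h5
  exact Int.eq_one_of_mul_eq_one_right (nn_nonneg _) h5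

/-- the free factor spanned by the first two basis elements -/
def HH : Subgroup Fr := Subgroup.closure {xx 0, xx 1}

theorem HH_v2 (u : Fin 3 → Oˣ) {h : Fr} (hh : h ∈ HH) : (LamU u h).v 2 = 0 := by
  induction hh using Subgroup.closure_induction with
  | mem x hx =>
      rcases hx with rfl | rfl
      · simp [LamU_of]
      · simp [LamU_of]
  | one => simp
  | mul x y _ _ hx hy => simp [hx, hy]
  | inv x _ hx => simp [hx]

theorem HH_int (u : Fin 3 → Oˣ) (h0 : u 0 = 1) (h1 : u 1 = 1) {h : Fr} (hh : h ∈ HH) :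
    (LamU u h).u = 1 ∧ ∃ m n : ℤ, (LamU u h).v 0 = m ∧ (LamU u h).v 1 = n := by
  induction hh using Subgroup.closure_induction with
  | mem x hx =>
      rcases hx with rfl | rfl
      · refine ⟨by simp [LamU_of, h0], 1, 0, by simp [LamU_of], by simp [LamU_of]⟩
      · refine ⟨by simp [LamU_of, h1], 0, 1, by simp [LamU_of], by simp [LamU_of]⟩
  | one => exact ⟨by simp, 0, 0, by simp, by simp⟩
  | mul x y _ _ hx hy =>
      obtain ⟨a, m, n, b, c⟩ := hx
      obtain ⟨a', m', n', b', c'⟩ := hy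
      refine ⟨by simp [a, a'], m + m', n + n', ?_, ?_⟩
      · simp [a, b, b']
      · simp [a, c, c']
  | inv x _ hx =>
      obtain ⟨a, m, n, b, c⟩ := hx
      refine ⟨by simp [a], -m, -n, ?_, ?_⟩
      · simp [a, b]
      · simp [a, c]

theorem L_HH (a : MulAut Fr) {h : Fr} (hh : h ∈ HH) :
    ∃ α β : O, L (a h) = α • L (a (xx 0)) + β • L (a (xx 1)) := by
  refine ⟨(LamU (fun j => (Lam ((a : Fr →* Fr) (xx j))).u) h).v 0,
    (LamU (fun j => (Lam ((a : Fr →* Fr) (xx j))).u) h).v 1, ?_⟩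
  have h1 := L_sub (a : Fr →* Fr) h
  have h2 := HH_v2 (fun j => (Lam ((a : Fr →* Fr) (xx j))).u) hh
  have h3 : (a : Fr →* Fr) h = a h := rfl
  rw [h3] at h1
  rw [h1]
  simp only [sub3, LinearMap.coe_mk, AddHom.coe_mk, h2, zero_smul, add_zero]
  rfl

theorem J_comb {g g1 g2 : Fr} {α β : O} (h : L g = α • L g1 + β • L g2) :
    J g = α • J g1 + β • J g2 := by
  unfold J; rw [h]; ext1 <;> simp

/-- type (a) -/
theorem vanish_a (a σ : MulAut Fr) (hσ : G1 (σ : Fr →* Fr)) (t0 : th (a (xx 0)) = 1)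
    (t1 : th (a (xx 1)) = 1) {h0 h1 : Fr} (hh0 : h0 ∈ HH) (hh1 : h1 ∈ HH)
    (k0 : σ (a (xx 0)) = a h0) (k1 : σ (a (xx 1)) = a h1) : ff (σ : Fr →* Fr) = 0 := by
  have u0 : (Lam ((a : Fr →* Fr) (xx 0))).u = 1 := Units.ext t0
  have u1 : (Lam ((a : Fr →* Fr) (xx 1))).u = 1 := Units.ext t1
  have int_comb : ∀ {h : Fr}, h ∈ HH → ∃ m n : ℤ, J (a h) = ic m n (J (a (xx 0))) (J (a (xx 1))) := by
    intro h hh
    obtain ⟨-, m, n, hm, hn⟩ := HH_int (fun j => (Lam ((a : Fr →* Fr) (xx j))).u) u0 u1 hh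
    refine ⟨m, n, ?_⟩
    have h1 := L_sub (a : Fr →* Fr) h
    have h2 := HH_v2 (fun j => (Lam ((a : Fr →* Fr) (xx j))).u) hh
    have h3 : (a : Fr →* Fr) h = a h := rfl
    rw [h3] at h1
    have h4 : L (a h) = (m : O) • L (a (xx 0)) + (n : O) • L (a (xx 1)) := by
      rw [h1]
      simp only [sub3, LinearMap.coe_mk, AddHom.coe_mk, h2, zero_smul, add_zero, hm, hn]
      rfl
    exact J_comb h4
  obtain ⟨m, n, e0⟩ := int_comb hh0
  obtain ⟨p, q, e1'⟩ := int_comb hh1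
  set v := J (a (xx 0)) with hv
  set w := J (a (xx 1)) with hw
  have hdt : nn (dt v w) = 1 := by
    have h1 := nn_det3 a
    have h2 : det3 (L (a (xx 0))) (L (a (xx 1))) (L (a (xx 2))) = dt v w * L (a (xx 2)) 2 := by
      have z0 := L2_zero t0
      have z1 := L2_zero t1
      simp only [det3, z0, z1, dt, hv, hw, J]
      ring
    rw [h2, nn_mul] at h1
    exact Int.eq_one_of_mul_eq_one_right (nn_nonneg _) h1
  have P0 : PV (σ : Fr →* Fr) v = ic m n v w := by
    rw [← e0, ← k0]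
    exact (J_PV hσ.pres t0).symm
  have P1 : PV (σ : Fr →* Fr) w = ic p q v w := by
    rw [← e1', ← k1]
    exact (J_PV hσ.pres t1).symm
  -- congruences
  have c0 : pr5 (ic m n v w).1 = pr5 v.1 ∧ pr5 (ic m n v w).2 = pr5 v.2 := by
    rw [← e0, ← k0]
    exact ⟨hσ.L5 _ 0, hσ.L5 _ 1⟩
  have c1 : pr5 (ic p q v w).1 = pr5 w.1 ∧ pr5 (ic p q v w).2 = pr5 w.2 := by
    rw [← e1', ← k1]
    exact ⟨hσ.L5 _ 0, hσ.L5 _ 1⟩
  have hunit : pr5 (dt v w) * pr5 (cj (dt v w)) = 1 := by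
    rw [← map_mul, cj_of_unit hdt, map_one]
  have cast5 : ∀ k l : ℤ, pr5 ((k : O) * dt v w) = pr5 ((l : O) * dt v w) → (k : ZMod 5) = l := by
    intro k l h
    rw [map_mul, map_mul] at h
    have h2 := congrArg (fun x => x * pr5 (cj (dt v w))) h
    simp only [mul_assoc, hunit, mul_one] at h2
    have := (pr5_eq h2).1
    simpa using this
  have dtpr : ∀ v1 v2 w1 w2 : V, pr5 v1.1 = pr5 v2.1 → pr5 v1.2 = pr5 v2.2 → pr5 w1.1 = pr5 w2.1 →
      pr5 w1.2 = pr5 w2.2 → pr5 (dt v1 w1) = pr5 (dt v2 w2) := by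
    intro v1 v2 w1 w2 a1 a2 b1 b2
    simp only [dt, map_sub, map_mul, a1, a2, b1, b2]
  have hm : (m : ZMod 5) = 1 := by
    have := cast5 m 1 (by
      have e : ((m : ℤ) : O) * dt v w = dt (ic m n v w) w := by simp [dt, ic]; ring
      rw [e, Int.cast_one, one_mul]
      exact dtpr _ _ _ _ c0.1 c0.2 rfl rfl)
    simpa using this
  have hn : (n : ZMod 5) = 0 := by
    have := cast5 n 0 (by
      have e : ((n : ℤ) : O) * dt v w = dt v (ic m n v w) := by simp [dt, ic]; ring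
      have e2 : ((0 : ℤ) : O) * dt v w = dt v v := by simp [dt]; ring
      rw [e, e2]
      exact dtpr _ _ _ _ rfl rfl c0.1 c0.2)
    simpa using this
  have hp : (p : ZMod 5) = 0 := by
    have := cast5 p 0 (by
      have e : ((p : ℤ) : O) * dt v w = dt (ic p q v w) w := by simp [dt, ic]; ring
      have e2 : ((0 : ℤ) : O) * dt v w = dt w w := by simp [dt]; ring
      rw [e, e2]
      exact dtpr _ _ _ _ c1.1 c1.2 rfl rfl)
    simpa using this
  have hq : (q : ZMod 5) = 1 := by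
    have := cast5 q 1 (by
      have e : ((q : ℤ) : O) * dt v w = dt v (ic p q v w) := by simp [dt, ic]; ring
      rw [e, Int.cast_one, one_mul]
      exact dtpr _ _ _ _ rfl rfl c1.1 c1.2)
    simpa using this
  have hdet : m * q - n * p = 1 := by
    have h1 : nn (dt (PV (σ : Fr →* Fr) v) (PV (σ : Fr →* Fr) w)) = 1 := by
      rw [dt_PV, nn_mul, hdt, one_mul]
      exact nn_D hσ.pres
    rw [P0, P1, dt_ic, nn_mul, hdt, mul_one] at h1
    have h2 : (m * q - n * p) * (m * q - n * p) = 1 := by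
      simp only [nn, Zsqrtd.re_intCast, Zsqrtd.im_intCast] at h1
      linarith
    have h3 : ((m * q - n * p : ℤ) : ZMod 5) = 1 := by
      push_cast; rw [hm, hn, hp, hq]; ring
    rcases Int.eq_one_or_neg_one_of_mul_eq_one h2 with h4 | h4
    · exact h4
    · exfalso
      rw [h4] at h3
      revert h3; decide
  have h1 := typeA hdt m n p q hdet hm hn hp hq
  have h2 := shift hσ hdt
  rw [P0, h1, sub_self] at h2
  exact h2.symm

/-- type (b) -/
theorem vanish_b (a σ : MulAut Fr) (hσ : G1 (σ : Fr →* Fr))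
    (hne : ¬ (th (a (xx 0)) = 1 ∧ th (a (xx 1)) = 1))
    (hst : ∀ h ∈ HH, ∃ h' ∈ HH, σ (a h) = a h') : ff (σ : Fr →* Fr) = 0 := by
  set g := a (xx 0) with hg
  set h := a (xx 1) with hh
  set w : V := L h 2 • J g - L g 2 • J h with hw
  -- nonzero
  have hdet := nn_det3 a
  rw [← hg, ← hh] at hdet
  have hw0 : w ≠ 0 := by
    intro h0
    have e0 : L h 2 * L g 0 = L g 2 * L h 0 := by
      have := congrArg Prod.fst h0
      simp only [hw, J, Prod.fst_sub, Prod.smul_fst, smul_eq_mul, Prod.fst_zero] at this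
      linear_combination this
    have e1' : L h 2 * L g 1 = L g 2 * L h 1 := by
      have := congrArg Prod.snd h0
      simp only [hw, J, Prod.snd_sub, Prod.smul_snd, smul_eq_mul, Prod.snd_zero] at this
      linear_combination this
    have hd0 : det3 (L g) (L h) (L (a (xx 2))) ≠ 0 := by
      intro h0; rw [h0] at hdet; simp [nn] at hdet
    have k1 : L h 2 * det3 (L g) (L h) (L (a (xx 2))) = 0 := by
      simp only [det3]
      linear_combination (L h 1 * L (a (xx 2)) 2 - L h 2 * L (a (xx 2)) 1) * e0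
        - (L h 0 * L (a (xx 2)) 2 - L h 2 * L (a (xx 2)) 0) * e1'
    have k2 : L g 2 * det3 (L g) (L h) (L (a (xx 2))) = 0 := by
      simp only [det3]
      linear_combination (L g 1 * L (a (xx 2)) 2 - L g 2 * L (a (xx 2)) 1) * e0
        - (L g 0 * L (a (xx 2)) 2 - L g 2 * L (a (xx 2)) 0) * e1'
    have k3 : L h 2 = 0 := by
      rcases mul_eq_zero.1 k1 with h | h
      · exact h
      · exact absurd h hd0
    have k4 : L g 2 = 0 := by
      rcases mul_eq_zero.1 k2 with h | h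
      · exact h
      · exact absurd h hd0
    exact hne ⟨th_one_of k4, th_one_of k3⟩
  -- commutator
  set r0 : Fr := xx 0 * xx 1 * (xx 0)⁻¹ * (xx 1)⁻¹ with hr0
  have hr0H : r0 ∈ HH := by
    have m0 : xx 0 ∈ HH := Subgroup.subset_closure (by simp)
    have m1 : xx 1 ∈ HH := Subgroup.subset_closure (by simp)
    exact HH.mul_mem (HH.mul_mem (HH.mul_mem m0 m1) (HH.inv_mem m0)) (HH.inv_mem m1)
  have hr : a r0 * (h * g) = g * h := by
    rw [hr0, map_mul, map_mul, map_mul, map_inv, map_inv, ← hg, ← hh]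
    group
  have thr : th (a r0) = 1 := by
    have h1 := congrArg th hr
    rw [th_mul, th_mul, th_mul] at h1
    have h2 : th g ≠ 0 := by intro h0; have := nn_th g; rw [h0] at this; simp [nn] at this
    have h3 : th h ≠ 0 := by intro h0; have := nn_th h; rw [h0] at this; simp [nn] at this
    have h4 : (th (a r0) - 1) * (th g * th h) = 0 := by linear_combination h1
    rcases mul_eq_zero.1 h4 with h5 | h5
    · linear_combination h5
    · exact absurd h5 (mul_ne_zero h2 h3)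
  have Lr : L (a r0) = (1 - th h) • L g - (1 - th g) • L h := by
    have h1 := congrArg L hr
    rw [L_mul, thr, one_smul, L_mul, L_mul] at h1
    have h2 : L (a r0) = L g + th g • L h - (L h + th h • L g) := by
      rw [← h1]; abel
    rw [h2]; module
  have Jr : J (a r0) = (⟨1, -1⟩ : O) • w := by
    have kg := kap g
    have kh := kap h
    ext1
    · simp only [J, Lr, hw, Pi.sub_apply, Pi.smul_apply, smul_eq_mul, Prod.smul_fst, Prod.fst_sub]
      have e : (⟨1, -1⟩ : O) = -⟨-1, 1⟩ := by ext <;> simp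
      rw [e]
      linear_combination (L g 0) * kh - (L h 0) * kg
    · simp only [J, Lr, hw, Pi.sub_apply, Pi.smul_apply, smul_eq_mul, Prod.smul_snd, Prod.snd_sub]
      have e : (⟨1, -1⟩ : O) = -⟨-1, 1⟩ := by ext <;> simp
      rw [e]
      linear_combination (L g 1) * kh - (L h 1) * kg
  obtain ⟨r1, hr1, hsr⟩ := hst r0 hr0H
  obtain ⟨α, β, hab⟩ := L_HH a hr1
  rw [← hg, ← hh] at hab
  have ths : th (σ (a r0)) = 1 := by
    have := hσ.pres (a r0); rw [thr] at this; exact this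
  have hz : α * L g 2 + β * L h 2 = 0 := by
    have h1 := L2_zero ths
    rw [hsr, hab] at h1
    simpa using h1
  have hJs : J (σ (a r0)) = α • J g + β • J h := by
    rw [hsr]; exact J_comb hab
  have hPJ : PV (σ : Fr →* Fr) (J (a r0)) = α • J g + β • J h := by
    rw [← hJs]; exact (J_PV hσ.pres thr).symm
  have hpar : dt (PV (σ : Fr →* Fr) w) w = 0 := by
    rw [Jr, PV_smul] at hPJ
    have h1 : dt ((⟨1, -1⟩ : O) • PV (σ : Fr →* Fr) w) w = 0 := by
      rw [hPJ, hw]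
      simp only [dt, Prod.fst_add, Prod.snd_add, Prod.fst_sub, Prod.snd_sub, Prod.smul_fst,
        Prod.smul_snd, smul_eq_mul]
      linear_combination (-(J g).1 * (J h).2 + (J g).2 * (J h).1) * hz
    rw [dt_smul_left] at h1
    rcases mul_eq_zero.1 h1 with h | h
    · exfalso
      have := congrArg Zsqrtd.re h
      simp at this
    · exact h
  -- primitive vector
  set d := EuclideanDomain.gcd w.1 w.2 with hd
  have hd0 : d ≠ 0 := by
    intro h0
    rw [hd, EuclideanDomain.gcd_eq_zero_iff] at h0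
    exact hw0 (Prod.ext h0.1 h0.2)
  obtain ⟨b1, hb1⟩ : d ∣ w.1 := EuclideanDomain.gcd_dvd_left _ _
  obtain ⟨b2, hb2⟩ : d ∣ w.2 := EuclideanDomain.gcd_dvd_right _ _
  have hbez := EuclideanDomain.gcd_eq_gcd_ab w.1 w.2
  rw [← hd] at hbez
  set X := EuclideanDomain.gcdA w.1 w.2
  set Y := EuclideanDomain.gcdB w.1 w.2
  have hcop : b1 * X + b2 * Y = 1 := by
    apply mul_left_cancel₀ hd0
    rw [mul_one]
    conv_rhs => rw [hbez, hb1, hb2]
    ring
  set v : V := (b1, b2) with hv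
  have hwv : w = d • v := by
    ext1
    · simp [hv, ← hb1]
    · simp [hv, ← hb2]
  set z : V := (-Y, X) with hz'
  have hvz : nn (dt v z) = 1 := by
    have : dt v z = 1 := by
      simp only [dt, hv, hz']; linear_combination hcop
    rw [this]; simp [nn]
  have hpar2 : dt (PV (σ : Fr →* Fr) v) v = 0 := by
    rw [hwv, PV_smul, dt_smul_left, dt_smul_right] at hpar
    rcases mul_eq_zero.1 hpar with h | h
    · exact absurd h hd0
    · rcases mul_eq_zero.1 h with h | h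
      · exact absurd h hd0
      · exact h
  set p := PV (σ : Fr →* Fr) v with hp
  have hlam : p = (X * p.1 + Y * p.2) • v := by
    simp only [dt, hv] at hpar2
    ext1
    · simp only [hv, Prod.smul_mk, smul_eq_mul]
      linear_combination (-p.1) * hcop + Y * hpar2
    · simp only [hv, Prod.smul_mk, smul_eq_mul]
      linear_combination (-p.2) * hcop - X * hpar2
  have hnl : nn (X * p.1 + Y * p.2) = 1 := by
    have h1 : nn (dt (PV (σ : Fr →* Fr) v) (PV (σ : Fr →* Fr) z)) = 1 := by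
      rw [dt_PV, nn_mul, hvz, one_mul]
      exact nn_D hσ.pres
    rw [← hp, hlam, dt_smul_left, nn_mul] at h1
    exact Int.eq_one_of_mul_eq_one_right (nn_nonneg _) h1
  have h2 := shift hσ hvz
  rw [← hp, hlam, Phi_smul hvz hnl, sub_self] at h2
  exact h2.symm

theorem vanish (a σ : MulAut Fr) (hσ : G1 (σ : Fr →* Fr))
    (hst : ∀ h ∈ HH, ∃ h' ∈ HH, σ (a h) = a h') : ff (σ : Fr →* Fr) = 0 := by
  by_cases hne : th (a (xx 0)) = 1 ∧ th (a (xx 1)) = 1
  · obtain ⟨h0, hh0, k0⟩ := hst (xx 0) (Subgroup.subset_closure (by simp))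
    obtain ⟨h1, hh1, k1⟩ := hst (xx 1) (Subgroup.subset_closure (by simp))
    exact vanish_a a σ hσ hne.1 hne.2 hh0 hh1 k0 k1
  · exact vanish_b a σ hσ hne hst

end Pool.Agent.H270.Gau
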