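import Mathlib
import Pool.Agent.Helper270.GauD
set_option autoImplicit false
set_option linter.unusedSimpArgs false

/-! The witness automorphism and the final quotient. -/

namespace Pool.Agent.H270.Gau

/-- substitution `x_j ↦ x_j w`, other basis elements fixed -/
def tvh (j : Fin 3) (w : Fr) : Fr →* Fr := FreeGroup.lift (fun i => if i = j then xx j * w else xx i)

theorem tvh_of (j : Fin 3) (w : Fr) (i : Fin 3) :
    tvh j w (xx i) = if i = j then xx j * w else xx i := by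
  simp [tvh, xx]

def tvA (j : Fin 3) (w : Fr) (hw : ∀ w', tvh j w' w = w) : MulAut Fr :=
  MonoidHom.toMulEquiv (tvh j w) (tvh j w⁻¹)
    (by
      apply FreeGroup.ext_hom
      intro i
      show tvh j w⁻¹ (tvh j w (xx i)) = xx i
      rw [tvh_of]
      split_ifs with h
      · subst h
        rw [map_mul, tvh_of, if_pos rfl, hw, inv_mul_cancel_right]
      · rw [tvh_of, if_neg h])
    (by
      apply FreeGroup.ext_hom
      intro i
      show tvh j w (tvh j w⁻¹ (xx i)) = xx i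
      rw [tvh_of]
      split_ifs with h
      · subst h
        rw [map_mul, map_inv, tvh_of, if_pos rfl, hw, mul_inv_cancel_right]
      · rw [tvh_of, if_neg h])

theorem tvA_of (j : Fin 3) (w : Fr) (hw : ∀ w', tvh j w' w = w) (i : Fin 3) :
    tvA j w hw (xx i) = if i = j then xx j * w else xx i := tvh_of j w i

theorem J_mul (g h : Fr) : J (g * h) = J g + th g • J h := by
  unfold J; rw [L_mul]; ext1 <;> simp

theorem J_inv (g : Fr) : th g • J g⁻¹ = - J g := by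
  have h := J_mul g g⁻¹
  rw [mul_inv_cancel] at h
  have h1 : J 1 = 0 := by simp [J, L]
  rw [h1] at h
  have := eq_neg_of_add_eq_zero_right h.symm
  exact this

theorem J_conj (c g : Fr) (hg : th g = 1) : J (c * g * c⁻¹) = th c • J g := by
  rw [J_mul, J_mul, th_mul, hg, mul_one, J_inv]; abel

theorem th_conj (c g : Fr) (hg : th g = 1) : th (c * g * c⁻¹) = 1 := by
  have h1 := th_inv_mul c
  rw [th_mul, th_mul, hg, mul_one, mul_comm]; exact h1

def Re (p q : V) : Prop := ∃ σ : MulAut Fr, Pres (σ : Fr →* Fr) ∧ σ (xx 2) = xx 2 ∧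
  J (σ (xx 0)) = p ∧ J (σ (xx 1)) = q

theorem Re_one : Re e1 (0, 1) :=
  ⟨1, fun _ => rfl, rfl, J_x0, J_x1⟩

theorem Re_12 {p q : V} (h : Re p q) (k : ℕ) : Re p (q + th (xx 2 ^ k) • p) := by
  obtain ⟨σ, h1, h2, h3, h4⟩ := h
  have hw : ∀ w', tvh 1 w' (xx 2 ^ k * xx 0 * (xx 2 ^ k)⁻¹) = xx 2 ^ k * xx 0 * (xx 2 ^ k)⁻¹ := by
    intro w'
    have a0 : tvh 1 w' (xx 0) = xx 0 := by rw [tvh_of, if_neg (by decide)]
    have a2 : tvh 1 w' (xx 2) = xx 2 := by rw [tvh_of, if_neg (by decide)]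
    rw [map_mul, map_mul, map_inv, map_pow, a0, a2]
  set α := tvA 1 _ hw with hα
  have e0 : α (xx 0) = xx 0 := by rw [hα, tvA_of, if_neg (by decide)]
  have e1' : α (xx 1) = xx 1 * (xx 2 ^ k * xx 0 * (xx 2 ^ k)⁻¹) := by rw [hα, tvA_of, if_pos rfl]
  have e2 : α (xx 2) = xx 2 := by rw [hα, tvA_of, if_neg (by decide)]
  have hth : th (α (xx 1)) = 1 := by rw [e1', th_mul, th_conj _ _ th_x0, th_x1, mul_one]
  have hp : Pres (α : Fr →* Fr) := by
    apply Pres_of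
    intro j
    fin_cases j
    · show th (α (xx 0)) = _; rw [e0]; rfl
    · show th (α (xx 1)) = th (xx 1); rw [hth, th_x1]
    · show th (α (xx 2)) = _; rw [e2]; rfl
  refine ⟨σ * α, ?_, ?_, ?_, ?_⟩
  · intro g
    show th (σ (α g)) = th g
    have := h1 (α g)
    have := hp g
    simp_all
  · rw [MulAut.mul_apply, e2, h2]
  · rw [MulAut.mul_apply, e0, h3]
  · rw [MulAut.mul_apply]
    have k1 : J ((σ : Fr →* Fr) (α (xx 1))) = PV (σ : Fr →* Fr) (J (α (xx 1))) := J_PV h1 hth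
    have k2 : J (α (xx 1)) = (0, 1) + th (xx 2 ^ k) • e1 := by
      rw [e1', J_mul, J_conj _ _ th_x0, J_x0, J_x1, th_x1, one_smul]
    have k3 : J (σ (α (xx 1))) = PV (σ : Fr →* Fr) ((0, 1) + th (xx 2 ^ k) • e1) := by
      rw [← k2]; exact k1
    rw [k3]
    have j0 : J ((σ : Fr →* Fr) (xx 0)) = p := h3
    have j1 : J ((σ : Fr →* Fr) (xx 1)) = q := h4
    simp only [PV, j0, j1, e1, Prod.fst_add, Prod.snd_add, Prod.smul_mk, smul_eq_mul, mul_one,
      mul_zero, zero_add, add_zero, one_smul]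
    rw [add_comm]

theorem Re_21 {p q : V} (h : Re p q) (k : ℕ) : Re (p + th (xx 2 ^ k) • q) q := by
  obtain ⟨σ, h1, h2, h3, h4⟩ := h
  have hw : ∀ w', tvh 0 w' (xx 2 ^ k * xx 1 * (xx 2 ^ k)⁻¹) = xx 2 ^ k * xx 1 * (xx 2 ^ k)⁻¹ := by
    intro w'
    have a0 : tvh 0 w' (xx 1) = xx 1 := by rw [tvh_of, if_neg (by decide)]
    have a2 : tvh 0 w' (xx 2) = xx 2 := by rw [tvh_of, if_neg (by decide)]
    rw [map_mul, map_mul, map_inv, map_pow, a0, a2]
  set α := tvA 0 _ hw with hα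
  have e0 : α (xx 1) = xx 1 := by rw [hα, tvA_of, if_neg (by decide)]
  have e1' : α (xx 0) = xx 0 * (xx 2 ^ k * xx 1 * (xx 2 ^ k)⁻¹) := by rw [hα, tvA_of, if_pos rfl]
  have e2 : α (xx 2) = xx 2 := by rw [hα, tvA_of, if_neg (by decide)]
  have hth : th (α (xx 0)) = 1 := by rw [e1', th_mul, th_conj _ _ th_x1, th_x0, mul_one]
  have hp : Pres (α : Fr →* Fr) := by
    apply Pres_of
    intro j
    fin_cases j
    · show th (α (xx 0)) = th (xx 0); rw [hth, th_x0]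
    · show th (α (xx 1)) = _; rw [e0]; rfl
    · show th (α (xx 2)) = _; rw [e2]; rfl
  refine ⟨σ * α, ?_, ?_, ?_, ?_⟩
  · intro g
    show th (σ (α g)) = th g
    have := h1 (α g)
    have := hp g
    simp_all
  · rw [MulAut.mul_apply, e2, h2]
  · rw [MulAut.mul_apply]
    have k1 : J ((σ : Fr →* Fr) (α (xx 0))) = PV (σ : Fr →* Fr) (J (α (xx 0))) := J_PV h1 hth
    have k2 : J (α (xx 0)) = e1 + th (xx 2 ^ k) • ((0, 1) : V) := by
      rw [e1', J_mul, J_conj _ _ th_x1, J_x0, J_x1, th_x0, one_smul]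
    have k3 : J (σ (α (xx 0))) = PV (σ : Fr →* Fr) (e1 + th (xx 2 ^ k) • ((0, 1) : V)) := by
      rw [← k2]; exact k1
    rw [k3]
    have j0 : J ((σ : Fr →* Fr) (xx 0)) = p := h3
    have j1 : J ((σ : Fr →* Fr) (xx 1)) = q := h4
    simp only [PV, j0, j1, e1, Prod.fst_add, Prod.snd_add, Prod.smul_mk, smul_eq_mul, mul_one,
      mul_zero, zero_add, add_zero, one_smul]
  · rw [MulAut.mul_apply, e0, h4]

theorem th_pow (k : ℕ) : th (xx 2 ^ k) = (⟨0, 1⟩ : O) ^ k := by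
  induction k with
  | zero => simp [th]
  | succ k ih => rw [pow_succ, th_mul, ih, th_x2, pow_succ]

theorem thp0 : th (xx 2 ^ 0) = ⟨1, 0⟩ := by rw [th_pow]; rfl
theorem thp1 : th (xx 2 ^ 1) = ⟨0, 1⟩ := by rw [th_pow]; rfl
theorem thp2 : th (xx 2 ^ 2) = ⟨-1, 0⟩ := by rw [th_pow]; rfl
theorem thp3 : th (xx 2 ^ 3) = ⟨0, -1⟩ := by rw [th_pow]; rfl

theorem Re_12' {p q : V} (h : Re p q) (k : ℕ) {ε : O} (hε : th (xx 2 ^ k) = ε) {q' : V}
    (hq : q' = q + ε • p) : Re p q' := by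
  rw [hq, ← hε]; exact Re_12 h k

theorem Re_21' {p q : V} (h : Re p q) (k : ℕ) {ε : O} (hε : th (xx 2 ^ k) = ε) {p' : V}
    (hp : p' = p + ε • q) : Re p' q := by
  rw [hp, ← hε]; exact Re_21 h k

theorem Re_w : Re ((⟨-9, 10⟩, ⟨5, 10⟩) : V) (⟨5, -20⟩, ⟨-14, -10⟩) := by
  have s0 : Re ((⟨1, 0⟩, ⟨0, 0⟩) : V) (⟨0, 0⟩, ⟨1, 0⟩) := Re_one
  have s1 : Re ((⟨1, 0⟩, ⟨0, 0⟩) : V) (⟨0, 1⟩, ⟨1, 0⟩) := Re_12' s0 1 thp1 (by decide)
  have s2 : Re ((⟨1, 1⟩, ⟨1, 0⟩) : V) (⟨0, 1⟩, ⟨1, 0⟩) := Re_21' s1 0 thp0 (by decide)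
  have s3 : Re ((⟨1, 2⟩, ⟨2, 0⟩) : V) (⟨0, 1⟩, ⟨1, 0⟩) := Re_21' s2 0 thp0 (by decide)
  have s4 : Re ((⟨1, 2⟩, ⟨2, 0⟩) : V) (⟨-2, 2⟩, ⟨1, 2⟩) := Re_12' s3 1 thp1 (by decide)
  have s5 : Re ((⟨-1, 4⟩, ⟨3, 2⟩) : V) (⟨-2, 2⟩, ⟨1, 2⟩) := Re_21' s4 0 thp0 (by decide)
  have s6 : Re ((⟨1, 6⟩, ⟨5, 1⟩) : V) (⟨-2, 2⟩, ⟨1, 2⟩) := Re_21' s5 3 thp3 (by decide)
  have s7 : Re ((⟨1, 6⟩, ⟨5, 1⟩) : V) (⟨-3, -4⟩, ⟨-4, 1⟩) := Re_12' s6 2 thp2 (by decide)
  have s8 : Re ((⟨1, 6⟩, ⟨5, 1⟩) : V) (⟨-4, -10⟩, ⟨-9, 0⟩) := Re_12' s7 2 thp2 (by decide)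
  have s9 : Re ((⟨-9, 10⟩, ⟨5, 10⟩) : V) (⟨-4, -10⟩, ⟨-9, 0⟩) := Re_21' s8 3 thp3 (by decide)
  exact Re_12' s9 2 thp2 (by decide)

theorem Phi_w : Phi ((⟨-9, 10⟩, ⟨5, 10⟩) : V) - Phi e1 = 1 := by
  have a1 := Phi_edge (v := e1) (w := (⟨0, -1⟩, ⟨-1, 0⟩)) (by decide)
  have a2 := Phi_edge (v := ((⟨0, -1⟩, ⟨-1, 0⟩) : V)) (w := (⟨-2, -2⟩, ⟨-2, 1⟩)) (by decide)
  have a3 := Phi_edge (v := ((⟨-2, -2⟩, ⟨-2, 1⟩) : V)) (w := (⟨6, -1⟩, ⟨1, -5⟩)) (by decide)
  have a4 := Phi_edge (v := ((⟨6, -1⟩, ⟨1, -5⟩) : V)) (w := (⟨-9, 10⟩, ⟨5, 10⟩)) (by decide)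
  have b1 : FF e1 (⟨0, -1⟩, ⟨-1, 0⟩) = 0 := by decide
  have b2 : FF ((⟨0, -1⟩, ⟨-1, 0⟩) : V) (⟨-2, -2⟩, ⟨-2, 1⟩) = 0 := by decide
  have b3 : FF ((⟨-2, -2⟩, ⟨-2, 1⟩) : V) (⟨6, -1⟩, ⟨1, -5⟩) = 1 := by decide
  have b4 : FF ((⟨6, -1⟩, ⟨1, -5⟩) : V) (⟨-9, 10⟩, ⟨5, 10⟩) = 0 := by decide
  rw [b1] at a1; rw [b2] at a2; rw [b3] at a3; rw [b4] at a4
  linarith

theorem witness : ∃ σ : MulAut Fr, G1 (σ : Fr →* Fr) ∧ ff (σ : Fr →* Fr) = 1 := by
  obtain ⟨σ, h1, h2, h3, h4⟩ := Re_w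
  refine ⟨σ, ?_, ?_⟩
  · have key : eta.comp (σ : Fr →* Fr) = eta := by
      apply FreeGroup.ext_hom
      intro j
      show eta (σ (xx j)) = eta (xx j)
      have t0 : th (σ (xx 0)) = 1 := by have := h1 (xx 0); rw [th_x0] at this; exact this
      have t1 : th (σ (xx 1)) = 1 := by have := h1 (xx 1); rw [th_x1] at this; exact this
      fin_cases j
      · show eta (σ (xx 0)) = eta (xx 0)
        apply Af.ext
        · apply Units.ext; rw [eta_u, eta_u, t0, th_x0]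
        · funext i
          rw [eta_v, eta_v, L_x]
          have e0 : L (σ (xx 0)) 0 = ⟨-9, 10⟩ := congrArg Prod.fst h3
          have e1' : L (σ (xx 0)) 1 = ⟨5, 10⟩ := congrArg Prod.snd h3
          have e2 : L (σ (xx 0)) 2 = 0 := L2_zero t0
          fin_cases i
          · show pr5 (L (σ (xx 0)) 0) = _
            rw [e0]
            simp only [Fin.zero_eta, Pi.single_eq_same]
            rw [pr5_apply, pr5_apply]; decide
          · show pr5 (L (σ (xx 0)) 1) = _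
            rw [e1']
            have : (Pi.single 0 1 : Fin 3 → O) ⟨1, by decide⟩ = 0 := by simp
            rw [this]
            rw [pr5_apply, pr5_apply]; decide
          · show pr5 (L (σ (xx 0)) 2) = _
            rw [e2]
            have : (Pi.single 0 1 : Fin 3 → O) ⟨2, by decide⟩ = 0 := by simp
            rw [this]
      · show eta (σ (xx 1)) = eta (xx 1)
        apply Af.ext
        · apply Units.ext; rw [eta_u, eta_u, t1, th_x1]
        · funext i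
          rw [eta_v, eta_v, L_x]
          have e0 : L (σ (xx 1)) 0 = ⟨5, -20⟩ := congrArg Prod.fst h4
          have e1' : L (σ (xx 1)) 1 = ⟨-14, -10⟩ := congrArg Prod.snd h4
          have e2 : L (σ (xx 1)) 2 = 0 := L2_zero t1
          fin_cases i
          · show pr5 (L (σ (xx 1)) 0) = _
            rw [e0]
            have : (Pi.single 1 1 : Fin 3 → O) ⟨0, by decide⟩ = 0 := by simp
            rw [this]
            rw [pr5_apply, pr5_apply]; decide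
          · show pr5 (L (σ (xx 1)) 1) = _
            rw [e1']
            have : (Pi.single 1 1 : Fin 3 → O) ⟨1, by decide⟩ = 1 := by simp
            rw [this]
            rw [pr5_apply, pr5_apply]; decide
          · show pr5 (L (σ (xx 1)) 2) = _
            rw [e2]
            have : (Pi.single 1 1 : Fin 3 → O) ⟨2, by decide⟩ = 0 := by simp
            rw [this]
      · show eta (σ (xx 2)) = eta (xx 2)
        rw [h2]
    intro g
    exact DFunLike.congr_fun key g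
  · unfold ff
    have : J ((σ : Fr →* Fr) (xx 0)) = (⟨-9, 10⟩, ⟨5, 10⟩) := h3
    rw [this]; exact Phi_w

/-! ### The quotient -/

instance homFinite : Finite (Fr →* Af R5) :=
  Finite.of_equiv (Fin 3 → Af R5) FreeGroup.lift

abbrev QQ := MulAut Fr ⧸ KK.normalCore

theorem pow_facts {σ : MulAut Fr} (h : G1 (σ : Fr →* Fr)) (k : ℕ) :
    G1 ((σ ^ k : MulAut Fr) : Fr →* Fr) ∧
    ff ((σ ^ k : MulAut Fr) : Fr →* Fr) = k * ff (σ : Fr →* Fr) := by
  induction k with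
  | zero => exact ⟨G1_one, by rw [pow_zero, ff_one]; simp⟩
  | succ k ih =>
      rw [pow_succ]
      exact ⟨G1_mul ih.1 h, by rw [ff_mul ih.1 h, ih.2]; push_cast; ring⟩

theorem infinite_range : ¬ (Set.range (QuotientGroup.mk' KK.normalCore)).Finite := by
  intro hfin
  have hs : Set.range (QuotientGroup.mk' KK.normalCore) = Set.univ :=
    Set.range_eq_univ.2 (QuotientGroup.mk'_surjective _)
  rw [hs] at hfin
  have hQ : Finite QQ := Set.finite_univ_iff.1 hfin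
  obtain ⟨σ, h1, h2⟩ := witness
  have h3 : (QuotientGroup.mk' KK.normalCore σ) ^ Nat.card QQ = 1 := pow_card_eq_one'
  rw [← map_pow] at h3
  have h4 : σ ^ Nat.card QQ ∈ KK.normalCore := (QuotientGroup.eq_one_iff _).1 h3
  have h5 := (KK.normalCore_le h4).2
  rw [(pow_facts h1 _).2, h2, mul_one] at h5
  have h6 : 0 < Nat.card QQ := Nat.card_pos
  omega

theorem finite_image :
    ((QuotientGroup.mk' KK.normalCore) '' {σ : MulAut Fr | HH.map (σ : Fr →* Fr) = HH}).Finite := by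
  classical
  set S : Set (MulAut Fr) := {σ : MulAut Fr | HH.map (σ : Fr →* Fr) = HH} with hS
  set tau : MulAut Fr → ((Fr →* Af R5) → (Fr →* Af R5)) := fun σ e => e.comp (σ : Fr →* Fr)
    with htau
  have key : ∀ σ ∈ S, ∀ τ ∈ S, tau σ = tau τ →
      QuotientGroup.mk' KK.normalCore σ = QuotientGroup.mk' KK.normalCore τ := by
    intro σ hσ τ hτ h
    apply QuotientGroup.eq.2
    intro a
    show G1 _ ∧ ff _ = 0
    have hpt : ∀ (e : Fr →* Af R5) (g : Fr), e (σ g) = e (τ g) := by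
      intro e g
      have := congrFun h e
      exact DFunLike.congr_fun this g
    have hρ : ∀ (e : Fr →* Af R5) (g : Fr), e ((σ⁻¹ * τ : MulAut Fr) g) = e g := by
      intro e g
      have h1 := hpt (e.comp ((σ⁻¹ : MulAut Fr) : Fr →* Fr)) g
      have h2 : (e.comp ((σ⁻¹ : MulAut Fr) : Fr →* Fr)) (σ g) = e g := by
        show e (σ⁻¹ (σ g)) = e g
        rw [MulAut.inv_apply_self]
      rw [h2] at h1
      exact h1.symm
    have hG : G1 ((a * (σ⁻¹ * τ) * a⁻¹ : MulAut Fr) : Fr →* Fr) := by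
      intro g
      have h1 := hρ (eta.comp (a : Fr →* Fr)) (a⁻¹ g)
      have h2 : (eta.comp (a : Fr →* Fr)) (a⁻¹ g) = eta g := by
        show eta (a (a⁻¹ g)) = eta g
        rw [MulAut.apply_inv_self]
      rw [h2] at h1
      exact h1
    refine ⟨hG, vanish a _ hG ?_⟩
    intro h hh
    refine ⟨(σ⁻¹ * τ : MulAut Fr) h, ?_, ?_⟩
    · have h1 : τ h ∈ HH := by
        have : τ h ∈ HH.map (τ : Fr →* Fr) := ⟨h, hh, rfl⟩
        rw [hτ] at this; exact this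
      have h2 : τ h ∈ HH.map (σ : Fr →* Fr) := by rw [hσ]; exact h1
      obtain ⟨h', hh', e⟩ := h2
      have e2 : (σ⁻¹ * τ : MulAut Fr) h = h' := by
        show σ⁻¹ (τ h) = h'
        rw [← e]
        show σ⁻¹ (σ h') = h'
        rw [MulAut.inv_apply_self]
      rw [e2]; exact hh'
    · show a ((σ⁻¹ * τ : MulAut Fr) (a⁻¹ (a h))) = _
      rw [MulAut.inv_apply_self]
  have hfin : (tau '' S).Finite := Set.toFinite _
  have hch : ∀ t ∈ tau '' S, ∃ σ ∈ S, tau σ = t := fun t ht => ht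
  choose! c hc using hch
  refine (hfin.image (fun t => QuotientGroup.mk' KK.normalCore (c t))).subset ?_
  rintro _ ⟨σ, hσ, rfl⟩
  refine ⟨tau σ, ⟨σ, hσ, rfl⟩, ?_⟩
  have hm : tau σ ∈ tau '' S := ⟨σ, hσ, rfl⟩
  exact key _ (hc _ hm).1 _ hσ (hc _ hm).2

end Pool.Agent.H270.Gau
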