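import Mathlib

/-!
Abstract part: a homomorphism from the free group to a group with a central element of
order `p` which is met by the `p^k`-th power of every element that is nonzero in the
mod `p` abelianisation.
-/

namespace H270Q

open Finset

/-- The Nielsen move `a_1 ↦ a_2 a_1`, `a_i ↦ a_i` for `i ≥ 2` (indices shifted to start at 0). -/
def nielsenHom (n : ℕ) (hn : 2 ≤ n) : FreeGroup (Fin n) →* FreeGroup (Fin n) :=
  FreeGroup.lift (fun i => if i = ⟨0, by omega⟩ then
    FreeGroup.of ⟨1, by omega⟩ * FreeGroup.of ⟨0, by omega⟩ else FreeGroup.of i)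

def nielsenInvHom (n : ℕ) (hn : 2 ≤ n) : FreeGroup (Fin n) →* FreeGroup (Fin n) :=
  FreeGroup.lift (fun i => if i = ⟨0, by omega⟩ then
    (FreeGroup.of ⟨1, by omega⟩)⁻¹ * FreeGroup.of ⟨0, by omega⟩ else FreeGroup.of i)

/-- The Nielsen move as an automorphism. -/
def nielsen (n : ℕ) (hn : 2 ≤ n) : MulAut (FreeGroup (Fin n)) :=
  MonoidHom.toMulEquiv (nielsenHom n hn) (nielsenInvHom n hn)
    (by
      ext i
      by_cases h : i = ⟨0, by omega⟩
      · subst h
        simp [nielsenHom, nielsenInvHom]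
      · simp [nielsenHom, nielsenInvHom, h])
    (by
      ext i
      by_cases h : i = ⟨0, by omega⟩
      · subst h
        simp [nielsenHom, nielsenInvHom]
      · simp [nielsenHom, nielsenInvHom, h])

/-- `Q(n,m)` is the quotient of `Aut(F_n)` by the normal closure of `λ^m`. -/
abbrev Q (n m : ℕ) (hn : 2 ≤ n) : Type :=
  MulAut (FreeGroup (Fin n)) ⧸ Subgroup.normalClosure {(nielsen n hn) ^ m}

variable {n : ℕ}

theorem nielsen_zero (hn : 2 ≤ n) : nielsen n hn (FreeGroup.of ⟨0, by omega⟩) =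
    FreeGroup.of ⟨1, by omega⟩ * FreeGroup.of ⟨0, by omega⟩ := by
  simp [nielsen, nielsenHom, MonoidHom.toMulEquiv]

theorem nielsen_ne (hn : 2 ≤ n) (i : Fin n) (hi : i ≠ ⟨0, by omega⟩) :
    nielsen n hn (FreeGroup.of i) = FreeGroup.of i := by
  simp [nielsen, nielsenHom, MonoidHom.toMulEquiv, hi]

theorem nielsen_pow_zero (hn : 2 ≤ n) (m : ℕ) :
    ((nielsen n hn) ^ m) (FreeGroup.of ⟨0, by omega⟩) =
    FreeGroup.of ⟨1, by omega⟩ ^ m * FreeGroup.of ⟨0, by omega⟩ := by
  induction m with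
  | zero => simp
  | succ m ih =>
    rw [pow_succ', MulAut.mul_apply, ih, map_mul, map_pow, nielsen_zero,
      nielsen_ne hn _ (by simp), pow_succ, mul_assoc]

theorem nielsen_pow_ne (hn : 2 ≤ n) (m : ℕ) (i : Fin n) (hi : i ≠ ⟨0, by omega⟩) :
    ((nielsen n hn) ^ m) (FreeGroup.of i) = FreeGroup.of i := by
  induction m with
  | zero => simp
  | succ m ih => rw [pow_succ', MulAut.mul_apply, ih, nielsen_ne hn i hi]

/-- mod `p` abelianisation -/
def ab (n p : ℕ) : FreeGroup (Fin n) →* Multiplicative (Fin n → ZMod p) :=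
  FreeGroup.lift (fun i => Multiplicative.ofAdd (Pi.single i 1))

theorem ab_of (p : ℕ) (i : Fin n) :
    ab n p (FreeGroup.of i) = Multiplicative.ofAdd (Pi.single i 1) := by simp [ab]

theorem ab_of_ne (p : ℕ) [Fact p.Prime] (i : Fin n) : ab n p (FreeGroup.of i) ≠ 1 := by
  rw [ab_of]
  intro h
  have h2 : (Pi.single i 1 : Fin n → ZMod p) = 0 := h
  have h3 := congrFun h2 i
  simp at h3

theorem ab_endo (p : ℕ) (β : FreeGroup (Fin n) →* FreeGroup (Fin n)) (x : FreeGroup (Fin n))
    (hx : ab n p x = 1) : ab n p (β x) = 1 := by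
  have key : ∀ y : FreeGroup (Fin n), Multiplicative.toAdd (ab n p (β y)) =
      ∑ i, (Multiplicative.toAdd (ab n p y)) i • Multiplicative.toAdd (ab n p (β (FreeGroup.of i))) := by
    intro y
    induction y using FreeGroup.induction_on with
    | C1 => simp
    | of j =>
      rw [ab_of]
      simp [Pi.single_apply]
    | inv_of j hj =>
      rw [map_inv β, map_inv (ab n p), map_inv (ab n p), toAdd_inv, toAdd_inv, hj]
      simp
    | mul a b ha hb =>
      rw [map_mul β, map_mul (ab n p), map_mul (ab n p), toAdd_mul, toAdd_mul, ha, hb,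
        ← Finset.sum_add_distrib]
      apply Finset.sum_congr rfl
      intro i _
      rw [Pi.add_apply, add_smul]
  have h := key x
  rw [hx] at h
  have h2 : Multiplicative.toAdd (ab n p (β x)) = 0 := by rw [h]; simp
  exact h2

theorem ab_auto_ne (p : ℕ) [Fact p.Prime] (β : MulAut (FreeGroup (Fin n))) (i : Fin n) :
    ab n p (β (FreeGroup.of i)) ≠ 1 := by
  intro h
  have h2 := ab_endo p (β⁻¹ : MulAut (FreeGroup (Fin n))).toMonoidHom _ h
  have h3 : (β⁻¹ : MulAut (FreeGroup (Fin n))).toMonoidHom (β (FreeGroup.of i)) = FreeGroup.of i := by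
    change (β⁻¹ : MulAut (FreeGroup (Fin n))) (β (FreeGroup.of i)) = _
    simp
  rw [h3] at h2
  exact ab_of_ne p i h2

end H270Q
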