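import Mathlib
import Pool.Agent.Helper270.QC

namespace H270Q

open Finset

section Tri
variable {d : ℕ} {K : Type*} [Field K]

/-- strictly upper triangular by `r` steps -/
def Tri (r : ℕ) (Y : Matrix (Fin (d + 1)) (Fin (d + 1)) K) : Prop :=
  ∀ i j : Fin (d + 1), j.val < i.val + r → Y i j = 0

theorem Tri.add {r : ℕ} {Y Z : Matrix (Fin (d + 1)) (Fin (d + 1)) K} (hY : Tri r Y)
    (hZ : Tri r Z) : Tri r (Y + Z) := by
  intro i j h
  rw [Matrix.add_apply, hY i j h, hZ i j h, add_zero]

theorem Tri.mono {r s : ℕ} (hrs : s ≤ r) {Y : Matrix (Fin (d + 1)) (Fin (d + 1)) K}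
    (hY : Tri r Y) : Tri s Y := fun i j h => hY i j (by omega)

theorem Tri.mul {r s : ℕ} {Y Z : Matrix (Fin (d + 1)) (Fin (d + 1)) K} (hY : Tri r Y)
    (hZ : Tri s Z) : Tri (r + s) (Y * Z) := by
  intro i j h
  rw [Matrix.mul_apply]
  apply Finset.sum_eq_zero
  intro l _
  by_cases h1 : l.val < i.val + r
  · rw [hY i l h1, zero_mul]
  · rw [hZ l j (by omega), mul_zero]

theorem Tri.one_pow {Y : Matrix (Fin (d + 1)) (Fin (d + 1)) K} (hY : Tri 1 Y) (m : ℕ) :
    Tri m (Y ^ m) := by
  induction m with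
  | zero =>
    intro i j h
    rw [pow_zero, Matrix.one_apply_ne]
    intro e; subst e; omega
  | succ m ih => rw [pow_succ]; exact ih.mul hY

theorem Tri.eq_zero {r : ℕ} (hr : d < r) {Y : Matrix (Fin (d + 1)) (Fin (d + 1)) K}
    (hY : Tri r Y) : Y = 0 := by
  ext i j
  rw [hY i j (by omega)]; rfl

/-- superdiagonal entries -/
def sd (Y : Matrix (Fin (d + 1)) (Fin (d + 1)) K) (t : ℕ) : K :=
  if h : t < d then Y ⟨t, by omega⟩ ⟨t + 1, by omega⟩ else 0

theorem pow_entry {Y : Matrix (Fin (d + 1)) (Fin (d + 1)) K} (hY : Tri 1 Y) (m : ℕ) :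
    ∀ i : ℕ, ∀ h : i + m < d + 1, (Y ^ m) ⟨i, by omega⟩ ⟨i + m, h⟩ =
      ∏ t ∈ range m, sd Y (i + t) := by
  induction m with
  | zero => intro i h; simp
  | succ m ih =>
    intro i h
    rw [pow_succ, Matrix.mul_apply, Finset.sum_eq_single (⟨i + m, by omega⟩ : Fin (d + 1))]
    · rw [ih i (by omega), Finset.prod_range_succ]
      congr 1
      simp only [sd]
      rw [dif_pos (by omega)]
      rfl
    · intro l _ hl
      by_cases h1 : l.val < i + m
      · rw [hY.one_pow m ⟨i, by omega⟩ l h1, zero_mul]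
      · have h2 : l.val ≠ i + m := fun e => hl (Fin.ext e)
        rw [hY l ⟨i + (m + 1), h⟩ (by simp only; omega), mul_zero]
    · intro h1; exact absurd (Finset.mem_univ _) h1

/-- the corner matrix -/
def corner (d : ℕ) (K : Type*) [Field K] (a : K) : Matrix (Fin (d + 1)) (Fin (d + 1)) K :=
  fun i j => if i.val = 0 ∧ j.val = d then a else 0

theorem corner_tri (a : K) : Tri d (corner d K a) := by
  intro i j h
  simp only [corner]
  rw [if_neg]
  rintro ⟨h1, h2⟩
  omega

theorem pow_top {Y : Matrix (Fin (d + 1)) (Fin (d + 1)) K} (hY : Tri 1 Y) :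
    Y ^ d = corner d K (∏ t ∈ range d, sd Y t) := by
  ext i j
  by_cases h : j.val < i.val + d
  · rw [hY.one_pow d i j h, corner_tri _ i j h]
  · have e1 := pow_entry hY d 0 (by omega)
    simp only [zero_add] at e1
    rcases i with ⟨i, hi1⟩
    rcases j with ⟨j, hj1⟩
    simp only at h
    have hi : i = 0 := by omega
    have hj : j = d := by omega
    subst hi
    subst hj
    rw [e1]
    simp [corner]

theorem corner_add (a b : K) : corner d K a + corner d K b = corner d K (a + b) := by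
  ext i j
  simp only [corner, Matrix.add_apply]
  split_ifs <;> simp

theorem sd_add (Y Z : Matrix (Fin (d + 1)) (Fin (d + 1)) K) (t : ℕ) :
    sd (Y + Z) t = sd Y t + sd Z t := by
  simp only [sd]
  split_ifs <;> simp

theorem sd_of_tri_two {Y : Matrix (Fin (d + 1)) (Fin (d + 1)) K} (hY : Tri 2 Y) (t : ℕ) :
    sd Y t = 0 := by
  simp only [sd]
  split_ifs with h
  · exact hY _ _ (by simp only; omega)
  · rfl

end Tri

section Concrete

variable (p k n : ℕ) [hp : Fact p.Prime]

abbrev KK := GaloisField p (p ^ k)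
abbrev MM := Matrix (Fin (p ^ k + 1)) (Fin (p ^ k + 1)) (KK p k)

instance : CharP (KK p k) p := inferInstance
instance : CharP (MM p k) p := inferInstance

variable {p k n}

/-- a triangular matrix with prescribed superdiagonal -/
noncomputable def XX (y : KK p k) : MM p k := fun i j => if j.val = i.val + 1 then y ^ (p ^ i.val) else 0

theorem XX_tri (y : KK p k) : Tri 1 (XX y) := by
  intro i j h
  simp only [XX]
  rw [if_neg]; omega

theorem XX_sd (y : KK p k) (t : ℕ) (ht : t < p ^ k) : sd (XX y) t = y ^ (p ^ t) := by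
  simp [sd, XX, ht]

theorem one_add_pow {Y : MM p k} (hY : Tri 1 Y) : (1 + Y) ^ (p ^ (k + 1)) = 1 := by
  rw [add_pow_char_pow_of_commute (p := p) (n := k + 1) (Commute.one_left Y), one_pow]
  have h1 : p ^ k < p ^ (k + 1) := Nat.pow_lt_pow_right hp.out.one_lt (by omega)
  rw [(hY.one_pow _).eq_zero h1, add_zero]

theorem one_add_pow' {Y : MM p k} (hY : Tri 1 Y) : (1 + Y) ^ (p ^ k) =
    1 + corner (p ^ k) (KK p k) (∏ t ∈ range (p ^ k), sd Y t) := by
  rw [add_pow_char_pow_of_commute (p := p) (n := k) (Commute.one_left Y), one_pow, pow_top hY]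

/-- unitriangular units -/
noncomputable def uu (Y : MM p k) (hY : Tri 1 Y) : (MM p k)ˣ :=
  Units.ofPowEqOne (1 + Y) (p ^ (k + 1)) (one_add_pow hY) (pow_pos hp.out.pos _).ne'

theorem uu_val (Y : MM p k) (hY : Tri 1 Y) : ((uu Y hY : (MM p k)ˣ) : MM p k) = 1 + Y := rfl

/-- the homomorphism to the unitriangular group -/
noncomputable def mu0 (x : Fin n → KK p k) : FreeGroup (Fin n) →* (MM p k)ˣ :=
  FreeGroup.lift (fun i => uu (XX (x i)) (XX_tri (x i)))

/-- the linear form -/
noncomputable def ell (x : Fin n → KK p k) (v : Fin n → ZMod p) : KK p k := ∑ i, v i • x i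

theorem ell_add (x : Fin n → KK p k) (v w : Fin n → ZMod p) :
    ell x (v + w) = ell x v + ell x w := by
  simp only [ell, Pi.add_apply, add_smul, Finset.sum_add_distrib]

theorem ell_single (x : Fin n → KK p k) (i : Fin n) :
    ell x (Pi.single i 1) = x i := by
  simp only [ell]
  rw [Finset.sum_eq_single i]
  · simp
  · intro j _ hj; simp [hj]
  · intro h; exact absurd (Finset.mem_univ _) h

def Good (x : Fin n → KK p k) (w : FreeGroup (Fin n)) : Prop :=
  ∃ Y : MM p k, Tri 1 Y ∧ ((mu0 x w : (MM p k)ˣ) : MM p k) = 1 + Y ∧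
    ∀ t, t < p ^ k → sd Y t = (ell x (Multiplicative.toAdd (ab n p w))) ^ (p ^ t)

theorem good_one (x : Fin n → KK p k) : Good x 1 := by
  refine ⟨0, fun i j _ => rfl, by simp, fun t _ => ?_⟩
  have : ell x (Multiplicative.toAdd (ab n p 1)) = 0 := by simp [ell]
  rw [this, zero_pow (pow_pos hp.out.pos _).ne']
  simp [sd]

theorem good_of (x : Fin n → KK p k) (i : Fin n) : Good x (FreeGroup.of i) := by
  refine ⟨XX (x i), XX_tri _, by simp [mu0, uu_val], fun t ht => ?_⟩
  rw [XX_sd _ _ ht, ab_of, toAdd_ofAdd, ell_single]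

theorem good_mul (x : Fin n → KK p k) {a b : FreeGroup (Fin n)} (ha : Good x a)
    (hb : Good x b) : Good x (a * b) := by
  obtain ⟨Y, hY, eY, sY⟩ := ha
  obtain ⟨Z, hZ, eZ, sZ⟩ := hb
  have hYZ : Tri 2 (Y * Z) := hY.mul hZ
  refine ⟨Y + Z + Y * Z, (hY.add hZ).add (hYZ.mono (by omega)), ?_, fun t ht => ?_⟩
  · rw [map_mul, Units.val_mul, eY, eZ]
    noncomm_ring
  · rw [sd_add, sd_add, sY t ht, sZ t ht, sd_of_tri_two hYZ, add_zero, map_mul, toAdd_mul,
      ell_add, add_pow_char_pow]

theorem good_pow' (x : Fin n → KK p k) {a : FreeGroup (Fin n)} (ha : Good x a) (m : ℕ) :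
    Good x (a ^ m) := by
  induction m with
  | zero => simpa using good_one x
  | succ m ih => rw [pow_succ]; exact good_mul x ih ha

theorem good_inv (x : Fin n → KK p k) {a : FreeGroup (Fin n)} (ha : Good x a) :
    Good x a⁻¹ := by
  obtain ⟨m, hm⟩ : ∃ m, m + 1 = p ^ (k + 1) :=
    ⟨p ^ (k + 1) - 1, Nat.sub_add_cancel (pow_pos hp.out.pos _)⟩
  have h1 : mu0 x a ^ (m + 1) = 1 := by
    obtain ⟨Y, hY, eY, _⟩ := ha
    rw [hm]
    apply Units.ext
    rw [Units.val_pow_eq_pow_val, eY, one_add_pow hY]; rfl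
  have h2 : mu0 x a⁻¹ = mu0 x (a ^ m) := by
    rw [map_inv, map_pow, inv_eq_iff_mul_eq_one, ← pow_succ', h1]
  have h3 : ab n p a⁻¹ = ab n p (a ^ m) := by
    rw [map_inv, map_pow, inv_eq_iff_mul_eq_one, ← pow_succ', hm]
    apply Multiplicative.toAdd.injective
    rw [toAdd_pow, toAdd_one]
    funext i
    simp
  obtain ⟨Y, hY, eY, sY⟩ := good_pow' x ha m
  exact ⟨Y, hY, by rw [h2, eY], by rw [h3]; exact sY⟩

theorem good_all (x : Fin n → KK p k) (w : FreeGroup (Fin n)) : Good x w := by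
  induction w using FreeGroup.induction_on with
  | C1 => exact good_one x
  | of i => exact good_of x i
  | inv_of i h => exact good_inv x h
  | mul a b ha hb => exact good_mul x ha hb

/-- the central element -/
noncomputable def c0 (p k : ℕ) [hp : Fact p.Prime] : (MM p k)ˣ :=
  Units.ofPowEqOne (1 + corner (p ^ k) (KK p k) 1) (p ^ (k + 1))
    (one_add_pow (Tri.mono (Nat.one_le_iff_ne_zero.2 (pow_pos hp.out.pos _).ne') (corner_tri _)))
    (pow_pos hp.out.pos _).ne'

theorem c0_val : ((c0 p k : (MM p k)ˣ) : MM p k) = 1 + corner (p ^ k) (KK p k) 1 := rfl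

theorem dpos (p k : ℕ) [hp : Fact p.Prime] : 0 < p ^ k := pow_pos hp.out.pos _

theorem corner_mul {Y : MM p k} (hY : Tri 1 Y) (a : KK p k) :
    corner (p ^ k) (KK p k) a * Y = 0 := ((corner_tri a).mul hY).eq_zero (by omega)

theorem mul_corner {Y : MM p k} (hY : Tri 1 Y) (a : KK p k) :
    Y * corner (p ^ k) (KK p k) a = 0 := (hY.mul (corner_tri a)).eq_zero (by omega)

theorem expand {R : Type*} [Ring R] (A B : R) : (1 + A) * (1 + B) = 1 + (A + B) + A * B := by
  noncomm_ring

theorem c0_pow (s : ℕ) : ((c0 p k ^ s : (MM p k)ˣ) : MM p k) =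
    1 + corner (p ^ k) (KK p k) (s : KK p k) := by
  have htri : Tri 1 (corner (p ^ k) (KK p k) (1 : KK p k)) :=
    Tri.mono (Nat.one_le_iff_ne_zero.2 (dpos p k).ne') (corner_tri _)
  induction s with
  | zero =>
    have : corner (p ^ k) (KK p k) ((0 : ℕ) : KK p k) = 0 := by
      ext i j; simp [corner]
    rw [this]; simp
  | succ s ih =>
    rw [pow_succ, Units.val_mul, ih, c0_val, expand, corner_mul htri, add_zero, corner_add]
    push_cast
    rfl

theorem corner_injective {a b : KK p k} (h : corner (p ^ k) (KK p k) a = corner (p ^ k) (KK p k) b) :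
    a = b := by
  have := congrFun (congrFun h ⟨0, by omega⟩) ⟨p ^ k, by omega⟩
  simpa [corner] using this

theorem mu0_comm (x : Fin n → KK p k) (w : FreeGroup (Fin n)) :
    c0 p k * mu0 x w = mu0 x w * c0 p k := by
  obtain ⟨Y, hY, eY, _⟩ := good_all x w
  apply Units.ext
  rw [Units.val_mul, Units.val_mul, eY, c0_val, expand, expand, corner_mul hY, mul_corner hY]
  abel

theorem mu0_pow (x : Fin n → KK p k) (w : FreeGroup (Fin n))
    (hk : Module.finrank (ZMod p) (KK p k) = p ^ k)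
    (h : ell x (Multiplicative.toAdd (ab n p w)) ≠ 0) :
    ∃ s : ℕ, ¬ p ∣ s ∧ mu0 x w ^ (p ^ k) = c0 p k ^ s := by
  obtain ⟨Y, hY, eY, sY⟩ := good_all x w
  set y := ell x (Multiplicative.toAdd (ab n p w)) with hy
  have hN : ∏ t ∈ range (p ^ k), sd Y t = algebraMap (ZMod p) (KK p k) (Algebra.norm (ZMod p) y) := by
    rw [FiniteField.algebraMap_norm_eq_prod_pow, hk]
    apply Finset.prod_congr rfl
    intro t ht
    rw [sY t (Finset.mem_range.1 ht), Nat.card_zmod]
  refine ⟨(Algebra.norm (ZMod p) y).val, ?_, ?_⟩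
  · intro hd
    have h1 : (Algebra.norm (ZMod p) y).val = 0 :=
      Nat.eq_zero_of_dvd_of_lt hd (ZMod.val_lt _)
    rw [ZMod.val_eq_zero] at h1
    exact h (Algebra.norm_eq_zero_iff.1 h1)
  · apply Units.ext
    rw [Units.val_pow_eq_pow_val, eY, one_add_pow' hY, c0_pow, hN]
    congr 2
    rw [← map_natCast (algebraMap (ZMod p) (KK p k)), ZMod.natCast_zmod_val]

end Concrete

theorem prime_power_case (p k n m : ℕ) (hp : p.Prime) (hn : 2 ≤ n) (hnk : n ≤ p ^ k)
    (hm : p ^ (k + 1) ∣ m) : Infinite (Q n m hn) := by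
  have : Fact p.Prime := ⟨hp⟩
  have hfr : Module.finrank (ZMod p) (KK p k) = p ^ k := GaloisField.finrank p (dpos p k).ne'
  let bs : Module.Basis (Fin (p ^ k)) (ZMod p) (KK p k) := Module.finBasisOfFinrankEq _ _ hfr
  let x : Fin n → KK p k := fun i => bs (Fin.castLE hnk i)
  have hli : LinearIndependent (ZMod p) x :=
    bs.linearIndependent.comp _ (Fin.castLE_injective hnk)
  have hell : ∀ v : Fin n → ZMod p, v ≠ 0 → ell x v ≠ 0 := by
    intro v hv h
    apply hv
    funext i
    exact Fintype.linearIndependent_iff.1 hli v h i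
  let G : Subgroup (MM p k)ˣ := Subgroup.centralizer {c0 p k}
  have hG : ∀ w, mu0 x w ∈ G := by
    intro w
    rw [Subgroup.mem_centralizer_iff]
    intro h hh
    rw [Set.mem_singleton_iff] at hh
    rw [hh]
    exact mu0_comm x w
  have hcG : c0 p k ∈ G := by
    rw [Subgroup.mem_centralizer_iff]
    intro h hh
    rw [Set.mem_singleton_iff] at hh
    rw [hh]
  let μ : FreeGroup (Fin n) →* G := (mu0 x).codRestrict G hG
  let c : G := ⟨c0 p k, hcG⟩
  have hc : ∀ g : G, c * g = g * c := by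
    intro g
    apply Subtype.ext
    exact Subgroup.mem_centralizer_iff.1 g.2 _ (Set.mem_singleton _)
  have hcp : c ^ p = 1 := by
    apply Subtype.ext
    apply Units.ext
    change ((c0 p k ^ p : (MM p k)ˣ) : MM p k) = 1
    rw [c0_pow, CharP.cast_eq_zero]
    have : corner (p ^ k) (KK p k) (0 : KK p k) = 0 := by ext i j; simp [corner]
    rw [this, add_zero]
  have hc1 : c ≠ 1 := by
    intro h
    have h1 : c0 p k = 1 := congrArg Subtype.val h
    have h2 : (1 : MM p k) + corner (p ^ k) (KK p k) 1 = 1 := by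
      rw [← c0_val, h1]; rfl
    have h3 : corner (p ^ k) (KK p k) 1 = corner (p ^ k) (KK p k) 0 := by
      have : corner (p ^ k) (KK p k) (0 : KK p k) = 0 := by ext i j; simp [corner]
      rw [this]
      simpa using h2
    exact one_ne_zero (corner_injective h3)
  refine infinite_Q (G := G) hn (c := c) (p := p) (k := k) μ hc hcp hc1 ?_ hm
  intro g hg
  obtain ⟨s, hs, e⟩ := mu0_pow x g hfr (hell _ (fun h => hg (by
    apply Multiplicative.toAdd.injective
    rw [h]; rfl)))
  refine ⟨s, hs, ?_⟩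
  apply Subtype.ext
  exact e

end H270Q
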