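import Mathlib
import Pool.Agent.Helper270.QE

namespace H270R

open Finset H270Q

variable {G : Type*} [Group G] {K : Type*} [Field K]
variable {n : ℕ} (hn : 2 ≤ n) {c : G} {ω : K} {p : ℕ} (μ : FreeGroup (Fin n) →* G)

theorem rho_pow_zero (D : ℕ) (f : G → K) :
    rho hn c ω p μ (FreeGroup.of ⟨0, by omega⟩ ^ D) f =
      L (μ (FreeGroup.of ⟨0, by omega⟩) ^ D) f +
      ∑ i ∈ range D, L (μ (FreeGroup.of ⟨0, by omega⟩) ^ i) (v0 c ω p) := by
  induction D with
  | zero => simp [L_one]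
  | succ D ih =>
    rw [pow_succ', map_mul, Equiv.Perm.mul_apply, ih, rho_of, if_pos rfl, L_add, ← L_mul,
      ← pow_succ', Finset.sum_range_succ', pow_zero, L_one, add_assoc]
    congr 2
    have : ∀ (s : Finset ℕ) (F : ℕ → (G → K)) (g : G), L g (∑ i ∈ s, F i) = ∑ i ∈ s, L g (F i) := by
      intro s F g
      funext x
      simp [L, Finset.sum_apply]
    rw [this]
    apply Finset.sum_congr rfl
    intro i _
    rw [← L_mul, ← pow_succ']

theorem rho_pow_one (D : ℕ) (f : G → K) :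
    rho hn c ω p μ (FreeGroup.of ⟨1, by omega⟩ ^ D) f =
      L (μ (FreeGroup.of ⟨1, by omega⟩) ^ D) f := by
  induction D with
  | zero => simp [L_one]
  | succ D ih =>
    rw [pow_succ', map_mul, Equiv.Perm.mul_apply, ih, rho_of, if_neg (by simp), add_zero, ← L_mul,
      ← pow_succ']

theorem order_of_image [Fact p.Prime] {k : ℕ} (hcp : c ^ p = 1) (hc1 : c ≠ 1)
    (x : G) (s : ℕ) (hs : ¬ p ∣ s) (hx : x ^ (p ^ k) = c ^ s) : orderOf x = p ^ (k + 1) := by
  have hoc : orderOf c = p := orderOf_eq_prime hcp hc1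
  apply orderOf_eq_prime_pow
  · rw [hx]
    intro h
    apply hs
    rw [← hoc]
    exact orderOf_dvd_of_pow_eq_one h
  · rw [pow_succ, pow_mul, hx, ← pow_mul, mul_comm, pow_mul, hcp, one_pow]

/-- the commutator of `a_1 ^ N` and `a_2 ^ N` -/
def wcomm (N : ℕ) : FreeGroup (Fin n) :=
  FreeGroup.of ⟨0, by omega⟩ ^ N * FreeGroup.of ⟨1, by omega⟩ ^ N *
    (FreeGroup.of ⟨1, by omega⟩ ^ N * FreeGroup.of ⟨0, by omega⟩ ^ N)⁻¹

theorem conj_pow_mem [Fact p.Prime] {k : ℕ} (hc : ∀ g, c * g = g * c) (hcp : c ^ p = 1)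
    (hc1 : c ≠ 1) (hω : IsPrimitiveRoot ω p)
    (H : ∀ g, ab n p g ≠ 1 → ∃ s : ℕ, ¬ p ∣ s ∧ μ g ^ (p ^ k) = c ^ s)
    (j : ℕ) (hmem : MulAut.conj (wcomm hn (p ^ k) ^ j) ∈ Krho hn μ c ω p) : (j : K) = 0 := by
  classical
  have hp : p.Prime := Fact.out
  have hω0 : ω ≠ 0 := hω.ne_zero hp.ne_zero
  set α : FreeGroup (Fin n) := FreeGroup.of ⟨0, by omega⟩ ^ (p ^ k) with hα
  set β : FreeGroup (Fin n) := FreeGroup.of ⟨1, by omega⟩ ^ (p ^ k) with hβ
  obtain ⟨s1, hs1, e1⟩ := H (FreeGroup.of ⟨0, by omega⟩) (ab_of_ne p _)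
  obtain ⟨s2, hs2, e2⟩ := H (FreeGroup.of ⟨1, by omega⟩) (ab_of_ne p _)
  set b : G → K := ∑ i ∈ range (p ^ k), L (μ (FreeGroup.of ⟨0, by omega⟩) ^ i) (v0 c ω p) with hb
  have hbV : InV c ω b := by
    have : ∀ (s : Finset ℕ), InV c ω
        (∑ i ∈ s, L (μ (FreeGroup.of ⟨0, by omega⟩) ^ i) (v0 c ω p)) := by
      intro s
      induction s using Finset.induction_on with
      | empty => simpa using InV.zero c ω
      | insert a s ha ih =>
        rw [Finset.sum_insert ha]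
        exact ((v0_inV hcp hω.pow_eq_one).L hc _).add ih
    exact this _
  set τ1 : K := (ω⁻¹) ^ s1 with hτ1
  set τ2 : K := (ω⁻¹) ^ s2 with hτ2
  have hτ2' : τ2 ≠ 1 := by
    rw [hτ2, inv_pow, Ne, inv_eq_one]
    intro h'
    exact hs2 ((hω.pow_eq_one_iff_dvd s2).1 h')
  have hρα : ∀ f, InV c ω f → rho hn c ω p μ α f = τ1 • f + b := by
    intro f hf
    rw [hα, rho_pow_zero, e1, hf.pow hω0]
  have hρβ : ∀ f, InV c ω f → rho hn c ω p μ β f = τ2 • f := by
    intro f hf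
    rw [hβ, rho_pow_one, e2, hf.pow hω0]
  -- `b ≠ 0`
  have hb0 : b ≠ 0 := by
    intro h0
    have h1 : b 1 = 0 := by rw [h0]; rfl
    have h2 : b 1 = 1 := by
      rw [hb, Finset.sum_apply, Finset.sum_eq_single 0]
      · rw [pow_zero, L_one]
        exact v0_one hp.pos (orderOf_eq_prime hcp hc1)
      · intro i hi hi0
        simp only [L, mul_one]
        apply v0_inv hcp
        intro h
        rw [← pow_mul] at h
        have h3 := orderOf_dvd_of_pow_eq_one h
        rw [order_of_image hcp hc1 _ s1 hs1 e1, pow_succ] at h3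
        have h4 := Nat.dvd_of_mul_dvd_mul_right hp.pos h3
        exact absurd (Nat.le_of_dvd (Nat.pos_of_ne_zero hi0) h4) (by simpa using hi)
      · intro h
        exact absurd (Finset.mem_range.2 (pow_pos hp.pos k)) h
    rw [h1] at h2
    exact zero_ne_one h2
  set T : G → K := (1 - τ2) • b with hT
  have hTV : InV c ω T := hbV.smul _
  have hT0 : T ≠ 0 := smul_ne_zero (sub_ne_zero.2 (Ne.symm hτ2')) hb0
  set w : FreeGroup (Fin n) := α * β * (β * α)⁻¹ with hw
  have hww : wcomm hn (p ^ k) = w := rfl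
  rw [hww] at hmem
  have hρw : ∀ u, InV c ω u → rho hn c ω p μ w u = u + T := by
    intro u hu
    set f := rho hn c ω p μ ((β * α)⁻¹) u with hf
    have hfV : InV c ω f := rho_inV hn μ hc hcp hω.pow_eq_one _ hu
    have hu2 : u = rho hn c ω p μ (β * α) f := by
      rw [hf, ← Equiv.Perm.mul_apply, ← map_mul, mul_inv_cancel, map_one]; rfl
    have h3 : rho hn c ω p μ (β * α) f = τ2 • (τ1 • f + b) := by
      rw [map_mul, Equiv.Perm.mul_apply, hρα f hfV, hρβ _ ((hfV.smul _).add hbV)]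
    have h4 : rho hn c ω p μ w u = τ1 • (τ2 • f) + b := by
      rw [hw, map_mul, Equiv.Perm.mul_apply, ← hf, map_mul, Equiv.Perm.mul_apply, hρβ f hfV,
        hρα _ (hfV.smul _)]
    rw [h4, hu2, h3, hT]
    funext x
    simp only [Pi.add_apply, Pi.smul_apply, smul_eq_mul]
    ring
  have hρwj : ∀ j : ℕ, ∀ u, InV c ω u → rho hn c ω p μ (w ^ j) u = u + (j : K) • T := by
    intro j
    induction j with
    | zero => intro u _; simp
    | succ j ih =>
      intro u hu
      rw [pow_succ', map_mul, Equiv.Perm.mul_apply, ih u hu, hρw _ (hu.add (hTV.smul _))]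
      funext x
      simp only [Pi.add_apply, Pi.smul_apply, smul_eq_mul]
      push_cast
      ring
  have h5 := hmem 1 β 0 (InV.zero c ω)
  have h6 : rho hn c ω p μ ((1 : MulAut (FreeGroup (Fin n))) β) 0 = 0 := by
    rw [MulAut.one_apply, hρβ 0 (InV.zero c ω), smul_zero]
  rw [h6, MulAut.one_apply, MulAut.conj_apply, map_mul, map_mul, Equiv.Perm.mul_apply,
    Equiv.Perm.mul_apply] at h5
  set y := rho hn c ω p μ ((w ^ j)⁻¹) 0 with hy
  have hyV : InV c ω y := rho_inV hn μ hc hcp hω.pow_eq_one _ (InV.zero c ω)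
  have h7 : rho hn c ω p μ (w ^ j) y = 0 := by
    rw [hy, ← Equiv.Perm.mul_apply, ← map_mul, mul_inv_cancel, map_one]; rfl
  rw [hρwj j y hyV] at h7
  rw [hρβ y hyV, hρwj j _ (hyV.smul _)] at h5
  have h8 : y = - ((j : K) • T) := eq_neg_of_add_eq_zero_left h7
  rw [h8] at h5
  have h9 : ((j : K) * (1 - τ2)) • T = 0 := by
    rw [← h5]
    funext x
    simp only [Pi.add_apply, Pi.smul_apply, Pi.neg_apply, smul_eq_mul]
    ring
  rcases smul_eq_zero.1 h9 with h10 | h10
  · rcases mul_eq_zero.1 h10 with h11 | h11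
    · exact h11
    · exact absurd (sub_eq_zero.1 h11).symm hτ2'
  · exact absurd h10 hT0

end H270R
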