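import Mathlib
import Pool.Agent.Helper270.QD
import Pool.Agent.Helper270.QF

namespace H270R

open Finset H270Q

/-- `Γ` has infinitely many pairwise non-isomorphic finite quotients. -/
def HasInfinitelyManyFiniteQuotients (Γ : Type) [Group Γ] : Prop :=
  ∃ (H : ℕ → Type) (_ : ∀ i, Group (H i)),
    (∀ i, Finite (H i)) ∧ (∀ i, ∃ f : Γ →* H i, Function.Surjective f) ∧
    ∀ i j, i ≠ j → IsEmpty (H i ≃* H j)

theorem of_unbounded {Γ : Type} [Group Γ]
    (h : ∀ N : ℕ, ∃ (H : Type) (_ : Group H), Finite H ∧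
      (∃ f : Γ →* H, Function.Surjective f) ∧ N < Nat.card H) :
    HasInfinitelyManyFiniteQuotients Γ := by
  choose H inst hfin hf hcard using h
  let a : ℕ → ℕ := fun i => Nat.rec 0 (fun _ r => Nat.card (H r)) i
  have ha : ∀ i, a (i + 1) = Nat.card (H (a i)) := fun i => rfl
  have hmono : StrictMono (fun i => Nat.card (H (a i))) := by
    apply strictMono_nat_of_lt_succ
    intro i
    rw [← ha i]
    exact hcard (a (i + 1))
  refine ⟨fun i => H (a i), fun i => inst (a i), fun i => hfin _, fun i => hf _, ?_⟩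
  intro i j hij
  constructor
  intro e
  apply hij
  apply hmono.injective
  exact Nat.card_congr e.toEquiv

section
variable {G : Type*} [Group G] {K : Type*} [Field K]
variable {n : ℕ} (hn : 2 ≤ n) (c : G) (ω : K) (p : ℕ) (μ : FreeGroup (Fin n) →* G)

theorem finite_quot [Finite G] [Finite K] :
    Finite (MulAut (FreeGroup (Fin n)) ⧸ Krho hn μ c ω p) := by
  classical
  let P := Equiv.Perm (G → K)
  let Ψ : MulAut (FreeGroup (Fin n)) → ((Fin n → P) → (Fin n → P)) :=
    fun α v i => FreeGroup.lift v (α (FreeGroup.of i))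
  have key : ∀ α α' : MulAut (FreeGroup (Fin n)), Ψ α = Ψ α' →
      α⁻¹ * α' ∈ Krho hn μ c ω p := by
    intro α α' h β x f _
    have h1 : ∀ g : FreeGroup (Fin n) →* P, ∀ y, g (α y) = g (α' y) := by
      intro g y
      have h2 : g.comp α.toMonoidHom = g.comp α'.toMonoidHom := by
        apply FreeGroup.ext_hom
        intro i
        have h3 := congrFun (congrFun h (fun j => g (FreeGroup.of j))) i
        have h4 : FreeGroup.lift (fun j => g (FreeGroup.of j)) = g := by
          apply FreeGroup.ext_hom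
          intro i
          simp
        simp only [Ψ, h4] at h3
        exact h3
      exact DFunLike.congr_fun h2 y
    have h5 := h1 ((rho hn c ω p μ).comp (β * α⁻¹).toMonoidHom) x
    have h6 : rho hn c ω p μ ((β * α⁻¹) (α x)) = rho hn c ω p μ ((β * α⁻¹) (α' x)) := h5
    simp only [MulAut.mul_apply, MulAut.inv_apply_self] at h6
    simp only [MulAut.mul_apply]
    rw [← h6]
  apply Finite.of_injective (fun q : MulAut (FreeGroup (Fin n)) ⧸ Krho hn μ c ω p => Ψ q.out)
  intro q q' h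
  have h1 := key _ _ h
  rw [← QuotientGroup.eq] at h1
  simpa using h1

end

section
variable {G : Type} [Group G]
variable {n : ℕ} (hn : 2 ≤ n) {c : G} {p : ℕ} (μ : FreeGroup (Fin n) →* G)

theorem exists_root (p q : ℕ) [Fact p.Prime] [Fact q.Prime] (h : q ≡ 1 [MOD p]) :
    ∃ ω : ZMod q, IsPrimitiveRoot ω p := by
  have hp : p.Prime := Fact.out
  have hq : q.Prime := Fact.out
  have hd : p ∣ q - 1 := (Nat.modEq_iff_dvd' hq.one_lt.le).1 h.symm
  obtain ⟨g, hg⟩ := IsCyclic.exists_ofOrder_eq_natCard (α := (ZMod q)ˣ)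
  rw [Nat.card_eq_fintype_card, ZMod.card_units] at hg
  obtain ⟨t, ht⟩ := hd
  have hq1 : 0 < q - 1 := Nat.sub_pos_of_lt hq.one_lt
  have ht0 : 0 < t := by
    rcases Nat.eq_zero_or_pos t with h0 | h0
    · rw [h0, mul_zero] at ht; omega
    · exact h0
  refine ⟨((g ^ t : (ZMod q)ˣ) : ZMod q), ?_⟩
  have ho : orderOf (g ^ t) = p := by
    rw [orderOf_pow_of_dvd ht0.ne' (by rw [hg, ht]; exact dvd_mul_left t p), hg, ht,
      Nat.mul_div_cancel _ ht0]
  have h2 := IsPrimitiveRoot.orderOf (g ^ t)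
  rw [ho] at h2
  exact IsPrimitiveRoot.coe_units_iff.2 h2

theorem many_of_data [Finite G] [Fact p.Prime] {k m : ℕ} (hc : ∀ g, c * g = g * c)
    (hcp : c ^ p = 1) (hc1 : c ≠ 1)
    (H : ∀ g, ab n p g ≠ 1 → ∃ s : ℕ, ¬ p ∣ s ∧ μ g ^ (p ^ k) = c ^ s)
    (hm : p ^ (k + 1) ∣ m) : HasInfinitelyManyFiniteQuotients (Q n m hn) := by
  have hp : p.Prime := Fact.out
  apply of_unbounded
  intro N
  obtain ⟨q, hq, hNq, hmod⟩ := Nat.exists_prime_gt_modEq_one N hp.ne_zero
  haveI : Fact q.Prime := ⟨hq⟩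
  obtain ⟨ω, hω⟩ := exists_root p q hmod
  haveI := Krho_normal hn c ω p μ
  haveI : Finite (MulAut (FreeGroup (Fin n)) ⧸ Krho hn μ c ω p) := finite_quot hn c ω p μ
  have hle : Subgroup.normalClosure {(nielsen n hn) ^ m} ≤ Krho hn μ c ω p := by
    apply Subgroup.normalClosure_le_normal
    intro y hy
    rw [Set.mem_singleton_iff] at hy
    rw [hy]
    exact nielsen_mem hn μ hc hcp hω H hm
  refine ⟨MulAut (FreeGroup (Fin n)) ⧸ Krho hn μ c ω p, inferInstance, inferInstance,
    ⟨QuotientGroup.lift _ (QuotientGroup.mk' (Krho hn μ c ω p)) ?_, ?_⟩, ?_⟩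
  · intro x hx
    exact (QuotientGroup.eq_one_iff x).2 (hle hx)
  · intro y
    obtain ⟨x, rfl⟩ := QuotientGroup.mk'_surjective (Krho hn μ c ω p) y
    exact ⟨QuotientGroup.mk x, rfl⟩
  · let x : MulAut (FreeGroup (Fin n)) ⧸ Krho hn μ c ω p :=
      QuotientGroup.mk (MulAut.conj (wcomm hn (p ^ k)))
    have hx0 : 0 < orderOf x := orderOf_pos x
    have hx1 : x ^ orderOf x = 1 := pow_orderOf_eq_one x
    have hmem : MulAut.conj (wcomm hn (p ^ k) ^ orderOf x) ∈ Krho hn μ c ω p := by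
      rw [map_pow, ← QuotientGroup.eq_one_iff]
      exact hx1
    have h0 := conj_pow_mem hn μ hc hcp hc1 hω H _ hmem
    rw [ZMod.natCast_eq_zero_iff] at h0
    have h1 := Nat.le_of_dvd hx0 h0
    have h2 : orderOf x ≤ Nat.card (MulAut (FreeGroup (Fin n)) ⧸ Krho hn μ c ω p) :=
      Nat.le_of_dvd Nat.card_pos (orderOf_dvd_natCard x)
    omega

end

end H270R
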