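import Mathlib
import Pool.Agent.Helper270.GauC
set_option autoImplicit false
set_option linter.unusedSimpArgs false

/-! The free group generated by the two parabolic matrices of level two, ping-pong,
and an affine representation killing the `k`-th powers of all parabolics. -/

namespace H270R

abbrev W := ℤ × ℤ
abbrev FB := FreeGroup Bool
abbrev GW := W ≃ₗ[ℤ] W

def pA : GW where
  toFun v := (v.1 + 2 * v.2, v.2)
  invFun v := (v.1 - 2 * v.2, v.2)
  left_inv v := by ext <;> simp
  right_inv v := by ext <;> simp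
  map_add' v w := by ext <;> simp; ring
  map_smul' c v := by ext <;> simp; ring

def pB : GW where
  toFun v := (v.1, v.2 + 2 * v.1)
  invFun v := (v.1, v.2 - 2 * v.1)
  left_inv v := by ext <;> simp
  right_inv v := by ext <;> simp
  map_add' v w := by ext <;> simp; ring
  map_smul' c v := by ext <;> simp; ring

theorem pA_apply (v : W) : pA v = (v.1 + 2 * v.2, v.2) := rfl
theorem pB_apply (v : W) : pB v = (v.1, v.2 + 2 * v.1) := rfl
theorem pA_inv (v : W) : (pA⁻¹ : GW) v = (v.1 - 2 * v.2, v.2) := rfl
theorem pB_inv (v : W) : (pB⁻¹ : GW) v = (v.1, v.2 - 2 * v.1) := rfl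

def gen (b : Bool) : GW := if b then pA else pB

def phi : FB →* GW := FreeGroup.lift gen

def XX (b : Bool) : Set GW := {g | if b then (g (1, 0)).2 * (g (1, 0)).2 ≤ (g (1, 0)).1 * (g (1, 0)).2
  else 0 ≤ (g (1, 0)).1 * (g (1, 0)).2 ∧ (g (1, 0)).1 * (g (1, 0)).2 < (g (1, 0)).2 * (g (1, 0)).2}
def YY (b : Bool) : Set GW := {g | if b then (g (1, 0)).1 * (g (1, 0)).2 < -((g (1, 0)).2 * (g (1, 0)).2)
  else -((g (1, 0)).2 * (g (1, 0)).2) ≤ (g (1, 0)).1 * (g (1, 0)).2 ∧ (g (1, 0)).1 * (g (1, 0)).2 < 0}

theorem ne_zero' (g : GW) : 0 < (g (1, 0)).1 * (g (1, 0)).1 + (g (1, 0)).2 * (g (1, 0)).2 := by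
  by_contra hc
  push Not at hc
  have h1 : (g (1, 0)).1 = 0 := by nlinarith [mul_self_nonneg (g (1, 0)).1, mul_self_nonneg (g (1, 0)).2]
  have h2 : (g (1, 0)).2 = 0 := by nlinarith [mul_self_nonneg (g (1, 0)).1, mul_self_nonneg (g (1, 0)).2]
  have h3 : g (1, 0) = 0 := Prod.ext h1 h2
  have h4 : ((1, 0) : W) = 0 := by
    apply g.injective
    rw [h3, map_zero]
  simp at h4

theorem arA (x y : ℤ) (_h : 0 < x * x + y * y) (hc : ¬ (x * y < -(y * y))) :
    y * y ≤ (x + 2 * y) * y := by nlinarith

theorem arA' (x y : ℤ) (_h : 0 < x * x + y * y) (hc : ¬ (y * y ≤ x * y)) :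
    (x - 2 * y) * y < -(y * y) := by nlinarith

theorem arB (x y : ℤ) (h : 0 < x * x + y * y) (hc : ¬ (-(y * y) ≤ x * y ∧ x * y < 0)) :
    0 ≤ x * (y + 2 * x) ∧ x * (y + 2 * x) < (y + 2 * x) * (y + 2 * x) := by
  by_cases h1 : 0 ≤ x * y
  · refine ⟨by nlinarith [mul_self_nonneg x], ?_⟩
    by_cases hx : x = 0
    · subst hx; nlinarith
    · have := mul_self_pos.2 hx
      nlinarith [mul_self_nonneg y]
  · push Not at h1
    have h2 : x * y < -(y * y) := by
      by_contra h3
      exact hc ⟨by linarith, h1⟩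
    have hx : x ≠ 0 := by rintro rfl; simp at h1
    have hy : y ≠ 0 := by rintro rfl; simp at h1
    -- |x| > |y|, opposite signs
    rcases lt_or_gt_of_ne hy with hy' | hy'
    · have hx' : -y < x := by nlinarith
      constructor <;> nlinarith
    · have hx' : x < -y := by nlinarith
      constructor <;> nlinarith

theorem arB' (x y : ℤ) (h : 0 < x * x + y * y) (hc : ¬ (0 ≤ x * y ∧ x * y < y * y)) :
    -((y - 2 * x) * (y - 2 * x)) ≤ x * (y - 2 * x) ∧ x * (y - 2 * x) < 0 := by
  by_cases h1 : x * y < 0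
  · have hx : x ≠ 0 := by rintro rfl; simp at h1
    have := mul_self_pos.2 hx
    constructor <;> nlinarith [mul_self_nonneg y]
  · push Not at h1
    have h2 : y * y ≤ x * y := by
      by_contra h3
      exact hc ⟨h1, by linarith⟩
    by_cases hy : y = 0
    · subst hy
      have hx : x ≠ 0 := by rintro rfl; simp at h
      have := mul_self_pos.2 hx
      constructor <;> nlinarith
    · rcases lt_or_gt_of_ne hy with hy' | hy'
      · have hx' : x ≤ y := by nlinarith
        constructor <;> nlinarith
      · have hx' : y ≤ x := by nlinarith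
        constructor <;> nlinarith

theorem phi_injective : Function.Injective phi := by
  unfold phi
  apply FreeGroup.injective_lift_of_ping_pong (α := GW) gen XX YY
  · intro b
    cases b
    · refine ⟨pB, ?_⟩
      simp [XX, pB_apply]
    · refine ⟨1, ?_⟩
      simp [XX]
  · intro i j hij
    show Disjoint (XX i) (XX j)
    rw [Set.disjoint_left]
    intro g
    cases i <;> cases j <;> simp_all [XX]
  · intro i j hij
    show Disjoint (YY i) (YY j)
    rw [Set.disjoint_left]
    intro g
    cases i <;> cases j <;> simp_all [YY]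
  · intro i j
    rw [Set.disjoint_left]
    intro g
    have := mul_self_nonneg (g (1, 0)).2
    cases i <;> cases j <;> simp only [XX, YY, Set.mem_ofPred_eq, Bool.false_eq_true, if_false, if_true] <;>
      intro h1 h2 <;> omega
  · intro i
    rintro _ ⟨g, hg, rfl⟩
    have hz := ne_zero' g
    cases i
    · exact arB _ _ hz hg
    · exact arA _ _ hz hg
  · intro i
    rintro _ ⟨g, hg, rfl⟩
    have hz := ne_zero' g
    cases i
    · exact arB' _ _ hz hg
    · exact arA' _ _ hz hg

theorem phi_true : phi (FreeGroup.of true) = pA := by simp [phi, gen]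
theorem phi_false : phi (FreeGroup.of false) = pB := by simp [phi, gen]

theorem phi_strong {w : FB} {ε : ℤ} (h : ∀ v : W, phi w v = ε • v) (hε : ε * ε = 1) : w = 1 := by
  have h1 : phi (w ^ 2) = phi 1 := by
    rw [map_one, pow_two, map_mul]
    ext1 v
    show phi w (phi w v) = v
    rw [h v, map_smul, h v, smul_smul, hε, one_smul]
  have h2 := phi_injective h1
  exact (pow_eq_one_iff_left (by norm_num)).1 h2

end H270R
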