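import Mathlib
import Pool.Agent.Helper270.RA
set_option autoImplicit false
set_option linter.unusedSimpArgs false

/-! The affine representation, and all parabolics. -/

namespace H270R
open Pool.Agent.H270.Gau (Af)

/-! ### affine maps over `ℂ` -/

theorem Af_pow_u {R : Type} [CommRing R] (a : Af R) (k : ℕ) : (a ^ k).u = a.u ^ k := by
  induction k with
  | zero => simp
  | succ k ih => rw [pow_succ, pow_succ, Af.mul_u, ih]

theorem Af_pow_one {a : Af ℂ} {k : ℕ} (hk : a.u ^ k = 1) (h1 : a.u ≠ 1) : a ^ k = 1 := by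
  have h2 : (1 : ℂ) - (a.u : ℂ) ≠ 0 := by
    intro h
    apply h1
    apply Units.ext
    rw [Units.val_one]
    linear_combination -h
  obtain ⟨p, h3⟩ : ∃ p : Fin 3 → ℂ, a.v = p - (a.u : ℂ) • p := by
    refine ⟨((1 : ℂ) - (a.u : ℂ))⁻¹ • a.v, ?_⟩
    have : ∀ p : Fin 3 → ℂ, p - (a.u : ℂ) • p = ((1 : ℂ) - (a.u : ℂ)) • p := by
      intro p; rw [sub_smul, one_smul]
    rw [this, smul_smul, mul_inv_cancel₀ h2, one_smul]
  have h4 : ∀ j : ℕ, (a ^ j).v = p - ((a.u ^ j : ℂˣ) : ℂ) • p := by
    intro j
    induction j with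
    | zero => simp
    | succ j ih =>
      rw [pow_succ, Af.mul_v, ih, Af_pow_u, pow_succ, Units.val_mul, h3, smul_sub, mul_smul]
      exact sub_add_sub_cancel p _ _
  apply Af.ext
  · rw [Af_pow_u, hk]; rfl
  · rw [h4, hk]; simp

section
variable (ζ : ℂˣ)

def aA : Af ℂ := ⟨ζ, 0⟩
def aB : Af ℂ := ⟨ζ ^ 2, Pi.single 0 1⟩

def psi : FB →* Af ℂ := FreeGroup.lift (fun b => if b then aA ζ else aB ζ)

theorem psi_true : psi ζ (FreeGroup.of true) = aA ζ := by simp [psi]
theorem psi_false : psi ζ (FreeGroup.of false) = aB ζ := by simp [psi]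

/-- the commutator -/
def cc : FB := FreeGroup.of true * FreeGroup.of false * (FreeGroup.of true)⁻¹ * (FreeGroup.of false)⁻¹

theorem psi_cc : psi ζ cc = ⟨1, Pi.single 0 ((ζ : ℂ) - 1)⟩ := by
  rw [cc, map_mul, map_mul, map_mul, map_inv, map_inv, psi_true, psi_false]
  apply Af.ext
  · simp [aA, aB]
  · simp only [Af.mul_v, Af.mul_u, Af.inv_v, Af.inv_u, aA, aB, smul_zero, neg_zero, add_zero, zero_add]
    funext i
    by_cases h : i = 0
    · subst h
      simp
      ring
    · simp [h]

theorem psi_cc_pow (k : ℕ) : psi ζ (cc ^ k) = ⟨1, Pi.single 0 (k * ((ζ : ℂ) - 1))⟩ := by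
  induction k with
  | zero => apply Af.ext <;> simp
  | succ k ih =>
    rw [pow_succ, map_mul, ih, psi_cc]
    apply Af.ext
    · simp
    · rw [Af.mul_v]
      simp only [Units.val_one, one_smul]
      rw [← Pi.single_add]
      congr 1
      push_cast; ring

theorem psi_cc_ne (hζ : ζ ≠ 1) {k : ℕ} (hk : 0 < k) : psi ζ (cc ^ k) ≠ 1 := by
  intro h
  rw [psi_cc_pow] at h
  have h1 := congrFun (congrArg Af.v h) 0
  simp only [Pi.single_eq_same, Af.one_v, Pi.zero_apply, mul_eq_zero, Nat.cast_eq_zero] at h1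
  rcases h1 with h1 | h1
  · omega
  · apply hζ
    apply Units.ext
    rw [Units.val_one]
    linear_combination h1

/-! ### parabolics -/

def dt (v w : W) : ℤ := v.1 * w.2 - v.2 * w.1

variable (k : ℕ)

/-- the square of the transvection along `v` is `±φ(u)` with `ψ(u)^k = 1` -/
def Good (v : W) : Prop := ∃ u : FB, (psi ζ u) ^ k = 1 ∧ ∃ ε : ℤ, ε * ε = 1 ∧
  ∀ x : W, x + (2 * dt v x) • v = ε • phi u x

variable {ζ k}

theorem Good.move {v : W} (h : Good ζ k v) (w : FB) (hdt : ∀ x, dt (phi w v) (phi w x) = dt v x) :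
    Good ζ k (phi w v) := by
  obtain ⟨u, h1, ε, h2, h3⟩ := h
  refine ⟨w * u * w⁻¹, ?_, ε, h2, ?_⟩
  · rw [map_mul, map_mul, map_inv, conj_pow, h1]
    simp
  · intro x
    have h4 : phi w (phi w⁻¹ x) = x := by
      rw [← LinearEquiv.mul_apply, ← map_mul, mul_inv_cancel, map_one]; rfl
    have h5 := h3 (phi w⁻¹ x)
    have h6 := congrArg (phi w) h5
    rw [map_add, map_smul, map_smul, h4, ← hdt, h4] at h6
    rw [h6, map_mul, map_mul]
    rfl

theorem dt_pA (v x : W) : dt (pA v) (pA x) = dt v x := by simp [dt, pA_apply]; ring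
theorem dt_pB (v x : W) : dt (pB v) (pB x) = dt v x := by simp [dt, pB_apply]; ring
theorem dt_pA' (v x : W) : dt ((pA⁻¹ : GW) v) ((pA⁻¹ : GW) x) = dt v x := by
  rw [pA_inv, pA_inv]; simp [dt]; ring
theorem dt_pB' (v x : W) : dt ((pB⁻¹ : GW) v) ((pB⁻¹ : GW) x) = dt v x := by
  rw [pB_inv, pB_inv]; simp [dt]; ring

theorem Good.mA {v : W} (h : Good ζ k v) : Good ζ k (v.1 + 2 * v.2, v.2) := by
  have := h.move (FreeGroup.of true) (by intro x; rw [phi_true]; exact dt_pA v x)
  rwa [phi_true] at this

theorem Good.mB {v : W} (h : Good ζ k v) : Good ζ k (v.1, v.2 + 2 * v.1) := by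
  have := h.move (FreeGroup.of false) (by intro x; rw [phi_false]; exact dt_pB v x)
  rwa [phi_false] at this

theorem Good.mA' {v : W} (h : Good ζ k v) : Good ζ k (v.1 - 2 * v.2, v.2) := by
  have := h.move (FreeGroup.of true)⁻¹ (by intro x; rw [map_inv, phi_true]; exact dt_pA' v x)
  rw [map_inv, phi_true] at this
  exact this

theorem Good.mB' {v : W} (h : Good ζ k v) : Good ζ k (v.1, v.2 - 2 * v.1) := by
  have := h.move (FreeGroup.of false)⁻¹ (by intro x; rw [map_inv, phi_false]; exact dt_pB' v x)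
  rw [map_inv, phi_false] at this
  exact this

theorem Good.neg {v : W} (h : Good ζ k v) : Good ζ k (-v) := by
  obtain ⟨u, h1, ε, h2, h3⟩ := h
  refine ⟨u, h1, ε, h2, ?_⟩
  intro x
  rw [← h3 x]
  congr 1
  ext <;> simp [dt] <;> ring

theorem desc_pos {x y : ℤ} (hx : x ≠ 0) (h : x.natAbs < y.natAbs) (hs : 0 < x * y) :
    (y - 2 * x).natAbs < y.natAbs := by
  rcases lt_or_gt_of_ne hx with h1 | h1
  · have hy : y < 0 := by
      by_contra hc
      push Not at hc
      nlinarith
    omega
  · have hy : 0 < y := by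
      by_contra hc
      push Not at hc
      nlinarith
    omega

theorem desc_neg {x y : ℤ} (hx : x ≠ 0) (h : x.natAbs < y.natAbs) (hs : x * y < 0) :
    (y + 2 * x).natAbs < y.natAbs := by
  have := desc_pos (x := -x) (y := y) (by omega) (by rw [Int.natAbs_neg]; exact h) (by nlinarith)
  have e : y - 2 * -x = y + 2 * x := by ring
  rwa [e] at this

section base
variable (hk : ζ ^ k = 1) (hz1 : ζ ≠ 1) (hz2 : ζ ^ 2 ≠ 1)
include hk hz1

theorem good_10 : Good ζ k (1, 0) := by
  refine ⟨FreeGroup.of true, ?_, 1, by norm_num, ?_⟩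
  · rw [psi_true]
    exact Af_pow_one (by simpa [aA] using hk) (by simpa [aA] using hz1)
  · intro x
    rw [phi_true, pA_apply]
    ext <;> simp [dt]

omit hz1 in
include hz2 in
theorem good_01 : Good ζ k (0, 1) := by
  refine ⟨(FreeGroup.of false)⁻¹, ?_, 1, by norm_num, ?_⟩
  · rw [map_inv, psi_false, inv_pow, inv_eq_one]
    apply Af_pow_one
    · show (ζ ^ 2) ^ k = 1
      rw [← pow_mul, mul_comm, pow_mul, hk, one_pow]
    · exact hz2
  · intro x
    rw [map_inv, phi_false, pB_inv]
    ext <;> simp [dt]; ring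

theorem good_11 : Good ζ k (1, 1) := by
  refine ⟨FreeGroup.of false * (FreeGroup.of true)⁻¹, ?_, -1, by norm_num, ?_⟩
  · rw [map_mul, map_inv, psi_false, psi_true]
    have e : (aB ζ * (aA ζ)⁻¹).u = ζ := by
      simp [aA, aB, pow_two]
    apply Af_pow_one
    · rw [e, hk]
    · rw [e]; exact hz1
  · intro x
    rw [map_mul, map_inv, phi_false, phi_true]
    show _ = -1 • pB ((pA⁻¹ : GW) x)
    rw [pA_inv, pB_apply]
    ext <;> simp [dt] <;> ring

include hz2

theorem good_all (n : ℕ) : ∀ v : W, v.1.natAbs + v.2.natAbs ≤ n → Int.gcd v.1 v.2 = 1 → Good ζ k v := by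
  induction n with
  | zero =>
    intro v hv hg
    have h1 : v.1 = 0 := by omega
    have h2 : v.2 = 0 := by omega
    rw [h1, h2] at hg
    simp at hg
  | succ n ih =>
    rintro ⟨x, y⟩ hv hg
    simp only at hv hg
    by_cases hy : y = 0
    · subst hy
      have hx : x.natAbs = 1 := by simpa using hg
      rcases Int.natAbs_eq x with h | h
      · rw [hx] at h; rw [h]; exact good_10 hk hz1
      · rw [hx] at h; rw [h]
        have := (good_10 (ζ := ζ) (k := k) hk hz1).neg
        simpa using this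
    by_cases hx : x = 0
    · subst hx
      have hy' : y.natAbs = 1 := by simpa using hg
      rcases Int.natAbs_eq y with h | h
      · rw [hy'] at h; rw [h]; exact good_01 hk hz2
      · rw [hy'] at h; rw [h]
        have := (good_01 (ζ := ζ) (k := k) hk hz2).neg
        simpa using this
    rcases lt_trichotomy x.natAbs y.natAbs with h | h | h
    · -- |x| < |y|
      rcases lt_or_ge 0 (x * y) with hs | hs
      · have hg' : Int.gcd x (y - 2 * x) = 1 := by
          rw [Int.gcd_sub_mul_right_right]; exact hg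
        have hlt : (y - 2 * x).natAbs < y.natAbs := desc_pos hx h hs
        have := (ih (x, y - 2 * x) (by simp only; omega) hg').mB
        simpa using this
      · have hg' : Int.gcd x (y + 2 * x) = 1 := by
          rw [Int.gcd_add_mul_right_right]; exact hg
        have hlt : (y + 2 * x).natAbs < y.natAbs := desc_neg hx h (lt_of_le_of_ne hs (mul_ne_zero hx hy))
        have := (ih (x, y + 2 * x) (by simp only; omega) hg').mB'
        simpa using this
    · -- |x| = |y| 
      have hx1 : x.natAbs = 1 := by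
        have : Int.gcd x y = x.natAbs := by
          rw [Int.gcd, ← h, Nat.gcd_self]
        omega
      have hy1 : y.natAbs = 1 := by omega
      have hx2 : x = 1 ∨ x = -1 := by omega
      have hy2 : y = 1 ∨ y = -1 := by omega
      have g11 := good_11 (ζ := ζ) (k := k) hk hz1
      have gm : Good ζ k (-1, 1) := by simpa using g11.mA'
      rcases hx2 with rfl | rfl <;> rcases hy2 with rfl | rfl
      · exact g11
      · simpa using gm.neg
      · exact gm
      · simpa using g11.neg
    · rcases lt_or_ge 0 (x * y) with hs | hs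
      · have hg' : Int.gcd (x - 2 * y) y = 1 := by
          rw [Int.gcd_sub_mul_right_left]; exact hg
        have hlt : (x - 2 * y).natAbs < x.natAbs := desc_pos hy h (by rw [mul_comm]; exact hs)
        have := (ih (x - 2 * y, y) (by simp only; omega) hg').mA
        simpa using this
      · have hg' : Int.gcd (x + 2 * y) y = 1 := by
          rw [Int.gcd_add_mul_right_left]; exact hg
        have hlt : (x + 2 * y).natAbs < x.natAbs := desc_neg hy h (by rw [mul_comm]; exact lt_of_le_of_ne hs (mul_ne_zero hx hy))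
        have := (ih (x + 2 * y, y) (by simp only; omega) hg').mA'
        simpa using this

end base

end

end H270R
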