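import Mathlib
import Pool.Agent.Helper270.RB
import Pool.Agent.Helper270.QA
set_option autoImplicit false
set_option linter.unusedSimpArgs false

/-! The action of the character preserving automorphisms of `F_3` on the twisted homology
of the index two subgroup, and the normal closure of an even power of the Nielsen move. -/

namespace H270R
open Pool.Agent.H270.Gau (Af LamU LamU_of sub3 sub3_single Fr xx)

theorem fundG {R : Type} [CommRing R] (u0 : Fin 3 → Rˣ) (a : Fr →* Fr) (g : Fr) :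
    LamU u0 (a g) = Af.lin (sub3 (fun j => (LamU u0 (a (xx j))).v))
      (LamU (fun j => (LamU u0 (a (xx j))).u) g) := by
  have h : (LamU u0).comp a = (Af.lin (sub3 (fun j => (LamU u0 (a (xx j))).v))).comp
      (LamU (fun j => (LamU u0 (a (xx j))).u)) := by
    apply FreeGroup.ext_hom
    intro j
    have h1 : LamU (fun j => (LamU u0 (a (xx j))).u) (FreeGroup.of j)
        = ⟨(LamU u0 (a (xx j))).u, Pi.single j 1⟩ := LamU_of _ j
    rw [MonoidHom.comp_apply, MonoidHom.comp_apply, h1]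
    apply Af.ext
    · rfl
    · show _ = sub3 (fun j => (LamU u0 (a (xx j))).v) (Pi.single j 1)
      rw [sub3_single]; rfl
  exact DFunLike.congr_fun h g

def u2 : Fin 3 → ℤˣ := ![1, 1, -1]

def LamZ : Fr →* Af ℤ := LamU u2

def th (g : Fr) : ℤˣ := (LamZ g).u
def L (g : Fr) : Fin 3 → ℤ := (LamZ g).v
def J (g : Fr) : W := (L g 0, L g 1)

theorem th_mul (g h : Fr) : th (g * h) = th g * th h := by simp [th]
theorem L_mul (g h : Fr) : L (g * h) = L g + (th g : ℤ) • L h := by simp [L, th]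
theorem th_x0 : th (xx 0) = 1 := by simp [th, LamZ, LamU_of, u2]
theorem th_x1 : th (xx 1) = 1 := by simp [th, LamZ, LamU_of, u2]
theorem L_x (j : Fin 3) : L (xx j) = Pi.single j 1 := by simp [L, LamZ, LamU_of]
theorem J_x0 : J (xx 0) = (1, 0) := by simp [J, L_x]
theorem J_x1 : J (xx 1) = (0, 1) := by simp [J, L_x]

theorem L_sub (a : Fr →* Fr) (g : Fr) :
    L (a g) = sub3 (fun j => L (a (xx j))) (LamU (fun j => th (a (xx j))) g).v := by
  show (LamU u2 (a g)).v = _
  rw [fundG]; rfl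

def Pres (a : Fr →* Fr) : Prop := ∀ g, th (a g) = th g

theorem Pres_of {a : Fr →* Fr} (h : ∀ j, th (a (xx j)) = th (xx j)) : Pres a := by
  intro g
  induction g using FreeGroup.induction_on with
  | C1 => simp
  | of j => exact h j
  | inv_of j ih =>
    have e1 : ∀ g : Fr, th g⁻¹ = (th g)⁻¹ := fun g => by simp [th]
    rw [map_inv, e1, e1, ih]
  | mul x y hx hy => rw [map_mul, th_mul, th_mul, hx, hy]

theorem Pres.fundL {a : Fr →* Fr} (h : Pres a) (g : Fr) :
    L (a g) = L g 0 • L (a (xx 0)) + L g 1 • L (a (xx 1)) + L g 2 • L (a (xx 2)) := by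
  have h1 : (fun j => th (a (xx j))) = u2 := by
    funext j
    rw [h (xx j)]
    simp [th, LamZ, LamU_of]
  rw [L_sub, h1]
  rfl

theorem kap (g : Fr) : L g 2 * (-2 : ℤ) = (th g : ℤ) - 1 := by
  induction g using FreeGroup.induction_on with
  | C1 => simp [L, th]
  | of j =>
      have h1 : L (FreeGroup.of j) = Pi.single j 1 := L_x j
      rw [h1]
      have h2 : th (FreeGroup.of j) = u2 j := by
        have : LamU u2 (FreeGroup.of j) = ⟨u2 j, Pi.single j 1⟩ := LamU_of u2 j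
        simp [th, LamZ, this]
      rw [h2]
      fin_cases j <;> simp [u2]
  | inv_of j ih =>
      have e : L (FreeGroup.of j)⁻¹ 2 = -(((th (FreeGroup.of j))⁻¹ : ℤˣ) * L (FreeGroup.of j) 2) := by
        simp [L, th]
      have e1 : th (FreeGroup.of j)⁻¹ = (th (FreeGroup.of j))⁻¹ := by simp [th]
      rw [e, e1]
      have h3 : (((th (FreeGroup.of j))⁻¹ : ℤˣ) : ℤ) * ((th (FreeGroup.of j) : ℤˣ) : ℤ) = 1 := by
        rw [← Units.val_mul]; simp
      linear_combination (-(((th (FreeGroup.of j))⁻¹ : ℤˣ) : ℤ)) * ih - h3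
  | mul x y hx hy =>
      rw [L_mul, th_mul]
      simp only [Pi.add_apply, Pi.smul_apply, smul_eq_mul, Units.val_mul]
      linear_combination hx + (th x : ℤ) * hy

theorem L2_zero {g : Fr} (h : th g = 1) : L g 2 = 0 := by
  have := kap g
  rw [h, Units.val_one] at this
  omega

def PV (a : Fr →* Fr) (v : W) : W := v.1 • J (a (xx 0)) + v.2 • J (a (xx 1))

theorem J_PV {a : Fr →* Fr} (h : Pres a) {g : Fr} (hg : th g = 1) : J (a g) = PV a (J g) := by
  have h1 := h.fundL g
  rw [L2_zero hg, zero_smul, add_zero] at h1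
  unfold J PV
  rw [h1]
  ext1 <;> simp [J]

theorem PV_comp {a b : Fr →* Fr} (ha : Pres a) (hb : Pres b) (v : W) :
    PV (a.comp b) v = PV a (PV b v) := by
  have k0 : J (a (b (xx 0))) = PV a (J (b (xx 0))) := J_PV ha (by rw [hb, th_x0])
  have k1 : J (a (b (xx 1))) = PV a (J (b (xx 1))) := J_PV ha (by rw [hb, th_x1])
  show v.1 • J (a (b (xx 0))) + v.2 • J (a (b (xx 1))) = _
  rw [k0, k1]
  simp only [PV]
  ext <;> simp <;> ring

theorem PV_id (v : W) : PV (MonoidHom.id Fr) v = v := by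
  simp [PV, J_x0, J_x1]

theorem Pres_comp {a b : Fr →* Fr} (ha : Pres a) (hb : Pres b) : Pres (a.comp b) := by
  intro g
  show th (a (b g)) = th g
  rw [ha, hb]

theorem Pres_inv {σ : MulAut Fr} (h : Pres (σ : Fr →* Fr)) : Pres ((σ⁻¹ : MulAut Fr) : Fr →* Fr) := by
  intro g
  have h1 := h ((σ⁻¹ : MulAut Fr) g)
  have h2 : (σ : Fr →* Fr) ((σ⁻¹ : MulAut Fr) g) = g := MulAut.apply_inv_self _ _ _
  rw [h2] at h1
  exact h1.symm

section
variable (ζ : ℂˣ)

def SS (f : W → W) : Prop := ∃ u : FB, psi ζ u = 1 ∧ ∃ ε : ℤ, ε * ε = 1 ∧ ∀ x, f x = ε • phi u x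

variable {ζ}

theorem SS.comp {f g : W → W} (hf : SS ζ f) (hg : SS ζ g) : SS ζ (fun x => f (g x)) := by
  obtain ⟨u, h1, ε, h2, h3⟩ := hf
  obtain ⟨u', h1', ε', h2', h3'⟩ := hg
  refine ⟨u * u', by rw [map_mul, h1, h1', one_mul], ε * ε', by linear_combination h2 * ε' * ε' + h2', ?_⟩
  intro x
  show f (g x) = _
  rw [h3', h3, map_smul, map_mul, smul_smul]
  rfl

theorem SS.id : SS ζ (fun x => x) := ⟨1, map_one _, 1, by norm_num, fun x => by simp⟩

def PP (ζ : ℂˣ) : Subgroup (MulAut Fr) where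
  carrier := {σ | Pres (σ : Fr →* Fr) ∧ SS ζ (PV (σ : Fr →* Fr))}
  one_mem' := by
    refine ⟨fun _ => rfl, ?_⟩
    have : PV ((1 : MulAut Fr) : Fr →* Fr) = fun x => x := by
      funext x; exact PV_id x
    rw [this]; exact SS.id
  mul_mem' := by
    rintro σ τ ⟨h1, h2⟩ ⟨h3, h4⟩
    refine ⟨Pres_comp h1 h3, ?_⟩
    have : PV ((σ * τ : MulAut Fr) : Fr →* Fr) = fun x => PV (σ : Fr →* Fr) (PV (τ : Fr →* Fr) x) := by
      funext x; exact PV_comp h1 h3 x
    rw [this]; exact h2.comp h4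
  inv_mem' := by
    rintro σ ⟨h1, u, h2, ε, h3, h4⟩
    refine ⟨Pres_inv h1, u⁻¹, by rw [map_inv, h2, inv_one], ε, h3, ?_⟩
    intro x
    have h5 : ∀ y, PV ((σ⁻¹ : MulAut Fr) : Fr →* Fr) (PV (σ : Fr →* Fr) y) = y := by
      intro y
      rw [← PV_comp (Pres_inv h1) h1]
      have : ((σ⁻¹ : MulAut Fr) : Fr →* Fr).comp (σ : Fr →* Fr) = MonoidHom.id Fr := by
        ext g
        show (σ⁻¹ : MulAut Fr) (σ _) = _
        rw [MulAut.inv_apply_self]; rfl
      rw [this, PV_id]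
    have h6 := h5 (ε • phi u⁻¹ x)
    rw [h4, map_smul, smul_smul, h3, one_smul, ← LinearEquiv.mul_apply, ← map_mul,
      mul_inv_cancel, map_one] at h6
    exact h6

end

end H270R
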