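import Mathlib
import Pool.Agent.Helper270.RC
import Pool.Agent.Helper270.GauE
set_option autoImplicit false
set_option linter.unusedSimpArgs false

/-! `Q(3,m)` is infinite for every even `m ≥ 6`. -/

namespace H270R
open Pool.Agent.H270.Gau (Af LamU LamU_of sub3 sub3_single Fr xx tvA tvA_of tvh tvh_of)

/-! ### realising the free group -/

theorem hwA : ∀ w', tvh 1 w' (xx 0 * xx 0) = xx 0 * xx 0 := by
  intro w'
  rw [map_mul, tvh_of, if_neg (by decide)]
theorem hwB : ∀ w', tvh 0 w' (xx 1 * xx 1) = xx 1 * xx 1 := by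
  intro w'
  rw [map_mul, tvh_of, if_neg (by decide)]

def alA : MulAut Fr := tvA 1 (xx 0 * xx 0) hwA
def alB : MulAut Fr := tvA 0 (xx 1 * xx 1) hwB

theorem alA_of (i : Fin 3) : alA (xx i) = if i = 1 then xx 1 * (xx 0 * xx 0) else xx i := tvA_of _ _ _ i
theorem alB_of (i : Fin 3) : alB (xx i) = if i = 0 then xx 0 * (xx 1 * xx 1) else xx i := tvA_of _ _ _ i

theorem J_mul (g h : Fr) : J (g * h) = J g + (th g : ℤ) • J h := by
  unfold J; rw [L_mul]; ext1 <;> simp

theorem alA_pres : Pres (alA : Fr →* Fr) := by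
  apply Pres_of
  intro j
  show th (alA (xx j)) = _
  rw [alA_of]
  split_ifs with h
  · subst h; rw [th_mul, th_mul, th_x0, th_x1]; rfl
  · rfl

theorem alB_pres : Pres (alB : Fr →* Fr) := by
  apply Pres_of
  intro j
  show th (alB (xx j)) = _
  rw [alB_of]
  split_ifs with h
  · subst h; rw [th_mul, th_mul, th_x0, th_x1]; rfl
  · rfl

theorem alA_PV (x : W) : PV (alA : Fr →* Fr) x = pA x := by
  show x.1 • J (alA (xx 0)) + x.2 • J (alA (xx 1)) = _
  rw [alA_of, alA_of, if_neg (by decide), if_pos rfl, J_mul, J_mul, J_x0, J_x1, th_x0, th_x1, pA_apply]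
  ext <;> simp <;> ring

theorem alB_PV (x : W) : PV (alB : Fr →* Fr) x = pB x := by
  show x.1 • J (alB (xx 0)) + x.2 • J (alB (xx 1)) = _
  rw [alB_of, alB_of, if_pos rfl, if_neg (by decide), J_mul, J_mul, J_x0, J_x1, th_x0, th_x1, pB_apply]
  ext <;> simp <;> ring

theorem PV_inv {σ : MulAut Fr} (h1 : Pres (σ : Fr →* Fr)) {g : GW}
    (h : ∀ x, PV (σ : Fr →* Fr) x = g x) (x : W) :
    PV ((σ⁻¹ : MulAut Fr) : Fr →* Fr) x = (g⁻¹ : GW) x := by
  have h5 : ∀ y, PV ((σ⁻¹ : MulAut Fr) : Fr →* Fr) (PV (σ : Fr →* Fr) y) = y := by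
    intro y
    rw [← PV_comp (Pres_inv h1) h1]
    have : ((σ⁻¹ : MulAut Fr) : Fr →* Fr).comp (σ : Fr →* Fr) = MonoidHom.id Fr := by
      ext g
      show (σ⁻¹ : MulAut Fr) (σ _) = _
      rw [MulAut.inv_apply_self]; rfl
    rw [this, PV_id]
  have h6 := h5 ((g⁻¹ : GW) x)
  rw [h] at h6
  have h7 : g ((g⁻¹ : GW) x) = x := g.apply_symm_apply x
  rw [h7] at h6
  exact h6

def Theta : FB →* MulAut Fr := FreeGroup.lift (fun b => if b then alA else alB)

theorem Theta_spec (w : FB) : Pres (Theta w : Fr →* Fr) ∧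
    ∀ x, PV (Theta w : Fr →* Fr) x = phi w x := by
  have hof : ∀ b : Bool, Pres (Theta (FreeGroup.of b) : Fr →* Fr) ∧
      ∀ x, PV (Theta (FreeGroup.of b) : Fr →* Fr) x = phi (FreeGroup.of b) x := by
    intro b
    cases b
    · have e : Theta (FreeGroup.of false) = alB := by simp [Theta]
      rw [e, phi_false]
      exact ⟨alB_pres, alB_PV⟩
    · have e : Theta (FreeGroup.of true) = alA := by simp [Theta]
      rw [e, phi_true]
      exact ⟨alA_pres, alA_PV⟩
  induction w using FreeGroup.induction_on with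
  | C1 =>
    rw [map_one, map_one]
    exact ⟨fun _ => rfl, fun x => PV_id x⟩
  | of b => exact hof b
  | inv_of b ih =>
    rw [map_inv, map_inv]
    exact ⟨Pres_inv (hof b).1, fun x => PV_inv (hof b).1 (hof b).2 x⟩
  | mul u v hu hv =>
    rw [map_mul, map_mul]
    refine ⟨Pres_comp hu.1 hv.1, ?_⟩
    intro x
    have := PV_comp hu.1 hv.1 x
    rw [hv.2, hu.2] at this
    exact this

/-! ### powers of transvections -/

theorem dt_self (v : W) : dt v v = 0 := by simp [dt]; ring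
theorem dt_add (v x : W) (c : ℤ) : dt v (x + c • v) = dt v x := by
  simp [dt]; ring

section
variable {ζ : ℂˣ} {k : ℕ}

theorem Good.sign {v : W} (h : Good ζ k v) {s : ℤ} (hs : s = 1 ∨ s = -1) :
    ∃ u : FB, (psi ζ u) ^ k = 1 ∧ ∃ ε : ℤ, ε * ε = 1 ∧
      ∀ x : W, x + (2 * s * dt v x) • v = ε • phi u x := by
  obtain ⟨u, h1, ε, h2, h3⟩ := h
  rcases hs with rfl | rfl
  · refine ⟨u, h1, ε, h2, ?_⟩
    intro x
    rw [← h3 x, mul_one]
  · refine ⟨u⁻¹, by rw [map_inv, inv_pow, h1, inv_one], ε, h2, ?_⟩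
    intro x
    have h4 := h3 (x + (2 * -1 * dt v x) • v)
    rw [dt_add, add_assoc, ← add_smul] at h4
    have h5 : (2 * -1 * dt v x + 2 * dt v x) = 0 := by ring
    rw [h5, zero_smul, add_zero] at h4
    have h6 : phi u (x + (2 * -1 * dt v x) • v) = ε • x := by
      have := congrArg (fun z => ε • z) h4
      simp only [smul_smul, h2, one_smul] at this
      exact this.symm
    have h7 : phi u⁻¹ (phi u (x + (2 * -1 * dt v x) • v)) = x + (2 * -1 * dt v x) • v := by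
      rw [← LinearEquiv.mul_apply, ← map_mul, inv_mul_cancel, map_one]; rfl
    rw [h6, map_smul] at h7
    exact h7.symm

theorem pow_transv {v : W} {s : ℤ} {u : FB} {ε : ℤ}
    (h : ∀ x : W, x + (2 * s * dt v x) • v = ε • phi u x) (j : ℕ) :
    ∀ x : W, x + (2 * (s * j) * dt v x) • v = ε ^ j • phi (u ^ j) x := by
  induction j with
  | zero => intro x; simp
  | succ j ih =>
    intro x
    have h1 := h (x + (2 * (s * j) * dt v x) • v)
    rw [dt_add, add_assoc, ← add_smul, ih] at h1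
    have e : (2 * (s * j) * dt v x + 2 * s * dt v x) = 2 * (s * ((j + 1 : ℕ) : ℤ)) * dt v x := by
      push_cast; ring
    rw [e] at h1
    rw [h1, map_smul, smul_smul, pow_succ', pow_succ', map_mul]
    rfl

theorem SS_transv {v : W} (h : Good ζ k v) (n : ℤ) :
    SS ζ (fun x => x + (2 * (k * n) * dt v x) • v) := by
  obtain ⟨s, hs, hn⟩ : ∃ s : ℤ, (s = 1 ∨ s = -1) ∧ n = s * n.natAbs := by
    rcases Int.natAbs_eq n with h | h
    · exact ⟨1, Or.inl rfl, by rw [one_mul]; exact h⟩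
    · exact ⟨-1, Or.inr rfl, by rw [neg_one_mul]; exact h⟩
  obtain ⟨u, h1, ε, h2, h3⟩ := h.sign hs
  refine ⟨u ^ (k * n.natAbs), by rw [map_pow, pow_mul, h1, one_pow], ε ^ (k * n.natAbs), ?_, ?_⟩
  · rw [← mul_pow, h2, one_pow]
  · intro x
    rw [← pow_transv h3 (k * n.natAbs) x]
    have : (k : ℤ) * n = s * ((k * n.natAbs : ℕ) : ℤ) := by
      conv_lhs => rw [hn]
      push_cast; ring
    rw [this]

end

/-! ### conjugates of the even power -/

def lam : MulAut Fr := H270Q.nielsen 3 (by norm_num)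

theorem lam_zero (m : ℕ) : (lam ^ m) (xx 0) = xx 1 ^ m * xx 0 := H270Q.nielsen_pow_zero _ m
theorem lam_ne (m : ℕ) {j : Fin 3} (hj : j ≠ 0) : (lam ^ m) (xx j) = xx j :=
  H270Q.nielsen_pow_ne _ m j hj

theorem even_pow (y : Fr) (k : ℕ) : th (y ^ (2 * k)) = 1 ∧
    L (y ^ (2 * k)) = (2 * k : ℤ) • (if th y = 1 then L y else 0) := by
  have h0 : th (y ^ 2) = 1 := by rw [pow_two, th_mul]; exact Int.units_mul_self _
  have h1 : L (y ^ 2) = (2 : ℤ) • (if th y = 1 then L y else 0) := by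
    rw [pow_two, L_mul]
    rcases Int.units_eq_one_or (th y) with h | h
    · rw [h, if_pos rfl, Units.val_one, one_smul, two_smul]
    · rw [h, if_neg (by decide)]; simp
  induction k with
  | zero => simp [th, L]
  | succ k ih =>
    have e : y ^ (2 * (k + 1)) = y ^ (2 * k) * y ^ 2 := by rw [← pow_add]; ring_nf
    rw [e, th_mul, L_mul, ih.1, ih.2, h0, h1]
    refine ⟨rfl, ?_⟩
    rw [Units.val_one, one_smul, ← add_smul]
    congr 1

section conj
variable (a : MulAut Fr) (k : ℕ)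

abbrev tau : MulAut Fr := a * lam ^ (2 * k) * a⁻¹

theorem tau_apply (g : Fr) : tau a k g = a ((lam ^ (2 * k)) (a⁻¹ g)) := rfl

def DD (g : Fr) : ℤ := (LamU (fun j => th (a (xx j))) (a⁻¹ g)).v 0

theorem chars : (fun j => th (a ((lam ^ (2 * k)) (xx j)))) = (fun j => th (a (xx j))) := by
  funext j
  by_cases h : j = 0
  · subst h
    rw [lam_zero, map_mul, map_pow, th_mul, (even_pow _ k).1, one_mul]
  · rw [lam_ne _ h]

theorem tau_pres : Pres (tau a k : Fr →* Fr) := by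
  intro g
  show th (a ((lam ^ (2 * k)) (a⁻¹ g))) = th g
  have h1 := congrArg Af.u (fundG u2 ((a : Fr →* Fr).comp ((lam ^ (2 * k) : MulAut Fr) : Fr →* Fr)) (a⁻¹ g))
  have h2 := congrArg Af.u (fundG u2 (a : Fr →* Fr) (a⁻¹ g))
  have h3 : (LamU (fun j => th (a ((lam ^ (2 * k)) (xx j)))) (a⁻¹ g)).u
      = (LamU (fun j => th (a (xx j))) (a⁻¹ g)).u := by rw [chars]
  have h4 : a (a⁻¹ g) = g := MulAut.apply_inv_self _ _ _
  calc th (a ((lam ^ (2 * k)) (a⁻¹ g)))
      = (LamU (fun j => th (a ((lam ^ (2 * k)) (xx j)))) (a⁻¹ g)).u := h1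
    _ = (LamU (fun j => th (a (xx j))) (a⁻¹ g)).u := h3
    _ = th (a (a⁻¹ g)) := h2.symm
    _ = th g := by rw [h4]

theorem tau_L (g : Fr) : L (tau a k g) = L g +
    (2 * k * DD a g : ℤ) • (if th (a (xx 1)) = 1 then L (a (xx 1)) else 0) := by
  have h1 := L_sub ((a : Fr →* Fr).comp ((lam ^ (2 * k) : MulAut Fr) : Fr →* Fr)) (a⁻¹ g)
  have h2 := L_sub (a : Fr →* Fr) (a⁻¹ g)
  have h4 : a (a⁻¹ g) = g := MulAut.apply_inv_self _ _ _
  have h3 : (fun j => th (((a : Fr →* Fr).comp ((lam ^ (2 * k) : MulAut Fr) : Fr →* Fr)) (xx j)))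
      = (fun j => th (a (xx j))) := chars a k
  rw [h3] at h1
  have h5 : L (tau a k g) = L (((a : Fr →* Fr).comp ((lam ^ (2 * k) : MulAut Fr) : Fr →* Fr)) (a⁻¹ g)) := rfl
  have h6 : L g = L ((a : Fr →* Fr) (a⁻¹ g)) := by
    show L g = L (a (a⁻¹ g)); rw [h4]
  rw [h5, h6, h1, h2]
  have e0 : L (((a : Fr →* Fr).comp ((lam ^ (2 * k) : MulAut Fr) : Fr →* Fr)) (xx 0))
      = (2 * k : ℤ) • (if th (a (xx 1)) = 1 then L (a (xx 1)) else 0) + L (a (xx 0)) := by
    show L (a ((lam ^ (2 * k)) (xx 0))) = _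
    rw [lam_zero, map_mul, map_pow, L_mul, (even_pow _ k).1, (even_pow _ k).2, Units.val_one, one_smul]
  have e1 : L (((a : Fr →* Fr).comp ((lam ^ (2 * k) : MulAut Fr) : Fr →* Fr)) (xx 1)) = L (a (xx 1)) := by
    show L (a ((lam ^ (2 * k)) (xx 1))) = _
    rw [lam_ne _ (by decide)]
  have e2 : L (((a : Fr →* Fr).comp ((lam ^ (2 * k) : MulAut Fr) : Fr →* Fr)) (xx 2)) = L (a (xx 2)) := by
    show L (a ((lam ^ (2 * k)) (xx 2))) = _
    rw [lam_ne _ (by decide)]
  show (LamU (fun j => th (a (xx j))) (a⁻¹ g)).v 0 • L _ + (LamU (fun j => th (a (xx j))) (a⁻¹ g)).v 1 • L _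
      + (LamU (fun j => th (a (xx j))) (a⁻¹ g)).v 2 • L _ = 
      ((LamU (fun j => th (a (xx j))) (a⁻¹ g)).v 0 • L _ + (LamU (fun j => th (a (xx j))) (a⁻¹ g)).v 1 • L _
      + (LamU (fun j => th (a (xx j))) (a⁻¹ g)).v 2 • L _) + _
  rw [e0, e1, e2]
  funext i
  simp only [Pi.add_apply, Pi.smul_apply, smul_eq_mul, DD]
  show _ = (((LamU (fun j => th (a (xx j))) (a⁻¹ g)).v 0 * L (a (xx 0)) i +
    (LamU (fun j => th (a (xx j))) (a⁻¹ g)).v 1 * L (a (xx 1)) i +
    (LamU (fun j => th (a (xx j))) (a⁻¹ g)).v 2 * L (a (xx 2)) i)) + _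
  ring

end conj

end H270R
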