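import Mathlib
import Pool.Agent.Helper270.RD
set_option autoImplicit false
set_option linter.unusedSimpArgs false

/-! `Q(3,m)` is infinite for every even `m ≥ 6`: conclusion. -/

namespace H270R
open Pool.Agent.H270.Gau (Af LamU LamU_of sub3 sub3_single Fr xx)

section
variable {ζ : ℂˣ} {k : ℕ}

theorem linear_dt {v : W} (hg : Int.gcd v.1 v.2 = 1) {d0 d1 : ℤ} (h : v.1 * d0 + v.2 * d1 = 0) :
    ∃ c : ℤ, ∀ x : W, x.1 * d0 + x.2 * d1 = c * dt v x := by
  have hb := Int.gcd_eq_gcd_ab v.1 v.2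
  rw [hg] at hb
  set p := Int.gcdA v.1 v.2
  set q := Int.gcdB v.1 v.2
  push_cast at hb
  refine ⟨p * d1 - q * d0, ?_⟩
  intro x
  simp only [dt]
  linear_combination (x.1 * d0 + x.2 * d1) * hb + (x.1 * p + x.2 * q) * h

theorem PV_tau (a : MulAut Fr) (x : W) (w : Fin 3 → ℤ)
    (hw : w = if th (a (xx 1)) = 1 then L (a (xx 1)) else 0) :
    PV (tau a k : Fr →* Fr) x = x + (2 * k * (x.1 * DD a (xx 0) + x.2 * DD a (xx 1))) • ((w 0, w 1) : W) := by
  show x.1 • J (tau a k (xx 0)) + x.2 • J (tau a k (xx 1)) = _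
  have h0 := tau_L a k (xx 0)
  have h1 := tau_L a k (xx 1)
  rw [← hw] at h0 h1
  unfold J
  rw [h0, h1, L_x, L_x]
  ext
  · simp; ring
  · simp; ring

theorem tau_SS (hk : ζ ^ k = 1) (hz1 : ζ ≠ 1) (hz2 : ζ ^ 2 ≠ 1) (hk0 : k ≠ 0) (a : MulAut Fr) :
    SS ζ (PV (tau a k : Fr →* Fr)) := by
  set w : Fin 3 → ℤ := if th (a (xx 1)) = 1 then L (a (xx 1)) else 0 with hw
  have hP := fun x => PV_tau (k := k) a x w hw
  by_cases hz : ((w 0, w 1) : W) = 0
  · have : PV (tau a k : Fr →* Fr) = fun x => x := by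
      funext x
      rw [hP, hz, smul_zero, add_zero]
    rw [this]; exact SS.id
  · have ht : th (a (xx 1)) = 1 := by
      by_contra hc
      apply hz
      rw [hw, if_neg hc]; rfl
    rw [if_pos ht] at hw
    have hJ : J (a (xx 1)) = (w 0, w 1) := by rw [hw]; rfl
    have hfix : tau a k (a (xx 1)) = a (xx 1) := by
      rw [tau_apply, MulAut.inv_apply_self, lam_ne _ (by decide)]
    have h1 : J (tau a k (a (xx 1))) = PV (tau a k : Fr →* Fr) (J (a (xx 1))) :=
      J_PV (tau_pres a k) ht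
    rw [hfix, hP, hJ] at h1
    set v : W := (w 0, w 1) with hv
    have h2 : (2 * k * (v.1 * DD a (xx 0) + v.2 * DD a (xx 1)) : ℤ) • v = 0 := by
      have := h1.symm
      simpa using this
    have h3 : v.1 * DD a (xx 0) + v.2 * DD a (xx 1) = 0 := by
      rcases smul_eq_zero.1 h2 with h | h
      · rcases mul_eq_zero.1 h with h | h
        · exfalso
          have : (k : ℤ) ≠ 0 := by exact_mod_cast hk0
          omega
        · exact h
      · exact absurd h hz
    -- make `v` primitive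
    have hgpos : 0 < Int.gcd v.1 v.2 := by
      rw [Nat.pos_iff_ne_zero]
      intro h
      rw [Int.gcd_eq_zero_iff] at h
      exact hz (Prod.ext h.1 h.2)
    obtain ⟨p, q, hpq, e1, e2⟩ : ∃ p q : ℤ, Int.gcd p q = 1 ∧ v.1 = p * (Int.gcd v.1 v.2) ∧
        v.2 = q * (Int.gcd v.1 v.2) := Int.exists_gcd_one hgpos
    set d : ℤ := (Int.gcd v.1 v.2 : ℤ) with hd
    have hd0 : d ≠ 0 := by rw [hd]; exact_mod_cast hgpos.ne'
    have h4 : (p, q).1 * DD a (xx 0) + (p, q).2 * DD a (xx 1) = 0 := by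
      have : d * (p * DD a (xx 0) + q * DD a (xx 1)) = 0 := by
        rw [e1, e2] at h3
        linear_combination h3
      rcases mul_eq_zero.1 this with h | h
      · exact absurd h hd0
      · exact h
    obtain ⟨c, hc⟩ := linear_dt (v := (p, q)) hpq h4
    have hgood : Good ζ k (p, q) := good_all hk hz1 hz2 (p.natAbs + q.natAbs) (p, q) le_rfl hpq
    have h5 := SS_transv hgood (c * d)
    have : PV (tau a k : Fr →* Fr) = fun x => x + (2 * (k * (c * d)) * dt (p, q) x) • ((p, q) : W) := by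
      funext x
      rw [hP, hc]
      have e3 : v = d • ((p, q) : W) := by
        apply Prod.ext
        · show v.1 = d * p; rw [e1]; ring
        · show v.2 = d * q; rw [e2]; ring
      rw [e3, smul_smul]
      congr 2
      ring
    rw [this]; exact h5

end

theorem even_case {m : ℕ} (he : Even m) (hm : 6 ≤ m) :
    Infinite (H270Q.Q 3 m (by norm_num)) := by
  obtain ⟨k, hk⟩ := he
  have hk' : m = 2 * k := by omega
  subst hk'
  have hk3 : 3 ≤ k := by omega
  have hprim := Complex.isPrimitiveRoot_exp k (by omega)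
  obtain ⟨ζ, hζ⟩ : ∃ ζ : ℂˣ, (ζ : ℂ) = Complex.exp (2 * Real.pi * Complex.I / k) :=
    ⟨(hprim.isUnit (by omega)).unit, rfl⟩
  rw [← hζ, IsPrimitiveRoot.coe_units_iff] at hprim
  have z0 : ζ ^ k = 1 := hprim.pow_eq_one
  have z1 : ζ ≠ 1 := by
    have := hprim.pow_ne_one_of_pos_of_lt (l := 1) (by norm_num) (by omega)
    rwa [pow_one] at this
  have z2 : ζ ^ 2 ≠ 1 := hprim.pow_ne_one_of_pos_of_lt (l := 2) (by norm_num) (by omega)
  have hN : Subgroup.normalClosure {(H270Q.nielsen 3 (by norm_num)) ^ (2 * k)} ≤ (PP ζ).normalCore := by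
    apply Subgroup.normalClosure_le_normal
    rw [Set.singleton_subset_iff]
    intro a
    exact ⟨tau_pres a k, tau_SS z0 z1 z2 (by omega) a⟩
  rw [← not_finite_iff_infinite]
  intro hfin
  have hcard : 0 < Nat.card (H270Q.Q 3 (2 * k) (by norm_num)) := Nat.card_pos
  set n := Nat.card (H270Q.Q 3 (2 * k) (by norm_num)) with hn
  have h1 : (QuotientGroup.mk' (Subgroup.normalClosure {(H270Q.nielsen 3 (by norm_num)) ^ (2 * k)})
      (Theta cc)) ^ n = 1 := pow_card_eq_one'
  rw [← map_pow, ← map_pow] at h1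
  have h2 : Theta (cc ^ n) ∈ (PP ζ).normalCore := hN ((QuotientGroup.eq_one_iff _).1 h1)
  obtain ⟨_, u, h3, ε, h4, h5⟩ := Subgroup.normalCore_le _ h2
  have h6 : cc ^ n * u⁻¹ = 1 := by
    apply phi_strong (ε := ε) _ h4
    intro v
    have h7 := h5 (phi u⁻¹ v)
    rw [(Theta_spec (cc ^ n)).2] at h7
    rw [map_mul]
    show phi (cc ^ n) (phi u⁻¹ v) = _
    rw [h7]
    congr 1
    rw [← LinearEquiv.mul_apply, ← map_mul, mul_inv_cancel, map_one]; rfl
  have h8 : cc ^ n = u := by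
    rwa [mul_inv_eq_one] at h6
  exact psi_cc_ne ζ z1 hcard (by rw [h8, h3])

end H270R
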