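import Mathlib
import Pool.Agent.Helper270.GauD
set_option autoImplicit false
set_option linter.unusedSimpArgs false

/-! An edge cocycle of level 4 on the Gaussian Farey complex, and its potential. -/

namespace H270S
open Pool.Agent.H270.Gau (O V nn dt cj nn_mul nn_nonneg nn_zero_iff cj_mul_self nn_cj cj_of_unit
  dt_anti nn_neg nn_dt_symm dt_smul_left dt_smul_right dt_comb_right dt_comb_left exists_lower
  cramer exists_eps e1 unit_cases)

def r4 (x : ℤ) : ℕ := (x % 4).toNat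

def code (a b c d : ℕ) : ℕ := ((a * a + b * b) % 8) * 4 + (a * d + 3 * (b * c)) % 4

def pos (p q : ℕ) : Bool :=
  ((Nat.beq p 16 || Nat.beq p 11 || Nat.beq p 2) &&
    (Nat.beq q 4 || Nat.beq q 21 || Nat.beq q 7 || Nat.beq q 22)) ||
  (Nat.beq p 23 && Nat.beq q 4) || (Nat.beq p 6 && Nat.beq q 21) ||
  (Nat.beq p 20 && Nat.beq q 7) || (Nat.beq p 5 && Nat.beq q 22)

def cd (v : V) : ℕ := code (r4 v.1.re) (r4 v.1.im) (r4 v.2.re) (r4 v.2.im)

def FG (v w : V) : ℤ := ((pos (cd v) (cd w)).toNat : ℤ) - ((pos (cd w) (cd v)).toNat : ℤ)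

theorem FG_anti (v w : V) : FG v w = - FG w v := by unfold FG; ring

theorem r4_lt (x : ℤ) : r4 x < 4 := by unfold r4; omega
theorem r4_neg (x : ℤ) : r4 (-x) = (3 * r4 x) % 4 := by unfold r4; omega
theorem r4_add (x y : ℤ) : r4 (x + y) = (r4 x + r4 y) % 4 := by unfold r4; omega
theorem r4_add4 (x y : ℤ) : r4 (x + 4 * y) = r4 x := by unfold r4; omega
theorem r4_cast (x : ℤ) : ∃ q : ℤ, x = r4 x + 4 * q := ⟨x / 4, by unfold r4; omega⟩

def chkI : Bool := [0,1,2,3].all fun a => [0,1,2,3].all fun b => [0,1,2,3].all fun c =>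
  [0,1,2,3].all fun d => Nat.beq (code ((3 * b) % 4) a ((3 * d) % 4) c) (code a b c d)

theorem chkI_true : chkI = true := by decide +kernel

def uok (x y : ℕ) : Bool := (Nat.beq x 1 && Nat.beq y 0) || (Nat.beq x 3 && Nat.beq y 0) ||
  (Nat.beq x 0 && Nat.beq y 1) || (Nat.beq x 0 && Nat.beq y 3)

def t3 (cv cw cx : ℕ) : Bool :=
  Nat.beq ((pos cv cw).toNat + ((pos cx cv).toNat + (pos cw cx).toNat))
    ((pos cw cv).toNat + ((pos cv cx).toNat + (pos cx cw).toNat))

def chkT : Bool := [0,1,2,3].all fun a => [0,1,2,3].all fun b => [0,1,2,3].all fun c =>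
  [0,1,2,3].all fun d => [0,1,2,3].all fun e => [0,1,2,3].all fun f => [0,1,2,3].all fun g =>
  [0,1,2,3].all fun h =>
    (!(uok ((a * g + 3 * (b * h) + 3 * (c * e) + d * f) % 4)
      ((a * h + b * g + 3 * (c * f) + 3 * (d * e)) % 4))) ||
    t3 (code a b c d) (code e f g h) (code ((a + e) % 4) ((b + f) % 4) ((c + g) % 4) ((d + h) % 4))

set_option maxRecDepth 100000 in
theorem chkT_true : chkT = true := by decide +kernel

end H270S
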