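import Mathlib
import Pool.Agent.Helper270.SA
set_option autoImplicit false
set_option linter.unusedSimpArgs false

/-! Triangle relation for the level 4 cocycle. -/

namespace H270S
open Pool.Agent.H270.Gau (O V nn dt cj nn_mul nn_nonneg nn_zero_iff cj_mul_self nn_cj cj_of_unit
  dt_anti nn_neg nn_dt_symm dt_smul_left dt_smul_right dt_comb_right dt_comb_left exists_lower
  cramer exists_eps e1 unit_cases)

theorem mem4 {x : ℕ} (h : x < 4) : x ∈ [0,1,2,3] := by
  interval_cases x <;> simp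

theorem code_I {a b c d : ℕ} (ha : a < 4) (hb : b < 4) (hc : c < 4) (hd : d < 4) :
    code ((3 * b) % 4) a ((3 * d) % 4) c = code a b c d := by
  have h := chkI_true
  simp only [chkI, List.all_eq_true] at h
  exact Nat.eq_of_beq_eq_true (h a (mem4 ha) b (mem4 hb) c (mem4 hc) d (mem4 hd))

def iG : O := ⟨0, 1⟩

theorem cd_I (v : V) : cd (iG • v) = cd v := by
  have e1 : (iG • v).1.re = -v.1.im := by simp [iG]
  have e2 : (iG • v).1.im = v.1.re := by simp [iG]
  have e3 : (iG • v).2.re = -v.2.im := by simp [iG]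
  have e4 : (iG • v).2.im = v.2.re := by simp [iG]
  unfold cd
  rw [e1, e2, e3, e4, r4_neg, r4_neg]
  exact code_I (r4_lt _) (r4_lt _) (r4_lt _) (r4_lt _)

theorem cd_smul {α : O} (h : nn α = 1) (v : V) : cd (α • v) = cd v := by
  have hI2 : cd ((iG * iG) • v) = cd v := by rw [mul_smul, cd_I, cd_I]
  have hI3 : cd ((iG * iG * iG) • v) = cd v := by rw [mul_smul, mul_smul, cd_I, cd_I, cd_I]
  have e2 : iG * iG = ⟨-1, 0⟩ := by decide
  have e3 : iG * iG * iG = ⟨0, -1⟩ := by decide
  rw [e2] at hI2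
  rw [e3] at hI3
  have hre : α.re * α.re + α.im * α.im = 1 := h
  have b1 : -1 ≤ α.re := by nlinarith [mul_self_nonneg α.im]
  have b2 : α.re ≤ 1 := by nlinarith [mul_self_nonneg α.im]
  have b3 : -1 ≤ α.im := by nlinarith [mul_self_nonneg α.re]
  have b4 : α.im ≤ 1 := by nlinarith [mul_self_nonneg α.re]
  obtain ⟨x, y⟩ := α
  simp only at hre b1 b2 b3 b4
  interval_cases x <;> interval_cases y <;> simp at hre
  · exact hI2
  · exact hI3
  · exact cd_I v
  · have : (⟨1, 0⟩ : O) = 1 := rfl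
    rw [this, one_smul]

theorem FG_smul_left {α : O} (h : nn α = 1) (v w : V) : FG (α • v) w = FG v w := by
  unfold FG; rw [cd_smul h]

theorem FG_smul_right {α : O} (h : nn α = 1) (v w : V) : FG v (α • w) = FG v w := by
  unfold FG; rw [cd_smul h]

theorem uok_of {z : O} (h : nn z = 1) : uok (r4 z.re) (r4 z.im) = true := by
  have hre : z.re * z.re + z.im * z.im = 1 := h
  have b1 : -1 ≤ z.re := by nlinarith [mul_self_nonneg z.im]
  have b2 : z.re ≤ 1 := by nlinarith [mul_self_nonneg z.im]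
  have b3 : -1 ≤ z.im := by nlinarith [mul_self_nonneg z.re]
  have b4 : z.im ≤ 1 := by nlinarith [mul_self_nonneg z.re]
  obtain ⟨x, y⟩ := z
  simp only at hre b1 b2 b3 b4 ⊢
  interval_cases x <;> interval_cases y <;> simp at hre <;> decide

theorem trig1 (v w : V) (h : nn (dt v w) = 1) : FG v w = FG v (v + w) + FG (v + w) w := by
  set a := r4 v.1.re with ha
  set b := r4 v.1.im with hb
  set c := r4 v.2.re with hc
  set d := r4 v.2.im with hd
  set e := r4 w.1.re with he
  set f := r4 w.1.im with hf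
  set g := r4 w.2.re with hg
  set k := r4 w.2.im with hk
  have hu := uok_of h
  obtain ⟨qa, ea⟩ := r4_cast v.1.re
  obtain ⟨qb, eb⟩ := r4_cast v.1.im
  obtain ⟨qc, ec⟩ := r4_cast v.2.re
  obtain ⟨qd, ed⟩ := r4_cast v.2.im
  obtain ⟨qe, ee⟩ := r4_cast w.1.re
  obtain ⟨qf, ef⟩ := r4_cast w.1.im
  obtain ⟨qg, eg⟩ := r4_cast w.2.re
  obtain ⟨qk, ek⟩ := r4_cast w.2.im
  rw [← ha] at ea; rw [← hb] at eb; rw [← hc] at ec; rw [← hd] at ed
  rw [← he] at ee; rw [← hf] at ef; rw [← hg] at eg; rw [← hk] at ek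
  have hr : r4 (dt v w).re = (a * g + 3 * (b * k) + 3 * (c * e) + d * f) % 4 := by
    have e1 : (dt v w).re = v.1.re * w.2.re - v.1.im * w.2.im - (v.2.re * w.1.re - v.2.im * w.1.im) := by
      simp [dt]; ring
    have e2 : (dt v w).re = ((a * g + 3 * (b * k) + 3 * (c * e) + d * f : ℕ) : ℤ) +
        4 * (qa * g + a * qg + 4 * qa * qg - (qb * k + b * qk + 4 * qb * qk)
          - (qc * e + c * qe + 4 * qc * qe) + (qd * f + d * qf + 4 * qd * qf) - b * k - c * e) := by
      rw [e1, ea, eb, ec, ed, ee, ef, eg, ek]; push_cast; ring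
    rw [e2, r4_add4]
    unfold r4
    omega
  have hi : r4 (dt v w).im = (a * k + b * g + 3 * (c * f) + 3 * (d * e)) % 4 := by
    have e1 : (dt v w).im = v.1.re * w.2.im + v.1.im * w.2.re - (v.2.re * w.1.im + v.2.im * w.1.re) := by
      simp [dt]
    have e2 : (dt v w).im = ((a * k + b * g + 3 * (c * f) + 3 * (d * e) : ℕ) : ℤ) +
        4 * (qa * k + a * qk + 4 * qa * qk + (qb * g + b * qg + 4 * qb * qg)
          - (qc * f + c * qf + 4 * qc * qf) - (qd * e + d * qe + 4 * qd * qe) - c * f - d * e) := by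
      rw [e1, ea, eb, ec, ed, ee, ef, eg, ek]; push_cast; ring
    rw [e2, r4_add4]
    unfold r4
    omega
  rw [hr, hi] at hu
  have hT := chkT_true
  simp only [chkT, List.all_eq_true] at hT
  have h1 := hT a (mem4 (r4_lt _)) b (mem4 (r4_lt _)) c (mem4 (r4_lt _)) d (mem4 (r4_lt _))
    e (mem4 (r4_lt _)) f (mem4 (r4_lt _)) g (mem4 (r4_lt _)) k (mem4 (r4_lt _))
  rw [hu] at h1
  simp only [Bool.not_true, Bool.false_or] at h1
  have hx : cd (v + w) = code ((a + e) % 4) ((b + f) % 4) ((c + g) % 4) ((d + k) % 4) := by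
    unfold cd
    rw [Prod.fst_add, Prod.snd_add, Zsqrtd.re_add, Zsqrtd.im_add, Zsqrtd.re_add, Zsqrtd.im_add,
      r4_add, r4_add, r4_add, r4_add]
  have h2 := Nat.eq_of_beq_eq_true h1
  have hv : cd v = code a b c d := rfl
  have hw : cd w = code e f g k := rfl
  rw [← hx, ← hv, ← hw] at h2
  unfold FG
  push_cast [← Nat.cast_inj (R := ℤ)] at h2
  linarith

theorem trig (v w : V) (α β : O) (hα : nn α = 1) (hβ : nn β = 1) (h : nn (dt v w) = 1) :
    FG v w = FG v (α • v + β • w) + FG (α • v + β • w) w := by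
  have h1 := trig1 (α • v) (β • w) (by
    rw [dt_smul_left, dt_smul_right, nn_mul, nn_mul, hα, hβ, h]; rfl)
  rw [FG_smul_left hα, FG_smul_right hβ, FG_smul_left hα, FG_smul_right hβ] at h1
  exact h1

theorem cd_congr {v w : V} (h1 : ∃ z : O, v.1 = w.1 + 4 * z) (h2 : ∃ z : O, v.2 = w.2 + 4 * z) :
    cd v = cd w := by
  obtain ⟨z, hz⟩ := h1
  obtain ⟨y, hy⟩ := h2
  have e4 : ∀ z : O, (4 * z).re = 4 * z.re ∧ (4 * z).im = 4 * z.im := by
    intro z
    have : (4 : O) = ⟨4, 0⟩ := rfl
    rw [this]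
    constructor <;> simp
  unfold cd
  rw [hz, hy, Zsqrtd.re_add, Zsqrtd.im_add, Zsqrtd.re_add, Zsqrtd.im_add, (e4 z).1, (e4 z).2,
    (e4 y).1, (e4 y).2, r4_add4, r4_add4, r4_add4, r4_add4]

theorem FG_congr {v w v' w' : V} (h1 : cd v' = cd v) (h2 : cd w' = cd w) : FG v' w' = FG v w := by
  unfold FG; rw [h1, h2]

open Classical in
noncomputable def Pho (v : V) : ℤ :=
  if h : ∃ w : V, nn (dt w v) = 1 ∧ nn w.2 < nn v.2 then
    Pho (choose h) + FG (choose h) v
  else 0
termination_by (nn v.2).toNat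
decreasing_by
  have := (choose_spec h).2
  have h0 := nn_nonneg (choose h).2
  omega

theorem Pho_pos {v : V} (h : ∃ w : V, nn (dt w v) = 1 ∧ nn w.2 < nn v.2) :
    ∃ w : V, nn (dt w v) = 1 ∧ nn w.2 < nn v.2 ∧ Pho v = Pho w + FG w v := by
  refine ⟨Classical.choose h, (Classical.choose_spec h).1, (Classical.choose_spec h).2, ?_⟩
  rw [Pho, dif_pos h]

theorem Pho_neg {v : V} (h : ¬ ∃ w : V, nn (dt w v) = 1 ∧ nn w.2 < nn v.2) : Pho v = 0 := by
  rw [Pho, dif_neg h]

theorem Pho_zero {v : V} (h : v.2 = 0) : Pho v = 0 := by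
  apply Pho_neg
  rintro ⟨w, -, hw⟩
  have := nn_nonneg w.2
  rw [h] at hw
  simp [nn] at hw
  unfold nn at this
  linarith

def PQ (n : ℤ) : Prop := ∀ v w : V, nn (dt v w) = 1 → nn v.2 < n → nn w.2 < n → Pho w - Pho v = FG v w

theorem PQ_unit {n : ℤ} (hP : PQ n) {w z : V} {α : O} (hα : nn α = 1) (hw : nn w.2 < n)
    (hz : nn (dt w z) = 1) : Pho (α • w) = Pho w := by
  by_cases h0 : w.2 = 0
  · rw [Pho_zero h0, Pho_zero (by simp [h0])]
  · obtain ⟨u, hu, hu2⟩ := exists_lower hz h0
    have h1 := hP u w hu (lt_trans hu2 hw) hw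
    have h2 := hP u (α • w) (by rw [dt_smul_right, nn_mul, hα, hu]; rfl) (lt_trans hu2 hw)
      (by rw [Prod.smul_snd, smul_eq_mul, nn_mul, hα, one_mul]; exact hw)
    rw [FG_smul_right hα] at h2
    linarith

theorem PQ_desc1 {n : ℤ} (hP : PQ n) {w0 v : V} (he : nn (dt w0 v) = 1) (h0 : nn w0.2 < n)
    {α t : O} (hα : nn α = 1) (ht : nn t = 1) (hw : nn (α • w0 + t • v).2 < n) :
    Pho (α • w0 + t • v) + FG (α • w0 + t • v) v = Pho w0 + FG w0 v := by
  have h1 := hP w0 (α • w0 + t • v) (by rw [dt_comb_right, nn_mul, ht, he]; rfl) h0 hw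
  have h2 := trig w0 v α t hα ht he
  linarith

theorem PQ_desc2 {n : ℤ} (hP : PQ n) {w0 v : V} (he : nn (dt w0 v) = 1) (h0 : nn w0.2 < n)
    {α t : O} (hα : nn α = 1) (ht1 : t.re * t.re = 1) (ht2 : t.im * t.im = 1)
    (hw : nn (α • w0 + t • v).2 < n) :
    Pho (α • w0 + t • v) + FG (α • w0 + t • v) v = Pho w0 + FG w0 v := by
  set t1 : O := ⟨t.re, 0⟩ with h1
  set t2 : O := ⟨0, t.im⟩ with h2
  have n1 : nn t1 = 1 := by simp [nn, h1, ht1]
  have n2 : nn t2 = 1 := by simp [nn, h2, ht2]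
  have ha : nn (α • w0).2 < n := by
    rw [Prod.smul_snd, smul_eq_mul, nn_mul, hα, one_mul]; exact h0
  have hpar : nn (α • w0 + t1 • v).2 + nn (α • w0 + t2 • v).2
      = nn (α • w0).2 + nn (α • w0 + t • v).2 := by
    simp only [nn, h1, h2, Prod.snd_add, Prod.smul_snd, smul_eq_mul, Zsqrtd.re_add, Zsqrtd.im_add,
      Zsqrtd.re_mul, Zsqrtd.im_mul]
    ring
  have key : ∀ x y : O, nn x = 1 → nn y = 1 → x + y = t → nn (α • w0 + x • v).2 < n →
      Pho (α • w0 + t • v) + FG (α • w0 + t • v) v = Pho w0 + FG w0 v := by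
    intro x y hx hy hxy hlt
    have k1 := PQ_desc1 hP he h0 hα hx hlt
    have e1 : (1 : O) • (α • w0 + x • v) + y • v = α • w0 + t • v := by
      rw [one_smul, add_assoc, ← add_smul, hxy]
    have k2 := PQ_desc1 hP (w0 := α • w0 + x • v) (v := v) (α := 1) (t := y)
      (by rw [dt_comb_left, nn_mul, hα, he]; rfl) hlt (by simp [nn]) hy (by rw [e1]; exact hw)
    rw [e1] at k2
    linarith
  have hsum : t1 + t2 = t := by ext <;> simp [h1, h2]
  rcases lt_or_ge (nn (α • w0 + t1 • v).2) n with hh | hh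
  · exact key t1 t2 n1 n2 hsum hh
  · have : nn (α • w0 + t2 • v).2 < n := by linarith
    exact key t2 t1 n2 n1 (by rw [add_comm]; exact hsum) this

theorem PQ_desc {n : ℤ} (hP : PQ n) {w0 v w : V} (hv : nn v.2 = n) (he0 : nn (dt w0 v) = 1)
    (he : nn (dt w v) = 1) (h0 : nn w0.2 < n) (hw : nn w.2 < n) :
    Pho w + FG w v = Pho w0 + FG w0 v := by
  set δ := cj (dt w0 v) with hδ
  have hδ1 : nn δ = 1 := by rw [hδ, nn_cj, he0]
  set α := δ * dt w v with hα
  set t := δ * dt w0 w with ht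
  have hα1 : nn α = 1 := by rw [hα, nn_mul, hδ1, he]; rfl
  have hwe : w = α • w0 + t • v := by
    have h1 := congrArg (fun x => δ • x) (cramer w0 v w)
    simp only [smul_add, smul_smul] at h1
    rw [mul_comm δ (dt w0 v), hδ, cj_of_unit he0, one_smul] at h1
    rw [hα, ht, hδ]
    exact h1
  have hn : 0 < n := lt_of_le_of_lt (nn_nonneg _) h0
  have hb : nn t * n < 4 * n := by
    have e1 : nn t * n = nn (w.2 - α * w0.2) := by
      rw [← hv, ← nn_mul]
      congr 1
      have := congrArg Prod.snd hwe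
      simp only [Prod.snd_add, Prod.smul_snd, smul_eq_mul] at this
      linear_combination -this
    have e2 : nn (w.2 - α * w0.2) + nn (w.2 + α * w0.2) = 2 * nn w.2 + 2 * nn (α * w0.2) := by
      simp only [nn, Zsqrtd.re_add, Zsqrtd.im_add, Zsqrtd.re_sub, Zsqrtd.im_sub]; ring
    have e3 : nn (α * w0.2) = nn w0.2 := by rw [nn_mul, hα1, one_mul]
    have e4 := nn_nonneg (w.2 + α * w0.2)
    rw [e1]; linarith
  have ht4 : nn t < 4 := lt_of_mul_lt_mul_right hb hn.le
  have hr1 : t.re < 2 := by unfold nn at ht4; nlinarith [mul_self_nonneg t.im]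
  have hr2 : -2 < t.re := by unfold nn at ht4; nlinarith [mul_self_nonneg t.im]
  have hi1 : t.im < 2 := by unfold nn at ht4; nlinarith [mul_self_nonneg t.re]
  have hi2 : -2 < t.im := by unfold nn at ht4; nlinarith [mul_self_nonneg t.re]
  have hr : t.re = 0 ∨ t.re * t.re = 1 := by
    have : t.re = -1 ∨ t.re = 0 ∨ t.re = 1 := by omega
    rcases this with h | h | h <;> simp [h]
  have hi : t.im = 0 ∨ t.im * t.im = 1 := by
    have : t.im = -1 ∨ t.im = 0 ∨ t.im = 1 := by omega
    rcases this with h | h | h <;> simp [h]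
  rcases hr with hr | hr <;> rcases hi with hi | hi
  · have ht0 : t = 0 := by ext <;> simp [hr, hi]
    rw [ht0, zero_smul, add_zero] at hwe
    rw [hwe, FG_smul_left hα1]
    rw [PQ_unit hP hα1 h0 he0]
  · have : nn t = 1 := by unfold nn; rw [hr, hi]; rfl
    rw [hwe] at hw ⊢
    exact PQ_desc1 hP he0 h0 hα1 this hw
  · have : nn t = 1 := by unfold nn; rw [hr, hi]; rfl
    rw [hwe] at hw ⊢
    exact PQ_desc1 hP he0 h0 hα1 this hw
  · rw [hwe] at hw ⊢
    exact PQ_desc2 hP he0 h0 hα1 hr hi hw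

theorem PQ_edge {n : ℤ} (hP : PQ n) {v w : V} (he : nn (dt v w) = 1) (hv : nn v.2 = n)
    (hw : nn w.2 < n) : Pho w - Pho v = FG v w := by
  have he' : nn (dt w v) = 1 := by rw [nn_dt_symm]; exact he
  obtain ⟨w0, h1, h2, h3⟩ := Pho_pos (v := v) ⟨w, he', by rw [hv]; exact hw⟩
  rw [hv] at h2
  have h4 := PQ_desc hP hv h1 he' h2 hw
  rw [FG_anti v w]
  linarith

theorem PQ_succ {n : ℤ} (hP : PQ n) : PQ (n + 1) := by
  intro v w he hv hw
  have he' : nn (dt w v) = 1 := by rw [nn_dt_symm]; exact he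
  rcases lt_or_ge (nn v.2) n with h1 | h1 <;> rcases lt_or_ge (nn w.2) n with h2 | h2
  · exact hP v w he h1 h2
  · have h3 : nn w.2 = n := by omega
    have := PQ_edge hP he' h3 h1
    rw [FG_anti v w]; linarith
  · have h3 : nn v.2 = n := by omega
    exact PQ_edge hP he h3 h2
  · have h3 : nn v.2 = n := by omega
    have h4 : nn w.2 = n := by omega
    have hn : 0 < n := by
      rcases lt_or_ge 0 n with h | h
      · exact h
      · exfalso
        have a1 := nn_nonneg v.2
        have a2 := nn_nonneg w.2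
        have b1 : v.2 = 0 := (nn_zero_iff _).1 (by omega)
        have b2 : w.2 = 0 := (nn_zero_iff _).1 (by omega)
        rw [dt, b1, b2] at he
        simp [nn] at he
    obtain ⟨ε, hε, hlt⟩ := exists_eps hn h3 h4
    have hu : nn ((1 : O) • v + ε • w).2 < n := by
      simpa only [Prod.snd_add, Prod.smul_snd, smul_eq_mul, one_mul] using hlt
    have k1 := PQ_edge hP (v := v) (w := (1 : O) • v + ε • w)
      (by rw [dt_comb_right, nn_mul, hε, he]; rfl) h3 hu
    have k2 := PQ_edge hP (v := w) (w := (1 : O) • v + ε • w)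
      (by rw [nn_dt_symm, dt_comb_left, nn_mul, he]; simp [nn]) h4 hu
    have k3 := trig v w 1 ε (by simp [nn]) hε he
    rw [FG_anti w] at k2
    linarith

theorem PQ_all (n : ℕ) : PQ (n : ℤ) := by
  induction n with
  | zero =>
      intro v w _ hv _
      have := nn_nonneg v.2
      simp at hv
      omega
  | succ n ih => exact_mod_cast PQ_succ ih

theorem Pho_edge {v w : V} (he : nn (dt v w) = 1) : Pho w - Pho v = FG v w := by
  have h1 := nn_nonneg v.2
  have h2 := nn_nonneg w.2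
  refine PQ_all ((nn v.2).toNat + (nn w.2).toNat + 1) v w he ?_ ?_ <;> push_cast <;> omega

theorem Pho_smul {v w : V} (he : nn (dt v w) = 1) {α : O} (hα : nn α = 1) : Pho (α • v) = Pho v := by
  have h1 := Pho_edge he
  have h2 := Pho_edge (v := α • v) (w := w) (by rw [dt_smul_left, nn_mul, hα, he]; rfl)
  rw [FG_smul_left hα] at h2
  linarith

/-- a transformation preserving edges and the edge function shifts the potential by a constant -/
theorem Pho_shift (T : V → V) (hT1 : ∀ v w, nn (dt v w) = 1 → nn (dt (T v) (T w)) = 1)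
    (hT2 : ∀ v w, FG (T v) (T w) = FG v w) (hT3 : ∀ (α : O) v, T (α • v) = α • T v) {v w : V}
    (he : nn (dt v w) = 1) :
    Pho (T v) - Pho v = Pho (T e1) - Pho e1 := by
  have main : ∀ n : ℕ, ∀ v w : V, nn (dt v w) = 1 → nn v.2 < n →
      Pho (T v) - Pho v = Pho (T e1) - Pho e1 := by
    intro n
    induction n with
    | zero =>
        intro v w _ hv
        have := nn_nonneg v.2
        simp at hv
        omega
    | succ n ih =>
        intro v w he hv
        by_cases h0 : v.2 = 0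
        · have h1 : nn v.1 = 1 := by
            have : nn v.1 * nn w.2 = 1 := by
              have h9 := he
              rw [dt, h0, zero_mul, sub_zero, nn_mul] at h9
              exact h9
            exact Int.eq_one_of_mul_eq_one_right (nn_nonneg _) this
          have h2 : v = v.1 • e1 := by
            ext1
            · simp [e1]
            · simp [e1, h0]
          have h3 : nn (dt e1 (0, 1)) = 1 := by simp [dt, e1, nn]
          rw [h2, hT3, Pho_smul h3 h1, Pho_smul (hT1 _ _ h3) h1]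
        · obtain ⟨u, hu1, hu2⟩ := exists_lower he h0
          have k1 := ih u v hu1 (by push_cast at hv; omega)
          have k2 := Pho_edge hu1
          have k3 := Pho_edge (hT1 _ _ hu1)
          have k4 : FG (T u) (T v) = FG u v := hT2 _ _
          linarith
  refine main ((nn v.2).toNat + 1) v w he ?_
  have := nn_nonneg v.2
  push_cast; omega

end H270S
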