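import Mathlib
import Pool.Agent.Helper270.SB
import Pool.Agent.Helper270.GauE
import Pool.Agent.Helper270.QA
set_option autoImplicit false
set_option linter.unusedSimpArgs false

/-! `Q(3,4)` is infinite. -/

namespace H270S
open Pool.Agent.H270.Gau (O V nn dt cj nn_mul nn_nonneg nn_zero_iff cj_mul_self nn_cj cj_of_unit
  dt_anti nn_neg nn_dt_symm dt_smul_left dt_smul_right dt_comb_right dt_comb_left exists_lower
  cramer exists_eps e1 unit_cases Af LamU LamU_of sub3 sub3_single Fr xx Lam th L J Pres PV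
  PV_smul PV_e1 dt_PV Pres_inv nn_D J_PV th_x0 th_x1 th_x2 L_x J_x0 J_x1 L2_zero th_mul nn_th
  det3 nn_det3 L_sub Re Re_one Re_12' Re_21' thp0 thp1 thp2 thp3 fund)

def G4 (a : Fr →* Fr) : Prop := Pres a ∧ ∀ (g : Fr) (i : Fin 3), ∃ z : O, L (a g) i = L g i + 4 * z

theorem G4.cd_PV {a : Fr →* Fr} (h : G4 a) (v : V) : cd (PV a v) = cd v := by
  obtain ⟨z0, h0⟩ := h.2 (xx 0) 0
  obtain ⟨z1, h1⟩ := h.2 (xx 0) 1
  obtain ⟨y0, k0⟩ := h.2 (xx 1) 0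
  obtain ⟨y1, k1⟩ := h.2 (xx 1) 1
  rw [L_x] at h0 h1 k0 k1
  simp only [Pi.single_eq_same, ne_eq, one_ne_zero, not_false_eq_true, Pi.single_eq_of_ne,
    zero_ne_one] at h0 h1 k0 k1
  apply cd_congr
  · refine ⟨v.1 * z0 + v.2 * y0, ?_⟩
    simp only [PV, J, Prod.fst_add, Prod.smul_fst, smul_eq_mul]
    rw [h0, k0]; ring
  · refine ⟨v.1 * z1 + v.2 * y1, ?_⟩
    simp only [PV, J, Prod.snd_add, Prod.smul_snd, smul_eq_mul]
    rw [h1, k1]; ring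

noncomputable def ff4 (a : Fr →* Fr) : ℤ := Pho (J (a (xx 0))) - Pho e1

theorem shift4 {σ : MulAut Fr} (h : G4 (σ : Fr →* Fr)) {v w : V} (he : nn (dt v w) = 1) :
    Pho (PV (σ : Fr →* Fr) v) - Pho v = ff4 (σ : Fr →* Fr) := by
  have hD := nn_D h.1
  have := Pho_shift (PV (σ : Fr →* Fr))
    (by
      intro v w hvw
      rw [dt_PV, nn_mul, hvw, one_mul]
      exact hD)
    (fun v w => FG_congr (h.cd_PV v) (h.cd_PV w)) (fun α v => PV_smul _ α v) he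
  rw [this, PV_e1]; rfl

theorem ff4_mul {σ τ : MulAut Fr} (h : G4 (σ : Fr →* Fr)) (k : G4 (τ : Fr →* Fr)) :
    ff4 ((σ * τ : MulAut Fr) : Fr →* Fr) = ff4 (σ : Fr →* Fr) + ff4 (τ : Fr →* Fr) := by
  have e : J (((σ * τ : MulAut Fr) : Fr →* Fr) (xx 0)) = PV (σ : Fr →* Fr) (J (τ (xx 0))) := by
    have := J_PV h.1 (g := τ (xx 0)) (by have := k.1 (xx 0); rw [th_x0] at this; exact this)
    exact this
  have h2 := shift4 h (nn_D k.1)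
  rw [← e] at h2
  unfold ff4 at h2 ⊢
  have : ((τ : Fr →* Fr) (xx 0)) = τ (xx 0) := rfl
  rw [this]
  linarith

theorem G4_mul {σ τ : MulAut Fr} (h : G4 (σ : Fr →* Fr)) (k : G4 (τ : Fr →* Fr)) :
    G4 ((σ * τ : MulAut Fr) : Fr →* Fr) := by
  refine ⟨?_, ?_⟩
  · intro g
    have h1 := h.1 (τ g)
    have h2 := k.1 g
    exact h1.trans h2
  · intro g i
    obtain ⟨z, hz⟩ := h.2 (τ g) i
    obtain ⟨y, hy⟩ := k.2 g i
    refine ⟨z + y, ?_⟩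
    have e1 : L (((σ * τ : MulAut Fr) : Fr →* Fr) g) i = L ((σ : Fr →* Fr) (τ g)) i := rfl
    have e2 : L ((τ : Fr →* Fr) g) i = L (τ g) i := rfl
    rw [e1, hz, ← e2, hy]; ring

theorem G4_one : G4 ((1 : MulAut Fr) : Fr →* Fr) :=
  ⟨fun _ => rfl, fun _ _ => ⟨0, by rw [mul_zero, add_zero]; rfl⟩⟩

theorem G4_inv {σ : MulAut Fr} (h : G4 (σ : Fr →* Fr)) : G4 ((σ⁻¹ : MulAut Fr) : Fr →* Fr) := by
  refine ⟨Pres_inv h.1, ?_⟩
  intro g i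
  obtain ⟨z, hz⟩ := h.2 ((σ⁻¹ : MulAut Fr) g) i
  have h2 : (σ : Fr →* Fr) ((σ⁻¹ : MulAut Fr) g) = g := MulAut.apply_inv_self _ _ _
  rw [h2] at hz
  refine ⟨-z, ?_⟩
  have e : L (((σ⁻¹ : MulAut Fr) : Fr →* Fr) g) i = L ((σ⁻¹ : MulAut Fr) g) i := rfl
  rw [e, hz]; ring

theorem ff4_one : ff4 ((1 : MulAut Fr) : Fr →* Fr) = 0 := by
  unfold ff4
  have : ((1 : MulAut Fr) : Fr →* Fr) (xx 0) = xx 0 := rfl
  rw [this, J_x0, sub_self]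

theorem ff4_inv {σ : MulAut Fr} (h : G4 (σ : Fr →* Fr)) :
    ff4 ((σ⁻¹ : MulAut Fr) : Fr →* Fr) = - ff4 (σ : Fr →* Fr) := by
  have h1 := ff4_mul h (G4_inv h)
  rw [mul_inv_cancel, ff4_one] at h1
  linarith

def KK4 : Subgroup (MulAut Fr) where
  carrier := {σ | G4 (σ : Fr →* Fr) ∧ ff4 (σ : Fr →* Fr) = 0}
  mul_mem' := by
    rintro σ τ ⟨h1, h2⟩ ⟨k1, k2⟩
    exact ⟨G4_mul h1 k1, by rw [ff4_mul h1 k1, h2, k2]; rfl⟩
  one_mem' := ⟨G4_one, ff4_one⟩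
  inv_mem' := by
    rintro σ ⟨h1, h2⟩
    exact ⟨G4_inv h1, by rw [ff4_inv h1, h2]; rfl⟩

/-! ### conjugates of the fourth power -/

theorem unit4 {t : O} (h : nn t = 1) : t ^ 4 = 1 ∧ (t = 1 ∨ 1 + t + t ^ 2 + t ^ 3 = 0) := by
  have hre : t.re * t.re + t.im * t.im = 1 := h
  have b1 : -1 ≤ t.re := by nlinarith [mul_self_nonneg t.im]
  have b2 : t.re ≤ 1 := by nlinarith [mul_self_nonneg t.im]
  have b3 : -1 ≤ t.im := by nlinarith [mul_self_nonneg t.re]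
  have b4 : t.im ≤ 1 := by nlinarith [mul_self_nonneg t.re]
  obtain ⟨x, y⟩ := t
  simp only at hre b1 b2 b3 b4
  interval_cases x <;> interval_cases y <;> simp at hre <;> decide

theorem L_pow4 (y : Fr) : th (y ^ 4) = 1 ∧ L (y ^ 4) = (1 + th y + th y ^ 2 + th y ^ 3) • L y := by
  have e : y ^ 4 = y * (y * (y * y)) := by simp only [pow_succ, pow_zero, one_mul, mul_assoc]
  rw [e]
  constructor
  · rw [th_mul, th_mul, th_mul, ← (unit4 (nn_th y)).1]; ring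
  · rw [Pool.Agent.H270.Gau.L_mul, Pool.Agent.H270.Gau.L_mul, Pool.Agent.H270.Gau.L_mul]
    funext i
    simp only [Pi.add_apply, Pi.smul_apply, smul_eq_mul]
    ring

def lam : MulAut Fr := H270Q.nielsen 3 (by norm_num)

theorem lam_zero (m : ℕ) : (lam ^ m) (xx 0) = xx 1 ^ m * xx 0 := H270Q.nielsen_pow_zero _ m
theorem lam_ne (m : ℕ) {j : Fin 3} (hj : j ≠ 0) : (lam ^ m) (xx j) = xx j :=
  H270Q.nielsen_pow_ne _ m j hj

abbrev tau (a : MulAut Fr) : MulAut Fr := a * lam ^ 4 * a⁻¹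

def DD (a : MulAut Fr) (g : Fr) : O := (LamU (fun j => (Lam (a (xx j))).u) (a⁻¹ g)).v 0

theorem chars (a : MulAut Fr) : (fun j => (Lam (a ((lam ^ 4) (xx j)))).u) = (fun j => (Lam (a (xx j))).u) := by
  funext j
  by_cases h : j = 0
  · subst h
    apply Units.ext
    show th (a ((lam ^ 4) (xx 0))) = th (a (xx 0))
    rw [lam_zero, map_mul, map_pow, th_mul, (L_pow4 _).1, one_mul]
  · rw [lam_ne _ h]

theorem tau_pres (a : MulAut Fr) : Pres (tau a : Fr →* Fr) := by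
  intro g
  show th (a ((lam ^ 4) (a⁻¹ g))) = th g
  have h1 := congrArg Af.u (fund ((a : Fr →* Fr).comp ((lam ^ 4 : MulAut Fr) : Fr →* Fr)) (a⁻¹ g))
  have h2 := congrArg Af.u (fund (a : Fr →* Fr) (a⁻¹ g))
  have h3 : (LamU (fun j => (Lam (a ((lam ^ 4) (xx j)))).u) (a⁻¹ g)).u
      = (LamU (fun j => (Lam (a (xx j))).u) (a⁻¹ g)).u := by rw [chars]
  have h4 : a (a⁻¹ g) = g := MulAut.apply_inv_self _ _ _
  have h5 : (Lam (a ((lam ^ 4) (a⁻¹ g)))).u = (Lam g).u := by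
    calc (Lam (a ((lam ^ 4) (a⁻¹ g)))).u
        = (LamU (fun j => (Lam (a ((lam ^ 4) (xx j)))).u) (a⁻¹ g)).u := h1
      _ = (LamU (fun j => (Lam (a (xx j))).u) (a⁻¹ g)).u := h3
      _ = (Lam (a (a⁻¹ g))).u := h2.symm
      _ = (Lam g).u := by rw [h4]
  exact congrArg Units.val h5

theorem tau_L (a : MulAut Fr) (g : Fr) : L (tau a g) = L g + (DD a g *
    (1 + th (a (xx 1)) + th (a (xx 1)) ^ 2 + th (a (xx 1)) ^ 3)) • L (a (xx 1)) := by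
  have h1 := L_sub ((a : Fr →* Fr).comp ((lam ^ 4 : MulAut Fr) : Fr →* Fr)) (a⁻¹ g)
  have h2 := L_sub (a : Fr →* Fr) (a⁻¹ g)
  have h4 : a (a⁻¹ g) = g := MulAut.apply_inv_self _ _ _
  have h3 : (fun j => (Lam (((a : Fr →* Fr).comp ((lam ^ 4 : MulAut Fr) : Fr →* Fr)) (xx j))).u)
      = (fun j => (Lam (a (xx j))).u) := chars a
  rw [h3] at h1
  have h5 : L (tau a g) = L (((a : Fr →* Fr).comp ((lam ^ 4 : MulAut Fr) : Fr →* Fr)) (a⁻¹ g)) := rfl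
  have h6 : L g = L ((a : Fr →* Fr) (a⁻¹ g)) := by
    show L g = L (a (a⁻¹ g)); rw [h4]
  rw [h5, h6, h1, h2]
  have e0 : L (((a : Fr →* Fr).comp ((lam ^ 4 : MulAut Fr) : Fr →* Fr)) (xx 0))
      = (1 + th (a (xx 1)) + th (a (xx 1)) ^ 2 + th (a (xx 1)) ^ 3) • L (a (xx 1)) + L (a (xx 0)) := by
    show L (a ((lam ^ 4) (xx 0))) = _
    rw [lam_zero, map_mul, map_pow, Pool.Agent.H270.Gau.L_mul, (L_pow4 _).1, (L_pow4 _).2, one_smul]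
  have e1 : L (((a : Fr →* Fr).comp ((lam ^ 4 : MulAut Fr) : Fr →* Fr)) (xx 1)) = L (a (xx 1)) := by
    show L (a ((lam ^ 4) (xx 1))) = _
    rw [lam_ne _ (by decide)]
  have e2 : L (((a : Fr →* Fr).comp ((lam ^ 4 : MulAut Fr) : Fr →* Fr)) (xx 2)) = L (a (xx 2)) := by
    show L (a ((lam ^ 4) (xx 2))) = _
    rw [lam_ne _ (by decide)]
  show (LamU (fun j => (Lam (a (xx j))).u) (a⁻¹ g)).v 0 • L _ + (LamU (fun j => (Lam (a (xx j))).u) (a⁻¹ g)).v 1 • L _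
      + (LamU (fun j => (Lam (a (xx j))).u) (a⁻¹ g)).v 2 • L _ =
      ((LamU (fun j => (Lam (a (xx j))).u) (a⁻¹ g)).v 0 • L _ + (LamU (fun j => (Lam (a (xx j))).u) (a⁻¹ g)).v 1 • L _
      + (LamU (fun j => (Lam (a (xx j))).u) (a⁻¹ g)).v 2 • L _) + _
  rw [e0, e1, e2]
  funext i
  simp only [Pi.add_apply, Pi.smul_apply, smul_eq_mul, DD]
  show _ = (((LamU (fun j => (Lam (a (xx j))).u) (a⁻¹ g)).v 0 * L (a (xx 0)) i +
    (LamU (fun j => (Lam (a (xx j))).u) (a⁻¹ g)).v 1 * L (a (xx 1)) i +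
    (LamU (fun j => (Lam (a (xx j))).u) (a⁻¹ g)).v 2 * L (a (xx 2)) i)) + _
  ring

theorem tau_G4 (a : MulAut Fr) : G4 (tau a : Fr →* Fr) := by
  refine ⟨tau_pres a, ?_⟩
  intro g i
  have h := congrFun (tau_L a g) i
  have e : L ((tau a : Fr →* Fr) g) i = L (tau a g) i := rfl
  rw [e, h]
  rcases (unit4 (nn_th (a (xx 1)))).2 with h1 | h1
  · refine ⟨DD a g * L (a (xx 1)) i, ?_⟩
    rw [h1]
    simp only [Pi.add_apply, Pi.smul_apply, smul_eq_mul]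
    ring
  · refine ⟨0, ?_⟩
    rw [h1]
    simp

theorem frame_of (a : MulAut Fr) (h : th (a (xx 1)) = 1) : ∃ w : V, nn (dt (J (a (xx 1))) w) = 1 := by
  have h1 := nn_det3 a
  have h2 : L (a (xx 1)) 2 = 0 := L2_zero h
  refine ⟨(-(L (a (xx 0)) 0 * L (a (xx 2)) 2 - L (a (xx 0)) 2 * L (a (xx 2)) 0),
    -(L (a (xx 0)) 1 * L (a (xx 2)) 2 - L (a (xx 0)) 2 * L (a (xx 2)) 1)), ?_⟩
  have e : dt (J (a (xx 1))) ((-(L (a (xx 0)) 0 * L (a (xx 2)) 2 - L (a (xx 0)) 2 * L (a (xx 2)) 0),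
    -(L (a (xx 0)) 1 * L (a (xx 2)) 2 - L (a (xx 0)) 2 * L (a (xx 2)) 1)) : V)
      = det3 (L (a (xx 0))) (L (a (xx 1))) (L (a (xx 2))) := by
    simp only [dt, det3, J, h2]
    ring
  rw [e]; exact h1

theorem tau_ff4 (a : MulAut Fr) : ff4 (tau a : Fr →* Fr) = 0 := by
  rcases (unit4 (nn_th (a (xx 1)))).2 with h1 | h1
  · have hfix : tau a (a (xx 1)) = a (xx 1) := by
      show a ((lam ^ 4) (a⁻¹ (a (xx 1)))) = a (xx 1)
      rw [MulAut.inv_apply_self, lam_ne _ (by decide)]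
    have h2 : J (tau a (a (xx 1))) = PV (tau a : Fr →* Fr) (J (a (xx 1))) := J_PV (tau_pres a) h1
    rw [hfix] at h2
    obtain ⟨w, hw⟩ := frame_of a h1
    have h3 := shift4 (tau_G4 a) hw
    rw [← h2, sub_self] at h3
    exact h3.symm
  · have h2 := tau_L a (xx 0)
    rw [h1, mul_zero, zero_smul, add_zero] at h2
    have h3 : J ((tau a : Fr →* Fr) (xx 0)) = J (xx 0) := by
      have : L ((tau a : Fr →* Fr) (xx 0)) = L (xx 0) := h2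
      unfold J; rw [this]
    unfold ff4
    rw [h3, J_x0, sub_self]

/-! ### the witness -/

theorem Re_w : Re ((⟨17, -4⟩, ⟨8, 0⟩) : V) (⟨4, 8⟩, ⟨1, 4⟩) := by
  have s0 : Re ((⟨1, 0⟩, ⟨0, 0⟩) : V) (⟨0, 0⟩, ⟨1, 0⟩) := Re_one
  have s1 : Re ((⟨1, 0⟩, ⟨0, 0⟩) : V) (⟨1, 0⟩, ⟨1, 0⟩) := Re_12' s0 0 thp0 (by decide)
  have s2 : Re ((⟨1, 0⟩, ⟨0, 0⟩) : V) (⟨2, 0⟩, ⟨1, 0⟩) := Re_12' s1 0 thp0 (by decide)
  have s3 : Re ((⟨1, 2⟩, ⟨0, 1⟩) : V) (⟨2, 0⟩, ⟨1, 0⟩) := Re_21' s2 1 thp1 (by decide)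
  have s4 : Re ((⟨1, 2⟩, ⟨0, 1⟩) : V) (⟨4, -1⟩, ⟨2, 0⟩) := Re_12' s3 3 thp3 (by decide)
  have s5 : Re ((⟨5, 1⟩, ⟨2, 1⟩) : V) (⟨4, -1⟩, ⟨2, 0⟩) := Re_21' s4 0 thp0 (by decide)
  have s6 : Re ((⟨9, 0⟩, ⟨4, 1⟩) : V) (⟨4, -1⟩, ⟨2, 0⟩) := Re_21' s5 0 thp0 (by decide)
  have s7 : Re ((⟨9, 0⟩, ⟨4, 1⟩) : V) (⟨4, 8⟩, ⟨1, 4⟩) := Re_12' s6 1 thp1 (by decide)
  exact Re_21' s7 3 thp3 (by decide)

theorem Pho_w : Pho ((⟨17, -4⟩, ⟨8, 0⟩) : V) - Pho e1 = -1 := by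
  have a1 := Pho_edge (v := e1) (w := (⟨1, 2⟩, ⟨0, 1⟩)) (by decide)
  have a2 := Pho_edge (v := ((⟨1, 2⟩, ⟨0, 1⟩) : V)) (w := (⟨5, 1⟩, ⟨2, 1⟩)) (by decide)
  have a3 := Pho_edge (v := ((⟨5, 1⟩, ⟨2, 1⟩) : V)) (w := (⟨9, 0⟩, ⟨4, 1⟩)) (by decide)
  have a4 := Pho_edge (v := ((⟨9, 0⟩, ⟨4, 1⟩) : V)) (w := (⟨17, -4⟩, ⟨8, 0⟩)) (by decide)
  have b1 : FG e1 (⟨1, 2⟩, ⟨0, 1⟩) = 0 := by decide
  have b2 : FG ((⟨1, 2⟩, ⟨0, 1⟩) : V) (⟨5, 1⟩, ⟨2, 1⟩) = -1 := by decide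
  have b3 : FG ((⟨5, 1⟩, ⟨2, 1⟩) : V) (⟨9, 0⟩, ⟨4, 1⟩) = 0 := by decide
  have b4 : FG ((⟨9, 0⟩, ⟨4, 1⟩) : V) (⟨17, -4⟩, ⟨8, 0⟩) = 0 := by decide
  rw [b1] at a1; rw [b2] at a2; rw [b3] at a3; rw [b4] at a4
  linarith

theorem G4_of {σ : MulAut Fr} (h : Pres (σ : Fr →* Fr))
    (h2 : ∀ (j i : Fin 3), ∃ z : O, L (σ (xx j)) i = L (xx j) i + 4 * z) : G4 (σ : Fr →* Fr) := by
  refine ⟨h, ?_⟩
  intro g i
  have e := h.fundL g
  obtain ⟨z0, k0⟩ := h2 0 i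
  obtain ⟨z1, k1⟩ := h2 1 i
  obtain ⟨z2, k2⟩ := h2 2 i
  refine ⟨L g 0 * z0 + L g 1 * z1 + L g 2 * z2, ?_⟩
  have e' := congrFun e i
  simp only [Pi.add_apply, Pi.smul_apply, smul_eq_mul] at e'
  have c0 : L ((σ : Fr →* Fr) (xx 0)) i = L (σ (xx 0)) i := rfl
  have c1 : L ((σ : Fr →* Fr) (xx 1)) i = L (σ (xx 1)) i := rfl
  have c2 : L ((σ : Fr →* Fr) (xx 2)) i = L (σ (xx 2)) i := rfl
  rw [e', c0, c1, c2, k0, k1, k2]
  have hg : L g i = L g 0 * L (xx 0) i + L g 1 * L (xx 1) i + L g 2 * L (xx 2) i := by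
    rw [L_x, L_x, L_x]
    fin_cases i <;> simp
  linear_combination -hg

theorem witness : ∃ σ : MulAut Fr, G4 (σ : Fr →* Fr) ∧ ff4 (σ : Fr →* Fr) = -1 := by
  obtain ⟨σ, h1, h2, h3, h4⟩ := Re_w
  refine ⟨σ, ?_, ?_⟩
  · apply G4_of h1
    have t0 : th (σ (xx 0)) = 1 := by have := h1 (xx 0); rw [th_x0] at this; exact this
    have t1 : th (σ (xx 1)) = 1 := by have := h1 (xx 1); rw [th_x1] at this; exact this
    have a0 : L (σ (xx 0)) 0 = ⟨17, -4⟩ := congrArg Prod.fst h3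
    have a1 : L (σ (xx 0)) 1 = ⟨8, 0⟩ := congrArg Prod.snd h3
    have a2 : L (σ (xx 0)) 2 = 0 := L2_zero t0
    have b0 : L (σ (xx 1)) 0 = ⟨4, 8⟩ := congrArg Prod.fst h4
    have b1 : L (σ (xx 1)) 1 = ⟨1, 4⟩ := congrArg Prod.snd h4
    have b2 : L (σ (xx 1)) 2 = 0 := L2_zero t1
    intro j i
    fin_cases j
    · show ∃ z : O, L (σ (xx 0)) i = L (xx 0) i + 4 * z
      rw [L_x]
      fin_cases i
      · exact ⟨⟨4, -1⟩, by show L (σ (xx 0)) 0 = _; rw [a0]; decide⟩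
      · exact ⟨⟨2, 0⟩, by show L (σ (xx 0)) 1 = _; rw [a1]; decide⟩
      · exact ⟨0, by show L (σ (xx 0)) 2 = _; rw [a2]; decide⟩
    · show ∃ z : O, L (σ (xx 1)) i = L (xx 1) i + 4 * z
      rw [L_x]
      fin_cases i
      · exact ⟨⟨1, 2⟩, by show L (σ (xx 1)) 0 = _; rw [b0]; decide⟩
      · exact ⟨⟨0, 1⟩, by show L (σ (xx 1)) 1 = _; rw [b1]; decide⟩
      · exact ⟨0, by show L (σ (xx 1)) 2 = _; rw [b2]; decide⟩
    · show ∃ z : O, L (σ (xx 2)) i = L (xx 2) i + 4 * z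
      rw [h2]
      exact ⟨0, by rw [mul_zero, add_zero]⟩
  · unfold ff4
    have : J ((σ : Fr →* Fr) (xx 0)) = (⟨17, -4⟩, ⟨8, 0⟩) := h3
    rw [this]; exact Pho_w

theorem pow_facts {σ : MulAut Fr} (h : G4 (σ : Fr →* Fr)) (k : ℕ) :
    G4 ((σ ^ k : MulAut Fr) : Fr →* Fr) ∧
    ff4 ((σ ^ k : MulAut Fr) : Fr →* Fr) = k * ff4 (σ : Fr →* Fr) := by
  induction k with
  | zero => exact ⟨G4_one, by rw [pow_zero, ff4_one]; simp⟩
  | succ k ih =>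
      rw [pow_succ]
      exact ⟨G4_mul ih.1 h, by rw [ff4_mul ih.1 h, ih.2]; push_cast; ring⟩

theorem four_case : Infinite (H270Q.Q 3 4 (by norm_num)) := by
  have hN : Subgroup.normalClosure {(H270Q.nielsen 3 (by norm_num)) ^ 4} ≤ KK4.normalCore := by
    apply Subgroup.normalClosure_le_normal
    rw [Set.singleton_subset_iff]
    intro a
    exact ⟨tau_G4 a, tau_ff4 a⟩
  rw [← not_finite_iff_infinite]
  intro hfin
  have hcard : 0 < Nat.card (H270Q.Q 3 4 (by norm_num)) := Nat.card_pos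
  obtain ⟨σ, h1, h2⟩ := witness
  have h3 : (QuotientGroup.mk' (Subgroup.normalClosure {(H270Q.nielsen 3 (by norm_num)) ^ 4}) σ) ^
      Nat.card (H270Q.Q 3 4 (by norm_num)) = 1 := pow_card_eq_one'
  rw [← map_pow] at h3
  have h4 : σ ^ Nat.card (H270Q.Q 3 4 (by norm_num)) ∈ KK4.normalCore :=
    hN ((QuotientGroup.eq_one_iff _).1 h3)
  have h5 := (KK4.normalCore_le h4).2
  rw [(pow_facts h1 _).2, h2] at h5
  omega

end H270S
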